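import Pool.Agent.Q74.AR.Def

/-! # Project AR: facts on the normal distribution function -/

set_option autoImplicit false

namespace Pool.Agent.Q74.AR

open Finset Filter Topology MeasureTheory ProbabilityTheory

theorem Phi_eq (x : ℝ) : Phi x = (gaussianReal 0 1).real (Set.Iic x) := by
  unfold Phi
  rw [cdf_eq_real]

theorem Phi_mono : Monotone Phi := monotone_cdf _

theorem Phi_nonneg (x : ℝ) : 0 ≤ Phi x := cdf_nonneg _ x

theorem Phi_le_one (x : ℝ) : Phi x ≤ 1 := cdf_le_one _ x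

theorem Phi_top : Tendsto Phi atTop (𝓝 1) := tendsto_cdf_atTop _

theorem pdf_le_one (x : ℝ) : gaussianPDF 0 1 x ≤ 1 := by
  unfold gaussianPDF
  rw [ENNReal.ofReal_le_one]
  unfold gaussianPDFReal
  have h1 : (1 : ℝ) ≤ √(2 * Real.pi * ((1 : NNReal) : ℝ)) := by
    rw [Real.one_le_sqrt]
    have := Real.pi_gt_three
    push_cast
    linarith
  have h2 : (√(2 * Real.pi * ((1 : NNReal) : ℝ)))⁻¹ ≤ 1 := inv_le_one_of_one_le₀ h1
  have h3 : Real.exp (-(x - 0) ^ 2 / (2 * ((1 : NNReal) : ℝ))) ≤ 1 := by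
    rw [Real.exp_le_one_iff]
    have : 0 ≤ (x - 0) ^ 2 / (2 * ((1 : NNReal) : ℝ)) := by positivity
    rw [neg_div]
    linarith
  have h4 : 0 ≤ (√(2 * Real.pi * ((1 : NNReal) : ℝ)))⁻¹ := by positivity
  have h5 := Real.exp_nonneg (-(x - 0) ^ 2 / (2 * ((1 : NNReal) : ℝ)))
  nlinarith

theorem Phi_lip' {x y : ℝ} (h : x ≤ y) : Phi y - Phi x ≤ y - x := by
  have h1 : Phi y - Phi x = (gaussianReal 0 1).real (Set.Ioc x y) := by
    have e : Set.Ioc x y = Set.Iic y \ Set.Iic x := by
      ext u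
      simp [and_comm]
    rw [Phi_eq, Phi_eq, e, measureReal_sdiff (Set.Iic_subset_Iic.2 h) measurableSet_Iic]
  rw [h1]
  have h2 : (gaussianReal 0 1) (Set.Ioc x y) ≤ ENNReal.ofReal (y - x) := by
    rw [gaussianReal_apply 0 (by norm_num)]
    calc ∫⁻ u in Set.Ioc x y, gaussianPDF 0 1 u ≤ ∫⁻ _ in Set.Ioc x y, 1 :=
          lintegral_mono fun u => pdf_le_one u
      _ = ENNReal.ofReal (y - x) := by simp
  have h3 := ENNReal.toReal_mono (by simp) h2
  rw [ENNReal.toReal_ofReal (by linarith)] at h3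
  exact h3

theorem Phi_lip (x y : ℝ) : |Phi x - Phi y| ≤ |x - y| := by
  rcases le_total x y with h | h
  · rw [abs_sub_comm, abs_sub_comm x y, abs_of_nonneg (by linarith [Phi_mono h]), abs_of_nonneg (by linarith)]
    exact Phi_lip' h
  · rw [abs_of_nonneg (by linarith [Phi_mono h]), abs_of_nonneg (by linarith)]
    exact Phi_lip' h

theorem Phi_neg (x : ℝ) : Phi (-x) = 1 - Phi x := by
  have h1 : (gaussianReal 0 1).real (Set.Iic (-x)) = (gaussianReal 0 1).real (Set.Ici x) := by
    have h := gaussianReal_map_neg (μ := 0) (v := 1)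
    rw [neg_zero] at h
    have h2 : ((gaussianReal 0 1).map (fun u => -u)).real (Set.Iic (-x)) = (gaussianReal 0 1).real (Set.Ici x) := by
      rw [map_measureReal_apply measurable_neg measurableSet_Iic]
      congr 1
      ext u
      simp
    rw [h] at h2
    exact h2
  have := nullSingletonClass_gaussianReal (μ := 0) (v := 1) (by norm_num)
  have h2 : (gaussianReal 0 1).real (Set.Ici x) = 1 - (gaussianReal 0 1).real (Set.Iic x) := by
    have h3 : (gaussianReal 0 1).real (Set.Ici x) = (gaussianReal 0 1).real (Set.Ioi x) := by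
      apply measureReal_congr
      exact Ioi_ae_eq_Ici.symm
    rw [h3, ← Set.compl_Iic, probReal_compl_eq_one_sub measurableSet_Iic]
  rw [Phi_eq, h1, h2, ← Phi_eq]

theorem Phi_zero : Phi 0 = 1 / 2 := by
  have := Phi_neg 0
  rw [neg_zero] at this
  linarith

theorem Phi_half {x : ℝ} (hx : 0 ≤ x) : 1 / 2 ≤ Phi x := by
  rw [← Phi_zero]
  exact Phi_mono hx

/-- the distribution function changes little when the argument is multiplied by a number near `1` -/
theorem Phi_scale {ε : ℝ} (hε : 0 < ε) : ∃ η : ℝ, 0 < η ∧ η ≤ 1 / 2 ∧ ∀ x c : ℝ, 0 ≤ x → |c - 1| ≤ η →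
    |Phi (c * x) - Phi x| ≤ ε := by
  have h1 : ∀ᶠ x in atTop, 1 - ε < Phi x := Phi_top.eventually (lt_mem_nhds (by linarith))
  obtain ⟨A, hA0, hA⟩ := (h1.and (eventually_ge_atTop (0 : ℝ))).exists
  refine ⟨min (1 / 2) (ε / (2 * A + 1)), by positivity, min_le_left _ _, fun x c hx hc => ?_⟩
  have hc1 : |c - 1| ≤ 1 / 2 := hc.trans (min_le_left _ _)
  have hc2 : |c - 1| ≤ ε / (2 * A + 1) := hc.trans (min_le_right _ _)
  rcases le_or_gt x (2 * A) with h | h
  · refine (Phi_lip _ _).trans ?_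
    have : c * x - x = (c - 1) * x := by ring
    rw [this, abs_mul, abs_of_nonneg hx]
    calc |c - 1| * x ≤ ε / (2 * A + 1) * (2 * A + 1) :=
          mul_le_mul hc2 (by linarith) hx (by positivity)
      _ = ε := by field_simp
  · have h2 : A ≤ c * x := by
      have := (abs_le.1 hc1).1
      nlinarith
    have h3 := Phi_mono h2
    have h4 := Phi_mono (show A ≤ x by linarith)
    have h5 := Phi_le_one (c * x)
    have h6 := Phi_le_one x
    rw [abs_le]
    constructor <;> linarith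

end Pool.Agent.Q74.AR
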