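import Pool.Agent.Q74.AR.Sand
import Pool.Agent.Q74.AR.Gauss

/-! # Project AR: the scaling limit of the time of reaching level 0 -/

set_option autoImplicit false

namespace Pool.Agent.Q74.AR

open Finset Filter Topology MeasureTheory ProbabilityTheory
open Pool.Agent.Q158.Pair (T step av q w w0 sq surv e av_mono av_add av_mul av_const zo av_fst
  step_even step_odd_false step_odd_true_succ step_odd_true_zero q_zero_right q_nonneg q_le_one q_succ
  surv_nonneg surv_le_one q_ge_phi)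

/-- the limit function -/
noncomputable def lim (t : ℝ) (a : ℕ) : ℝ := 2 * Phi (a / √(t / 2)) - 1

theorem lim_le_one (t : ℝ) (a : ℕ) : lim t a ≤ 1 := by
  unfold lim
  have := Phi_le_one (a / √(t / 2))
  linarith

theorem lim_nonneg (t : ℝ) (a : ℕ) : 0 ≤ lim t a := by
  unfold lim
  have := Phi_half (x := a / √(t / 2)) (by positivity)
  linarith

/-- the walk moves at most `t` times -/
theorem q_le_qq (t : ℕ) (z : ℕ × ℤ) : q t z.1 ≤ qq t z := by
  have h := sand_lo t z t 0 (-t - 2) (by omega)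
  have h1 : ∀ t : ℕ, ∀ (z : ℕ × ℤ) (w θ : ℤ), θ < w - t → Wf (fun w => if w ≤ θ then (1 : ℝ) else 0) t z w = 0 := by
    intro t
    induction t with
    | zero =>
      intro z w θ h
      have : ¬ w ≤ θ := by push_cast at h; omega
      simp [Wf, this]
    | succ n ih =>
      intro z w θ h
      push_cast at h
      by_cases hz : z.1 = 0
      · rw [Wf_lev _ _ hz]
        have : ¬ w ≤ θ := by omega
        simp [this]
      · rw [Wf_succ _ _ hz]
        unfold av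
        have h0 := abs_le.1 (sg_abs z)
        have h1 := ih (step false z) (w + sg z) θ (by omega)
        have h2 := ih (step true z) (w + sg z) θ (by omega)
        linarith
  rw [h1 t z 0 (-t - 2) (by omega)] at h
  linarith

/-- the ratio of the scales -/
theorem ratio {κ t v : ℝ} (hκ : 0 < κ) (hκ4 : κ ≤ 1 / 8) (ht : 0 < t) (hv : |v - t / 2| ≤ κ * t) :
    0 < v ∧ |√(t / 2) / √v - 1| ≤ 4 * κ := by
  have h := abs_le.1 hv
  have hv0 : 0 < v := by nlinarith
  refine ⟨hv0, ?_⟩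
  set c := √(t / 2) / √v with hc
  have hc0 : 0 ≤ c := by positivity
  have hc2 : c ^ 2 = t / 2 / v := by
    rw [hc, div_pow, Real.sq_sqrt (by positivity), Real.sq_sqrt hv0.le]
  have h1 : |c - 1| ≤ |c ^ 2 - 1| := by
    have e : c ^ 2 - 1 = (c - 1) * (c + 1) := by ring
    rw [e, abs_mul, abs_of_nonneg (by linarith : 0 ≤ c + 1)]
    have := abs_nonneg (c - 1)
    nlinarith
  refine h1.trans ?_
  rw [hc2]
  have e : t / 2 / v - 1 = (t / 2 - v) / v := by field_simp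
  rw [e, abs_div, abs_of_pos hv0, div_le_iff₀ hv0, abs_sub_comm]
  refine hv.trans ?_
  nlinarith

/-- `lim` changes little with the time -/
theorem lim_scale {ε : ℝ} (hε : 0 < ε) : ∃ κ : ℝ, 0 < κ ∧ κ ≤ 1 / 8 ∧ ∀ (t v : ℝ) (a : ℕ), 0 < t →
    |v - t / 2| ≤ κ * t → |(2 * Phi (a / √v) - 1) - lim t a| ≤ ε := by
  obtain ⟨η, hη0, hη1, hη⟩ := Phi_scale (half_pos hε)
  refine ⟨min (1 / 8) (η / 4), by positivity, min_le_left _ _, fun t v a ht hv => ?_⟩
  obtain ⟨hv0, hr⟩ := ratio (κ := min (1 / 8) (η / 4)) (by positivity) (min_le_left _ _) ht hv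
  have h1 : |√(t / 2) / √v - 1| ≤ η := hr.trans (by
    have := min_le_right (1 / 8) (η / 4)
    linarith)
  have h2 := hη (a / √(t / 2)) (√(t / 2) / √v) (by positivity) h1
  have ht2 : √(t / 2) ≠ 0 := (Real.sqrt_pos.2 (by linarith)).ne'
  have e : √(t / 2) / √v * (a / √(t / 2)) = a / √v := by field_simp
  rw [e] at h2
  unfold lim
  have e2 : (2 * Phi (a / √v) - 1) - (2 * Phi (a / √(t / 2)) - 1) = 2 * (Phi (a / √v) - Phi (a / √(t / 2))) := by
    ring
  rw [e2, abs_mul, abs_two]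
  linarith

/-- the constant in the mean is negligible: the exponent `K` -/
theorem exists_K (A C : ℝ) (hA : 0 < A) (hC : 0 ≤ C) {ε : ℝ} (hε : 0 < ε) : ∃ t₀ : ℕ, 1 ≤ t₀ ∧ ∀ t : ℕ, t₀ ≤ t →
    ∃ K : ℕ, ∀ a : ℕ, (a : ℝ) ≤ A * √t → a + t ≤ 2 ^ K ∧ C * (1 + K * (a + 2)) ≤ ε * t := by
  obtain ⟨m, hm⟩ := exists_nat_ge (A + 1)
  have hm2 : (m : ℝ) ≤ 2 ^ m := by exact_mod_cast (Nat.lt_two_pow_self (n := m)).le
  have hlog2 : (0 : ℝ) < Real.log 2 := Real.log_pos (by norm_num)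
  have h1 : Tendsto (fun x : ℝ => Real.log x ^ 1 / (1 * x + 0)) atTop (𝓝 0) :=
    Real.tendsto_pow_log_div_mul_add_atTop 1 0 1 one_ne_zero
  have hs : Tendsto (fun t : ℕ => √(t : ℝ)) atTop atTop :=
    Real.tendsto_sqrt_atTop.comp tendsto_natCast_atTop_atTop
  have h2 := h1.comp hs
  have h3 : Tendsto (fun t : ℕ => (√(t : ℝ))⁻¹) atTop (𝓝 0) := tendsto_inv_atTop_zero.comp hs
  have h4 : Tendsto (fun t : ℕ => C * ((√(t : ℝ))⁻¹ * (√(t : ℝ))⁻¹ +
      (2 / Real.log 2 * (Real.log √(t : ℝ) ^ 1 / (1 * √(t : ℝ) + 0)) + (m + 1) * (√(t : ℝ))⁻¹) *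
        (A + 2 * (√(t : ℝ))⁻¹))) atTop (𝓝 (C * (0 * 0 + (2 / Real.log 2 * 0 + (m + 1) * 0) * (A + 2 * 0)))) :=
    ((h3.mul h3).add (((h2.const_mul _).add (h3.const_mul _)).mul ((h3.const_mul 2).const_add A))).const_mul C
  have e0 : C * (0 * 0 + (2 / Real.log 2 * 0 + ((m : ℝ) + 1) * 0) * (A + 2 * 0)) = 0 := by ring
  rw [e0] at h4
  obtain ⟨t₀, ht₀⟩ := eventually_atTop.1 ((h4.eventually (gt_mem_nhds hε)).and (eventually_ge_atTop 1))
  refine ⟨max t₀ 1, le_max_right _ _, fun t ht => ?_⟩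
  obtain ⟨h5, h6⟩ := ht₀ t (le_trans (le_max_left _ _) ht)
  have ht1 : (1 : ℝ) ≤ t := by exact_mod_cast h6
  have hst : 0 < √(t : ℝ) := Real.sqrt_pos.2 (by linarith)
  have hss : √(t : ℝ) * √(t : ℝ) = t := Real.mul_self_sqrt (by linarith)
  have hst1 : √(t : ℝ) ≤ t := by
    have : 1 ≤ √(t : ℝ) := Real.one_le_sqrt.2 ht1
    nlinarith
  refine ⟨Nat.log 2 t + 1 + m, fun a ha => ⟨?_, ?_⟩⟩
  · have h7 : t < 2 ^ (Nat.log 2 t + 1) := Nat.lt_pow_succ_log_self (by norm_num) t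
    have h8 : (t : ℝ) ≤ 2 ^ (Nat.log 2 t + 1) := by exact_mod_cast h7.le
    have h9 : ((a + t : ℕ) : ℝ) ≤ ((2 ^ (Nat.log 2 t + 1 + m) : ℕ) : ℝ) := by
      push_cast
      rw [pow_add]
      calc (a : ℝ) + t ≤ A * √t + t := by linarith
        _ ≤ A * t + t := by nlinarith
        _ = t * (A + 1) := by ring
        _ ≤ 2 ^ (Nat.log 2 t + 1) * 2 ^ m := mul_le_mul h8 (hm.trans hm2) (by linarith) (by positivity)
    exact_mod_cast h9
  · have hK : (Nat.log 2 t : ℝ) ≤ 2 / Real.log 2 * Real.log √(t : ℝ) := by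
      have h7 : (2 : ℝ) ^ (Nat.log 2 t) ≤ t := by
        exact_mod_cast Nat.pow_log_le_self 2 (by omega : t ≠ 0)
      have h8 := Real.log_le_log (by positivity) h7
      rw [Real.log_pow] at h8
      rw [Real.log_sqrt (by linarith)]
      have : 2 / Real.log 2 * (Real.log t / 2) = Real.log t / Real.log 2 := by field_simp
      rw [this, le_div_iff₀ hlog2]
      exact h8
    have hfin : C * (1 + ((Nat.log 2 t + 1 + m : ℕ) : ℝ) * (a + 2)) ≤
        C * (1 + (2 / Real.log 2 * Real.log √(t : ℝ) + (m + 1)) * (A * √t + 2)) := by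
      apply mul_le_mul_of_nonneg_left _ hC
      push_cast
      have : ((Nat.log 2 t : ℝ) + 1 + m) * (a + 2) ≤
          (2 / Real.log 2 * Real.log √(t : ℝ) + (m + 1)) * (A * √t + 2) :=
        mul_le_mul (by linarith) (by linarith) (by positivity) (by
          have := Real.log_nonneg (Real.one_le_sqrt.2 ht1)
          positivity)
      linarith
    refine hfin.trans ?_
    have e1 : C * (1 + (2 / Real.log 2 * Real.log √(t : ℝ) + (m + 1)) * (A * √t + 2)) =
        C * ((√(t : ℝ))⁻¹ * (√(t : ℝ))⁻¹ +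
      (2 / Real.log 2 * (Real.log √(t : ℝ) ^ 1 / (1 * √(t : ℝ) + 0)) + (m + 1) * (√(t : ℝ))⁻¹) *
        (A + 2 * (√(t : ℝ))⁻¹)) * t := by
      rw [← hss]
      have : √(√(t : ℝ) * √(t : ℝ)) = √(t : ℝ) := by rw [hss]
      rw [this]
      field_simp
      ring
    rw [e1]
    apply mul_le_mul_of_nonneg_right _ (by linarith)
    exact h5.le

/-- the probability that level `0` is not reached, uniformly in the state -/
theorem qq_lim (hc : S_CS) (hb : S_Big) (hr : S_Rep) (hq : S_Q) {ε : ℝ} (hε : 0 < ε) :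
    ∃ t₀ : ℕ, 1 ≤ t₀ ∧ ∀ t : ℕ, t₀ ≤ t → ∀ z : ℕ × ℤ, |qq t z - lim t z.1| ≤ ε := by
  obtain ⟨κ, hκ0, hκ8, hκ⟩ := lim_scale (show 0 < ε / 4 by linarith)
  obtain ⟨v₀, hv₀⟩ := hq (ε / 4) (by linarith)
  set δ := κ ^ 2 * ε / 16 with hδ
  have hδ0 : 0 < δ := by positivity
  obtain ⟨C, hC, hm⟩ := mean hc hb hr hδ0
  set A := √(2 / ε) with hA
  have hA0 : 0 < A := by positivity
  have hA2 : A ^ 2 = 2 / ε := Real.sq_sqrt (by positivity)
  obtain ⟨t₁, ht₁, hK⟩ := exists_K A (2 * C) hA0 (by positivity) hδ0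
  obtain ⟨t₂, ht₂⟩ := exists_nat_ge (2 / κ + 4 * (v₀ + 1) + 1 / δ)
  refine ⟨max (max t₁ t₂) v₀, le_trans ht₁ (le_trans (le_max_left _ _) (le_max_left _ _)), fun t ht z => ?_⟩
  have htv : v₀ ≤ t := le_trans (le_max_right _ _) ht
  have ht1 : t₁ ≤ t := le_trans (le_trans (le_max_left _ _) (le_max_left _ _)) ht
  have ht2 : 2 / κ + 4 * (v₀ + 1) + 1 / δ ≤ t := ht₂.trans (by
    exact_mod_cast le_trans (le_trans (le_max_right _ _) (le_max_left _ _)) ht)
  have p1 : 0 < 2 / κ := by positivity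
  have p2 : 0 < 1 / δ := by positivity
  have p3 : (0 : ℝ) ≤ v₀ := Nat.cast_nonneg _
  have ht0 : (0 : ℝ) < t := by linarith
  have r1 : 2 ≤ κ * t := by
    have : 2 / κ ≤ t := by linarith
    rw [div_le_iff₀ hκ0] at this
    linarith
  have r2 : 1 ≤ δ * t := by
    have : 1 / δ ≤ t := by linarith
    rw [div_le_iff₀ hδ0] at this
    linarith
  have r3 : 4 * ((v₀ : ℝ) + 1) ≤ t := by linarith
  have hst : 0 < √(t : ℝ) := Real.sqrt_pos.2 ht0
  have hss : √(t : ℝ) * √(t : ℝ) = t := Real.mul_self_sqrt ht0.le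
  rcases le_or_gt ((z.1 : ℕ) : ℝ) (A * √t) with ha | ha
  · obtain ⟨K, hK'⟩ := hK t ht1
    obtain ⟨hK1, hK2⟩ := hK' z.1 ha
    have hM := m2_le hδ0.le hC.le hm t K t le_rfl z hK1
    have hM2 : m2 t z ≤ 4 * δ * t ^ 2 := by
      refine hM.trans ?_
      have : 1 + 2 * δ * t + 2 * C * (1 + K * ((z.1 : ℝ) + 2)) ≤ 4 * δ * t := by linarith
      calc (t : ℝ) * (1 + 2 * δ * t + 2 * C * (1 + K * ((z.1 : ℝ) + 2))) ≤ t * (4 * δ * t) :=
            mul_le_mul_of_nonneg_left this ht0.le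
        _ = 4 * δ * t ^ 2 := by ring
    have hcheb : ∀ θ : ℤ, κ * t ≤ θ → m2 t z / (θ : ℝ) ^ 2 ≤ ε / 4 := by
      intro θ hθ
      have hθ0 : (0 : ℝ) < θ := by linarith
      rw [div_le_iff₀ (by positivity)]
      refine hM2.trans ?_
      have h1 : (κ * t) ^ 2 ≤ (θ : ℝ) ^ 2 := pow_le_pow_left₀ (by positivity) hθ 2
      have h2 : 4 * δ * t ^ 2 = ε / 4 * (κ * t) ^ 2 := by rw [hδ]; ring
      rw [h2]
      exact mul_le_mul_of_nonneg_left h1 (by linarith)
    have hup : qq t z ≤ lim t z.1 + 3 * (ε / 4) := by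
      set v := ⌊(1 - κ) * t / 2⌋₊ with hv
      have hnn : 0 ≤ (1 - κ) * t / 2 := by
        have : 0 ≤ 1 - κ := by linarith
        positivity
      have hv1 : (v : ℝ) ≤ (1 - κ) * t / 2 := Nat.floor_le hnn
      have hv2 : (1 - κ) * t / 2 < v + 1 := Nat.lt_floor_add_one _
      have hvv : v₀ ≤ v := by
        have : (v₀ : ℝ) < v + 1 := by nlinarith
        have : v₀ < v + 1 := by exact_mod_cast this
        omega
      have hθ : κ * t ≤ ((t - 2 * v + 2 : ℤ) : ℝ) := by push_cast; linarith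
      have h1 := sand_up t z v 0 (t - 2 * v + 2) (by omega)
      have h2 := cheb_up t z (θ := (t - 2 * v + 2 : ℤ)) (by
        have : (0 : ℝ) < ((t - 2 * v + 2 : ℤ) : ℝ) := by linarith
        exact_mod_cast this)
      have h3 := hcheb _ hθ
      have h4 := (abs_le.1 (hv₀ v hvv z.1)).2
      have h5 := (abs_le.1 (hκ t v z.1 ht0 (by
        rw [abs_le]; constructor <;> linarith))).2
      linarith
    have hlo : lim t z.1 ≤ qq t z + 3 * (ε / 4) := by
      set v := ⌈(1 + κ) * t / 2⌉₊ with hv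
      have hnn : 0 ≤ (1 + κ) * t / 2 := by positivity
      have hv1 : (1 + κ) * t / 2 ≤ v := Nat.le_ceil _
      have hv2 : (v : ℝ) < (1 + κ) * t / 2 + 1 := Nat.ceil_lt_add_one hnn
      have hvv : v₀ ≤ v := by
        have : (v₀ : ℝ) ≤ v := by nlinarith
        exact_mod_cast this
      have hθ : κ * t ≤ ((2 * v + 2 - t : ℤ) : ℝ) := by push_cast; linarith
      have h1 := sand_lo t z v 0 (-(2 * v + 2 - t)) (by omega)
      have h2 := cheb_lo t z (θ := (2 * v + 2 - t : ℤ)) (by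
        have : (0 : ℝ) < ((2 * v + 2 - t : ℤ) : ℝ) := by linarith
        exact_mod_cast this)
      have h3 := hcheb _ hθ
      have h4 := (abs_le.1 (hv₀ v hvv z.1)).1
      have h5 := (abs_le.1 (hκ t v z.1 ht0 (by
        rw [abs_le]; constructor <;> linarith))).1
      linarith
    rw [abs_le]
    constructor <;> linarith
  · have ha0 : (0 : ℝ) < z.1 := lt_trans (by positivity) ha
    have h1 := q_ge_phi z.1 ha0 t z.1
    have h2 : (t : ℝ) / (z.1 : ℝ) ^ 2 ≤ ε / 2 := by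
      rw [div_le_iff₀ (by positivity)]
      have h3 : (A * √t) ^ 2 ≤ (z.1 : ℝ) ^ 2 := pow_le_pow_left₀ (by positivity) ha.le 2
      rw [mul_pow, hA2, sq (√(t : ℝ)), hss] at h3
      have h4 : (t : ℝ) = ε / 2 * (2 / ε * t) := by field_simp
      rw [h4]
      exact mul_le_mul_of_nonneg_left h3 (by linarith)
    have h3 : (2 * (z.1 : ℝ) * z.1 - (z.1 : ℝ) ^ 2 - t) / (z.1 : ℝ) ^ 2 = 1 - t / (z.1 : ℝ) ^ 2 := by
      field_simp
      ring
    rw [h3] at h1
    have h4 := q_le_qq t z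
    have h5 := (abs_le.1 (hv₀ t htv z.1)).2
    have h6 : 2 * Phi (z.1 / √t) - 1 ≤ lim t z.1 := by
      unfold lim
      have : Phi (z.1 / √t) ≤ Phi (z.1 / √(t / 2)) := by
        apply Phi_mono
        apply div_le_div_of_nonneg_left ha0.le (by positivity)
        exact Real.sqrt_le_sqrt (by linarith)
      linarith
    have h7 := lim_le_one t z.1
    have h8 := qq_le_one t z
    rw [abs_le]
    constructor <;> linarith

end Pool.Agent.Q74.AR
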