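import Pool.Agent.Q158.Pair.Main

/-! # Project AR: counting pairs that have not met, with both bounds -/

set_option autoImplicit false

namespace Pool.Agent.Q74.AR

open Finset
open Pool.Agent.Q158.Pair (T step av surv Co nc nc_per nc_nonneg Co_meet accident sum_nc cop2 sum_block' sum_Ico_int
  surv_nonneg surv_le_one)

open Classical in
/-- the number of the terms of an affine form in an interval for which the pair has not met, up to `2 ^ t` -/
theorem nc_count (t : ℕ) (z : ℕ × ℤ) (u s : ℤ) (hu : u % 2 = 1) (M : ℤ) (L : ℕ) :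
    |(((Ico M (M + L)).filter (fun x => ¬ Co t z (u * x + s))).card : ℝ) - surv t z * L| ≤ 2 ^ t := by
  have h0 : (((Finset.Ico M (M + L)).filter (fun x => ¬ Co t z (u * x + s))).card : ℝ) =
      ∑ i ∈ Finset.range L, nc t z (u * i + (u * M + s)) := by
    have := sum_Ico_int (fun x => nc t z (u * x + s)) M L
    have h1 : ∀ i : ℕ, u * (M + i) + s = u * i + (u * M + s) := fun i => by ring
    simp only [h1] at this
    rw [← this, Finset.card_filter]
    push_cast
    apply Finset.sum_congr rfl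
    intro x _
    unfold nc
    split_ifs <;> simp_all
  rw [h0]
  have hp : 0 < 2 ^ t := by positivity
  have hs := surv_nonneg t z
  have hs1 := surv_le_one t z
  have h1 : L ≤ (L / 2 ^ t + 1) * 2 ^ t := by
    rw [mul_comm]; exact (Nat.lt_mul_div_succ L (by positivity)).le
  have h2 : ∑ i ∈ Finset.range L, nc t z (u * i + (u * M + s)) ≤
      ∑ i ∈ Finset.range ((L / 2 ^ t + 1) * 2 ^ t), nc t z (u * i + (u * M + s)) :=
    Finset.sum_le_sum_of_subset_of_nonneg (Finset.range_mono h1) (fun _ _ _ => nc_nonneg _ _ _)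
  rw [sum_block' (2 ^ t) hp _ (nc_per t z) u (cop2 t u hu), sum_nc] at h2
  have h3 : (L / 2 ^ t) * 2 ^ t ≤ L := Nat.div_mul_le_self L (2 ^ t)
  have h4 : ∑ i ∈ Finset.range ((L / 2 ^ t) * 2 ^ t), nc t z (u * i + (u * M + s)) ≤
      ∑ i ∈ Finset.range L, nc t z (u * i + (u * M + s)) :=
    Finset.sum_le_sum_of_subset_of_nonneg (Finset.range_mono h3) (fun _ _ _ => nc_nonneg _ _ _)
  rw [sum_block' (2 ^ t) hp _ (nc_per t z) u (cop2 t u hu), sum_nc] at h4
  have h5 : ((L / 2 ^ t : ℕ) : ℝ) * 2 ^ t ≤ L := by exact_mod_cast h3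
  have h6 : (L : ℝ) ≤ (((L / 2 ^ t : ℕ) : ℝ) + 1) * 2 ^ t := by exact_mod_cast h1
  have h7 : (0 : ℝ) < 2 ^ t := by positivity
  push_cast at h2
  rw [abs_le]
  constructor
  · nlinarith
  · nlinarith

open Classical in
/-- there are few accidental meetings along an affine form -/
theorem accident_count (t : ℕ) (z : ℕ × ℤ) (u s : ℤ) (hu : u % 2 = 1) (M : ℤ) (L : ℕ) :
    ((Ico M (M + L)).filter (fun x => ¬ Co t z (u * x + s) ∧
      T^[t] (u * x + s) = T^[t] (3 ^ z.1 * (u * x + s) + z.2))).card ≤ 2 ^ t := by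
  have hc : (Finset.Ico (0:ℤ) (2 ^ t)).card = 2 ^ t := by
    rw [Int.card_Ico, sub_zero]
    have : (2:ℤ) ^ t = ((2 ^ t : ℕ) : ℤ) := by push_cast; rfl
    rw [this, Int.toNat_natCast]
  rw [← hc]
  apply Finset.card_le_card_of_injOn (fun x => x % 2 ^ t)
  · intro x _
    simp only [Finset.coe_Ico, Set.mem_Ico]
    exact ⟨Int.emod_nonneg _ (by positivity), Int.emod_lt_of_pos _ (by positivity)⟩
  · intro x hx y hy hxy
    simp only [Finset.coe_filter, Set.mem_ofPred_eq] at hx hy
    simp only at hxy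
    have h1 : (2:ℤ) ^ t ∣ y - x := Int.ModEq.dvd hxy
    obtain ⟨j, hj⟩ := h1
    have h2 : y = x + 2 ^ t * j := by omega
    have e1 : u * y + s = (u * x + s) + 2 ^ t * (u * j) := by rw [h2]; ring
    have h3 := accident t z (u * x + s) (u * j) hx.2.1 hx.2.2 (by rw [← e1]; exact hy.2.2)
    have hu0 : u ≠ 0 := by rintro rfl; omega
    have h4 : j = 0 := (mul_eq_zero.1 h3).resolve_left hu0
    rw [h4] at h2
    omega

/-- the number of the terms of an affine form in an interval for which the trajectories have not met -/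
theorem meet_count (t : ℕ) (z : ℕ × ℤ) (u s : ℤ) (hu : u % 2 = 1) (M : ℤ) (L : ℕ) :
    |({x : ℤ | M ≤ x ∧ x < M + L ∧ T^[t] (u * x + s) ≠ T^[t] (3 ^ z.1 * (u * x + s) + z.2)}.ncard : ℝ)
      - surv t z * L| ≤ 2 * 2 ^ t := by
  classical
  rw [Pool.Agent.Q158.Pair.ncard_eq (fun x => T^[t] (u * x + s) ≠ T^[t] (3 ^ z.1 * (u * x + s) + z.2))]
  have h1 := nc_count t z u s hu M L
  have h2 := accident_count t z u s hu M L
  have h3 : ((Ico M (M + L)).filter (fun x => T^[t] (u * x + s) ≠ T^[t] (3 ^ z.1 * (u * x + s) + z.2))).card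
      ≤ ((Ico M (M + L)).filter (fun x => ¬ Co t z (u * x + s))).card := by
    apply Finset.card_le_card
    intro x hx
    rw [Finset.mem_filter] at hx ⊢
    exact ⟨hx.1, fun hc => hx.2 (Co_meet t z (u * x + s) hc)⟩
  have h4 : ((Ico M (M + L)).filter (fun x => ¬ Co t z (u * x + s))).card ≤
      ((Ico M (M + L)).filter (fun x => T^[t] (u * x + s) ≠ T^[t] (3 ^ z.1 * (u * x + s) + z.2))).card + 2 ^ t := by
    have h5 : (Ico M (M + L)).filter (fun x => ¬ Co t z (u * x + s)) ⊆
        (Ico M (M + L)).filter (fun x => T^[t] (u * x + s) ≠ T^[t] (3 ^ z.1 * (u * x + s) + z.2)) ∪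
        (Ico M (M + L)).filter (fun x => ¬ Co t z (u * x + s) ∧
          T^[t] (u * x + s) = T^[t] (3 ^ z.1 * (u * x + s) + z.2)) := by
      intro x hx
      rw [Finset.mem_filter] at hx
      rw [Finset.mem_union, Finset.mem_filter, Finset.mem_filter]
      by_cases h : T^[t] (u * x + s) = T^[t] (3 ^ z.1 * (u * x + s) + z.2)
      · right; exact ⟨hx.1, hx.2, h⟩
      · left; exact ⟨hx.1, h⟩
    exact (Finset.card_le_card h5).trans ((Finset.card_union_le _ _).trans (Nat.add_le_add_left h2 _))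
  have h3' : (((Ico M (M + L)).filter (fun x => T^[t] (u * x + s) ≠ T^[t] (3 ^ z.1 * (u * x + s) + z.2))).card : ℝ)
      ≤ (((Ico M (M + L)).filter (fun x => ¬ Co t z (u * x + s))).card : ℝ) := by exact_mod_cast h3
  have h4' : (((Ico M (M + L)).filter (fun x => ¬ Co t z (u * x + s))).card : ℝ) ≤
      (((Ico M (M + L)).filter (fun x => T^[t] (u * x + s) ≠ T^[t] (3 ^ z.1 * (u * x + s) + z.2))).card : ℝ)
        + 2 ^ t := by exact_mod_cast h4
  rw [abs_le] at h1 ⊢
  constructor <;> linarith [h1.1, h1.2]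

end Pool.Agent.Q74.AR
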