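import Pool.Agent.Q158.Pair.Main

/-! # Project AR: the state of the pair as a function of the starting point -/

set_option autoImplicit false

namespace Pool.Agent.Q74.AR

open Finset
open Pool.Agent.Q158.Pair (T step av surv e e_spec Co od nb od_even od_odd nb_even nb_odd T_even T_odd step_even
  step_odd_false step_odd_true_zero step_odd_true_succ state_cases sum_two per_sum cop2)

/-- the state after `t` steps -/
def ps : ℕ → ℕ × ℤ → ℤ → ℕ × ℤ
  | 0 => fun z _ => z
  | t + 1 => fun z x => ps t (step (od x) z) (nb z x)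

/-- the base point after `t` steps -/
def xs : ℕ → ℕ × ℤ → ℤ → ℤ
  | 0 => fun _ x => x
  | t + 1 => fun z x => xs t (step (od x) z) (nb z x)

/-- the number of odd terms among the first `t` -/
def oc : ℕ → ℤ → ℕ
  | 0 => fun _ => 0
  | t + 1 => fun x => (if x % 2 = 1 then 1 else 0) + oc t (T x)

theorem oc_succ (t : ℕ) (x : ℤ) : oc (t + 1) x = (if x % 2 = 1 then 1 else 0) + oc t (T x) := rfl

theorem oc_eq (t : ℕ) : ∀ x : ℤ, oc t x = ((range t).filter (fun i => T^[i] x % 2 = 1)).card := by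
  induction t with
  | zero => intro x; simp [oc]
  | succ n ih =>
    intro x
    rw [oc_succ, ih, card_filter, card_filter, sum_range_succ']
    rw [add_comm]
    rfl

theorem oc_even (t : ℕ) (m : ℤ) : oc (t + 1) (2 * m) = oc t m := by
  have : ¬ (2 * m) % 2 = 1 := by omega
  rw [oc_succ, if_neg this, T_even, zero_add]

theorem oc_odd (t : ℕ) (m : ℤ) : oc (t + 1) (2 * m + 1) = 1 + oc t (3 * m + 2) := by
  have : (2 * m + 1) % 2 = 1 := by omega
  rw [oc_succ, if_pos this, T_odd]

theorem oc_le (t : ℕ) : ∀ x : ℤ, oc t x ≤ t := by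
  induction t with
  | zero => intro x; simp [oc]
  | succ n ih =>
    intro x
    have := ih (T x)
    simp only [oc]
    split_ifs <;> omega

/-- one step of the pair, with the levels -/
theorem pair_step2 (z : ℕ × ℤ) (x : ℤ) :
    (T x = nb z x ∧ T (3 ^ z.1 * x + z.2) = 3 ^ (step (od x) z).1 * nb z x + (step (od x) z).2 ∧
      ((step (od x) z).1 : ℤ) = z.1 + (3 ^ z.1 * x + z.2) % 2 - x % 2) ∨
    (T x = 3 ^ (step (od x) z).1 * nb z x + (step (od x) z).2 ∧ T (3 ^ z.1 * x + z.2) = nb z x ∧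
      ((step (od x) z).1 : ℤ) = -(z.1 + (3 ^ z.1 * x + z.2) % 2 - x % 2)) := by
  rcases Int.even_or_odd' x with ⟨m, rfl | rfl⟩
  · left
    rw [nb_even, od_even, T_even]
    refine ⟨rfl, ?_⟩
    rcases state_cases z with ⟨k, rfl⟩ | ⟨a, k, rfl⟩ | ⟨k, rfl⟩ | ⟨a, k, rfl⟩
    · rw [(step_even 0 k).1]
      have : (3:ℤ) ^ 0 * (2 * m) + 2 * k = 2 * (m + k) := by ring
      simp only
      rw [this, T_even]
      exact ⟨by ring, by omega⟩
    · rw [(step_even (a + 1) k).1]
      have : (3:ℤ) ^ (a + 1) * (2 * m) + 2 * k = 2 * (3 ^ (a + 1) * m + k) := by ring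
      simp only
      rw [this, T_even]
      exact ⟨rfl, by omega⟩
    · rw [step_odd_false 0 k]
      have : (3:ℤ) ^ 0 * (2 * m) + (2 * k + 1) = 2 * (m + k) + 1 := by ring
      simp only
      rw [this, T_odd]
      exact ⟨by ring, by omega⟩
    · rw [step_odd_false (a + 1) k]
      have : (3:ℤ) ^ (a + 1) * (2 * m) + (2 * k + 1) = 2 * (3 ^ (a + 1) * m + k) + 1 := by ring
      simp only
      rw [this, T_odd]
      exact ⟨by ring, by omega⟩
  · rw [nb_odd, od_odd, T_odd]
    have he : ∀ a : ℕ, (3:ℤ) ^ a = 2 * e a + 1 := fun a => (e_spec a).symm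
    rcases state_cases z with ⟨k, rfl⟩ | ⟨a, k, rfl⟩ | ⟨k, rfl⟩ | ⟨a, k, rfl⟩
    · left
      have hk : ¬ (2 * k) % 2 = 1 := by omega
      simp only [hk, and_false, if_false]
      rw [(step_even 0 k).2]
      have : (3:ℤ) ^ 0 * (2 * m + 1) + 2 * k = 2 * (m + k) + 1 := by ring
      simp only
      rw [this, T_odd]
      refine ⟨trivial, ?_, by omega⟩
      simp only [e]; ring
    · left
      have hk : ¬ (2 * k) % 2 = 1 := by omega
      simp only [hk, and_false, if_false]
      rw [(step_even (a + 1) k).2]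
      have : (3:ℤ) ^ (a + 1) * (2 * m + 1) + 2 * k = 2 * (3 ^ (a + 1) * m + e (a + 1) + k) + 1 := by
        have := he (a + 1)
        calc (3:ℤ) ^ (a + 1) * (2 * m + 1) + 2 * k = 3 ^ (a + 1) * (2 * m) + 3 ^ (a + 1) + 2 * k := by ring
          _ = 3 ^ (a + 1) * (2 * m) + (2 * e (a + 1) + 1) + 2 * k := by rw [← he (a + 1)]
          _ = _ := by ring
      simp only
      rw [this, T_odd]
      refine ⟨trivial, ?_, by omega⟩
      have := he (a + 1)
      linear_combination (-2) * this
    · right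
      have hk : (2 * k + 1) % 2 = 1 := by omega
      have hk2 : (2 * k + 1) / 2 = k := by omega
      simp only [hk, hk2, and_self, if_true]
      rw [step_odd_true_zero k]
      have : (3:ℤ) ^ 0 * (2 * m + 1) + (2 * k + 1) = 2 * (m + k + 1) := by ring
      simp only
      rw [this, T_even]
      exact ⟨by ring, rfl, by push_cast; omega⟩
    · left
      have hk : ¬ (a + 1 = 0 ∧ (2 * k + 1) % 2 = 1) := by omega
      simp only [hk, if_false]
      rw [step_odd_true_succ a k]
      have h1 := he a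
      have h2 := he (a + 1)
      have h3 : e (a + 1) = 3 * e a + 1 := rfl
      have : (3:ℤ) ^ (a + 1) * (2 * m + 1) + (2 * k + 1) = 2 * (3 ^ (a + 1) * m + e (a + 1) + k + 1) := by
        linear_combination h2
      simp only
      rw [this, T_even]
      refine ⟨trivial, ?_, by push_cast; omega⟩
      rw [h3, pow_succ]
      linear_combination (-2) * h1

theorem oc_succ_int (t : ℕ) (x : ℤ) : (oc (t + 1) x : ℤ) = x % 2 + oc t (T x) := by
  rcases Int.emod_two_eq_zero_or_one x with h | h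
  · rw [oc_succ, if_neg (by omega)]; push_cast; omega
  · rw [oc_succ, if_pos h]; push_cast; omega

/-- the pair after `t` steps -/
theorem ps_pair (t : ℕ) : ∀ (z : ℕ × ℤ) (x : ℤ),
    (xs t z x = T^[t] x ∧ 3 ^ (ps t z x).1 * xs t z x + (ps t z x).2 = T^[t] (3 ^ z.1 * x + z.2) ∧
      ((ps t z x).1 : ℤ) = z.1 + oc t (3 ^ z.1 * x + z.2) - oc t x) ∨
    (xs t z x = T^[t] (3 ^ z.1 * x + z.2) ∧ 3 ^ (ps t z x).1 * xs t z x + (ps t z x).2 = T^[t] x ∧
      ((ps t z x).1 : ℤ) = -(z.1 + oc t (3 ^ z.1 * x + z.2) - oc t x)) := by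
  induction t with
  | zero =>
    intro z x
    left
    simp [xs, ps, oc]
  | succ n ih =>
    intro z x
    rw [oc_succ_int, oc_succ_int, Function.iterate_succ_apply, Function.iterate_succ_apply]
    simp only [xs, ps]
    rcases pair_step2 z x with ⟨h1, h2, h3⟩ | ⟨h1, h2, h3⟩
    · rw [h1, h2]
      rcases ih (step (od x) z) (nb z x) with ⟨g1, g2, g3⟩ | ⟨g1, g2, g3⟩
      · left
        exact ⟨g1, g2, by rw [g3, h3]; ring⟩
      · right
        exact ⟨g1, g2, by rw [g3, h3]; ring⟩
    · rw [h1, h2]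
      rcases ih (step (od x) z) (nb z x) with ⟨g1, g2, g3⟩ | ⟨g1, g2, g3⟩
      · right
        exact ⟨g1, g2, by rw [g3, h3]; ring⟩
      · left
        exact ⟨g1, g2, by rw [g3, h3]; ring⟩

theorem ps_per (t : ℕ) (z : ℕ × ℤ) (x j : ℤ) : ps t z (x + 2 ^ t * j) = ps t z x := by
  induction t generalizing z x j with
  | zero => simp [ps]
  | succ n ih =>
    simp only [ps]
    rcases Int.even_or_odd' x with ⟨m, rfl | rfl⟩
    · have : 2 * m + 2 ^ (n + 1) * j = 2 * (m + 2 ^ n * j) := by ring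
      rw [this, nb_even, nb_even, od_even, od_even]
      exact ih _ _ _
    · have : 2 * m + 1 + 2 ^ (n + 1) * j = 2 * (m + 2 ^ n * j) + 1 := by ring
      rw [this, nb_odd, nb_odd, od_odd, od_odd]
      split_ifs with h
      · have : m + 2 ^ n * j + z.2 / 2 + 1 = (m + z.2 / 2 + 1) + 2 ^ n * j := by ring
        rw [this]; exact ih _ _ _
      · have : 3 * (m + 2 ^ n * j) + 2 = (3 * m + 2) + 2 ^ n * (3 * j) := by ring
        rw [this]; exact ih _ _ _

/-- the mean over the residue classes -/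
theorem sum_ps (f : ℕ × ℤ → ℝ) (t : ℕ) : ∀ z : ℕ × ℤ,
    ∑ i ∈ range (2 ^ t), f (ps t z i) = 2 ^ t * av^[t] f z := by
  induction t with
  | zero => intro z; simp [ps]
  | succ n ih =>
    intro z
    have hper : ∀ z' : ℕ × ℤ, ∀ x j : ℤ, f (ps n z' (x + ((2 ^ n : ℕ) : ℤ) * j)) = f (ps n z' x) := by
      intro z' x j
      have e : ((2 ^ n : ℕ) : ℤ) = 2 ^ n := by push_cast; rfl
      rw [e, ps_per]
    rw [show 2 ^ (n + 1) = 2 * 2 ^ n by ring, sum_two (fun x => f (ps (n + 1) z x))]
    have h1 : ∑ i ∈ range (2 ^ n), f (ps (n + 1) z (2 * (i:ℤ))) = 2 ^ n * av^[n] f (step false z) := by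
      rw [← ih]
      apply sum_congr rfl
      intro i _
      simp only [ps, od_even, nb_even]
    have h2 : ∑ i ∈ range (2 ^ n), f (ps (n + 1) z (2 * (i:ℤ) + 1)) = 2 ^ n * av^[n] f (step true z) := by
      rw [← ih]
      by_cases h : z.1 = 0 ∧ z.2 % 2 = 1
      · have := per_sum (2 ^ n) (by positivity) (fun x => f (ps n (step true z) x)) (hper _) 1 isCoprime_one_left
          (z.2 / 2 + 1)
        rw [← this]
        apply sum_congr rfl
        intro i _
        have e1 : (1:ℤ) * i + (z.2 / 2 + 1) = i + z.2 / 2 + 1 := by ring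
        rw [e1]
        simp only [ps, od_odd, nb_odd, h, and_self, if_true]
      · have := per_sum (2 ^ n) (by positivity) (fun x => f (ps n (step true z) x)) (hper _) 3
          (cop2 n 3 (by norm_num)) 2
        rw [← this]
        apply sum_congr rfl
        intro i _
        simp only [ps, od_odd, nb_odd, h, if_false]
    rw [h1, h2, Function.iterate_succ_apply', av]
    ring

/-- the offset of the affine form `T^t`: `T^t x = 3 ^ oc x / 2 ^ t + of` -/
noncomputable def of (t : ℕ) (x : ℤ) : ℝ := ((T^[t] x : ℤ) : ℝ) - 3 ^ oc t x * x / 2 ^ t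

theorem of_zero (x : ℤ) : of 0 x = 0 := by simp [of, oc]

theorem of_succ (t : ℕ) (x : ℤ) :
    of (t + 1) x = of t (T x) + (if x % 2 = 1 then 3 ^ oc t (T x) / 2 ^ (t + 1) else 0) := by
  unfold of
  rw [Function.iterate_succ_apply]
  rcases Int.even_or_odd' x with ⟨m, rfl | rfl⟩
  · rw [oc_even, T_even]
    have : ¬ (2 * m) % 2 = 1 := by omega
    rw [if_neg this]
    push_cast
    rw [pow_succ]
    field_simp
    ring
  · rw [oc_odd, T_odd]
    have : (2 * m + 1) % 2 = 1 := by omega
    rw [if_pos this]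
    push_cast
    rw [pow_succ, pow_add]
    field_simp
    ring

theorem of_nonneg (t : ℕ) : ∀ x : ℤ, 0 ≤ of t x := by
  induction t with
  | zero => intro x; rw [of_zero]
  | succ n ih =>
    intro x
    rw [of_succ]
    have := ih (T x)
    split_ifs
    · positivity
    · linarith

theorem oc_per (t : ℕ) : ∀ x j : ℤ, oc t (x + 2 ^ t * j) = oc t x := by
  induction t with
  | zero => intro x j; simp [oc]
  | succ n ih =>
    intro x j
    rcases Int.even_or_odd' x with ⟨m, rfl | rfl⟩
    · have : 2 * m + 2 ^ (n + 1) * j = 2 * (m + 2 ^ n * j) := by ring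
      rw [this, oc_even, oc_even, ih]
    · have : 2 * m + 1 + 2 ^ (n + 1) * j = 2 * (m + 2 ^ n * j) + 1 := by ring
      rw [this, oc_odd, oc_odd]
      have : 3 * (m + 2 ^ n * j) + 2 = (3 * m + 2) + 2 ^ n * (3 * j) := by ring
      rw [this, ih]

theorem of_per (t : ℕ) : ∀ x j : ℤ, of t (x + 2 ^ t * j) = of t x := by
  induction t with
  | zero => intro x j; simp [of_zero]
  | succ n ih =>
    intro x j
    rw [of_succ, of_succ]
    rcases Int.even_or_odd' x with ⟨m, rfl | rfl⟩
    · have : 2 * m + 2 ^ (n + 1) * j = 2 * (m + 2 ^ n * j) := by ring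
      rw [this, T_even, T_even, ih]
      have h1 : ¬ (2 * (m + 2 ^ n * j)) % 2 = 1 := by omega
      have h2 : ¬ (2 * m) % 2 = 1 := by omega
      rw [if_neg h1, if_neg h2]
    · have : 2 * m + 1 + 2 ^ (n + 1) * j = 2 * (m + 2 ^ n * j) + 1 := by ring
      rw [this, T_odd, T_odd]
      have : 3 * (m + 2 ^ n * j) + 2 = (3 * m + 2) + 2 ^ n * (3 * j) := by ring
      rw [this, ih, oc_per]
      have h1 : (2 * (m + 2 ^ n * j) + 1) % 2 = 1 := by omega
      have h2 : (2 * m + 1) % 2 = 1 := by omega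
      rw [if_pos h1, if_pos h2]

end Pool.Agent.Q74.AR
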