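import Pool.Agent.Q74.AR.Main
import Pool.Agent.Q74.AR.Cnt
import Pool.Agent.Q74.AR.PS
import Pool.Agent.Q296.AR.Ph

/-! # Project AR: the maps `3x+d`, and the error function -/

set_option autoImplicit false

namespace Pool.Agent.Q74.AR

open Finset Filter Topology MeasureTheory ProbabilityTheory
open Pool.Agent.Q158.Pair (T step av surv surv_nonneg surv_le_one Co od nb Co_meet T_even T_odd)

/-- the map `3x+d` -/
def Td (d x : ℤ) : ℤ := if x % 2 = 0 then x / 2 else (3 * x + d) / 2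

theorem Td_even (d m : ℤ) : Td d (2 * m) = m := by
  have : (2 * m) % 2 = 0 := by omega
  simp only [Td, this, if_true]; omega

theorem Td_odd {d : ℤ} (hd : d % 2 = 1) (m : ℤ) : Td d (2 * m + 1) = 3 * m + (d + 3) / 2 := by
  have : ¬ (2 * m + 1) % 2 = 0 := by omega
  simp only [Td, this, if_false]; omega

/-- the iterates of `3x+d` in terms of those of `3x+1` -/
theorem Td_iter {d : ℤ} (hd : d % 2 = 1) (t : ℕ) : ∀ x j : ℤ,
    (Td d)^[t] (d * x + 2 ^ t * j) = d * T^[t] x + 3 ^ oc t x * j := by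
  induction t with
  | zero => intro x j; simp [oc]
  | succ n ih =>
    intro x j
    rw [Function.iterate_succ_apply, Function.iterate_succ_apply]
    rcases Int.even_or_odd' x with ⟨m, rfl | rfl⟩
    · have e : d * (2 * m) + 2 ^ (n + 1) * j = 2 * (d * m + 2 ^ n * j) := by ring
      rw [e, Td_even, T_even, oc_even, ih]
    · obtain ⟨k, rfl⟩ : ∃ k, d = 2 * k + 1 := ⟨d / 2, by omega⟩
      have e : (2 * k + 1) * (2 * m + 1) + 2 ^ (n + 1) * j = 2 * ((2 * k + 1) * m + k + 2 ^ n * j) + 1 := by ring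
      rw [e, Td_odd hd, T_odd, oc_odd]
      have e2 : (2 * k + 1 + 3) / 2 = k + 2 := by omega
      have e3 : 3 * ((2 * k + 1) * m + k + 2 ^ n * j) + (2 * k + 1 + 3) / 2 =
          (2 * k + 1) * (3 * m + 2) + 2 ^ n * (3 * j) := by
        rw [e2]; ring
      rw [e3, ih, pow_add]
      ring

theorem Co_iff (t : ℕ) : ∀ (z : ℕ × ℤ) (x : ℤ), Co t z x ↔ ps t z x = (0, 0) := by
  induction t with
  | zero => intro z x; exact Iff.rfl
  | succ n ih => intro z x; exact ih _ _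

/-- at a structural meeting the numbers of odd terms agree -/
theorem Co_oc {t : ℕ} {z : ℕ × ℤ} {x : ℤ} (h : Co t z x) : oc t x = oc t (3 ^ z.1 * x + z.2) + z.1 := by
  rw [Co_iff] at h
  rcases ps_pair t z x with ⟨_, _, h3⟩ | ⟨_, _, h3⟩
  · rw [h] at h3
    push_cast at h3
    omega
  · rw [h] at h3
    push_cast at h3
    omega

/-- a meeting with equal numbers of odd terms is structural -/
theorem Co_of {t : ℕ} {z : ℕ × ℤ} {x : ℤ} (h : oc t x = oc t (3 ^ z.1 * x + z.2) + z.1)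
    (h' : T^[t] x = T^[t] (3 ^ z.1 * x + z.2)) : Co t z x := by
  rw [Co_iff]
  rcases ps_pair t z x with ⟨h1, h2, h3⟩ | ⟨h1, h2, h3⟩
  · have e1 : (ps t z x).1 = 0 := by omega
    rw [e1, pow_zero, one_mul, h1, ← h'] at h2
    have e2 : (ps t z x).2 = 0 := by omega
    exact Prod.ext e1 e2
  · have e1 : (ps t z x).1 = 0 := by omega
    rw [e1, pow_zero, one_mul, h1, ← h'] at h2
    have e2 : (ps t z x).2 = 0 := by omega
    exact Prod.ext e1 e2

/-- an inverse of `d` modulo `2 ^ t` -/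
theorem exists_inv {d : ℤ} (hd : d % 2 = 1) (t : ℕ) : ∃ u κ : ℤ, u % 2 = 1 ∧ d * u + 2 ^ t * κ = 1 := by
  have h := Pool.Agent.Q158.Pair.cop2 (t + 1) d hd
  obtain ⟨u, v, huv⟩ := h
  refine ⟨u, 2 * v, ?_, ?_⟩
  · by_contra hu
    have hu0 : u % 2 = 0 := by omega
    obtain ⟨w, rfl⟩ : ∃ w, u = 2 * w := ⟨u / 2, by omega⟩
    have : 2 * (w * d + v * 2 ^ t) = 1 := by
      push_cast at huv
      rw [← huv]; ring
    omega
  · push_cast at huv
    rw [← huv]; ring

section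
variable {d : ℤ} (hd : d % 2 = 1) {t : ℕ} {u κ : ℤ} (hu : d * u + 2 ^ t * κ = 1)
include hd hu

theorem Td_eq (X : ℤ) : (Td d)^[t] X = d * T^[t] (u * X) + 3 ^ oc t (u * X) * (κ * X) := by
  rw [← Td_iter hd]
  congr 1
  linear_combination (-X) * hu

theorem Td_shift (X i : ℤ) : (Td d)^[t] (X + 2 ^ t * i) = (Td d)^[t] X + 3 ^ oc t (u * X) * i := by
  rw [Td_eq hd hu X]
  have e : X + 2 ^ t * i = d * (u * X) + 2 ^ t * (κ * X + i) := by linear_combination (-X) * hu
  rw [e, Td_iter hd]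
  ring

theorem Td_mod (X : ℤ) : d ∣ 2 ^ t * (Td d)^[t] X - 3 ^ oc t (u * X) * X := by
  rw [Td_eq hd hu X]
  refine ⟨2 ^ t * T^[t] (u * X) - 3 ^ oc t (u * X) * (u * X), ?_⟩
  linear_combination (3 ^ oc t (u * X) * X) * hu

end

open Classical in
/-- the number of the integers of an interval for which the trajectories of `3x+d` have not met -/
theorem meet_count_d {d : ℤ} (hd : d % 2 = 1) (t a : ℕ) (b : ℤ) (M : ℤ) (L : ℕ) :
    |({x : ℤ | M ≤ x ∧ x < M + L ∧ (Td d)^[t] x ≠ (Td d)^[t] (3 ^ a * x + d * b)}.ncard : ℝ)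
      - surv t (a, b) * L| ≤ 2 * 2 ^ t := by
  obtain ⟨u, κ, hu2, hu⟩ := exists_inv hd t
  rw [Pool.Agent.Q158.Pair.ncard_eq (fun x => (Td d)^[t] x ≠ (Td d)^[t] (3 ^ a * x + d * b))]
  have h1 := nc_count t (a, b) u 0 hu2 M L
  -- the structure
  have hY : ∀ X : ℤ, (Td d)^[t] (3 ^ a * X + d * b) =
      d * T^[t] (3 ^ a * (u * X) + b) + 3 ^ oc t (3 ^ a * (u * X) + b) * (3 ^ a * (κ * X)) := by
    intro X
    rw [← Td_iter hd]
    congr 1
    linear_combination (-(3 ^ a * X)) * hu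
  have hCo : ∀ X : ℤ, Co t (a, b) (u * X + 0) → (Td d)^[t] X = (Td d)^[t] (3 ^ a * X + d * b) := by
    intro X hX
    rw [add_zero] at hX
    have g1 := Co_oc hX
    have g2 := Co_meet t (a, b) (u * X) hX
    simp only at g1 g2
    rw [hY, Td_eq hd hu X, g1, g2, pow_add]
    ring
  have hdz : d ≠ 0 := by rintro rfl; omega
  have h2 : ((Ico M (M + L)).filter (fun x => ¬ Co t (a, b) (u * x + 0) ∧
      (Td d)^[t] x = (Td d)^[t] (3 ^ a * x + d * b))).card ≤ 2 ^ t := by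
    have hc : (Finset.Ico (0:ℤ) (2 ^ t)).card = 2 ^ t := by
      rw [Int.card_Ico, sub_zero]
      have : (2:ℤ) ^ t = ((2 ^ t : ℕ) : ℤ) := by push_cast; rfl
      rw [this, Int.toNat_natCast]
    rw [← hc]
    apply Finset.card_le_card_of_injOn (fun x => x % 2 ^ t)
    · intro x _
      simp only [Finset.coe_Ico, Set.mem_Ico]
      exact ⟨Int.emod_nonneg _ (by positivity), Int.emod_lt_of_pos _ (by positivity)⟩
    · intro x hx y hy hxy
      simp only [Finset.coe_filter, Set.mem_ofPred_eq] at hx hy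
      simp only at hxy
      have i1 : (2:ℤ) ^ t ∣ y - x := Int.ModEq.dvd hxy
      obtain ⟨j, hj⟩ := i1
      have i2 : y = x + 2 ^ t * j := by omega
      have i3 := hy.2.2
      have e1 : 3 ^ a * y + d * b = (3 ^ a * x + d * b) + 2 ^ t * (3 ^ a * j) := by rw [i2]; ring
      have e2 : (Td d)^[t] ((3 ^ a * x + d * b) + 2 ^ t * (3 ^ a * j)) =
          (Td d)^[t] (3 ^ a * x + d * b) + 3 ^ oc t (3 ^ a * (u * x) + b) * (3 ^ a * j) := by
        have e3 : (3 ^ a * x + d * b) + 2 ^ t * (3 ^ a * j) =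
            d * (3 ^ a * (u * x) + b) + 2 ^ t * (3 ^ a * (κ * x + j)) := by
          linear_combination (-(3 ^ a * x)) * hu
        rw [e3, Td_iter hd, hY]
        ring
      rw [e1, i2, Td_shift hd hu, e2, hx.2.2] at i3
      have i4 : (3 ^ oc t (u * x) - 3 ^ (oc t (3 ^ a * (u * x) + b) + a)) * j = 0 := by
        rw [pow_add]
        linear_combination i3
      rcases mul_eq_zero.1 i4 with i5 | i5
      · exfalso
        have i6 : oc t (u * x) = oc t (3 ^ a * (u * x) + b) + a :=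
          by simpa using sub_eq_zero.1 i5
        apply hx.2.1
        rw [add_zero]
        refine Co_of i6 ?_
        have i7 := hx.2.2
        rw [hY, Td_eq hd hu x, i6, pow_add] at i7
        have i8 : d * (T^[t] (u * x) - T^[t] (3 ^ a * (u * x) + b)) = 0 := by linear_combination i7
        exact sub_eq_zero.1 ((mul_eq_zero.1 i8).resolve_left hdz)
      · rw [i5] at i2
        omega
  have h3 : ((Ico M (M + L)).filter (fun x => (Td d)^[t] x ≠ (Td d)^[t] (3 ^ a * x + d * b))).card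
      ≤ ((Ico M (M + L)).filter (fun x => ¬ Co t (a, b) (u * x + 0))).card := by
    apply Finset.card_le_card
    intro x hx
    rw [Finset.mem_filter] at hx ⊢
    exact ⟨hx.1, fun hc => hx.2 (hCo x hc)⟩
  have h4 : ((Ico M (M + L)).filter (fun x => ¬ Co t (a, b) (u * x + 0))).card ≤
      ((Ico M (M + L)).filter (fun x => (Td d)^[t] x ≠ (Td d)^[t] (3 ^ a * x + d * b))).card + 2 ^ t := by
    have h5 : (Ico M (M + L)).filter (fun x => ¬ Co t (a, b) (u * x + 0)) ⊆
        (Ico M (M + L)).filter (fun x => (Td d)^[t] x ≠ (Td d)^[t] (3 ^ a * x + d * b)) ∪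
        (Ico M (M + L)).filter (fun x => ¬ Co t (a, b) (u * x + 0) ∧
          (Td d)^[t] x = (Td d)^[t] (3 ^ a * x + d * b)) := by
      intro x hx
      rw [Finset.mem_filter] at hx
      rw [Finset.mem_union, Finset.mem_filter, Finset.mem_filter]
      by_cases h : (Td d)^[t] x = (Td d)^[t] (3 ^ a * x + d * b)
      · right; exact ⟨hx.1, hx.2, h⟩
      · left; exact ⟨hx.1, h⟩
    exact (Finset.card_le_card h5).trans ((Finset.card_union_le _ _).trans (Nat.add_le_add_left h2 _))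
  have h3' : (((Ico M (M + L)).filter (fun x => (Td d)^[t] x ≠ (Td d)^[t] (3 ^ a * x + d * b))).card : ℝ)
      ≤ (((Ico M (M + L)).filter (fun x => ¬ Co t (a, b) (u * x + 0))).card : ℝ) := by exact_mod_cast h3
  have h4' : (((Ico M (M + L)).filter (fun x => ¬ Co t (a, b) (u * x + 0))).card : ℝ) ≤
      (((Ico M (M + L)).filter (fun x => (Td d)^[t] x ≠ (Td d)^[t] (3 ^ a * x + d * b))).card : ℝ)
        + 2 ^ t := by exact_mod_cast h4
  rw [abs_le] at h1 ⊢
  constructor <;> linarith [h1.1, h1.2]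

/-- pairs in different classes modulo `d` do not meet -/
theorem no_meet_d {d : ℤ} (hd : d % 2 = 1) (hd3 : IsCoprime d 3) (t a : ℕ) {b : ℤ} (hb : ¬ d ∣ b) (M : ℤ) (L : ℕ) :
    {x : ℤ | M ≤ x ∧ x < M + L ∧ (Td d)^[t] x = (Td d)^[t] (3 ^ a * x + b)}.ncard ≤ 2 ^ t := by
  classical
  obtain ⟨u, κ, hu2, hu⟩ := exists_inv hd t
  rw [Pool.Agent.Q158.Pair.ncard_eq (fun x => (Td d)^[t] x = (Td d)^[t] (3 ^ a * x + b))]
  have hc : (Finset.Ico (0:ℤ) (2 ^ t)).card = 2 ^ t := by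
    rw [Int.card_Ico, sub_zero]
    have : (2:ℤ) ^ t = ((2 ^ t : ℕ) : ℤ) := by push_cast; rfl
    rw [this, Int.toNat_natCast]
  rw [← hc]
  apply Finset.card_le_card_of_injOn (fun x => x % 2 ^ t)
  · intro x _
    simp only [Finset.coe_Ico, Set.mem_Ico]
    exact ⟨Int.emod_nonneg _ (by positivity), Int.emod_lt_of_pos _ (by positivity)⟩
  · intro x hx y hy hxy
    simp only [Finset.coe_filter, Set.mem_ofPred_eq] at hx hy
    simp only at hxy
    have i1 : (2:ℤ) ^ t ∣ y - x := Int.ModEq.dvd hxy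
    obtain ⟨j, hj⟩ := i1
    have i2 : y = x + 2 ^ t * j := by omega
    have i3 := hy.2
    have e1 : 3 ^ a * y + b = (3 ^ a * x + b) + 2 ^ t * (3 ^ a * j) := by rw [i2]; ring
    rw [e1, i2, Td_shift hd hu, Td_shift hd hu, hx.2] at i3
    have i4 : (3 ^ oc t (u * x) - 3 ^ (oc t (u * (3 ^ a * x + b)) + a)) * j = 0 := by
      rw [pow_add]
      linear_combination i3
    rcases mul_eq_zero.1 i4 with i5 | i5
    · exfalso
      have i6 : oc t (u * x) = oc t (u * (3 ^ a * x + b)) + a :=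
        by simpa using sub_eq_zero.1 i5
      have m1 := Td_mod hd hu x
      have m2 := Td_mod hd hu (3 ^ a * x + b)
      rw [← hx.2] at m2
      have m3 := dvd_sub m1 m2
      have m4 : 2 ^ t * (Td d)^[t] x - 3 ^ oc t (u * x) * x -
          (2 ^ t * (Td d)^[t] x - 3 ^ oc t (u * (3 ^ a * x + b)) * (3 ^ a * x + b)) =
          3 ^ oc t (u * (3 ^ a * x + b)) * b := by
        rw [i6, pow_add]
        ring
      rw [m4] at m3
      exact hb ((hd3.pow_right (n := oc t (u * (3 ^ a * x + b)))).dvd_of_dvd_mul_left m3)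
    · rw [i5] at i2
      omega

/-- the limit function is the error function -/
theorem lim_erf (t a : ℕ) : lim t a = 2 / √Real.pi * ∫ x in (0 : ℝ)..(a / √(t : ℝ)), Real.exp (-x ^ 2) := by
  rcases Nat.eq_zero_or_pos t with rfl | ht
  · unfold lim
    simp [Phi_zero]
  have ht0 : (0 : ℝ) < t := by exact_mod_cast ht
  have h2 : (0 : ℝ) < √2 := by positivity
  have e1 : (a : ℝ) / √((t : ℝ) / 2) = √2 * (a / √(t : ℝ)) := by
    rw [Real.sqrt_div' _ (by norm_num : (0 : ℝ) ≤ 2)]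
    field_simp
  unfold lim
  have h1 := Pool.Agent.Q296.AR.Phi_sub 0 (a / √((t : ℝ) / 2))
  rw [Phi_zero, e1] at h1
  have h3 := intervalIntegral.mul_integral_comp_mul_left (f := Pool.Agent.Q296.AR.phi) (a := 0)
    (b := (a : ℝ) / √(t : ℝ)) (c := √2)
  rw [mul_zero] at h3
  rw [← h3] at h1
  have h4 : ∀ x : ℝ, Pool.Agent.Q296.AR.phi (√2 * x) = (√2)⁻¹ * ((√Real.pi)⁻¹ * Real.exp (-x ^ 2)) := by
    intro x
    unfold Pool.Agent.Q296.AR.phi
    rw [mul_pow, Real.sq_sqrt (by norm_num), Real.sqrt_mul (by norm_num)]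
    have : -(2 * x ^ 2) / 2 = -x ^ 2 := by ring
    rw [this]
    field_simp
  simp only [h4] at h1
  rw [intervalIntegral.integral_const_mul, intervalIntegral.integral_const_mul] at h1
  rw [e1]
  have h5 : √2 * ((√2)⁻¹ * ((√Real.pi)⁻¹ * ∫ x in (0 : ℝ)..(a / √(t : ℝ)), Real.exp (-x ^ 2))) =
      (√Real.pi)⁻¹ * ∫ x in (0 : ℝ)..(a / √(t : ℝ)), Real.exp (-x ^ 2) := by
    rw [← mul_assoc, mul_inv_cancel₀ h2.ne', one_mul]
  rw [h5] at h1
  have h6 : 2 / √Real.pi * ∫ x in (0 : ℝ)..(a / √(t : ℝ)), Real.exp (-x ^ 2) =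
      2 * ((√Real.pi)⁻¹ * ∫ x in (0 : ℝ)..(a / √(t : ℝ)), Real.exp (-x ^ 2)) := by ring
  rw [h6, ← h1]
  ring

/-- lower bound for the probability that the pair has not met, without a condition on the offset -/
theorem surv_lower {ε : ℝ} (hε : 0 < ε) : ∃ t₀ : ℕ, 1 ≤ t₀ ∧ ∀ t : ℕ, t₀ ≤ t → ∀ z : ℕ × ℤ, lim t z.1 - ε ≤ surv t z := by
  obtain ⟨t₀, ht₀, h⟩ := qq_main hε
  refine ⟨t₀, ht₀, fun t ht z => ?_⟩
  have h1 := (abs_le.1 (h t ht z)).1
  have h2 := qq_le_surv t z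
  linarith

end Pool.Agent.Q74.AR
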