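import Pool.Agent.Q74.AR.Def

/-! # Project AR: sums along the chain until level 0 -/

set_option autoImplicit false

namespace Pool.Agent.Q74.AR

open Finset Filter Topology MeasureTheory ProbabilityTheory
open Pool.Agent.Q158.Pair (T step av q w w0 sq surv e av_mono av_add av_mul av_const)

theorem ac_lev (g : ℕ × ℤ → ℝ) (t : ℕ) {z : ℕ × ℤ} (h : z.1 = 0) : ac g t z = 0 := by
  cases t <;> simp [ac, h]

theorem ac_succ (g : ℕ × ℤ → ℝ) (t : ℕ) {z : ℕ × ℤ} (h : z.1 ≠ 0) :
    ac g (t + 1) z = g z + av (ac g t) z := by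
  simp [ac, h]

theorem ac_add (g h : ℕ × ℤ → ℝ) (t : ℕ) : ∀ z, ac (fun z => g z + h z) t z = ac g t z + ac h t z := by
  induction t with
  | zero => intro z; simp [ac]
  | succ n ih =>
    intro z
    by_cases hz : z.1 = 0
    · rw [ac_lev _ _ hz, ac_lev _ _ hz, ac_lev _ _ hz, add_zero]
    · rw [ac_succ _ _ hz, ac_succ _ _ hz, ac_succ _ _ hz]
      unfold av
      rw [ih, ih]
      ring

theorem ac_mul (c : ℝ) (g : ℕ × ℤ → ℝ) (t : ℕ) : ∀ z, ac (fun z => c * g z) t z = c * ac g t z := by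
  induction t with
  | zero => intro z; simp [ac]
  | succ n ih =>
    intro z
    by_cases hz : z.1 = 0
    · rw [ac_lev _ _ hz, ac_lev _ _ hz, mul_zero]
    · rw [ac_succ _ _ hz, ac_succ _ _ hz]
      unfold av
      rw [ih, ih]
      ring

theorem ac_sum {ι : Type*} (I : Finset ι) (g : ι → ℕ × ℤ → ℝ) (t : ℕ) (z : ℕ × ℤ) :
    ac (fun z => ∑ i ∈ I, g i z) t z = ∑ i ∈ I, ac (g i) t z := by
  classical
  induction I using Finset.induction_on with
  | empty =>
    simp only [sum_empty]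
    have := ac_mul 0 (fun _ => 1) t z
    simpa using this
  | insert i I hi ih =>
    simp only [sum_insert hi]
    rw [ac_add, ih]

theorem ac_mono {g h : ℕ × ℤ → ℝ} (hgh : ∀ z, g z ≤ h z) (t : ℕ) : ∀ z, ac g t z ≤ ac h t z := by
  induction t with
  | zero => intro z; simp [ac]
  | succ n ih =>
    intro z
    by_cases hz : z.1 = 0
    · rw [ac_lev _ _ hz, ac_lev _ _ hz]
    · rw [ac_succ _ _ hz, ac_succ _ _ hz]
      exact add_le_add (hgh z) (av_mono ih z)

theorem ac_const_le {c : ℝ} (hc : 0 ≤ c) (t : ℕ) : ∀ z, ac (fun _ => c) t z ≤ c * t := by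
  induction t with
  | zero => intro z; simp [ac]
  | succ n ih =>
    intro z
    by_cases hz : z.1 = 0
    · rw [ac_lev _ _ hz]; positivity
    · rw [ac_succ _ _ hz]
      have := av_mono ih z
      rw [av_const] at this
      push_cast
      linarith

theorem ac_nonneg {g : ℕ × ℤ → ℝ} (hg : ∀ z, 0 ≤ g z) (t : ℕ) (z : ℕ × ℤ) : 0 ≤ ac g t z := by
  have h1 := ac_mono hg t z
  have h2 := ac_mul 0 (fun _ => (1 : ℝ)) t z
  simp only [zero_mul] at h2
  rw [h2] at h1
  exact h1

theorem ac_abs {g : ℕ × ℤ → ℝ} (t : ℕ) (z : ℕ × ℤ) : |ac g t z| ≤ ac (fun z => |g z|) t z := by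
  rw [abs_le]
  constructor
  · have h1 := ac_mono (g := fun z => -1 * |g z|) (h := g) (fun z => by
      have := neg_abs_le (g z); linarith) t z
    rw [ac_mul] at h1
    linarith
  · exact ac_mono (fun z => le_abs_self (g z)) t z

theorem ac_le_of {g : ℕ × ℤ → ℝ} {c : ℝ} (hc : 0 ≤ c) (hg : ∀ z, |g z| ≤ c) (t : ℕ) (z : ℕ × ℤ) :
    |ac g t z| ≤ c * t :=
  (ac_abs t z).trans ((ac_mono hg t z).trans (ac_const_le hc t z))

/-- the value of `g` at time `t` or when level `0` is reached -/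
noncomputable def st (g : ℕ × ℤ → ℝ) : ℕ → ℕ × ℤ → ℝ
  | 0 => g
  | t + 1 => fun z => if z.1 = 0 then g z else av (st g t) z

theorem st_abs {g : ℕ × ℤ → ℝ} {c : ℝ} (hg : ∀ z, |g z| ≤ c) (t : ℕ) : ∀ z, |st g t z| ≤ c := by
  induction t with
  | zero => intro z; exact hg z
  | succ n ih =>
    intro z
    simp only [st]
    split_ifs with h
    · exact hg z
    · unfold av
      have h1 := ih (step false z)
      have h2 := ih (step true z)
      rw [abs_le] at h1 h2 ⊢
      constructor <;> linarith [h1.1, h1.2, h2.1, h2.2]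

theorem ac_shift (g : ℕ × ℤ → ℝ) (t : ℕ) : ∀ z, ac g t z - ac (av g) t z = g z - st g t z := by
  induction t with
  | zero => intro z; simp [ac, st]
  | succ n ih =>
    intro z
    by_cases hz : z.1 = 0
    · rw [ac_lev _ _ hz, ac_lev _ _ hz]
      simp [st, hz]
    · rw [ac_succ _ _ hz, ac_succ _ _ hz]
      simp only [st, if_neg hz]
      have h1 := ih (step false z)
      have h2 := ih (step true z)
      unfold av at *
      linarith

theorem av_abs {g : ℕ × ℤ → ℝ} {c : ℝ} (hg : ∀ z, |g z| ≤ c) (z : ℕ × ℤ) : |av g z| ≤ c := by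
  unfold av
  have h1 := hg (step false z)
  have h2 := hg (step true z)
  rw [abs_le] at h1 h2 ⊢
  constructor <;> linarith [h1.1, h1.2, h2.1, h2.2]

theorem av_iter_abs {g : ℕ × ℤ → ℝ} {c : ℝ} (hg : ∀ z, |g z| ≤ c) (j : ℕ) : ∀ z, |av^[j] g z| ≤ c := by
  induction j with
  | zero => exact hg
  | succ n ih =>
    intro z
    rw [Function.iterate_succ_apply']
    exact av_abs ih z

theorem ac_slide {g : ℕ × ℤ → ℝ} {c : ℝ} (hg : ∀ z, |g z| ≤ c) (t : ℕ) (z : ℕ × ℤ) (j : ℕ) :
    |ac g t z - ac (av^[j] g) t z| ≤ 2 * c * j := by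
  induction j with
  | zero => simp
  | succ n ih =>
    rw [Function.iterate_succ_apply']
    have h1 := ac_shift (av^[n] g) t z
    have h2 := av_iter_abs hg n z
    have h3 := st_abs (av_iter_abs hg n) t z
    have h4 : ac g t z - ac (av (av^[n] g)) t z
        = (ac g t z - ac (av^[n] g) t z) + (av^[n] g z - st (av^[n] g) t z) := by
      rw [← h1]; ring
    rw [h4]
    have h5 := abs_add_le (ac g t z - ac (av^[n] g) t z) (av^[n] g z - st (av^[n] g) t z)
    have h6 := abs_sub (av^[n] g z) (st (av^[n] g) t z)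
    push_cast
    linarith

theorem ac_window {g : ℕ × ℤ → ℝ} {c : ℝ} (hc : 0 ≤ c) (hg : ∀ z, |g z| ≤ c) (t : ℕ) (z : ℕ × ℤ) (n : ℕ) :
    n * |ac g t z| ≤ ac (fun z => |∑ j ∈ range n, av^[j] g z|) t z + 2 * c * n * n := by
  have h1 : (n : ℝ) * ac g t z = ac (fun z => ∑ j ∈ range n, av^[j] g z) t z
      + ∑ j ∈ range n, (ac g t z - ac (av^[j] g) t z) := by
    rw [ac_sum, sum_sub_distrib, sum_const, card_range, nsmul_eq_mul]
    ring
  have h2 : |∑ j ∈ range n, (ac g t z - ac (av^[j] g) t z)| ≤ 2 * c * n * n := by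
    refine (abs_sum_le_sum_abs _ _).trans ?_
    refine (sum_le_card_nsmul _ _ (2 * c * n) ?_).trans ?_
    · intro j hj
      refine (ac_slide hg t z j).trans ?_
      have : (j : ℝ) ≤ n := by exact_mod_cast (mem_range.1 hj).le
      nlinarith
    · rw [card_range, nsmul_eq_mul]
      apply le_of_eq; ring
  have h3 : (n : ℝ) * |ac g t z| = |(n : ℝ) * ac g t z| := by
    rw [abs_mul, Nat.abs_cast]
  rw [h3, h1]
  refine (abs_add_le _ _).trans ?_
  have := ac_abs (g := fun z => ∑ j ∈ range n, av^[j] g z) t z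
  linarith

end Pool.Agent.Q74.AR
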