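import Pool.Agent.Q74.AR.ArcMid
import Pool.Agent.Q74.AR.Cnt

/-! # Project AR: the arcsine law, uniformly in the distance -/

set_option autoImplicit false

namespace Pool.Agent.Q74.AR

open Finset Filter Topology MeasureTheory ProbabilityTheory
open Pool.Agent.Q158.Pair (T step av surv surv_nonneg surv_le_one surv_iter surv_anti)
open Pool.Agent.Q158.Col4 (cI)

theorem exists_near_one {ε : ℝ} (hε : 0 < ε) : ∃ ρ : ℝ, 0 < ρ ∧ ρ < 1 ∧ 1 - ε ≤ GA ρ := by
  obtain ⟨δ, hδ, h⟩ := GA_unif hε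
  refine ⟨max (1 - δ) (1 / 2), by positivity, max_lt (by linarith) (by norm_num), ?_⟩
  have h0 : max (1 - δ) (1 / 2) < 1 := max_lt (by linarith) (by norm_num)
  have h1 := h 1 (max (1 - δ) (1 / 2)) (by norm_num) le_rfl (by positivity) h0.le (by
    rw [abs_of_nonneg (by linarith)]
    have := le_max_left (1 - δ) (1 / 2)
    linarith)
  rw [GA_one] at h1
  have := (abs_le.1 h1).2
  linarith

theorem exists_near_zero {ε : ℝ} (hε : 0 < ε) : ∃ ρ : ℝ, 0 < ρ ∧ GA ρ ≤ ε := by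
  obtain ⟨δ, hδ, h⟩ := GA_unif hε
  refine ⟨min δ 1, by positivity, ?_⟩
  have h1 := h (min δ 1) 0 (by positivity) (min_le_right _ _) le_rfl (by norm_num) (by
    rw [sub_zero, abs_of_nonneg (by positivity)]
    exact min_le_left _ _)
  rw [GA_zero, sub_zero] at h1
  exact (le_abs_self _).trans h1

/-- the arcsine law for the mean of the probabilities, uniformly in `H` -/
theorem arc_all {ε : ℝ} (hε : 0 < ε) : ∃ t₀ : ℕ, 1 ≤ t₀ ∧ ∀ t : ℕ, t₀ ≤ t → ∀ H : ℕ, 1 ≤ H →
    |PP t H - GA (cI * Real.log H / t)| ≤ ε := by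
  have hc := cI_pos
  obtain ⟨ρ₂, hρ₂0, hρ₂1, hρ₂⟩ := exists_near_one (show 0 < ε / 4 by positivity)
  set ρ₁ := (1 + ρ₂) / 2 with hρ₁
  have hρ₁1 : ρ₁ < 1 := by linarith
  have hρ₁0 : 0 < ρ₁ := by linarith
  have hρ12 : ρ₂ < ρ₁ := by linarith
  obtain ⟨ρ₃, hρ₃0, hρ₃⟩ := exists_near_zero (show 0 < ε / 2 by positivity)
  obtain ⟨δ, hδ, t₁, ht₁, hsurv⟩ := surv_main (show 0 < ε / 2 by positivity)
  set ρ₀ := min (min ρ₃ (δ * cI)) ρ₂ with hρ₀
  have hρ₀0 : 0 < ρ₀ := by positivity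
  have hρ03 : ρ₀ ≤ ρ₃ := (min_le_left _ _).trans (min_le_left _ _)
  have hρ0δ : ρ₀ ≤ δ * cI := (min_le_left _ _).trans (min_le_right _ _)
  have hρ02 : ρ₀ ≤ ρ₂ := min_le_right _ _
  obtain ⟨t₂, ht₂⟩ := arc_mid (ε := ε / 4) (by positivity) hρ₀0 hρ₁1
  obtain ⟨t₃, ht₃⟩ := exists_nat_ge (ρ₂ / (ρ₁ - ρ₂))
  refine ⟨max (max t₁ t₂) t₃, le_trans ht₁ (le_trans (le_max_left _ _) (le_max_left _ _)), fun t ht H hH => ?_⟩
  have htt1 : t₁ ≤ t := le_trans (le_trans (le_max_left _ _) (le_max_left _ _)) ht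
  have htt2 : t₂ ≤ t := le_trans (le_trans (le_max_right _ _) (le_max_left _ _)) ht
  have htt3 : ρ₂ / (ρ₁ - ρ₂) ≤ t := ht₃.trans (by exact_mod_cast le_trans (le_max_right _ _) ht)
  have ht0 : (0 : ℝ) < t := by exact_mod_cast lt_of_lt_of_le ht₁ htt1
  have hHr : (1 : ℝ) ≤ H := by exact_mod_cast hH
  have hlogH : 0 ≤ Real.log H := Real.log_nonneg hHr
  have hP0 := PP_nonneg t H
  have hP1 := PP_le_one t H
  rcases le_or_gt (ρ₀ * t) (cI * Real.log H) with h1 | h1
  · rcases le_or_gt (cI * Real.log H) (ρ₁ * t) with h2 | h2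
    · exact (ht₂ t htt2 H hH h1 h2).trans (by linarith)
    · -- large distance
      set x := cI * Real.log H with hx
      have hx0 : 0 < x := lt_of_le_of_lt (by positivity) h2
      set t' := ⌈x / ρ₁⌉₊ with ht'
      have a1 : x / ρ₁ ≤ t' := Nat.le_ceil _
      have a2 : (t' : ℝ) < x / ρ₁ + 1 := Nat.ceil_lt_add_one (by positivity)
      have a3 : (t : ℝ) < x / ρ₁ := by rw [lt_div_iff₀ hρ₁0]; linarith
      have a4 : t ≤ t' := by
        have : (t : ℝ) ≤ t' := by linarith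
        exact_mod_cast this
      have ht'0 : (0 : ℝ) < t' := by linarith
      have a5 : x ≤ ρ₁ * t' := by
        rw [div_le_iff₀ hρ₁0] at a1; linarith
      have a6 : ρ₂ * t' ≤ x := by
        have i1 : ρ₂ * t' ≤ ρ₂ * (x / ρ₁ + 1) := mul_le_mul_of_nonneg_left a2.le hρ₂0.le
        have i2 : ρ₂ / (ρ₁ - ρ₂) ≤ x / ρ₁ := by linarith
        have hd : 0 < ρ₁ - ρ₂ := by linarith
        rw [div_le_div_iff₀ hd hρ₁0] at i2
        have i3 : ρ₂ * (x / ρ₁ + 1) = (ρ₂ * x + ρ₂ * ρ₁) / ρ₁ := by field_simp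
        have i4 : (ρ₂ * x + ρ₂ * ρ₁) / ρ₁ ≤ x := by
          rw [div_le_iff₀ hρ₁0]
          linarith
        linarith
      have a7 : ρ₀ * t' ≤ x := le_trans (mul_le_mul_of_nonneg_right hρ02 ht'0.le) a6
      have a8 := ht₂ t' (le_trans htt2 a4) H hH a7 a5
      have a9 : GA ρ₂ ≤ GA (x / t') := GA_mono (by rw [le_div_iff₀ ht'0]; exact a6)
      have a10 := PP_anti a4 H
      have a11 : GA ρ₂ ≤ GA (x / t) := GA_mono (by rw [le_div_iff₀ ht0]; nlinarith)
      have a12 := GA_le_one (x / t)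
      have a13 := (abs_le.1 a8).1
      rw [abs_le]
      constructor <;> linarith
  · -- small distance
    have b1 : PP t H ≤ ε / 2 := by
      unfold PP
      rw [div_le_iff₀ (by linarith)]
      refine (sum_le_card_nsmul _ _ (ε / 2) ?_).trans ?_
      · intro h hh
        have c1 : be (0, (h : ℤ)) ≤ Real.exp (δ * t) := by
          unfold be
          simp only [pow_zero, div_one, Int.cast_natCast, Nat.abs_cast]
          have c2 : (h : ℝ) ≤ H := by exact_mod_cast (mem_range.1 hh).le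
          refine c2.trans ?_
          rw [← Real.log_le_iff_le_exp (by linarith)]
          have c3 : cI * Real.log H ≤ cI * (δ * t) := by nlinarith
          exact le_of_mul_le_mul_left c3 hc
        have c4 := (abs_le.1 (hsurv t htt1 (0, (h : ℤ)) c1)).2
        have c5 : lim t 0 = 0 := by
          unfold lim
          simp [Phi_zero]
        simp only at c4
        rw [c5] at c4
        linarith
      · rw [card_range, nsmul_eq_mul, mul_comm]
    have b2 : GA (cI * Real.log H / t) ≤ ε / 2 := by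
      refine (GA_mono ?_).trans hρ₃
      rw [div_le_iff₀ ht0]
      nlinarith
    have b3 := GA_nonneg (cI * Real.log H / t)
    rw [abs_le]
    constructor <;> linarith

end Pool.Agent.Q74.AR
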