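import Pool.Agent.Q74.AR.ArcAll

/-! # Project AR: the arcsine law for pairs of integers, and invariant sets -/

set_option autoImplicit false

namespace Pool.Agent.Q74.AR

open Finset Filter Topology MeasureTheory ProbabilityTheory
open Pool.Agent.Q158.Pair (T step av surv surv_nonneg surv_le_one surv_iter surv_anti inv_iter)
open Pool.Agent.Q158.Col4 (cI)

theorem ne_count (t h : ℕ) (M : ℤ) (L : ℕ) :
    |({x : ℤ | M ≤ x ∧ x < M + L ∧ T^[t] x ≠ T^[t] (x + h)}.ncard : ℝ) - surv t (0, (h : ℤ)) * L| ≤ 2 * 2 ^ t := by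
  have h1 := meet_count t (0, (h : ℤ)) 1 0 (by norm_num) M L
  simpa using h1

theorem eq_count (t h : ℕ) (M : ℤ) (L : ℕ) :
    |({x : ℤ | M ≤ x ∧ x < M + L ∧ T^[t] x = T^[t] (x + h)}.ncard : ℝ) - (1 - surv t (0, (h : ℤ))) * L| ≤ 2 * 2 ^ t := by
  classical
  have h1 := ne_count t h M L
  rw [Pool.Agent.Q158.Pair.ncard_eq (fun x => T^[t] x ≠ T^[t] (x + h))] at h1
  rw [Pool.Agent.Q158.Pair.ncard_eq (fun x => T^[t] x = T^[t] (x + h))]
  have h2 := card_filter_add_card_filter_not (s := Ico M (M + L)) (fun x => T^[t] x = T^[t] (x + h))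
  have h3 : (Ico M (M + L)).card = L := by
    rw [Int.card_Ico]; simp
  rw [h3] at h2
  have h4 : (((Ico M (M + L)).filter (fun x => T^[t] x = T^[t] (x + h))).card : ℝ) +
      (((Ico M (M + L)).filter (fun x => T^[t] x ≠ T^[t] (x + h))).card : ℝ) = L := by exact_mod_cast h2
  rw [abs_le] at h1 ⊢
  constructor <;> linarith [h1.1, h1.2]

theorem exists_K' {ε : ℝ} (hε : 0 < ε) : ∃ K : ℕ, 1 ≤ K ∧ ∀ t L : ℕ, K * 2 ^ t ≤ L → (2 : ℝ) * 2 ^ t ≤ ε * L := by
  obtain ⟨K, hK⟩ := exists_nat_ge (2 / ε)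
  refine ⟨max K 1, le_max_right _ _, fun t L hL => ?_⟩
  have h1 : ((max K 1 * 2 ^ t : ℕ) : ℝ) ≤ L := by exact_mod_cast hL
  push_cast at h1
  have h2 : (K : ℝ) ≤ max (K : ℝ) 1 := le_max_left _ _
  have h3 : (0 : ℝ) < 2 ^ t := by positivity
  rw [div_le_iff₀ hε] at hK
  calc (2 : ℝ) * 2 ^ t ≤ (K * ε) * 2 ^ t := mul_le_mul_of_nonneg_right hK h3.le
    _ = ε * (K * 2 ^ t) := by ring
    _ ≤ ε * (max (K : ℝ) 1 * 2 ^ t) := by gcongr
    _ ≤ ε * L := mul_le_mul_of_nonneg_left h1 hε.le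

theorem one_sub_GA (x : ℝ) : 1 - GA x = 2 / Real.pi * Real.arccos (√x) := by
  unfold GA
  rw [Real.arccos]
  field_simp

theorem cI_form (H t : ℕ) : cI * Real.log H / t = 2 * Real.log H / (t * Real.log (4 / 3)) := by
  unfold cI
  have : Real.log (4 / 3) ≠ 0 := (Real.log_pos (by norm_num)).ne'
  rcases Nat.eq_zero_or_pos t with rfl | ht
  · simp
  · have : (t : ℝ) ≠ 0 := by exact_mod_cast ht.ne'
    field_simp

/-- the arcsine law -/
theorem arcsine {ε : ℝ} (hε : 0 < ε) : ∃ t₀ K : ℕ, ∀ t H L : ℕ, t₀ ≤ t → 1 ≤ H → K * 2 ^ t ≤ L → ∀ M : ℤ,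
    |(∑ h ∈ range H, ({n : ℤ | M ≤ n ∧ n < M + L ∧ T^[t] n = T^[t] (n + h)}.ncard : ℝ)) / (L * H) -
      2 / Real.pi * Real.arccos (√(2 * Real.log H / (t * Real.log (4 / 3))))| ≤ ε := by
  obtain ⟨t₀, ht₀, harc⟩ := arc_all (show 0 < ε / 2 by positivity)
  obtain ⟨K, hK1, hK⟩ := exists_K' (show 0 < ε / 2 by positivity)
  refine ⟨t₀, K, fun t H L ht hH hL M => ?_⟩
  have hHr : (0 : ℝ) < H := by exact_mod_cast hH
  have hLr : (0 : ℝ) < L := by
    have : 0 < K * 2 ^ t := by positivity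
    exact_mod_cast lt_of_lt_of_le this hL
  have h1 := harc t ht H hH
  have h2 := hK t L hL
  rw [cI_form] at h1
  rw [← one_sub_GA]
  have h3 : |(∑ h ∈ range H, ({n : ℤ | M ≤ n ∧ n < M + L ∧ T^[t] n = T^[t] (n + h)}.ncard : ℝ)) / (L * H) -
      (1 - PP t H)| ≤ ε / 2 := by
    have e1 : (1 - PP t H) = (∑ h ∈ range H, (1 - surv t (0, (h : ℤ))) * L) / (L * H) := by
      unfold PP
      rw [← sum_mul, sum_sub_distrib, sum_const, card_range, nsmul_eq_mul, mul_one]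
      field_simp
    rw [e1, ← sub_div, ← sum_sub_distrib, abs_div, abs_of_pos (by positivity : (0 : ℝ) < L * H),
      div_le_iff₀ (by positivity)]
    refine (abs_sum_le_sum_abs _ _).trans ((sum_le_card_nsmul _ _ (ε / 2 * L) fun h _ => ?_).trans ?_)
    · exact (eq_count t h M L).trans h2
    · rw [card_range, nsmul_eq_mul]
      apply le_of_eq; ring
  rw [abs_le] at h1 h3 ⊢
  constructor <;> linarith [h1.1, h1.2, h3.1, h3.2]

/-- pairs separated by an invariant set -/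
theorem separated {ε : ℝ} (hε : 0 < ε) : ∃ L₀ : ℕ, ∀ S : Set ℤ, (∀ x, T x ∈ S ↔ x ∈ S) →
    ∀ (θ : ℝ) (H L : ℕ), L₀ ≤ L → 1 ≤ H → 0 ≤ θ → (H : ℝ) ≤ (L : ℝ) ^ θ → ∀ M : ℤ,
    (∑ h ∈ range H, ({n : ℤ | M ≤ n ∧ n < M + L ∧ ¬ (n ∈ S ↔ n + h ∈ S)}.ncard : ℝ)) ≤
      (2 / Real.pi * Real.arcsin (√(2 * Real.log 2 / Real.log (4 / 3) * θ)) + ε) * (L * H) := by
  classical
  obtain ⟨t₀, ht₀, harc⟩ := arc_all (show 0 < ε / 3 by positivity)
  obtain ⟨K, hK1, hK⟩ := exists_K' (show 0 < ε / 3 by positivity)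
  obtain ⟨δ, hδ, hGA⟩ := GA_unif (show 0 < ε / 3 by positivity)
  set m := Nat.log 2 K + 1 with hm
  have hKm : K < 2 ^ m := Nat.lt_pow_succ_log_self (by norm_num) K
  have hl2 : 0 < Real.log 2 := Real.log_pos (by norm_num)
  have hl43 : 0 < Real.log (4 / 3) := Real.log_pos (by norm_num)
  -- the number of steps
  obtain ⟨t₁, ht₁⟩ := exists_nat_ge ((m + 1 : ℝ) / δ + 1)
  refine ⟨2 ^ (m + max t₀ t₁), fun S hS θ H L hL hH hθ0 hθ M => ?_⟩
  have hHr : (0 : ℝ) < H := by exact_mod_cast hH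
  have hLpos : 0 < L := lt_of_lt_of_le (by positivity) hL
  have hLr : (0 : ℝ) < L := by exact_mod_cast hLpos
  have hlogL : m + max t₀ t₁ ≤ Nat.log 2 L := Nat.le_log_of_pow_le (by norm_num) hL
  obtain ⟨t, ht⟩ := Nat.exists_eq_add_of_le (show m ≤ Nat.log 2 L by omega)
  have htt : max t₀ t₁ ≤ t := by omega
  have htt0 : t₀ ≤ t := le_trans (le_max_left _ _) htt
  have htt1 : (m + 1 : ℝ) / δ + 1 ≤ t := ht₁.trans (by exact_mod_cast le_trans (le_max_right _ _) htt)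
  have ht0 : (0 : ℝ) < t := by
    have : 0 < (m + 1 : ℝ) / δ := by positivity
    linarith
  have hKL : K * 2 ^ t ≤ L := by
    calc K * 2 ^ t ≤ 2 ^ m * 2 ^ t := Nat.mul_le_mul_right _ hKm.le
      _ = 2 ^ (m + t) := (pow_add 2 m t).symm
      _ = 2 ^ Nat.log 2 L := by rw [ht]
      _ ≤ L := Nat.pow_log_le_self 2 hLpos.ne'
  have hlogL2 : Real.log L ≤ (m + 1 + t) * Real.log 2 := by
    have h1 : L < 2 ^ (Nat.log 2 L + 1) := Nat.lt_pow_succ_log_self (by norm_num) L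
    have h2 : (L : ℝ) ≤ 2 ^ (Nat.log 2 L + 1) := by exact_mod_cast h1.le
    have h3 := Real.log_le_log hLr h2
    rw [Real.log_pow, ht] at h3
    push_cast at h3
    linarith
  have hlogH : Real.log H ≤ θ * Real.log L := by
    have := Real.log_le_log hHr hθ
    rwa [Real.log_rpow hLr] at this
  -- separation needs two trajectories that do not meet
  have hsub : ∀ h ∈ range H, ({n : ℤ | M ≤ n ∧ n < M + L ∧ ¬ (n ∈ S ↔ n + h ∈ S)}.ncard : ℝ) ≤
      surv t (0, (h : ℤ)) * L + ε / 3 * L := by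
    intro h _
    have h1 := (abs_le.1 (ne_count t h M L)).2
    have h2 : ({n : ℤ | M ≤ n ∧ n < M + L ∧ ¬ (n ∈ S ↔ n + h ∈ S)}.ncard : ℝ) ≤
        ({x : ℤ | M ≤ x ∧ x < M + L ∧ T^[t] x ≠ T^[t] (x + h)}.ncard : ℝ) := by
      have hfin : {x : ℤ | M ≤ x ∧ x < M + L ∧ T^[t] x ≠ T^[t] (x + h)}.Finite :=
        (Set.finite_Ico M (M + L)).subset fun x hx => ⟨hx.1, hx.2.1⟩
      have : {n : ℤ | M ≤ n ∧ n < M + L ∧ ¬ (n ∈ S ↔ n + h ∈ S)}.ncard ≤
          {x : ℤ | M ≤ x ∧ x < M + L ∧ T^[t] x ≠ T^[t] (x + h)}.ncard := by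
        apply Set.ncard_le_ncard _ hfin
        intro n hn
        refine ⟨hn.1, hn.2.1, fun he => hn.2.2 ?_⟩
        rw [← inv_iter hS t n, ← inv_iter hS t (n + h), he]
      exact_mod_cast this
    have h3 := hK t L hKL
    linarith
  have hsum : (∑ h ∈ range H, ({n : ℤ | M ≤ n ∧ n < M + L ∧ ¬ (n ∈ S ↔ n + h ∈ S)}.ncard : ℝ)) ≤
      (PP t H + ε / 3) * (L * H) := by
    refine (sum_le_sum hsub).trans (le_of_eq ?_)
    unfold PP
    rw [sum_add_distrib, ← sum_mul, sum_const, card_range, nsmul_eq_mul]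
    field_simp
  refine hsum.trans (mul_le_mul_of_nonneg_right ?_ (by positivity))
  have h1 := (abs_le.1 (harc t htt0 H hH)).2
  have h2 : GA (cI * Real.log H / t) ≤ GA (2 * Real.log 2 / Real.log (4 / 3) * θ) + ε / 3 := by
    set y := 2 * Real.log 2 / Real.log (4 / 3) * θ with hy
    have hy0 : 0 ≤ y := by positivity
    rcases le_or_gt 1 y with hy1 | hy1
    · have i1 := GA_le_one (cI * Real.log H / t)
      have i2 := GA_mono hy1
      rw [GA_one] at i2
      linarith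
    · have i1 : cI * Real.log H / t ≤ y * (1 + (m + 1) / t) := by
        rw [div_le_iff₀ ht0]
        have j1 : cI * Real.log H ≤ cI * (θ * ((m + 1 + t) * Real.log 2)) := by
          apply mul_le_mul_of_nonneg_left _ cI_pos.le
          exact hlogH.trans (mul_le_mul_of_nonneg_left hlogL2 hθ0)
        refine j1.trans (le_of_eq ?_)
        rw [hy]
        unfold cI
        field_simp
        ring
      have i3 : (m + 1 : ℝ) / t ≤ δ := by
        rw [div_le_iff₀ ht0]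
        have : (m + 1 : ℝ) / δ ≤ t := by linarith
        rwa [div_le_iff₀ hδ, mul_comm] at this
      have i4 : cI * Real.log H / t ≤ y + δ := by
        refine i1.trans ?_
        have : y * ((m + 1 : ℝ) / t) ≤ 1 * δ := mul_le_mul hy1.le i3 (by positivity) (by norm_num)
        linarith
      have i5 : GA (cI * Real.log H / t) ≤ GA (min (y + δ) 1) := by
        rcases le_total (y + δ) 1 with hc | hc
        · rw [min_eq_left hc]; exact GA_mono i4
        · rw [min_eq_right hc, GA_one]; exact GA_le_one _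
      have i6 := hGA (min (y + δ) 1) y (by positivity) (min_le_right _ _) hy0 hy1.le (by
        rw [abs_le]
        constructor
        · have : y ≤ min (y + δ) 1 := le_min (by linarith) hy1.le
          linarith
        · have := min_le_left (y + δ) 1
          linarith)
      have := (abs_le.1 i6).2
      linarith
  have h3 : GA (2 * Real.log 2 / Real.log (4 / 3) * θ) =
      2 / Real.pi * Real.arcsin (√(2 * Real.log 2 / Real.log (4 / 3) * θ)) := rfl
  rw [← h3]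
  linarith

end Pool.Agent.Q74.AR
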