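import Pool.Agent.Q74.AR.Mid

/-! # Project AR: the arcsine law, middle range -/

set_option autoImplicit false

namespace Pool.Agent.Q74.AR

open Finset Filter Topology MeasureTheory ProbabilityTheory
open Pool.Agent.Q158.Pair (T step av surv surv_nonneg surv_le_one surv_iter surv_anti)

theorem mid {t₁ s H : ℕ} {E w ε err : ℝ} (hH : 1 ≤ H) (ht1 : 1 ≤ t₁) (hs : 1 ≤ s) (hE : 0 < E) (hw : 0 < w)
    (hε : 0 ≤ ε) (h1 : ∀ z : ℕ × ℤ, be z ≤ E → |surv s z - lim s z.1| ≤ ε)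
    (h2 : (3:ℝ) ^ ((t₁:ℝ) / 2 + w) * H / 2 ^ t₁ ≤ E / 2)
    (h3 : ∀ a : ℤ, ∀ F : ℕ → ℝ, (∀ k, 0 ≤ F k) → (∀ k, F k ≤ 1) →
      |(∑ h ∈ range H, F (oc t₁ (a + h))) / H - bE t₁ F| ≤ err) :
    |PP (t₁ + s) H - Dc t₁ (√((t₁:ℝ) / s))| ≤ ε + t₁ / 4 / w ^ 2 + t₁ / E + err := by
  have hHr : (0 : ℝ) < H := by exact_mod_cast hH
  have h2t : (0 : ℝ) < 2 ^ t₁ := by positivity
  have hsr : (0 : ℝ) < s := by exact_mod_cast hs
  have ht1r : (0 : ℝ) < t₁ := by exact_mod_cast ht1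
  set f : ℕ → ℕ → ℝ := fun h r => surv s (ps t₁ (0, (h : ℤ)) r) with hf
  set g : ℕ → ℕ → ℝ := fun h r => lim s (ps t₁ (0, (h : ℤ)) r).1 with hg
  set B : ℝ := ε + t₁ / 4 / w ^ 2 + t₁ / E with hB
  have e1 : PP (t₁ + s) H = (∑ h ∈ range H, (∑ r ∈ range (2 ^ t₁), f h r) / 2 ^ t₁) / H := by
    unfold PP
    congr 1
    apply sum_congr rfl
    intro h _
    rw [surv_iter, hf]
    simp only
    rw [sum_ps (surv s) t₁ (0, (h : ℤ))]
    field_simp
  -- pointwise comparison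
  have hpt : ∀ h ∈ range H, ∀ r : ℕ, |f h r - g h r| ≤ ε + (if (t₁ : ℝ) / 2 + w ≤ oc t₁ r then 1 else 0)
      + 2 / E * (of t₁ r + of t₁ ((r : ℤ) + h)) := by
    intro h hh r
    have n1 := of_nonneg t₁ r
    have n2 := of_nonneg t₁ ((r : ℤ) + h)
    have n3 : 0 ≤ 2 / E * (of t₁ r + of t₁ ((r : ℤ) + h)) := by positivity
    have n4 : (0 : ℝ) ≤ (if (t₁ : ℝ) / 2 + w ≤ oc t₁ r then 1 else 0) := by split_ifs <;> norm_num
    rcases le_or_gt (be (ps t₁ (0, (h : ℤ)) r)) E with hb | hb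
    · have := h1 _ hb
      simp only [hf, hg]
      linarith
    · have m1 : |f h r - g h r| ≤ 1 := by
        simp only [hf, hg]
        have a1 := surv_nonneg s (ps t₁ (0, (h : ℤ)) r)
        have a2 := surv_le_one s (ps t₁ (0, (h : ℤ)) r)
        have a3 := lim_nonneg s (ps t₁ (0, (h : ℤ)) r).1
        have a4 := lim_le_one s (ps t₁ (0, (h : ℤ)) r).1
        rw [abs_le]
        constructor <;> linarith
      split_ifs with ho
      · linarith
      · push Not at ho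
        have m2 := be_ps t₁ h r
        have m3 : (3 : ℝ) ^ oc t₁ r * h / 2 ^ t₁ ≤ E / 2 := by
          refine le_trans ?_ h2
          apply div_le_div_of_nonneg_right _ h2t.le
          apply mul_le_mul _ _ (Nat.cast_nonneg _) (by positivity)
          · rw [← Real.rpow_natCast]
            exact Real.rpow_le_rpow_of_exponent_le (by norm_num) ho.le
          · exact_mod_cast (mem_range.1 hh).le
        have m4 : E / 2 ≤ of t₁ r + of t₁ ((r : ℤ) + h) := by linarith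
        have m5 : 1 ≤ 2 / E * (of t₁ r + of t₁ ((r : ℤ) + h)) := by
          calc (1 : ℝ) = 2 / E * (E / 2) := by field_simp
            _ ≤ _ := mul_le_mul_of_nonneg_left m4 (by positivity)
        linarith
  have hrow : ∀ h ∈ range H, |(∑ r ∈ range (2 ^ t₁), f h r) / 2 ^ t₁ - (∑ r ∈ range (2 ^ t₁), g h r) / 2 ^ t₁| ≤ B := by
    intro h hh
    rw [← sub_div, ← sum_sub_distrib, abs_div, abs_of_pos h2t, div_le_iff₀ h2t]
    refine (abs_sum_le_sum_abs _ _).trans ((sum_le_sum fun r _ => hpt h hh r).trans ?_)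
    rw [sum_add_distrib, sum_add_distrib, sum_const, card_range, nsmul_eq_mul, ← mul_sum, sum_add_distrib, sum_of,
      sum_shift t₁ (of t₁) (of_per t₁) h, sum_of, sum_oc t₁ (fun k => if (t₁ : ℝ) / 2 + w ≤ k then 1 else 0)]
    have b1 := bE_tail t₁ hw
    push_cast
    have b2 : (2 : ℝ) ^ t₁ * bE t₁ (fun k => if (t₁ : ℝ) / 2 + w ≤ k then 1 else 0) ≤ 2 ^ t₁ * (t₁ / 4 / w ^ 2) :=
      mul_le_mul_of_nonneg_left b1 h2t.le
    have b3 : 2 / E * ((2 : ℝ) ^ t₁ * (t₁ / 4) + 2 ^ t₁ * (t₁ / 4)) = t₁ / E * 2 ^ t₁ := by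
      field_simp
      ring
    rw [b3, hB]
    nlinarith
  have hA : |PP (t₁ + s) H - (∑ h ∈ range H, (∑ r ∈ range (2 ^ t₁), g h r) / 2 ^ t₁) / H| ≤ B := by
    rw [e1, ← sub_div, ← sum_sub_distrib, abs_div, abs_of_pos hHr, div_le_iff₀ hHr]
    refine (abs_sum_le_sum_abs _ _).trans ((sum_le_card_nsmul _ _ B hrow).trans ?_)
    rw [card_range, nsmul_eq_mul, mul_comm]
  -- the second phase
  have e2 : (∑ h ∈ range H, (∑ r ∈ range (2 ^ t₁), g h r) / 2 ^ t₁) / H =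
      (∑ r ∈ range (2 ^ t₁), (∑ h ∈ range H, g h r) / H) / 2 ^ t₁ := by
    simp only [sum_div]
    rw [sum_comm]
    apply sum_congr rfl
    intro r _
    apply sum_congr rfl
    intro h _
    ring
  set G : ℕ → ℕ → ℝ := fun j k => fc (√((t₁:ℝ) / s)) (((k : ℝ) - j) / √((t₁ : ℝ) / 2)) with hG
  have hG0 : ∀ j k, 0 ≤ G j k := by
    intro j k
    simp only [hG, fc]
    have := Phi_half (x := √((t₁:ℝ) / s) * |((k : ℝ) - j) / √((t₁ : ℝ) / 2)|) (by positivity)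
    linarith
  have hG1 : ∀ j k, G j k ≤ 1 := fun j k => (abs_le.1 (fc_abs _ _)).2
  have hgG : ∀ h r : ℕ, g h r = G (oc t₁ r) (oc t₁ ((r : ℤ) + h)) := by
    intro h r
    simp only [hg, hG, lim, fc]
    rw [lev_ps, abs_div, abs_of_pos (Real.sqrt_pos.2 (by positivity : 0 < (t₁ : ℝ) / 2))]
    congr 3
    have c1 : √((t₁ : ℝ) / 2) ≠ 0 := (Real.sqrt_pos.2 (by positivity)).ne'
    have c2 : √((s : ℝ) / 2) ≠ 0 := (Real.sqrt_pos.2 (by positivity)).ne'
    have c3 : √((t₁ : ℝ) / s) * √((s : ℝ) / 2) = √((t₁ : ℝ) / 2) := by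
      rw [← Real.sqrt_mul (by positivity)]
      congr 1
      field_simp
    rw [← c3] at c1 ⊢
    have c4 : √((t₁ : ℝ) / s) ≠ 0 := left_ne_zero_of_mul c1
    field_simp
  have hD : (∑ r ∈ range (2 ^ t₁), bE t₁ (G (oc t₁ r))) / 2 ^ t₁ = Dc t₁ (√((t₁:ℝ) / s)) := by
    rw [sum_oc t₁ (fun j => bE t₁ (G j))]
    unfold Dc
    field_simp
    rfl
  have hrow2 : ∀ r ∈ range (2 ^ t₁), |(∑ h ∈ range H, g h r) / H - bE t₁ (G (oc t₁ r))| ≤ err := by
    intro r _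
    have := h3 r (G (oc t₁ r)) (hG0 _) (hG1 _)
    simp only [hgG]
    exact this
  have hC : |(∑ r ∈ range (2 ^ t₁), (∑ h ∈ range H, g h r) / H) / 2 ^ t₁ - Dc t₁ (√((t₁:ℝ) / s))| ≤ err := by
    rw [← hD, ← sub_div, ← sum_sub_distrib, abs_div, abs_of_pos h2t, div_le_iff₀ h2t]
    refine (abs_sum_le_sum_abs _ _).trans ((sum_le_card_nsmul _ _ err hrow2).trans ?_)
    rw [card_range, nsmul_eq_mul, mul_comm]
    push_cast
    exact le_rfl
  rw [e2] at hA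
  rw [abs_le] at hA hC ⊢
  constructor <;> linarith [hA.1, hA.2, hC.1, hC.2]

theorem PP_nonneg (t H : ℕ) : 0 ≤ PP t H := by
  unfold PP
  apply div_nonneg _ (Nat.cast_nonneg _)
  exact sum_nonneg fun h _ => surv_nonneg _ _

theorem PP_le_one (t H : ℕ) : PP t H ≤ 1 := by
  unfold PP
  rcases Nat.eq_zero_or_pos H with rfl | hH
  · simp
  · rw [div_le_one (by exact_mod_cast hH)]
    refine (sum_le_card_nsmul _ _ 1 fun h _ => surv_le_one _ _).trans ?_
    simp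

theorem PP_anti {s t : ℕ} (h : s ≤ t) (H : ℕ) : PP t H ≤ PP s H := by
  unfold PP
  apply div_le_div_of_nonneg_right _ (Nat.cast_nonneg _)
  exact sum_le_sum fun i _ => surv_anti h _

end Pool.Agent.Q74.AR
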