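import Pool.Agent.Q74.AR.ArcLaw

/-! # Project AR: the arcsine law -/

set_option autoImplicit false

namespace Pool.Agent.Q74.AR

open Finset Filter Topology MeasureTheory ProbabilityTheory
open Pool.Agent.Q158.Pair (T step av surv surv_nonneg surv_le_one surv_iter surv_anti)
open Pool.Agent.Q158.Col4 (cI)

/-- the limit function -/
noncomputable def GA (x : ℝ) : ℝ := 2 / Real.pi * Real.arcsin (√x)

theorem GA_cont : Continuous GA := by
  unfold GA
  have := Real.continuous_arcsin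
  fun_prop

theorem GA_mono : Monotone GA := by
  intro x y h
  unfold GA
  apply mul_le_mul_of_nonneg_left _ (by positivity)
  exact Real.monotone_arcsin (Real.sqrt_le_sqrt h)

theorem GA_zero : GA 0 = 0 := by simp [GA]

theorem GA_one : GA 1 = 1 := by
  unfold GA
  rw [Real.sqrt_one, Real.arcsin_one]
  field_simp

theorem GA_nonneg (x : ℝ) : 0 ≤ GA x := by
  unfold GA
  have : 0 ≤ Real.arcsin (√x) := Real.arcsin_nonneg.2 (Real.sqrt_nonneg x)
  positivity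

theorem GA_le_one (x : ℝ) : GA x ≤ 1 := by
  unfold GA
  have h1 := Real.arcsin_le_pi_div_two (√x)
  calc 2 / Real.pi * Real.arcsin (√x) ≤ 2 / Real.pi * (Real.pi / 2) := mul_le_mul_of_nonneg_left h1 (by positivity)
    _ = 1 := by field_simp

theorem arctan_eq {a b : ℝ} (ha : 0 ≤ a) (hb : 0 < b) :
    2 / Real.pi * Real.arctan (√(a / b)) = GA (a / (a + b)) := by
  unfold GA
  have hab : 0 < a + b := by linarith
  have h1 : a / (a + b) < 1 := by rw [div_lt_one hab]; linarith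
  have h0 : 0 ≤ a / (a + b) := by positivity
  have h2 : √(a / (a + b)) < 1 := by
    rw [← Real.sqrt_one]
    exact Real.sqrt_lt_sqrt h0 h1
  have h3 : (-1 : ℝ) < √(a / (a + b)) := lt_of_lt_of_le (by norm_num) (Real.sqrt_nonneg _)
  rw [Real.arcsin_eq_arctan ⟨h3, h2⟩, Real.sq_sqrt h0]
  congr 2
  rw [← Real.sqrt_div h0]
  congr 1
  have : 1 - a / (a + b) = b / (a + b) := by field_simp; ring
  rw [this]
  field_simp

theorem cI_pos : 0 < cI := by
  unfold cI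
  have : 0 < Real.log (4 / 3) := Real.log_pos (by norm_num)
  positivity

theorem GA_unif {ε : ℝ} (hε : 0 < ε) : ∃ δ : ℝ, 0 < δ ∧ ∀ x y : ℝ, 0 ≤ x → x ≤ 1 → 0 ≤ y → y ≤ 1 → |x - y| ≤ δ →
    |GA x - GA y| ≤ ε := by
  have h := (isCompact_Icc (a := (0 : ℝ)) (b := 1)).uniformContinuousOn_of_continuous GA_cont.continuousOn
  rw [Metric.uniformContinuousOn_iff] at h
  obtain ⟨δ, hδ, h⟩ := h ε hε
  refine ⟨δ / 2, by positivity, fun x y hx0 hx1 hy0 hy1 hxy => ?_⟩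
  have := h x ⟨hx0, hx1⟩ y ⟨hy0, hy1⟩ (by rw [Real.dist_eq]; linarith)
  rw [Real.dist_eq] at this
  exact this.le

/-- the middle range -/
theorem arc_mid {ε ρ₀ ρ₁ : ℝ} (hε : 0 < ε) (hρ₀ : 0 < ρ₀) (hρ₁ : ρ₁ < 1) : ∃ t₀ : ℕ, ∀ t : ℕ, t₀ ≤ t → ∀ H : ℕ,
    1 ≤ H → ρ₀ * t ≤ cI * Real.log H → cI * Real.log H ≤ ρ₁ * t → |PP t H - GA (cI * Real.log H / t)| ≤ ε := by
  rcases lt_or_ge ρ₁ ρ₀ with hρ | hρ
  · refine ⟨1, fun t ht H _ h1 h2 => ?_⟩
    exfalso
    have : (1 : ℝ) ≤ t := by exact_mod_cast ht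
    nlinarith
  have hc := cI_pos
  set ε₁ := ε / 8 with hε₁
  have hε₁0 : 0 < ε₁ := by positivity
  obtain ⟨δ, hδ, s₀, hs₀, hsurv⟩ := surv_main hε₁0
  obtain ⟨δ', hδ', hGA⟩ := GA_unif hε₁0
  set b := δ * (1 - ρ₁) with hb
  have hb0 : 0 < b := mul_pos hδ (by linarith)
  set κ := min (min (b / 4) (δ' / 2)) (1 / 2) with hκ
  have hκ0 : 0 < κ := by positivity
  have hκb : κ ≤ b / 4 := (min_le_left _ _).trans (min_le_left _ _)
  have hκd : κ ≤ δ' / 2 := (min_le_left _ _).trans (min_le_right _ _)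
  have hκ2 : κ ≤ 1 / 2 := min_le_right _ _
  obtain ⟨H₀, hH₀, hlaw⟩ := law_F (η := κ * cI) (by positivity) hε₁0
  obtain ⟨T₀, hT₀, hDc⟩ := Dc_unif (c₁ := √(ρ₁ / (1 - ρ₁))) hε₁0
  obtain ⟨t₀, ht₀⟩ := exists_nat_ge (4 / b + 16 / (b ^ 2 * ε₁) + 2 / (b ^ 2 * ε₁) + cI * Real.log H₀ / ρ₀ + s₀ / (1 - ρ₁)
    + (T₀ + 1) * (2 / ρ₀) + 2 / δ')
  refine ⟨t₀, fun t ht H hH h1 h2 => ?_⟩
  have hH₀r : (1 : ℝ) ≤ H₀ := by exact_mod_cast (by omega : 1 ≤ H₀)
  have ht' : 4 / b + 16 / (b ^ 2 * ε₁) + 2 / (b ^ 2 * ε₁) + cI * Real.log H₀ / ρ₀ + s₀ / (1 - ρ₁)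
    + (T₀ + 1) * (2 / ρ₀) + 2 / δ' ≤ t := ht₀.trans (by exact_mod_cast ht)
  have q1 : 0 < 4 / b := by positivity
  have q2 : 0 < 16 / (b ^ 2 * ε₁) := by positivity
  have q3 : 0 < 2 / (b ^ 2 * ε₁) := by positivity
  have q4 : 0 ≤ cI * Real.log H₀ / ρ₀ := by
    have := Real.log_nonneg hH₀r
    positivity
  have q5 : 0 ≤ s₀ / (1 - ρ₁) := div_nonneg (Nat.cast_nonneg _) (by linarith)
  have q6 : 0 < (T₀ + 1) * (2 / ρ₀) := by positivity
  have q7 : 0 < 2 / δ' := by positivity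
  have ht0 : (0 : ℝ) < t := by linarith
  have r1 : 4 ≤ b * t := by
    have : 4 / b ≤ t := by linarith
    rw [div_le_iff₀ hb0] at this; linarith
  have r2 : 16 ≤ b ^ 2 * ε₁ * t := by
    have : 16 / (b ^ 2 * ε₁) ≤ t := by linarith
    rw [div_le_iff₀ (by positivity)] at this; linarith
  have r3 : 2 ≤ b ^ 2 * ε₁ * t := by linarith
  have r4 : cI * Real.log H₀ ≤ ρ₀ * t := by
    have : cI * Real.log H₀ / ρ₀ ≤ t := by linarith
    rw [div_le_iff₀ hρ₀] at this; linarith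
  have r5 : (s₀ : ℝ) ≤ (1 - ρ₁) * t := by
    have : s₀ / (1 - ρ₁) ≤ t := by linarith
    rw [div_le_iff₀ (by linarith)] at this; linarith
  have r6 : 2 * ((T₀ : ℝ) + 1) ≤ ρ₀ * t := by
    have : ((T₀ : ℝ) + 1) * (2 / ρ₀) ≤ t := by linarith
    have h : ((T₀ : ℝ) + 1) * (2 / ρ₀) = 2 * ((T₀ : ℝ) + 1) / ρ₀ := by ring
    rw [h, div_le_iff₀ hρ₀] at this; linarith
  have r7 : 2 ≤ δ' * t := by
    have : 2 / δ' ≤ t := by linarith
    rw [div_le_iff₀ hδ'] at this; linarith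
  set ρ := cI * Real.log H / t with hρdef
  have hρt : ρ * t = cI * Real.log H := by rw [hρdef]; field_simp
  have hρ0 : ρ₀ ≤ ρ := by
    rw [hρdef, le_div_iff₀ ht0]; exact h1
  have hρ1 : ρ ≤ ρ₁ := by
    rw [hρdef, div_le_iff₀ ht0]; exact h2
  have hρpos : 0 < ρ := by linarith
  have hx0 : 0 ≤ (1 - κ) * (ρ * t) := by
    have : 0 ≤ 1 - κ := by linarith
    positivity
  set t₁ := ⌊(1 - κ) * (ρ * t)⌋₊ with ht₁
  have k1 : (t₁ : ℝ) ≤ (1 - κ) * (ρ * t) := Nat.floor_le hx0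
  have k2 : (1 - κ) * (ρ * t) < t₁ + 1 := Nat.lt_floor_add_one _
  have hρtt : ρ * t ≤ t := by nlinarith
  have k3 : (t₁ : ℝ) ≤ ρ * t := by nlinarith
  have k3' : (t₁ : ℝ) ≤ ρ₁ * t := by nlinarith
  have k4 : t₁ ≤ t := by
    have : (t₁ : ℝ) ≤ t := k3.trans hρtt
    exact_mod_cast this
  obtain ⟨s, hs⟩ := Nat.exists_eq_add_of_le k4
  have hsR : (t : ℝ) = t₁ + s := by exact_mod_cast hs
  have k5 : (1 - ρ₁) * t ≤ s := by linarith
  have k6 : s₀ ≤ s := by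
    have : (s₀ : ℝ) ≤ s := by linarith
    exact_mod_cast this
  have k7 : T₀ ≤ t₁ := by
    have i1 : ρ₀ * t ≤ ρ * t := mul_le_mul_of_nonneg_right hρ0 ht0.le
    have i2 : (1 / 2) * (ρ * t) ≤ (1 - κ) * (ρ * t) := mul_le_mul_of_nonneg_right (by linarith) (by positivity)
    have : (T₀ : ℝ) < t₁ + 1 := by linarith
    have : T₀ < t₁ + 1 := by exact_mod_cast this
    omega
  have hHH : H₀ ≤ H := by
    have : Real.log H₀ ≤ Real.log H := by
      have : cI * Real.log H₀ ≤ cI * Real.log H := by linarith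
      exact le_of_mul_le_mul_left this hc
    have h3 := (Real.log_le_log_iff (by linarith) (by exact_mod_cast hH)).1 this
    exact_mod_cast h3
  have hs1 : 1 ≤ s := le_trans hs₀ k6
  have ht11 : 1 ≤ t₁ := le_trans hT₀ k7
  have hsr : (0 : ℝ) < s := by exact_mod_cast hs1
  have ht1r : (0 : ℝ) < t₁ := by exact_mod_cast ht11
  set E := Real.exp (δ * s) with hE
  have hE0 : 0 < E := Real.exp_pos _
  have hbs : b * t ≤ δ * s := by
    rw [hb, mul_assoc]
    exact mul_le_mul_of_nonneg_left k5 hδ.le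
  have hlog3 : Real.log 3 ≤ 2 := by
    have := Real.log_le_sub_one_of_pos (show (0 : ℝ) < 3 by norm_num)
    linarith
  have hlog3' : 0 < Real.log 3 := Real.log_pos (by norm_num)
  have hlog43 : Real.log (4 / 3) ≤ 1 := by
    have := Real.log_le_sub_one_of_pos (show (0 : ℝ) < 4 / 3 by norm_num)
    linarith
  have hlog43' : 0 < Real.log (4 / 3) := Real.log_pos (by norm_num)
  have hlog2 : Real.log 2 ≤ 1 := by
    have := Real.log_le_sub_one_of_pos (show (0 : ℝ) < 2 by norm_num)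
    linarith
  set w := b * t / 8 with hw
  have hw0 : 0 < w := by positivity
  have hsize : (3:ℝ) ^ ((t₁:ℝ) / 2 + w) * H / 2 ^ t₁ ≤ E / 2 := by
    have hHpos : (0 : ℝ) < H := by exact_mod_cast hH
    have e1 : (3:ℝ) ^ ((t₁:ℝ) / 2 + w) * H / 2 ^ t₁ =
        Real.exp (((t₁:ℝ) / 2 + w) * Real.log 3 + Real.log H - t₁ * Real.log 2) := by
      rw [Real.exp_sub, Real.exp_add, Real.exp_log hHpos, ← Real.log_pow, Real.exp_log (by positivity),
        Real.rpow_def_of_pos (by norm_num), mul_comm (Real.log 3)]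
    have e2 : E / 2 = Real.exp (δ * s - Real.log 2) := by
      rw [Real.exp_sub, Real.exp_log (by norm_num)]
    rw [e1, e2]
    apply Real.exp_le_exp.2
    have e3 : Real.log H = ρ * t * Real.log (4 / 3) / 2 := by
      rw [hρt]
      unfold cI
      field_simp
    have e4 : Real.log (4 / 3) = 2 * Real.log 2 - Real.log 3 := by
      rw [Real.log_div (by norm_num) (by norm_num)]
      have : (4 : ℝ) = 2 ^ 2 := by norm_num
      rw [this, Real.log_pow]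
      push_cast
      ring
    have e5 : ((t₁:ℝ) / 2 + w) * Real.log 3 + Real.log H - t₁ * Real.log 2 =
        w * Real.log 3 + (ρ * t - t₁) * Real.log (4 / 3) / 2 := by
      rw [e3]
      have : Real.log 3 = 2 * Real.log 2 - Real.log (4 / 3) := by linarith
      rw [this]
      ring
    rw [e5]
    have i1 : w * Real.log 3 ≤ w * 2 := mul_le_mul_of_nonneg_left hlog3 hw0.le
    have i2 : (ρ * t - t₁) * Real.log (4 / 3) ≤ (ρ * t - t₁) * 1 := mul_le_mul_of_nonneg_left hlog43 (by linarith)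
    have i3 : ρ * t - t₁ ≤ κ * (ρ * t) + 1 := by linarith
    have i4 : κ * (ρ * t) ≤ b / 4 * t := mul_le_mul hκb hρtt (by positivity) (by positivity)
    linarith
  have hM := mid (H := H) (err := ε₁) hH ht11 hs1 hE0 hw0 hε₁0.le (hsurv s k6) hsize (fun a F hF0 hF1 =>
    hlaw H hHH a t₁ (by
      have : (cI - κ * cI) * Real.log H = (1 - κ) * (cI * Real.log H) := by ring
      rw [this, ← hρt]
      exact k1) F hF0 hF1)
  rw [← hs] at hM
  have herr1 : (t₁ : ℝ) / 4 / w ^ 2 ≤ ε₁ := by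
    rw [div_div, div_le_iff₀ (by positivity), hw]
    have i1 : (t₁ : ℝ) ≤ t := by linarith
    have i2 : t * 16 ≤ t * (b ^ 2 * ε₁ * t) := mul_le_mul_of_nonneg_left r2 ht0.le
    nlinarith
  have herr2 : (t₁ : ℝ) / E ≤ ε₁ := by
    rw [div_le_iff₀ hE0]
    have i1 : (t₁ : ℝ) ≤ t := by linarith
    have i2 : (b * t) ^ 2 / 2 ≤ E := by
      have i3 := Real.quadratic_le_exp_of_nonneg (x := δ * s) (by positivity)
      have i4 : (b * t) ^ 2 ≤ (δ * s) ^ 2 := pow_le_pow_left₀ (by positivity) hbs 2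
      have i5 : 0 ≤ δ * s := by positivity
      linarith
    have i6 : t * 2 ≤ t * (b ^ 2 * ε₁ * t) := mul_le_mul_of_nonneg_left r3 ht0.le
    have i7 : ε₁ * ((b * t) ^ 2 / 2) ≤ ε₁ * E := mul_le_mul_of_nonneg_left i2 hε₁0.le
    nlinarith
  have hcc : √((t₁ : ℝ) / s) ≤ √(ρ₁ / (1 - ρ₁)) := by
    apply Real.sqrt_le_sqrt
    rw [div_le_div_iff₀ hsr (by linarith)]
    have i1 : (t₁ : ℝ) * (1 - ρ₁) ≤ ρ₁ * t * (1 - ρ₁) := mul_le_mul_of_nonneg_right k3' (by linarith)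
    have i2 : ρ₁ * ((1 - ρ₁) * t) ≤ ρ₁ * s := mul_le_mul_of_nonneg_left k5 (by linarith)
    linarith
  have hD := hDc t₁ k7 (√((t₁ : ℝ) / s)) (Real.sqrt_nonneg _) hcc
  rw [arctan_eq ht1r.le hsr, ← hsR] at hD
  have hG := hGA (t₁ / t) ρ (by positivity) (by rw [div_le_one ht0]; linarith) hρpos.le (by linarith) (by
    have e1 : (t₁ : ℝ) / t - ρ = (t₁ - ρ * t) / t := by field_simp
    rw [e1, abs_div, abs_of_pos ht0, div_le_iff₀ ht0, abs_le]
    have i4 : κ * (ρ * t) ≤ δ' / 2 * t := mul_le_mul hκd hρtt (by positivity) (by positivity)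
    constructor <;> linarith)
  rw [abs_le] at hM hD hG ⊢
  constructor <;> linarith [hM.1, hM.2, hD.1, hD.2, hG.1, hG.2]

end Pool.Agent.Q74.AR
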