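import Pool.Agent.Q74.AR.PS
import Pool.Agent.Q296.AR.Rw

/-! # Project AR: binomial expectations -/

set_option autoImplicit false

namespace Pool.Agent.Q74.AR

open Finset Filter Topology MeasureTheory ProbabilityTheory
open scoped ENNReal
open Pool.Agent.Q158.Pair (T step av surv e od_even od_odd T_even T_odd sum_two per_sum cop2)
open Pool.Agent.Q296.AR (M)

/-- the expected value of `g k` for the number `k` of heads of `t` fair coins -/
noncomputable def bE : ℕ → (ℕ → ℝ) → ℝ
  | 0 => fun g => g 0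
  | t + 1 => fun g => (bE t g + bE t (fun k => g (k + 1))) / 2

theorem bE_zero (g : ℕ → ℝ) : bE 0 g = g 0 := rfl

theorem bE_succ (t : ℕ) (g : ℕ → ℝ) : bE (t + 1) g = (bE t g + bE t (fun k => g (k + 1))) / 2 := rfl

theorem bE_mono (t : ℕ) : ∀ g h : ℕ → ℝ, (∀ k, g k ≤ h k) → bE t g ≤ bE t h := by
  induction t with
  | zero => intro g h H; exact H 0
  | succ n ih =>
    intro g h H
    rw [bE_succ, bE_succ]
    have h1 := ih g h H
    have h2 := ih (fun k => g (k + 1)) (fun k => h (k + 1)) (fun k => H _)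
    linarith

theorem bE_add (t : ℕ) : ∀ g h : ℕ → ℝ, bE t (fun k => g k + h k) = bE t g + bE t h := by
  induction t with
  | zero => intro g h; rfl
  | succ n ih =>
    intro g h
    rw [bE_succ, bE_succ, bE_succ, ih, ih (fun k => g (k + 1)) (fun k => h (k + 1))]
    ring

theorem bE_mul (t : ℕ) (c : ℝ) : ∀ g : ℕ → ℝ, bE t (fun k => c * g k) = c * bE t g := by
  induction t with
  | zero => intro g; rfl
  | succ n ih =>
    intro g
    rw [bE_succ, bE_succ, ih, ih (fun k => g (k + 1))]
    ring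

theorem bE_const (t : ℕ) (c : ℝ) : bE t (fun _ => c) = c := by
  induction t with
  | zero => rfl
  | succ n ih =>
    rw [bE_succ, ih]
    ring

theorem bE_close (t : ℕ) (g h : ℕ → ℝ) (ε : ℝ) (H : ∀ k, |g k - h k| ≤ ε) : |bE t g - bE t h| ≤ ε := by
  have h1 := bE_mono t g (fun k => h k + ε) (fun k => by have := (abs_le.1 (H k)).2; linarith)
  have h2 := bE_mono t (fun k => h k + -ε) g (fun k => by have := (abs_le.1 (H k)).1; linarith)
  rw [bE_add t h (fun _ => ε), bE_const] at h1
  rw [bE_add t h (fun _ => -ε), bE_const] at h2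
  rw [abs_le]
  constructor <;> linarith

theorem bE_choose (t : ℕ) : ∀ g : ℕ → ℝ, bE t g = ∑ k ∈ range (t + 1), (t.choose k : ℝ) / 2 ^ t * g k := by
  induction t with
  | zero => intro g; simp [bE]
  | succ n ih =>
    intro g
    rw [bE_succ, ih, ih]
    have h1 : ∑ k ∈ range (n + 1 + 1), ((n + 1).choose k : ℝ) / 2 ^ (n + 1) * g k =
        (∑ k ∈ range (n + 1), (n.choose k : ℝ) / 2 ^ (n + 1) * g (k + 1)) +
        ∑ k ∈ range (n + 1), (n.choose (k + 1) : ℝ) / 2 ^ (n + 1) * g (k + 1) + 1 / 2 ^ (n + 1) * g 0 := by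
      rw [sum_range_succ', ← sum_add_distrib]
      congr 1
      · apply sum_congr rfl
        intro k _
        rw [Nat.choose_succ_succ]
        push_cast
        ring
      · simp
    have h2 : ∑ k ∈ range (n + 1), (n.choose k : ℝ) / 2 ^ n * g k =
        2 * (∑ k ∈ range (n + 1), (n.choose (k + 1) : ℝ) / 2 ^ (n + 1) * g (k + 1) + 1 / 2 ^ (n + 1) * g 0) := by
      have h3 : ∑ k ∈ range (n + 1), (n.choose k : ℝ) / 2 ^ n * g k =
          ∑ k ∈ range (n + 1 + 1), (n.choose k : ℝ) / 2 ^ n * g k := by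
        rw [sum_range_succ _ (n + 1), Nat.choose_succ_self]
        simp
      rw [h3, sum_range_succ', mul_add, mul_sum]
      congr 1
      · apply sum_congr rfl
        intro k _
        rw [pow_succ]
        field_simp
      · rw [pow_succ]
        simp
        field_simp
    have h4 : ∑ k ∈ range (n + 1), (n.choose k : ℝ) / 2 ^ n * g (k + 1) =
        2 * ∑ k ∈ range (n + 1), (n.choose k : ℝ) / 2 ^ (n + 1) * g (k + 1) := by
      rw [mul_sum]
      apply sum_congr rfl
      intro k _
      rw [pow_succ]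
      field_simp
    rw [h1, h2, h4]
    ring

/-- the number of odd terms over a complete system of residues is binomial -/
theorem sum_oc (t : ℕ) : ∀ g : ℕ → ℝ, ∑ i ∈ range (2 ^ t), g (oc t i) = 2 ^ t * bE t g := by
  induction t with
  | zero => intro g; simp [bE, oc]
  | succ n ih =>
    intro g
    rw [show 2 ^ (n + 1) = 2 * 2 ^ n by ring, sum_two (fun x => g (oc (n + 1) x))]
    have h1 : ∑ i ∈ range (2 ^ n), g (oc (n + 1) (2 * (i:ℤ))) = 2 ^ n * bE n g := by
      rw [← ih]
      apply sum_congr rfl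
      intro i _
      rw [oc_even]
    have h2 : ∑ i ∈ range (2 ^ n), g (oc (n + 1) (2 * (i:ℤ) + 1)) = 2 ^ n * bE n (fun k => g (k + 1)) := by
      rw [← ih]
      have := per_sum (2 ^ n) (by positivity) (fun x => g (oc n x + 1)) (fun x j => by
        have e : ((2 ^ n : ℕ) : ℤ) = 2 ^ n := by push_cast; rfl
        rw [e, oc_per]) 3 (cop2 n 3 (by norm_num)) 2
      rw [← this]
      apply sum_congr rfl
      intro i _
      rw [oc_odd, add_comm]
    rw [h1, h2, bE_succ]
    ring

/-- shifts of a complete system of residues -/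
theorem sum_shift (t : ℕ) (F : ℤ → ℝ) (hF : ∀ x j : ℤ, F (x + 2 ^ t * j) = F x) (h : ℤ) :
    ∑ i ∈ range (2 ^ t), F (i + h) = ∑ i ∈ range (2 ^ t), F i := by
  have := per_sum (2 ^ t) (by positivity) F (fun x j => by
    have e : ((2 ^ t : ℕ) : ℤ) = 2 ^ t := by push_cast; rfl
    rw [e, hF]) 1 isCoprime_one_left h
  rw [← this]
  apply sum_congr rfl
  intro i _
  rw [one_mul]

theorem bE_three (t : ℕ) : bE t (fun k => (3 : ℝ) ^ k) = 2 ^ t := by
  induction t with
  | zero => simp [bE]
  | succ n ih =>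
    rw [bE_succ, ih]
    have : bE n (fun k => (3 : ℝ) ^ (k + 1)) = 3 * bE n (fun k => (3 : ℝ) ^ k) := by
      rw [← bE_mul]
      congr 1
      funext k
      ring
    rw [this, ih]
    ring

/-- the mean offset -/
theorem sum_of (t : ℕ) : ∑ i ∈ range (2 ^ t), of t i = 2 ^ t * (t / 4) := by
  induction t with
  | zero => simp [of_zero]
  | succ n ih =>
    rw [show 2 ^ (n + 1) = 2 * 2 ^ n by ring, sum_two (fun x => of (n + 1) x)]
    have h1 : ∑ i ∈ range (2 ^ n), of (n + 1) (2 * (i:ℤ)) = 2 ^ n * (n / 4) := by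
      rw [← ih]
      apply sum_congr rfl
      intro i _
      rw [of_succ, T_even]
      have : ¬ (2 * (i : ℤ)) % 2 = 1 := by omega
      rw [if_neg this, add_zero]
    have h2 : ∑ i ∈ range (2 ^ n), of (n + 1) (2 * (i:ℤ) + 1) = 2 ^ n * (n / 4) + 2 ^ n * (1 / 2) := by
      have e : ∀ i : ℕ, of (n + 1) (2 * (i:ℤ) + 1) = of n (3 * i + 2) + 3 ^ oc n (3 * i + 2) / 2 ^ (n + 1) := by
        intro i
        rw [of_succ, T_odd]
        have : (2 * (i : ℤ) + 1) % 2 = 1 := by omega
        rw [if_pos this]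
      simp only [e]
      rw [sum_add_distrib]
      have g1 := per_sum (2 ^ n) (by positivity) (fun x => of n x) (fun x j => by
        have e : ((2 ^ n : ℕ) : ℤ) = 2 ^ n := by push_cast; rfl
        rw [e, of_per]) 3 (cop2 n 3 (by norm_num)) 2
      have g2 := per_sum (2 ^ n) (by positivity) (fun x => (3 : ℝ) ^ oc n x / 2 ^ (n + 1)) (fun x j => by
        have e : ((2 ^ n : ℕ) : ℤ) = 2 ^ n := by push_cast; rfl
        rw [e, oc_per]) 3 (cop2 n 3 (by norm_num)) 2
      rw [g1, g2, ih, ← sum_div, sum_oc n (fun k => (3 : ℝ) ^ k), bE_three]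
      congr 1
      rw [pow_succ]
      field_simp
    rw [h1, h2]
    push_cast
    ring

/-- the second moment -/
theorem bE_sq (t : ℕ) : ∀ c : ℝ, bE t (fun k => ((k : ℝ) - c) ^ 2) = t / 4 + (t / 2 - c) ^ 2 := by
  induction t with
  | zero => intro c; simp [bE]
  | succ n ih =>
    intro c
    rw [bE_succ, ih]
    have : bE n (fun k => (((k + 1 : ℕ) : ℝ) - c) ^ 2) = n / 4 + (n / 2 - (c - 1)) ^ 2 := by
      rw [← ih]
      congr 1
      funext k
      push_cast
      ring
    rw [this]
    push_cast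
    ring

theorem bE_tail (t : ℕ) {r : ℝ} (hr : 0 < r) : bE t (fun k => if (t : ℝ) / 2 + r ≤ k then 1 else 0) ≤ t / 4 / r ^ 2 := by
  have h1 := bE_mono t (fun k => if (t : ℝ) / 2 + r ≤ k then 1 else 0) (fun k => (1 / r ^ 2) * ((k : ℝ) - t / 2) ^ 2)
    (fun k => by
      split_ifs with h
      · rw [one_div, inv_mul_eq_div, le_div_iff₀ (by positivity), one_mul]
        exact pow_le_pow_left₀ hr.le (by linarith) 2
      · positivity)
  rw [bE_mul, bE_sq] at h1
  refine h1.trans (le_of_eq ?_)
  ring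

theorem M_bdd (v : ℕ) {f : ℝ → ℝ} (hf : Continuous f) (hb : ∀ x, |f x| ≤ 1) : Integrable f (M v) :=
  Integrable.of_bound hf.aestronglyMeasurable 1 (Eventually.of_forall fun x => by
    rw [Real.norm_eq_abs]; exact hb x)

theorem int_succ (v : ℕ) {f : ℝ → ℝ} (hf : Continuous f) (hb : ∀ x, |f x| ≤ 1) :
    ∫ x, f x ∂(M (v + 1)) = (∫ x, f (x + 1) ∂(M v) + ∫ x, f (x - 1) ∂(M v)) / 2 := by
  have hM : M (v + 1) = (2⁻¹ : ℝ≥0∞) • (M v).map (· + 1) + (2⁻¹ : ℝ≥0∞) • (M v).map (· + (-1)) := rfl
  have h1 : IsProbabilityMeasure ((M v).map (· + 1)) := Measure.isProbabilityMeasure_map (by fun_prop)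
  have h2 : IsProbabilityMeasure ((M v).map (· + (-1))) := Measure.isProbabilityMeasure_map (by fun_prop)
  have i1 : ∀ μ : Measure ℝ, IsProbabilityMeasure μ → Integrable f μ := by
    intro μ hμ
    exact Integrable.of_bound hf.aestronglyMeasurable 1 (Eventually.of_forall fun x => by
      rw [Real.norm_eq_abs]; exact hb x)
  rw [hM, integral_add_measure ((i1 _ h1).smul_measure (by simp)) ((i1 _ h2).smul_measure (by simp)),
    integral_smul_measure, integral_smul_measure, integral_map (by fun_prop) hf.aestronglyMeasurable,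
    integral_map (by fun_prop) hf.aestronglyMeasurable]
  simp only [ENNReal.toReal_inv, ENNReal.toReal_ofNat, smul_eq_mul, ← sub_eq_add_neg]
  ring

/-- the difference of two independent binomial variables is half the simple random walk -/
theorem bE_two (t : ℕ) : ∀ G : ℝ → ℝ, Continuous G → (∀ x, |G x| ≤ 1) →
    bE t (fun j => bE t (fun k => G ((k : ℝ) - j))) = ∫ x, G (x / 2) ∂(M (2 * t)) := by
  induction t with
  | zero =>
    intro G _ _
    simp [bE, M]
  | succ n ih =>
    intro G hG hb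
    have e1 : 2 * (n + 1) = 2 * n + 1 + 1 := by ring
    rw [e1, int_succ (2 * n + 1) (f := fun x => G (x / 2)) (by fun_prop) (fun x => hb _),
      int_succ (2 * n) (f := fun x => G ((x + 1) / 2)) (by fun_prop) (fun x => hb _),
      int_succ (2 * n) (f := fun x => G ((x - 1) / 2)) (by fun_prop) (fun x => hb _)]
    have a1 : ∫ x, G (x / 2) ∂(M (2 * n)) = bE n (fun j => bE n (fun k => G ((k : ℝ) - j))) := (ih G hG hb).symm
    have a2 : ∫ x, G ((x + 1 + 1) / 2) ∂(M (2 * n)) = bE n (fun j => bE n (fun k => G ((k : ℝ) - j + 1))) := by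
      rw [ih (fun x => G (x + 1)) (by fun_prop) (fun x => hb _)]
      congr 1
      funext x
      congr 1
      ring
    have a3 : ∫ x, G ((x - 1 - 1) / 2) ∂(M (2 * n)) = bE n (fun j => bE n (fun k => G ((k : ℝ) - j - 1))) := by
      rw [ih (fun x => G (x - 1)) (by fun_prop) (fun x => hb _)]
      congr 1
      funext x
      congr 1
      ring
    have a4 : ∫ x, G ((x - 1 + 1) / 2) ∂(M (2 * n)) = bE n (fun j => bE n (fun k => G ((k : ℝ) - j))) := by
      rw [← a1]
      congr 1
      funext x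
      congr 1
      ring
    have a5 : ∫ x, G ((x + 1 - 1) / 2) ∂(M (2 * n)) = bE n (fun j => bE n (fun k => G ((k : ℝ) - j))) := by
      rw [← a1]
      congr 1
      funext x
      congr 1
      ring
    rw [a2, a3, a4, a5]
    simp only [bE_succ]
    push_cast
    have b1 : ∀ j k : ℕ, (k : ℝ) + 1 - (j + 1) = (k : ℝ) - j := fun j k => by ring
    have b2 : ∀ j k : ℕ, (k : ℝ) - (j + 1) = (k : ℝ) - j - 1 := fun j k => by ring
    have b3 : ∀ j k : ℕ, (k : ℝ) + 1 - j = (k : ℝ) - j + 1 := fun j k => by ring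
    simp only [b1, b2, b3]
    have c1 : ∀ f g : ℕ → ℝ, bE n (fun j => (f j + g j) / 2) = (bE n f + bE n g) / 2 := by
      intro f g
      have := bE_mul n (1 / 2) (fun j => f j + g j)
      rw [bE_add] at this
      have e : (fun k => 1 / 2 * (f k + g k)) = fun j => (f j + g j) / 2 := by funext k; ring
      rw [e] at this
      rw [this]
      ring
    rw [c1, c1]
    ring

end Pool.Agent.Q74.AR
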