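import Pool.Agent.Q158.Pair.Main

/-! # Project AR (helper74): scaling limit of the meeting of two 3x+1 trajectories.

A pair `x`, `y = 3 ^ a * x + β` is described by the state `(a, β)` of the chain of
`Pool.Agent.Q158.Pair.Chain` (`step`, `av`, `surv`); `q v a` is the probability that the simple random
walk from `a` avoids `0` during `v` steps. Definitions and statements of the lemma jobs. -/

set_option autoImplicit false

namespace Pool.Agent.Q74.AR

open Finset Filter Topology MeasureTheory ProbabilityTheory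
open Pool.Agent.Q158.Pair (T step av q w w0 sq surv e)

/-- `1` if the two numbers of a pair with state `z` have the same parity, `-1` otherwise -/
def sg (z : ℕ × ℤ) : ℤ := if z.2 % 2 = 0 then 1 else -1

/-- the expected value of the sum of `g` over the states at the times `0, ..., t - 1` before level `0`
is reached -/
noncomputable def ac (g : ℕ × ℤ → ℝ) : ℕ → ℕ × ℤ → ℝ
  | 0 => fun _ => 0
  | t + 1 => fun z => if z.1 = 0 then 0 else g z + av (ac g t) z

/-- the indicator of the states whose level is congruent to `r` modulo `2 ^ m` -/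
noncomputable def rs (m r : ℕ) (z : ℕ × ℤ) : ℝ := if z.1 ≡ r [MOD 2 ^ m] then 1 else 0

/-- the number of `j < n` for which `T^j x`, `T^j y` have the same parity minus the number of the other
`j < n` -/
def Sg (n : ℕ) (x y : ℤ) : ℤ := ∑ j ∈ range n, (if (T^[j] x + T^[j] y) % 2 = 0 then 1 else -1)

/-- the indicator of `|Sg n x y| ≥ δ n` -/
noncomputable def big (δ : ℝ) (n : ℕ) (x y : ℤ) : ℝ := if δ * n ≤ |(Sg n x y : ℝ)| then 1 else 0

/-- the distribution function of the standard normal law -/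
noncomputable def Phi (x : ℝ) : ℝ := cdf (gaussianReal 0 1) x

/-- JOB Occ: occupation times of residue classes of the level. -/
def S_Occ : Prop := ∀ (m K t r : ℕ) (z : ℕ × ℤ), m ≤ K → z.1 + t ≤ 2 ^ K →
  ac (rs m r) t z ≤ (m + 5) / 2 ^ m * t + (m + 4) * 2 ^ m + K * (z.1 + 2) + 6

/-- JOB CS: the Cauchy-Schwarz bound. -/
def S_CS : Prop := ∀ (n K t : ℕ) (F : ℤ → ℤ → ℝ) (z₀ : ℕ × ℤ), 1 ≤ n → n ≤ K → z₀.1 + t ≤ 2 ^ K →
  (∀ x y, 0 ≤ F x y) → (∀ x y i j : ℤ, F (x + 2 ^ n * i) (y + 2 ^ n * j) = F x y) →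
  ac (fun z => (∑ r ∈ range (2 ^ n), F r (3 ^ z.1 * (r : ℤ) + z.2)) / 2 ^ n) t z₀ ^ 2 ≤
    (∑ r ∈ range (2 ^ n), ∑ s ∈ range (2 ^ n), F r s ^ 2) / 4 ^ n *
      (t * (20 * n ^ 2 * t + 2 ^ (n + 1) * ((n + 2) * 2 ^ n + K * (z₀.1 + 2) + 6)))

/-- JOB Big: periodicity and exponential count of the pairs of residues with a large sum. -/
def S_Big : Prop := ∀ (n : ℕ) (δ : ℝ), 0 ≤ δ →
  (∀ x y i j : ℤ, big δ n (x + 2 ^ n * i) (y + 2 ^ n * j) = big δ n x y) ∧
  ∑ r ∈ range (2 ^ n), ∑ s ∈ range (2 ^ n), big δ n r s ≤ 4 ^ n * (2 * Real.exp (-(δ ^ 2 * n / 2)))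

/-- JOB Rep: the mean of the sum of `sg` along the chain as a mean over the residues modulo `2 ^ n`. -/
def S_Rep : Prop := ∀ (n : ℕ) (z : ℕ × ℤ),
  ∑ j ∈ range n, av^[j] (fun z => (sg z : ℝ)) z =
    (∑ r ∈ range (2 ^ n), (Sg n r (3 ^ z.1 * (r : ℤ) + z.2) : ℝ)) / 2 ^ n

/-- JOB Q: the simple random walk, uniformly in the starting point. -/
def S_Q : Prop := ∀ ε : ℝ, 0 < ε → ∃ v₀ : ℕ, ∀ v : ℕ, v₀ ≤ v → ∀ a : ℕ,
  |q v a - (2 * Phi (a / √(v : ℝ)) - 1)| ≤ ε

/-- JOB Arc: a Gaussian integral. -/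
def S_Arc : Prop := ∀ c : ℝ, 0 ≤ c →
  ∫ g, (2 * Phi (c * |g|) - 1) ∂(gaussianReal 0 1) = 2 / Real.pi * Real.arctan c

end Pool.Agent.Q74.AR
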