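import Pool.Agent.Q74.AR.Bin
import Pool.Agent.Q74.AR.Lim
import Pool.Agent.Q296.AR.Arc

/-! # Project AR: the central limit theorem for the difference of two binomial variables, uniformly -/

set_option autoImplicit false

namespace Pool.Agent.Q74.AR

open Finset Filter Topology MeasureTheory ProbabilityTheory
open scoped ENNReal
open Pool.Agent.Q296.AR (M N Gg clt Phi_cont arc)

/-- the function of the Gaussian integral -/
noncomputable def fc (c x : ℝ) : ℝ := 2 * Phi (c * |x|) - 1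

theorem fc_cont (c : ℝ) : Continuous (fc c) := by
  unfold fc
  have := Phi_cont
  fun_prop

theorem fc_abs (c x : ℝ) : |fc c x| ≤ 1 := by
  unfold fc
  have h1 := Phi_nonneg (c * |x|)
  have h2 := Phi_le_one (c * |x|)
  rw [abs_le]
  constructor <;> linarith

theorem fc_lip (c c' x : ℝ) : |fc c x - fc c' x| ≤ 2 * |c - c'| * |x| := by
  unfold fc
  have e : 2 * Phi (c * |x|) - 1 - (2 * Phi (c' * |x|) - 1) = 2 * (Phi (c * |x|) - Phi (c' * |x|)) := by ring
  rw [e, abs_mul, abs_two]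
  have h := Phi_lip (c * |x|) (c' * |x|)
  have e2 : c * |x| - c' * |x| = (c - c') * |x| := by ring
  rw [e2, abs_mul, abs_abs] at h
  linarith

/-- the double binomial expectation -/
noncomputable def Dc (t : ℕ) (c : ℝ) : ℝ := bE t (fun j => bE t (fun k => fc c (((k : ℝ) - j) / √((t : ℝ) / 2))))

theorem Dc_eq (t : ℕ) (ht : 1 ≤ t) (c : ℝ) : Dc t c = ∫ x, fc c x ∂((N (2 * t) : ProbabilityMeasure ℝ) : Measure ℝ) := by
  unfold Dc
  have h1 := bE_two t (fun x => fc c (x / √((t : ℝ) / 2))) ((fc_cont c).comp (by fun_prop)) (fun x => fc_abs c _)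
  rw [h1]
  show _ = ∫ x, fc c x ∂((M (2 * t)).map (fun x => (√((2 * t : ℕ) : ℝ))⁻¹ * x))
  rw [integral_map (by fun_prop) (fc_cont c).aestronglyMeasurable]
  congr 1
  funext x
  congr 1
  have ht0 : (0 : ℝ) < t := by exact_mod_cast ht
  have e : √((2 * t : ℕ) : ℝ) = 2 * √((t : ℝ) / 2) := by
    have : ((2 * t : ℕ) : ℝ) = 2 ^ 2 * (t / 2) := by push_cast; ring
    rw [this, Real.sqrt_mul (by positivity), Real.sqrt_sq (by norm_num)]
  rw [e]
  field_simp

theorem Dc_lim {c : ℝ} (hc : 0 ≤ c) : Tendsto (fun t => Dc t c) atTop (𝓝 (2 / Real.pi * Real.arctan c)) := by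
  rw [← arc c hc]
  have h1 := (ProbabilityMeasure.tendsto_iff_forall_integral_tendsto.1 clt)
    (BoundedContinuousFunction.ofNormedAddCommGroup (fc c) (fc_cont c) 1 (fun x => by
      rw [Real.norm_eq_abs]; exact fc_abs c x))
  have h2 : Tendsto (fun t : ℕ => 2 * t) atTop atTop :=
    tendsto_atTop_mono (fun t => by show t ≤ 2 * t; omega) tendsto_id
  have h3 := h1.comp h2
  refine h3.congr' ?_
  filter_upwards [eventually_ge_atTop 1] with t ht
  rw [Dc_eq t ht c]
  rfl

theorem Dc_lip (t : ℕ) (ht : 1 ≤ t) (c c' : ℝ) : |Dc t c - Dc t c'| ≤ 2 * |c - c'| := by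
  have ht0 : (0 : ℝ) < t := by exact_mod_cast ht
  have hs : √((t : ℝ) / 2) ^ 2 = t / 2 := Real.sq_sqrt (by positivity)
  have hs0 : 0 < √((t : ℝ) / 2) := Real.sqrt_pos.2 (by positivity)
  have key : ∀ c c' : ℝ, Dc t c - Dc t c' ≤ 2 * |c - c'| := by
    intro c c'
    have h1 : Dc t c ≤ bE t (fun j => bE t (fun k => fc c' (((k : ℝ) - j) / √((t : ℝ) / 2)) +
        |c - c'| * (((k : ℝ) - j) ^ 2 * (2 / t) + 1))) := by
      unfold Dc
      apply bE_mono
      intro j
      apply bE_mono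
      intro k
      have h2 := (abs_le.1 (fc_lip c c' (((k : ℝ) - j) / √((t : ℝ) / 2)))).2
      have h3 : 2 * |((k : ℝ) - j) / √((t : ℝ) / 2)| ≤ ((k : ℝ) - j) ^ 2 * (2 / t) + 1 := by
        have h4 : (((k : ℝ) - j) / √((t : ℝ) / 2)) ^ 2 = ((k : ℝ) - j) ^ 2 * (2 / t) := by
          rw [div_pow, hs]
          field_simp
        rw [← h4, ← sq_abs (((k : ℝ) - j) / √((t : ℝ) / 2))]
        nlinarith [sq_nonneg (|((k : ℝ) - j) / √((t : ℝ) / 2)| - 1)]
      have h5 := mul_le_mul_of_nonneg_left h3 (abs_nonneg (c - c'))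
      linarith
    have h2 : bE t (fun j => bE t (fun k => fc c' (((k : ℝ) - j) / √((t : ℝ) / 2)) +
        |c - c'| * (((k : ℝ) - j) ^ 2 * (2 / t) + 1))) = Dc t c' + |c - c'| * 2 := by
      have e1 : ∀ j : ℕ, bE t (fun k => fc c' (((k : ℝ) - j) / √((t : ℝ) / 2)) +
          |c - c'| * (((k : ℝ) - j) ^ 2 * (2 / t) + 1)) =
          bE t (fun k => fc c' (((k : ℝ) - j) / √((t : ℝ) / 2))) + |c - c'| * (2 / t * (t / 4 + (t / 2 - j) ^ 2) + 1) := by
        intro j
        rw [bE_add t (fun k => fc c' (((k : ℝ) - j) / √((t : ℝ) / 2))), bE_mul,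
          bE_add t (fun k => ((k : ℝ) - j) ^ 2 * (2 / t)), bE_const]
        have : (fun k : ℕ => ((k : ℝ) - j) ^ 2 * (2 / t)) = fun k : ℕ => 2 / t * ((k : ℝ) - j) ^ 2 := by
          funext k; ring
        rw [this, bE_mul, bE_sq]
      simp only [e1]
      rw [bE_add t (fun j => bE t (fun k => fc c' (((k : ℝ) - j) / √((t : ℝ) / 2)))), bE_mul]
      congr 2
      have e2 : (fun j : ℕ => 2 / (t : ℝ) * (t / 4 + (t / 2 - j) ^ 2) + 1) =
          fun j : ℕ => 2 / (t : ℝ) * ((j : ℝ) - t / 2) ^ 2 + (1 / 2 + 1) := by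
        funext j
        field_simp
        ring
      rw [e2, bE_add t (fun j => 2 / (t : ℝ) * ((j : ℝ) - t / 2) ^ 2), bE_mul, bE_sq, bE_const]
      field_simp
      ring
    linarith
  rw [abs_le]
  have k1 := key c c'
  have k2 := key c' c
  rw [abs_sub_comm c' c] at k2
  constructor <;> linarith

/-- uniformly for `c` in a bounded set -/
theorem Dc_unif {c₁ ε : ℝ} (hε : 0 < ε) : ∃ t₀ : ℕ, 1 ≤ t₀ ∧ ∀ t : ℕ, t₀ ≤ t → ∀ c : ℝ, 0 ≤ c → c ≤ c₁ →
    |Dc t c - 2 / Real.pi * Real.arctan c| ≤ ε := by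
  have hpi := Real.pi_gt_three
  set κ := ε / 4 with hκ
  have hκ0 : 0 < κ := by positivity
  obtain ⟨m, hm⟩ := exists_nat_ge (c₁ / κ)
  have hev : ∀ᶠ t : ℕ in atTop, ∀ j ∈ range (m + 1), |Dc t (j * κ) - 2 / Real.pi * Real.arctan (j * κ)| < κ := by
    rw [eventually_all_finset]
    intro j _
    have h := (Dc_lim (c := j * κ) (by positivity)).sub_const (2 / Real.pi * Real.arctan (j * κ))
    rw [sub_self] at h
    have h2 := h.abs
    rw [abs_zero] at h2
    exact h2.eventually (gt_mem_nhds hκ0)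
  obtain ⟨t₀, ht₀⟩ := eventually_atTop.1 hev
  refine ⟨max t₀ 1, le_max_right _ _, fun t ht c hc0 hc1 => ?_⟩
  have ht1 : 1 ≤ t := le_trans (le_max_right _ _) ht
  set j := ⌊c / κ⌋₊ with hj
  have hj1 : (j : ℝ) ≤ c / κ := Nat.floor_le (by positivity)
  have hj2 : c / κ < j + 1 := Nat.lt_floor_add_one _
  have hjm : j ∈ range (m + 1) := by
    rw [mem_range]
    have : (j : ℝ) ≤ m := hj1.trans ((div_le_div_of_nonneg_right hc1 hκ0.le).trans hm)
    have : j ≤ m := by exact_mod_cast this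
    omega
  have h1 := ht₀ t (le_trans (le_max_left _ _) ht) j hjm
  have h2 := Dc_lip t ht1 c (j * κ)
  have hd1 : (j : ℝ) * κ ≤ c := by rwa [le_div_iff₀ hκ0] at hj1
  have hd2 : c < (j + 1) * κ := by rwa [div_lt_iff₀ hκ0] at hj2
  have h3 : |c - j * κ| ≤ κ := by
    rw [abs_of_nonneg (by linarith)]
    linarith
  have h4 : |Real.arctan (j * κ) - Real.arctan c| ≤ κ := by
    have : |Real.arctan (j * κ) - Real.arctan c| ≤ |j * κ - c| := by
      have hl : LipschitzWith 1 Real.arctan := by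
        apply lipschitzWith_of_nnnorm_deriv_le Real.differentiable_arctan
        intro x
        rw [← NNReal.coe_le_coe, coe_nnnorm, Real.norm_eq_abs, Real.deriv_arctan, NNReal.coe_one]
        have hx : 0 < 1 + x ^ 2 := by positivity
        show |1 / (1 + x ^ 2)| ≤ 1
        rw [abs_of_pos (by positivity), div_le_one hx]
        nlinarith [sq_nonneg x]
      have := hl.dist_le_mul (j * κ) c
      rw [Real.dist_eq, Real.dist_eq] at this
      simpa using this
    rw [abs_sub_comm (j * κ) c] at this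
    linarith
  have h5 : |2 / Real.pi * Real.arctan (j * κ) - 2 / Real.pi * Real.arctan c| ≤ κ := by
    rw [← mul_sub, abs_mul, abs_of_pos (by positivity)]
    have : 2 / Real.pi ≤ 1 := by
      rw [div_le_one (by positivity)]
      linarith
    have h6 := abs_nonneg (Real.arctan (j * κ) - Real.arctan c)
    nlinarith
  have e : Dc t c - 2 / Real.pi * Real.arctan c = (Dc t c - Dc t (j * κ)) +
      (Dc t (j * κ) - 2 / Real.pi * Real.arctan (j * κ)) +
      (2 / Real.pi * Real.arctan (j * κ) - 2 / Real.pi * Real.arctan c) := by ring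
  rw [e]
  refine (abs_add_three _ _ _).trans ?_
  linarith

end Pool.Agent.Q74.AR
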