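import Pool.Agent.Q74.AR.Main
import Pool.Agent.Q296.AR.Qj

/-! # Project AR: the level of the pair killed at `0` and the killed random walk -/

set_option autoImplicit false

namespace Pool.Agent.Q74.AR

open Finset Filter Topology MeasureTheory ProbabilityTheory
open Pool.Agent.Q158.Pair (T step av q w w0 sq surv e av_mono av_add av_mul av_const zo av_fst
  step_even step_odd_false step_odd_true_succ step_odd_true_zero surv_nonneg surv_le_one)
open Pool.Agent.Q296.AR (r r_zero r_succ r_mono unif)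

/-- the expected value of `g` at the killed random walk -/
noncomputable def uk (g : ℕ → ℝ) : ℕ → ℕ → ℝ
  | 0 => g
  | v + 1 => fun a => if a = 0 then 0 else (uk g v (a + 1) + uk g v (a - 1)) / 2

/-- the expected value of `g` at the level of the pair, killed at level `0` -/
noncomputable def Vk (g : ℕ → ℝ) : ℕ → ℕ × ℤ → ℝ
  | 0 => fun z => g z.1
  | t + 1 => fun z => if z.1 = 0 then 0 else av (Vk g t) z

theorem uk_zero {g : ℕ → ℝ} (hg : g 0 = 0) (v : ℕ) : uk g v 0 = 0 := by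
  cases v with
  | zero => exact hg
  | succ n => simp [uk]

theorem uk_succ (g : ℕ → ℝ) (v a : ℕ) : uk g (v + 1) (a + 1) = (uk g v (a + 2) + uk g v a) / 2 := by
  simp [uk]

theorem Vk_lev {g : ℕ → ℝ} (hg : g 0 = 0) (t : ℕ) {z : ℕ × ℤ} (h : z.1 = 0) : Vk g t z = 0 := by
  cases t with
  | zero => simp only [Vk]; rw [h, hg]
  | succ n => simp [Vk, h]

theorem Vk_succ (g : ℕ → ℝ) (t : ℕ) {z : ℕ × ℤ} (h : z.1 ≠ 0) : Vk g (t + 1) z = av (Vk g t) z := by
  simp [Vk, h]

theorem uk_mono {g h : ℕ → ℝ} (H : ∀ a, g a ≤ h a) (v : ℕ) : ∀ a, uk g v a ≤ uk h v a := by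
  induction v with
  | zero => exact H
  | succ n ih =>
    intro a
    simp only [uk]
    split_ifs
    · exact le_rfl
    · linarith [ih (a + 1), ih (a - 1)]

theorem Vk_mono {g h : ℕ → ℝ} (H : ∀ a, g a ≤ h a) (t : ℕ) : ∀ z, Vk g t z ≤ Vk h t z := by
  induction t with
  | zero => intro z; exact H _
  | succ n ih =>
    intro z
    simp only [Vk]
    split_ifs
    · exact le_rfl
    · exact av_mono ih z

theorem amgm {x κ : ℝ} (hκ : 0 < κ) : |x| ≤ κ / 2 + x ^ 2 / (2 * κ) := by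
  have h1 : |x| * (2 * κ) ≤ κ * κ + x ^ 2 := by
    rw [← sq_abs x]
    nlinarith [sq_nonneg (|x| - κ)]
  have h2 : κ / 2 + x ^ 2 / (2 * κ) = (κ * κ + x ^ 2) / (2 * κ) := by field_simp
  rw [h2, le_div_iff₀ (by positivity)]
  exact h1

section
variable {g : ℕ → ℝ} {ℓ κ : ℝ} (hg : g 0 = 0) (hℓ : 0 ≤ ℓ) (hκ : 0 < κ)
  (hL : ∀ m n : ℕ, |g m - g n| ≤ ℓ * |(m : ℝ) - n|)
include hg hℓ hκ hL

theorem base_lip (m n : ℕ) : |g m - g n| ≤ ℓ * (κ / 2 + ((m : ℝ) - n) ^ 2 / (2 * κ)) :=
  (hL m n).trans (mul_le_mul_of_nonneg_left (amgm hκ) hℓ)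

theorem uk_lip (v : ℕ) : ∀ a c : ℕ, |uk g v a - g c| ≤ ℓ * (κ / 2 + (((a : ℝ) - c) ^ 2 + v) / (2 * κ)) := by
  induction v with
  | zero =>
    intro a c
    have := base_lip hg hℓ hκ hL a c
    simpa [uk] using this
  | succ n ih =>
    intro a c
    rcases a with _ | a
    · rw [uk_zero hg, ← hg]
      refine (base_lip hg hℓ hκ hL 0 c).trans ?_
      apply mul_le_mul_of_nonneg_left _ hℓ
      have : (((0 : ℕ) : ℝ) - c) ^ 2 / (2 * κ) ≤ ((((0 : ℕ) : ℝ) - c) ^ 2 + ((n + 1 : ℕ) : ℝ)) / (2 * κ) :=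
        div_le_div_of_nonneg_right (by have : (0 : ℝ) ≤ ((n + 1 : ℕ) : ℝ) := Nat.cast_nonneg _; linarith)
          (by positivity)
      linarith
    · rw [uk_succ]
      have h1 := ih (a + 2) c
      have h2 := ih a c
      have e : ℓ * (κ / 2 + ((((a + 1 : ℕ) : ℝ) - c) ^ 2 + ((n + 1 : ℕ) : ℝ)) / (2 * κ)) =
          (ℓ * (κ / 2 + ((((a + 2 : ℕ) : ℝ) - c) ^ 2 + n) / (2 * κ)) +
            ℓ * (κ / 2 + (((a : ℝ) - c) ^ 2 + n) / (2 * κ))) / 2 := by
        push_cast
        field_simp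
        ring
      rw [e]
      rw [abs_le] at h1 h2 ⊢
      constructor <;> linarith [h1.1, h1.2, h2.1, h2.2]

/-- the expected number of changes of the level -/
noncomputable def mv (t : ℕ) (z : ℕ × ℤ) : ℝ := ac (fun z => (1 - sr z) / 2) t z

omit hg hℓ hκ hL in
theorem mv_nonneg (t : ℕ) (z : ℕ × ℤ) : 0 ≤ mv t z := by
  apply ac_nonneg
  intro z
  have := (abs_le.1 (sr_abs z)).2
  show 0 ≤ (1 - sr z) / 2
  linarith

omit hg hℓ hκ hL in
theorem sr_even (a : ℕ) (k : ℤ) : sr (a, 2 * k) = 1 := by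
  unfold sr; rw [sg_even]; norm_num

omit hg hℓ hκ hL in
theorem sr_odd (a : ℕ) (k : ℤ) : sr (a, 2 * k + 1) = -1 := by
  unfold sr; rw [sg_odd]; norm_num

theorem Vk_lip (t : ℕ) : ∀ (z : ℕ × ℤ) (c : ℕ),
    |Vk g t z - g c| ≤ ℓ * (κ / 2 + (((z.1 : ℝ) - c) ^ 2 + mv t z) / (2 * κ)) := by
  induction t with
  | zero =>
    intro z c
    have := base_lip hg hℓ hκ hL z.1 c
    simpa [Vk, mv, ac] using this
  | succ n ih =>
    intro z c
    by_cases hz : z.1 = 0
    · rw [Vk_lev hg _ hz, ← hg]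
      refine (base_lip hg hℓ hκ hL 0 c).trans ?_
      apply mul_le_mul_of_nonneg_left _ hℓ
      rw [hz]
      have h1 := mv_nonneg (n + 1) z
      have : (((0 : ℕ) : ℝ) - c) ^ 2 / (2 * κ) ≤ ((((0 : ℕ) : ℝ) - c) ^ 2 + mv (n + 1) z) / (2 * κ) :=
        div_le_div_of_nonneg_right (by linarith) (by positivity)
      linarith
    · rw [Vk_succ _ _ hz]
      have em : mv (n + 1) z = (1 - sr z) / 2 + av (mv n) z := ac_succ _ _ hz
      obtain ⟨a, b⟩ := z
      obtain ⟨a, rfl⟩ : ∃ a', a = a' + 1 := ⟨a - 1, by simp at hz; omega⟩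
      rw [em]
      rcases Int.even_or_odd' b with ⟨k, rfl | rfl⟩
      · rw [sr_even]
        unfold av
        have i1 := ih (step false (a + 1, 2 * k)) c
        have i2 := ih (step true (a + 1, 2 * k)) c
        rw [(step_even (a + 1) k).1] at i1 ⊢
        rw [(step_even (a + 1) k).2] at i2 ⊢
        simp only at i1 i2 ⊢
        set A := Vk g n (a + 1, k)
        set B := Vk g n (a + 1, 3 * k - e (a + 1))
        set m1 := mv n (a + 1, k)
        set m2' := mv n (a + 1, 3 * k - e (a + 1))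
        have e : ℓ * (κ / 2 + ((((a + 1 : ℕ) : ℝ) - c) ^ 2 + ((1 - 1) / 2 + (m1 + m2') / 2)) / (2 * κ)) =
            (ℓ * (κ / 2 + ((((a + 1 : ℕ) : ℝ) - c) ^ 2 + m1) / (2 * κ)) +
            ℓ * (κ / 2 + ((((a + 1 : ℕ) : ℝ) - c) ^ 2 + m2') / (2 * κ))) / 2 := by
          field_simp
          ring
        rw [e]
        rw [abs_le] at i1 i2 ⊢
        constructor <;> linarith [i1.1, i1.2, i2.1, i2.2]
      · rw [sr_odd]
        unfold av
        have i1 := ih (step false (a + 1, 2 * k + 1)) c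
        have i2 := ih (step true (a + 1, 2 * k + 1)) c
        rw [step_odd_false] at i1 ⊢
        rw [step_odd_true_succ] at i2 ⊢
        simp only at i1 i2 ⊢
        set A := Vk g n (a + 1 + 1, 3 * k + 2)
        set B := Vk g n (a, k - e a)
        set m1 := mv n (a + 1 + 1, 3 * k + 2)
        set m2' := mv n (a, k - e a)
        have e : ℓ * (κ / 2 + ((((a + 1 : ℕ) : ℝ) - c) ^ 2 + ((1 - -1) / 2 + (m1 + m2') / 2)) / (2 * κ)) =
            (ℓ * (κ / 2 + ((((a + 1 + 1 : ℕ) : ℝ) - c) ^ 2 + m1) / (2 * κ)) +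
            ℓ * (κ / 2 + (((a : ℝ) - c) ^ 2 + m2') / (2 * κ))) / 2 := by
          push_cast
          field_simp
          ring
        rw [e]
        rw [abs_le] at i1 i2 ⊢
        constructor <;> linarith [i1.1, i1.2, i2.1, i2.2]

omit hg hℓ hκ hL in
theorem Wf_id (t : ℕ) : ∀ z w, Wf (fun w => -(w : ℝ)) t z w = -(w : ℝ) - ac sr t z := by
  induction t with
  | zero => intro z w; simp [Wf, ac]
  | succ n ih =>
    intro z w
    by_cases hz : z.1 = 0
    · rw [Wf_lev _ _ hz, ac_lev _ _ hz, sub_zero]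
    · rw [Wf_succ _ _ hz, ac_succ _ _ hz]
      unfold av
      beta_reduce
      rw [ih, ih]
      have e : ((w + sg z : ℤ) : ℝ) = w + sr z := by push_cast; rfl
      rw [e]
      ring

omit hg hℓ hκ hL in
/-- the frozen part -/
theorem mv_le (t : ℕ) (z : ℕ × ℤ) : 2 * mv t z ≤ Wf (fun w => |(w : ℝ)|) t z (-(t : ℤ)) := by
  have h1 : 2 * mv t z = ac (fun _ => 1) t z + -1 * ac sr t z := by
    unfold mv
    rw [← ac_mul 2, ← ac_mul (-1) sr, ← ac_add (fun _ => 1) (fun z => -1 * sr z)]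
    congr 1
    funext z
    ring
  have h2 := ac_const_le (c := 1) zero_le_one t z
  have h3 := Wf_mono (φ := fun w : ℤ => -(w : ℝ)) (ψ := fun w : ℤ => |(w : ℝ)|) (fun w => neg_le_abs _) t z (-(t : ℤ))
  rw [Wf_id] at h3
  push_cast at h3
  linarith

omit hg hℓ hκ hL in
theorem Wf_abs_nonneg (t : ℕ) (z : ℕ × ℤ) (w : ℤ) : 0 ≤ Wf (fun w => |(w : ℝ)|) t z w :=
  Wf_nonneg (fun w => abs_nonneg _) t z w

/-- the killed level and the killed random walk -/
theorem Vk_uk (t : ℕ) : ∀ (z : ℕ × ℤ) (v : ℕ),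
    |Vk g t z - uk g v z.1| ≤ ℓ * (κ / 2 + Wf (fun w => |(w : ℝ)|) t z (2 * v - t) / (4 * κ)) := by
  induction t with
  | zero =>
    intro z v
    have h1 := uk_lip hg hℓ hκ hL v z.1 z.1
    rw [abs_sub_comm]
    refine h1.trans (le_of_eq ?_)
    have : Wf (fun w : ℤ => |(w : ℝ)|) 0 z (2 * v - ((0 : ℕ) : ℤ)) = 2 * v := by
      simp only [Wf]
      push_cast
      rw [sub_zero, abs_of_nonneg (by positivity)]
    rw [this]
    field_simp
    ring
  | succ n ih =>
    intro z v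
    have hW := Wf_abs_nonneg (n + 1) z (2 * v - ((n + 1 : ℕ) : ℤ))
    by_cases hz : z.1 = 0
    · rw [Vk_lev hg _ hz, hz, uk_zero hg, sub_zero, abs_zero]
      positivity
    · rcases Int.even_or_odd' z.2 with ⟨k, hk | hk⟩
      · -- the level does not move
        rw [Vk_succ _ _ hz, Wf_succ _ _ hz]
        obtain ⟨a, b⟩ := z
        simp only at hk
        subst hk
        obtain ⟨a, rfl⟩ : ∃ a', a = a' + 1 := ⟨a - 1, by simp at hz; omega⟩
        rw [sg_even]
        unfold av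
        have i1 := ih (step false (a + 1, 2 * k)) v
        have i2 := ih (step true (a + 1, 2 * k)) v
        have ew : (2 * (v : ℤ) - ((n + 1 : ℕ) : ℤ) + 1) = 2 * v - n := by push_cast; ring
        rw [ew]
        rw [(step_even (a + 1) k).1] at i1 ⊢
        rw [(step_even (a + 1) k).2] at i2 ⊢
        simp only at i1 i2 ⊢
        set A := Vk g n (a + 1, k)
        set B := Vk g n (a + 1, 3 * k - e (a + 1))
        set U := uk g v (a + 1)
        set W1 := Wf (fun w : ℤ => |(w : ℝ)|) n (a + 1, k) (2 * v - n)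
        set W2 := Wf (fun w : ℤ => |(w : ℝ)|) n (a + 1, 3 * k - e (a + 1)) (2 * v - n)
        have e : ℓ * (κ / 2 + (W1 + W2) / 2 / (4 * κ)) =
            (ℓ * (κ / 2 + W1 / (4 * κ)) + ℓ * (κ / 2 + W2 / (4 * κ))) / 2 := by
          field_simp
          ring
        rw [e]
        rw [abs_le] at i1 i2 ⊢
        constructor <;> linarith [i1.1, i1.2, i2.1, i2.2]
      · rcases v with _ | v
        · -- frozen
          have h1 := Vk_lip hg hℓ hκ hL (n + 1) z z.1
          have h2 := mv_le (n + 1) z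
          have e0 : (2 * ((0 : ℕ) : ℤ) - ((n + 1 : ℕ) : ℤ)) = -((n + 1 : ℕ) : ℤ) := by push_cast; ring
          rw [e0]
          refine h1.trans ?_
          apply mul_le_mul_of_nonneg_left _ hℓ
          rw [sub_self]
          have h3 : (0 ^ 2 + mv (n + 1) z) / (2 * κ) = 2 * mv (n + 1) z / (4 * κ) := by
            field_simp
            ring
          rw [h3]
          have := div_le_div_of_nonneg_right h2 (by positivity : (0 : ℝ) ≤ 4 * κ)
          linarith
        · rw [Vk_succ _ _ hz, Wf_succ _ _ hz]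
          obtain ⟨a, b⟩ := z
          simp only at hk
          subst hk
          obtain ⟨a, rfl⟩ : ∃ a', a = a' + 1 := ⟨a - 1, by simp at hz; omega⟩
          rw [sg_odd]
          unfold av
          have i1 := ih (step false (a + 1, 2 * k + 1)) v
          have i2 := ih (step true (a + 1, 2 * k + 1)) v
          have ew : (2 * ((v + 1 : ℕ) : ℤ) - ((n + 1 : ℕ) : ℤ) + -1) = 2 * v - n := by push_cast; ring
          rw [ew]
          rw [step_odd_false] at i1 ⊢
          rw [step_odd_true_succ] at i2 ⊢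
          simp only at i1 i2 ⊢
          rw [uk_succ]
          have e1 : a + 1 + 1 = a + 2 := rfl
          rw [e1] at i1 ⊢
          set A := Vk g n (a + 2, 3 * k + 2)
          set B := Vk g n (a, k - e a)
          set W1 := Wf (fun w : ℤ => |(w : ℝ)|) n (a + 2, 3 * k + 2) (2 * v - n)
          set W2 := Wf (fun w : ℤ => |(w : ℝ)|) n (a, k - e a) (2 * v - n)
          have e : ℓ * (κ / 2 + (W1 + W2) / 2 / (4 * κ)) =
              (ℓ * (κ / 2 + W1 / (4 * κ)) + ℓ * (κ / 2 + W2 / (4 * κ))) / 2 := by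
            field_simp
            ring
          rw [e]
          rw [abs_le] at i1 i2 ⊢
          constructor <;> linarith [i1.1, i1.2, i2.1, i2.2]

end

theorem Wf_abs_le {μ : ℝ} (hμ : 0 < μ) (t : ℕ) (z : ℕ × ℤ) (w : ℤ) :
    Wf (fun w => |(w : ℝ)|) t z w ≤ μ / 2 + ((w : ℝ) ^ 2 + 2 * w * ac sr t z + m2 t z) / (2 * μ) := by
  have h1 : ∀ (t : ℕ) (z : ℕ × ℤ) (w : ℤ), Wf (fun w : ℤ => μ / 2 + (1 / (2 * μ)) * (w : ℝ) ^ 2) t z w =
      μ / 2 + (1 / (2 * μ)) * Wf (fun w : ℤ => (w : ℝ) ^ 2) t z w := by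
    intro t
    induction t with
    | zero => intro z w; rfl
    | succ n ih =>
      intro z w
      by_cases hz : z.1 = 0
      · rw [Wf_lev _ _ hz, Wf_lev _ _ hz]
      · rw [Wf_succ _ _ hz, Wf_succ _ _ hz]
        unfold av
        beta_reduce
        rw [ih, ih]
        ring
  have h2 := Wf_mono (φ := fun w : ℤ => |(w : ℝ)|) (ψ := fun w : ℤ => μ / 2 + (1 / (2 * μ)) * (w : ℝ) ^ 2)
    (fun w => by
      have := amgm (x := (w : ℝ)) hμ
      have e : (w : ℝ) ^ 2 / (2 * μ) = 1 / (2 * μ) * (w : ℝ) ^ 2 := by ring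
      rw [e] at this
      exact this) t z w
  rw [h1, Wf_sq] at h2
  refine h2.trans (le_of_eq ?_)
  ring

/-- the indicator of `m ≤ a` -/
noncomputable def ind (m a : ℕ) : ℝ := if m ≤ a then 1 else 0

/-- the reflection principle -/
theorem uk_ind {m : ℕ} (hm : 1 ≤ m) (v : ℕ) : ∀ a : ℕ, uk (ind m) v a = r v ((a : ℝ) + m - 1) - r v ((m : ℝ) - 1 - a) := by
  induction v with
  | zero =>
    intro a
    have hm' : (1 : ℝ) ≤ m := by exact_mod_cast hm
    rw [r_zero, r_zero, if_pos (by have : (0 : ℝ) ≤ a := Nat.cast_nonneg _; linarith)]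
    simp only [uk, ind]
    by_cases h : m ≤ a
    · have h' : (m : ℝ) ≤ a := by exact_mod_cast h
      rw [if_pos h, if_neg (by linarith)]
      norm_num
    · have h' : (a : ℝ) + 1 ≤ m := by exact_mod_cast (by omega : a + 1 ≤ m)
      rw [if_neg h, if_pos (by linarith)]
      norm_num
  | succ n ih =>
    intro a
    rcases a with _ | a
    · rw [uk_zero (by simp [ind]; omega)]
      have : ((0 : ℕ) : ℝ) + m - 1 = (m : ℝ) - 1 - ((0 : ℕ) : ℝ) := by push_cast; ring
      rw [this, sub_self]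
    · rw [uk_succ, ih, ih, r_succ, r_succ]
      push_cast
      have e1 : ((a : ℝ) + 2 + m - 1) = a + 1 + m - 1 + 1 := by ring
      have e2 : ((a : ℝ) + m - 1) = a + 1 + m - 1 - 1 := by ring
      have e3 : ((m : ℝ) - 1 - (a + 2)) = m - 1 - (a + 1) - 1 := by ring
      have e4 : ((m : ℝ) - 1 - a) = m - 1 - (a + 1) + 1 := by ring
      rw [e1, e2, e3, e4]
      ring

end Pool.Agent.Q74.AR
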