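import Pool.Agent.Q74.AR.Surv
import Pool.Agent.Q144.AR.Occ
import Pool.Agent.Q213.AR.CS
import Pool.Agent.Q37.AR.Sg
import Pool.Agent.Q296.AR.Qj
import Pool.Agent.Q296.AR.Arc

/-! # Project AR: the scaling limits without hypotheses (occupation times: helper144; Cauchy-Schwarz bound:
helper213; sums of signs: helper37; random walk and Gaussian integral: helper296) -/

set_option autoImplicit false

namespace Pool.Agent.Q74.AR

open Finset Filter Topology MeasureTheory ProbabilityTheory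
open Pool.Agent.Q158.Pair (T step av q w w0 sq surv e)

theorem hCS : S_CS := Pool.Agent.Q213.AR.cs Pool.Agent.Q144.AR.occ

/-- the probability that level `0` is not reached -/
theorem qq_main {ε : ℝ} (hε : 0 < ε) :
    ∃ t₀ : ℕ, 1 ≤ t₀ ∧ ∀ t : ℕ, t₀ ≤ t → ∀ z : ℕ × ℤ, |qq t z - lim t z.1| ≤ ε :=
  qq_lim hCS _root_.Q37.AR.big_job _root_.Q37.AR.rep Pool.Agent.Q296.AR.q_job hε

/-- the probability that the pair has not met -/
theorem surv_main {ε : ℝ} (hε : 0 < ε) :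
    ∃ δ : ℝ, 0 < δ ∧ ∃ t₀ : ℕ, 1 ≤ t₀ ∧ ∀ t : ℕ, t₀ ≤ t → ∀ z : ℕ × ℤ, be z ≤ Real.exp (δ * t) →
      |surv t z - lim t z.1| ≤ ε :=
  surv_lim hCS _root_.Q37.AR.big_job _root_.Q37.AR.rep Pool.Agent.Q296.AR.q_job hε


end Pool.Agent.Q74.AR
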