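import Pool.Agent.Q74.AR.Ac

/-! # Project AR: the mean of the sum of the signs until level 0 -/

set_option autoImplicit false

namespace Pool.Agent.Q74.AR

open Finset Filter Topology MeasureTheory ProbabilityTheory
open Pool.Agent.Q158.Pair (T step av q w w0 sq surv e av_mono av_add av_mul av_const)

/-- the sign as a real number -/
noncomputable def sr (z : ℕ × ℤ) : ℝ := (sg z : ℝ)

theorem sr_abs (z : ℕ × ℤ) : |sr z| ≤ 1 := by
  unfold sr sg
  split_ifs <;> norm_num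

theorem Sg_abs (n : ℕ) (x y : ℤ) : |(Sg n x y : ℝ)| ≤ n := by
  unfold Sg
  push_cast
  refine (abs_sum_le_sum_abs _ _).trans ?_
  refine (sum_le_card_nsmul _ _ 1 ?_).trans ?_
  · intro j _
    split_ifs <;> norm_num
  · rw [card_range, nsmul_eq_mul, mul_one]

theorem Sg_big {δ : ℝ} (hδ : 0 ≤ δ) (n : ℕ) (x y : ℤ) : |(Sg n x y : ℝ)| ≤ δ * n + n * big δ n x y := by
  unfold big
  split_ifs with h
  · have := Sg_abs n x y
    have : 0 ≤ δ * n := by positivity
    linarith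
  · push Not at h
    simpa using h.le

theorem exists_n {δ : ℝ} (hδ : 0 < δ) : ∃ n : ℕ, 1 ≤ n ∧
    2 * Real.exp (-(δ ^ 2 * n / 2)) * (20 * n ^ 2) ≤ δ ^ 2 ∧ 2 * Real.exp (-(δ ^ 2 * n / 2)) ≤ 2 * δ := by
  have h1 : Tendsto (fun x : ℝ => x ^ 2 * Real.exp (-x)) atTop (𝓝 0) :=
    Real.tendsto_pow_mul_exp_neg_atTop_nhds_zero 2
  have h0 : Tendsto (fun n : ℕ => δ ^ 2 / 2 * (n : ℝ)) atTop atTop :=
    Tendsto.const_mul_atTop (by positivity) tendsto_natCast_atTop_atTop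
  have h2 := h1.comp h0
  have h3 : Tendsto (fun n : ℕ => Real.exp (-(δ ^ 2 / 2 * (n : ℝ)))) atTop (𝓝 0) :=
    Real.tendsto_exp_neg_atTop_nhds_zero.comp h0
  have e1 : ∀ᶠ n : ℕ in atTop, (δ ^ 2 / 2 * (n : ℝ)) ^ 2 * Real.exp (-(δ ^ 2 / 2 * (n : ℝ))) < δ ^ 6 / 160 :=
    h2.eventually (gt_mem_nhds (by positivity))
  have e2 : ∀ᶠ n : ℕ in atTop, Real.exp (-(δ ^ 2 / 2 * (n : ℝ))) < δ :=
    h3.eventually (gt_mem_nhds hδ)
  obtain ⟨n, hn1, hn2, hn3⟩ := (e1.and (e2.and (eventually_ge_atTop 1))).exists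
  refine ⟨n, hn3, ?_, ?_⟩
  · have e : -(δ ^ 2 * n / 2) = -(δ ^ 2 / 2 * (n : ℝ)) := by ring
    rw [e]
    have h5 : (δ ^ 2 / 2 * (n : ℝ)) ^ 2 * Real.exp (-(δ ^ 2 / 2 * (n : ℝ)))
        = δ ^ 4 / 160 * (2 * Real.exp (-(δ ^ 2 / 2 * (n : ℝ))) * (20 * n ^ 2)) := by ring
    rw [h5] at hn1
    have h6 : δ ^ 6 / 160 = δ ^ 4 / 160 * δ ^ 2 := by ring
    rw [h6] at hn1
    exact (lt_of_mul_lt_mul_left hn1 (by positivity)).le
  · have e : -(δ ^ 2 * n / 2) = -(δ ^ 2 / 2 * (n : ℝ)) := by ring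
    rw [e]
    linarith

/-- the mean of the sum of the signs until level `0` is small -/
theorem mean (hc : S_CS) (hb : S_Big) (hr : S_Rep) {δ : ℝ} (hδ : 0 < δ) : ∃ C : ℝ, 0 < C ∧
    ∀ (s K : ℕ) (z : ℕ × ℤ), z.1 + s ≤ 2 ^ K → |ac sr s z| ≤ δ * s + C * (1 + K * (z.1 + 2)) := by
  obtain ⟨n, hn1, hn2, hn3⟩ := exists_n (half_pos hδ)
  set η := δ / 2 with hη
  have hη0 : 0 < η := half_pos hδ
  set A : ℝ := 2 ^ (n + 1) * ((n + 2) * 2 ^ n + 7) with hA
  have hA0 : 0 < A := by positivity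
  refine ⟨A + 2 * n + 2 ^ n, by positivity, fun s K z hs => ?_⟩
  have hK0 : (0 : ℝ) ≤ K * (z.1 + 2) := by positivity
  have hn0 : (0 : ℝ) < n := by exact_mod_cast hn1
  rcases Nat.lt_or_ge K n with hK | hK
  · have h1 := ac_le_of zero_le_one sr_abs s z
    have h2 : (s : ℝ) ≤ 2 ^ n := by
      have : s ≤ 2 ^ n := by
        have := Nat.pow_le_pow_right (n := 2) (by norm_num) hK.le
        omega
      exact_mod_cast this
    have h3 : 0 ≤ δ * s := by positivity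
    have h4 : (2 : ℝ) ^ n ≤ (A + 2 * n + 2 ^ n) * (1 + K * (z.1 + 2)) := by
      have : (A + 2 * n + 2 ^ n) * 1 ≤ (A + 2 * n + 2 ^ n) * (1 + K * (z.1 + 2)) :=
        mul_le_mul_of_nonneg_left (by linarith) (by positivity)
      linarith
    linarith
  · set P : ℕ × ℤ → ℝ := fun z => (∑ r ∈ range (2 ^ n), big η n r (3 ^ z.1 * (r : ℤ) + z.2)) / 2 ^ n with hP
    have hbn : ∀ x y, 0 ≤ big η n x y := fun x y => by unfold big; split_ifs <;> norm_num
    have hbs : ∀ x y, big η n x y ^ 2 = big η n x y := fun x y => by unfold big; split_ifs <;> norm_num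
    have hf : ∀ z, |∑ j ∈ range n, av^[j] sr z| ≤ η * n + n * P z := by
      intro z
      have h1 := hr n z
      have e1 : (fun z => (sg z : ℝ)) = sr := rfl
      rw [e1] at h1
      rw [h1, abs_div, abs_of_pos (by positivity : (0 : ℝ) < 2 ^ n), div_le_iff₀ (by positivity)]
      refine (abs_sum_le_sum_abs _ _).trans ?_
      have h2 : ∑ r ∈ range (2 ^ n), |(Sg n r (3 ^ z.1 * (r : ℤ) + z.2) : ℝ)|
          ≤ ∑ r ∈ range (2 ^ n), (η * n + n * big η n r (3 ^ z.1 * (r : ℤ) + z.2)) :=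
        sum_le_sum fun r _ => Sg_big hη0.le n r (3 ^ z.1 * (r : ℤ) + z.2)
      refine h2.trans ?_
      rw [sum_add_distrib, sum_const, card_range, nsmul_eq_mul, ← mul_sum, hP]
      push_cast
      apply le_of_eq
      field_simp
    have h1 := ac_window zero_le_one sr_abs s z n
    have h2 : ac (fun z => |∑ j ∈ range n, av^[j] sr z|) s z ≤ η * n * s + n * ac P s z := by
      refine (ac_mono hf s z).trans ?_
      rw [ac_add (fun _ => η * n) (fun z => n * P z), ac_mul (n : ℝ) P]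
      have := ac_const_le (c := η * n) (by positivity) s z
      linarith
    have h3 := hc n K s (big η n) z hn1 hK hs hbn (hb n η hη0.le).1
    have h4 := (hb n η hη0.le).2
    simp only [hbs] at h3
    set B : ℝ := 2 ^ (n + 1) * ((n + 2) * 2 ^ n + K * (z.1 + 2) + 6) with hB
    have hB0 : 0 ≤ B := by positivity
    have h5 : ac P s z ^ 2 ≤ (2 * Real.exp (-(η ^ 2 * n / 2))) * (s * (20 * n ^ 2 * s + B)) := by
      refine h3.trans ?_
      apply mul_le_mul_of_nonneg_right _ (by positivity)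
      rw [div_le_iff₀ (by positivity)]
      linarith
    have h6 : ac P s z ≤ η * s + B := by
      apply le_of_sq_le_sq _ (by positivity)
      refine h5.trans ?_
      have e1 : (2 * Real.exp (-(η ^ 2 * n / 2))) * (s * (20 * n ^ 2 * s + B))
          = (2 * Real.exp (-(η ^ 2 * n / 2)) * (20 * n ^ 2)) * (s : ℝ) ^ 2
            + 2 * Real.exp (-(η ^ 2 * n / 2)) * (s * B) := by ring
      rw [e1]
      have i1 : (2 * Real.exp (-(η ^ 2 * n / 2)) * (20 * n ^ 2)) * (s : ℝ) ^ 2 ≤ η ^ 2 * (s : ℝ) ^ 2 :=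
        mul_le_mul_of_nonneg_right hn2 (by positivity)
      have i2 : 2 * Real.exp (-(η ^ 2 * n / 2)) * (s * B) ≤ 2 * η * (s * B) :=
        mul_le_mul_of_nonneg_right hn3 (by positivity)
      nlinarith [sq_nonneg B]
    have h7 : n * |ac sr s z| ≤ n * (η * s + (η * s + B) + 2 * n) := by
      have : (n : ℝ) * ac P s z ≤ n * (η * s + B) := mul_le_mul_of_nonneg_left h6 hn0.le
      nlinarith
    have h8 := le_of_mul_le_mul_left h7 hn0
    have h9 : B ≤ A * (1 + K * (z.1 + 2)) := by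
      rw [hA, hB, mul_assoc]
      apply mul_le_mul_of_nonneg_left _ (by positivity)
      have : (0 : ℝ) ≤ (n + 2) * 2 ^ n := by positivity
      nlinarith
    have h10 : 2 * (n : ℝ) ≤ 2 * n * (1 + K * (z.1 + 2)) := by nlinarith
    have h11 : (0 : ℝ) ≤ 2 ^ n * (1 + K * (z.1 + 2)) := by positivity
    have h12 : η * s + η * s = δ * s := by rw [hη]; ring
    nlinarith

end Pool.Agent.Q74.AR
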