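import Pool.Agent.Q74.AR.Fc
import Pool.Agent.Q74.AR.Main
import Pool.Agent.Q158.Col4.Main

/-! # Project AR: pairs at distance `h < H`: comparison with the double binomial expectation -/

set_option autoImplicit false

namespace Pool.Agent.Q74.AR

open Finset Filter Topology MeasureTheory ProbabilityTheory
open Pool.Agent.Q158.Pair (T step av surv surv_nonneg surv_le_one surv_iter)

/-- the mean over `h < H` of the probability that `n`, `n + h` have not met at time `t` -/
noncomputable def PP (t H : ℕ) : ℝ := (∑ h ∈ range H, surv t (0, (h : ℤ))) / H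

theorem T_same : Pool.Agent.TH930.EBQ.T 1 = T := by
  funext x
  unfold Pool.Agent.TH930.EBQ.T T
  split_ifs with h
  · rfl
  · rfl

theorem odds_same (t : ℕ) (x : ℤ) : Pool.Agent.Q158.Col4.odds t x = oc t x := by
  rw [oc_eq, Pool.Agent.Q158.Col4.odds, T_same]

/-- the number of odd steps in an interval of length `H`, tested against bounded functions -/
theorem law_F {η ε : ℝ} (hη : 0 < η) (hε : 0 < ε) : ∃ H₀ : ℕ, 2 ≤ H₀ ∧ ∀ H : ℕ, H₀ ≤ H → ∀ (a : ℤ) (t : ℕ),
    (t : ℝ) ≤ (Pool.Agent.Q158.Col4.cI - η) * Real.log H → ∀ F : ℕ → ℝ, (∀ k, 0 ≤ F k) → (∀ k, F k ≤ 1) →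
    |(∑ h ∈ range H, F (oc t (a + h))) / H - bE t F| ≤ ε := by
  classical
  obtain ⟨δ, C, hδ, hC, hlaw⟩ := Pool.Agent.Q158.Col4.law hη 1
  have hlog : Tendsto (fun H : ℕ => Real.log (H : ℝ)) atTop atTop := Real.tendsto_log_atTop.comp tendsto_natCast_atTop_atTop
  obtain ⟨H₁, hH₁⟩ := eventually_atTop.1 (hlog.eventually_ge_atTop (C / ε + 1))
  refine ⟨max H₁ 2, le_max_right _ _, fun H hH a t ht F hF0 hF1 => ?_⟩
  have hH2 : 2 ≤ H := le_trans (le_max_right _ _) hH
  have hl := hH₁ H (le_trans (le_max_left _ _) hH)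
  have hCε : 0 < C / ε := by positivity
  have herr : C / Real.log H ^ 1 ≤ ε := by
    rw [pow_one, div_le_iff₀ (by linarith)]
    have : C / ε ≤ Real.log H := by linarith
    rw [div_le_iff₀ hε] at this
    linarith
  have hHr : (0 : ℝ) < H := by exact_mod_cast (by omega : 0 < H)
  -- events
  have hE : ∀ E : ℕ → Prop, |(∑ k ∈ range (t + 1), if E k then (((range H).filter (fun h : ℕ => oc t (a + h) = k)).card : ℝ) / H else 0)
      - ∑ k ∈ range (t + 1), if E k then (t.choose k : ℝ) / 2 ^ t else 0| ≤ ε := by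
    intro E
    have h1 := hlaw H hH2 a t ht 1 le_rfl (by norm_num) (by
      rw [Nat.cast_one]
      exact Real.one_le_rpow (by exact_mod_cast (by omega : 1 ≤ H)) hδ.le) (fun k _ => E k)
    have e1 : Pool.Agent.Q158.Col4.model t 1 (fun k _ => E k) =
        ∑ k ∈ range (t + 1), if E k then (t.choose k : ℝ) / 2 ^ t else 0 := by
      unfold Pool.Agent.Q158.Col4.model
      apply sum_congr rfl
      intro k _
      by_cases hk : E k
      · have : {r : ℕ | r < 1 ∧ E k} = {0} := by
          ext r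
          simp [hk]
        rw [this, if_pos hk]
        simp
      · have : {r : ℕ | r < 1 ∧ E k} = ∅ := by
          ext r
          simp [hk]
        rw [this, if_neg hk]
        simp
    have e2 : ({x : ℤ | a ≤ x ∧ x < a + H ∧ E (Pool.Agent.Q158.Col4.odds t x)}.ncard : ℝ) / H =
        ∑ k ∈ range (t + 1), if E k then (((range H).filter (fun h : ℕ => oc t (a + h) = k)).card : ℝ) / H else 0 := by
      rw [Pool.Agent.Q158.Pair.ncard_eq (fun x => E (Pool.Agent.Q158.Col4.odds t x)), card_filter]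
      push_cast
      have := Pool.Agent.Q158.Pair.sum_Ico_int (fun x => if E (Pool.Agent.Q158.Col4.odds t x) then (1 : ℝ) else 0) a H
      rw [this]
      have e3 : ∀ i : ℕ, (if E (Pool.Agent.Q158.Col4.odds t (a + i)) then (1 : ℝ) else 0) =
          ∑ k ∈ range (t + 1), if E k then (if oc t (a + i) = k then (1 : ℝ) else 0) else 0 := by
        intro i
        rw [odds_same]
        have hm : oc t (a + i) ∈ range (t + 1) := by
          rw [mem_range]
          have := oc_le t (a + i)
          omega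
        rw [sum_eq_single_of_mem _ hm]
        · simp
        · intro b _ hb
          have hb' : ¬ oc t (a + i) = b := fun h => hb h.symm
          simp [hb']
      simp only [e3]
      rw [sum_comm, sum_div]
      apply sum_congr rfl
      intro k _
      by_cases hk : E k
      · simp only [hk, if_true]
        rw [card_filter]
        push_cast
        rfl
      · simp [hk]
    rw [← e1, ← e2]
    exact h1.trans herr
  -- functions
  set μ : ℕ → ℝ := fun k => (((range H).filter (fun h : ℕ => oc t (a + h) = k)).card : ℝ) / H with hμ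
  set ν : ℕ → ℝ := fun k => (t.choose k : ℝ) / 2 ^ t with hν
  have e4 : (∑ h ∈ range H, F (oc t (a + h))) / H = ∑ k ∈ range (t + 1), F k * μ k := by
    have e3 : ∀ i : ℕ, F (oc t (a + i)) = ∑ k ∈ range (t + 1), F k * (if oc t (a + i) = k then (1 : ℝ) else 0) := by
      intro i
      have hm : oc t (a + i) ∈ range (t + 1) := by
        rw [mem_range]
        have := oc_le t (a + i)
        omega
      rw [sum_eq_single_of_mem _ hm]
      · simp
      · intro b _ hb
        rw [if_neg (fun h => hb h.symm)]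
        simp
    simp only [e3]
    rw [sum_comm, sum_div]
    apply sum_congr rfl
    intro k _
    rw [← mul_sum, hμ]
    simp only
    rw [card_filter]
    push_cast
    ring
  have e5 : bE t F = ∑ k ∈ range (t + 1), F k * ν k := by
    rw [bE_choose]
    apply sum_congr rfl
    intro k _
    rw [hν]
    ring
  rw [e4, e5, ← sum_sub_distrib]
  have key : ∀ k, F k * μ k - F k * ν k = F k * (μ k - ν k) := fun k => by ring
  simp only [key]
  rw [abs_le]
  constructor
  · have h1 := (abs_le.1 (hE (fun k => μ k ≤ ν k))).1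
    rw [← sum_sub_distrib] at h1
    refine h1.trans (sum_le_sum fun k _ => ?_)
    have f0 := hF0 k
    have f1 := hF1 k
    split_ifs with h
    · show μ k - ν k ≤ _
      nlinarith
    · rw [sub_zero]
      push Not at h
      apply mul_nonneg f0
      linarith
  · have h1 := (abs_le.1 (hE (fun k => ν k ≤ μ k))).2
    rw [← sum_sub_distrib] at h1
    refine le_trans (sum_le_sum fun k _ => ?_) h1
    have f0 := hF0 k
    have f1 := hF1 k
    split_ifs with h
    · show _ ≤ μ k - ν k
      nlinarith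
    · rw [sub_zero]
      push Not at h
      apply mul_nonpos_of_nonneg_of_nonpos f0
      linarith

/-- the offset of the pair `r`, `r + h` after `t` steps -/
theorem be_ps (t : ℕ) (h : ℕ) (r : ℤ) :
    be (ps t (0, (h : ℤ)) r) ≤ 3 ^ oc t r * h / 2 ^ t + of t r + of t (r + h) := by
  have h3 : (0 : ℝ) < 3 ^ (ps t (0, (h : ℤ)) r).1 := by positivity
  have h31 : (1 : ℝ) ≤ 3 ^ (ps t (0, (h : ℤ)) r).1 := one_le_pow₀ (by norm_num)
  have g1 := of_nonneg t r
  have g2 := of_nonneg t (r + h)
  have ey : (3 : ℤ) ^ (0 : ℕ) * r + h = r + h := by rw [pow_zero, one_mul]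
  set P := ps t (0, (h : ℤ)) r with hP
  have hh : (0 : ℝ) ≤ (h : ℝ) := Nat.cast_nonneg _
  rcases ps_pair t (0, (h : ℤ)) r with ⟨f1, f2, f3⟩ | ⟨f1, f2, f3⟩
  · simp only at f1 f2 f3
    rw [← hP, ey] at f2 f3
    rw [f1] at f2
    have f4 : oc t (r + h) = P.1 + oc t r := by push_cast at f3; omega
    have f5 : (P.2 : ℝ) = ((T^[t] (r + h) : ℤ) : ℝ) - 3 ^ P.1 * ((T^[t] r : ℤ) : ℝ) := by
      rw [← f2]; push_cast; ring
    have f6 : ((T^[t] (r + h) : ℤ) : ℝ) = 3 ^ P.1 * 3 ^ oc t r * (r + h) / 2 ^ t + of t (r + h) := by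
      unfold of
      rw [f4, pow_add]
      push_cast
      ring
    have f7 : ((T^[t] r : ℤ) : ℝ) = 3 ^ oc t r * r / 2 ^ t + of t r := by
      unfold of
      ring
    have f8 : (P.2 : ℝ) = 3 ^ P.1 * (3 ^ oc t r * h / 2 ^ t - of t r) + of t (r + h) := by
      rw [f5, f6, f7]
      ring
    unfold be
    rw [div_le_iff₀ h3, f8, abs_le]
    have p1 : (0 : ℝ) ≤ 3 ^ oc t r * h / 2 ^ t := by positivity
    constructor
    · nlinarith
    · nlinarith
  · simp only at f1 f2 f3
    rw [← hP] at f2 f3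
    rw [ey] at f1 f3
    rw [f1] at f2
    have f4 : oc t r = P.1 + oc t (r + h) := by push_cast at f3; omega
    have f5 : (P.2 : ℝ) = ((T^[t] r : ℤ) : ℝ) - 3 ^ P.1 * ((T^[t] (r + h) : ℤ) : ℝ) := by
      rw [← f2]; push_cast; ring
    have f6 : ((T^[t] (r + h) : ℤ) : ℝ) = 3 ^ oc t (r + h) * (r + h) / 2 ^ t + of t (r + h) := by
      unfold of
      push_cast
      ring
    have f7 : ((T^[t] r : ℤ) : ℝ) = 3 ^ P.1 * 3 ^ oc t (r + h) * r / 2 ^ t + of t r := by
      unfold of
      rw [f4, pow_add]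
      ring
    have f8 : (P.2 : ℝ) = of t r - 3 ^ P.1 * (3 ^ oc t (r + h) * h / 2 ^ t + of t (r + h)) := by
      rw [f5, f6, f7]
      ring
    have f9 : (3 : ℝ) ^ oc t (r + h) * h / 2 ^ t ≤ 3 ^ oc t r * h / 2 ^ t := by
      apply div_le_div_of_nonneg_right _ (by positivity)
      apply mul_le_mul_of_nonneg_right _ hh
      exact pow_le_pow_right₀ (by norm_num) (by omega)
    have p1 : (0 : ℝ) ≤ 3 ^ oc t (r + h) * h / 2 ^ t := by positivity
    unfold be
    rw [div_le_iff₀ h3, f8, abs_le]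
    constructor
    · nlinarith
    · nlinarith

/-- the level of the pair `r`, `r + h` after `t` steps -/
theorem lev_ps (t : ℕ) (h : ℕ) (r : ℤ) :
    ((ps t (0, (h : ℤ)) r).1 : ℝ) = |(oc t (r + h) : ℝ) - oc t r| := by
  have ey : (3 : ℤ) ^ (0 : ℕ) * r + h = r + h := by rw [pow_zero, one_mul]
  rcases ps_pair t (0, (h : ℤ)) r with ⟨_, _, f3⟩ | ⟨_, _, f3⟩
  · simp only at f3
    rw [ey] at f3
    have f4 : ((ps t (0, (h : ℤ)) r).1 : ℝ) = (oc t (r + h) : ℝ) - oc t r := by
      have : (((ps t (0, (h : ℤ)) r).1 : ℤ) : ℝ) = ((((0 : ℕ) : ℤ) + oc t (r + h) - oc t r : ℤ) : ℝ) := by rw [f3]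
      push_cast at this
      rw [this]; ring
    rw [← f4, abs_of_nonneg (Nat.cast_nonneg _)]
  · simp only at f3
    rw [ey] at f3
    have f4 : ((ps t (0, (h : ℤ)) r).1 : ℝ) = -((oc t (r + h) : ℝ) - oc t r) := by
      have : (((ps t (0, (h : ℤ)) r).1 : ℤ) : ℝ) = ((-(((0 : ℕ) : ℤ) + oc t (r + h) - oc t r) : ℤ) : ℝ) := by rw [f3]
      push_cast at this
      rw [this]; ring
    have f5 : (0 : ℝ) ≤ ((ps t (0, (h : ℤ)) r).1 : ℝ) := Nat.cast_nonneg _
    rw [f4] at f5 ⊢
    rw [abs_of_nonpos (by linarith)]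

end Pool.Agent.Q74.AR
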