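import Pool.Agent.Q74.AR.Kill

/-! # Project AR: the law of the level at time `t` before level `0` is reached -/

set_option autoImplicit false

namespace Pool.Agent.Q74.AR

open Finset Filter Topology MeasureTheory ProbabilityTheory
open Pool.Agent.Q158.Pair (T step av q w w0 sq surv e av_mono av_add av_mul av_const zo av_fst)
open Pool.Agent.Q296.AR (r r_zero r_succ r_mono unif)

/-- the limit kernel -/
noncomputable def Kf (t : ℝ) (y a : ℝ) : ℝ := Phi ((y + a) / √(t / 2)) - Phi ((y - a) / √(t / 2))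

theorem Phi_scale_all {ε : ℝ} (hε : 0 < ε) : ∃ η : ℝ, 0 < η ∧ η ≤ 1 / 2 ∧ ∀ x c : ℝ, |c - 1| ≤ η →
    |Phi (c * x) - Phi x| ≤ ε := by
  obtain ⟨η, h0, h1, h⟩ := Phi_scale hε
  refine ⟨η, h0, h1, fun x c hc => ?_⟩
  rcases le_total 0 x with hx | hx
  · exact h x c hx hc
  · have h2 := h (-x) c (by linarith) hc
    have e : c * -x = -(c * x) := by ring
    rw [e, Phi_neg, Phi_neg] at h2
    have e2 : 1 - Phi (c * x) - (1 - Phi x) = -(Phi (c * x) - Phi x) := by ring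
    rw [e2, abs_neg] at h2
    exact h2

/-- the distribution function of the random walk at the time `⌊t/2⌋`, with a shifted argument -/
theorem r_close {ε : ℝ} (hε : 0 < ε) : ∃ t₀ : ℕ, 1 ≤ t₀ ∧ ∀ t : ℕ, t₀ ≤ t → ∀ x y : ℝ, |x - y| ≤ ε / 8 * √(t : ℝ) →
    |r (t / 2) x - Phi (y / √((t : ℝ) / 2))| ≤ ε := by
  obtain ⟨v₀, hv₀⟩ := unif (ε / 4) (by positivity)
  obtain ⟨η, hη0, hη1, hη⟩ := Phi_scale_all (show 0 < ε / 4 by positivity)
  obtain ⟨t₁, ht₁⟩ := exists_nat_ge (4 / η)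
  refine ⟨max (2 * v₀ + 2) (t₁ + 16), by omega, fun t ht x y hxy => ?_⟩
  have htv : v₀ ≤ t / 2 := by
    have := le_trans (le_max_left _ _) ht
    omega
  have ht16 : 16 ≤ t := by
    have := le_trans (le_max_right _ _) ht
    omega
  have ht2 : 4 / η ≤ t := ht₁.trans (by
    have := le_trans (le_max_right _ _) ht
    exact_mod_cast (by omega : t₁ ≤ t))
  have ht0 : (16 : ℝ) ≤ t := by exact_mod_cast ht16
  set v := t / 2 with hv
  have hv1 : (v : ℝ) ≤ t / 2 := by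
    have : v * 2 ≤ t := Nat.div_mul_le_self t 2
    have : ((v * 2 : ℕ) : ℝ) ≤ t := by exact_mod_cast this
    push_cast at this
    linarith
  have hv2 : (t : ℝ) / 2 ≤ v + 1 / 2 := by
    have : t ≤ v * 2 + 1 := by omega
    have : (t : ℝ) ≤ ((v * 2 + 1 : ℕ) : ℝ) := by exact_mod_cast this
    push_cast at this
    linarith
  have hv0 : (0 : ℝ) < v := by linarith
  have hsv : 0 < √(v : ℝ) := Real.sqrt_pos.2 hv0
  have hst : 0 < √((t : ℝ) / 2) := Real.sqrt_pos.2 (by positivity)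
  have h1 := hv₀ v htv (x / √(v : ℝ))
  have e1 : √(v : ℝ) * (x / √(v : ℝ)) = x := by field_simp
  rw [e1] at h1
  -- shift of the argument
  have h2 : |Phi (x / √(v : ℝ)) - Phi (y / √(v : ℝ))| ≤ ε / 4 := by
    refine (Phi_lip _ _).trans ?_
    rw [← sub_div, abs_div, abs_of_pos hsv, div_le_iff₀ hsv]
    refine hxy.trans ?_
    have : √(t : ℝ) ≤ 2 * √(v : ℝ) := by
      have e : 2 * √(v : ℝ) = √(4 * v) := by
        rw [Real.sqrt_mul (by norm_num), show (4 : ℝ) = 2 ^ 2 by norm_num, Real.sqrt_sq (by norm_num)]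
      rw [e]
      exact Real.sqrt_le_sqrt (by linarith)
    have := mul_le_mul_of_nonneg_left this (show (0 : ℝ) ≤ ε / 8 by positivity)
    linarith
  -- change of the scale
  have h3 : |Phi (y / √(v : ℝ)) - Phi (y / √((t : ℝ) / 2))| ≤ ε / 4 := by
    have e2 : y / √(v : ℝ) = (√((t : ℝ) / 2) / √(v : ℝ)) * (y / √((t : ℝ) / 2)) := by field_simp
    rw [e2]
    apply hη
    set c := √((t : ℝ) / 2) / √(v : ℝ) with hc
    have hc0 : 0 ≤ c := by positivity
    have hc2 : c ^ 2 = (t : ℝ) / 2 / v := by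
      rw [hc, div_pow, Real.sq_sqrt (by positivity), Real.sq_sqrt hv0.le]
    have h4 : |c - 1| ≤ |c ^ 2 - 1| := by
      have e : c ^ 2 - 1 = (c - 1) * (c + 1) := by ring
      rw [e, abs_mul, abs_of_nonneg (by linarith : 0 ≤ c + 1)]
      have := abs_nonneg (c - 1)
      nlinarith
    refine h4.trans ?_
    rw [hc2]
    have e : (t : ℝ) / 2 / v - 1 = (t / 2 - v) / v := by field_simp
    rw [e, abs_div, abs_of_pos hv0, div_le_iff₀ hv0, abs_of_nonneg (by linarith)]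
    rw [div_le_iff₀ hη0] at ht2
    nlinarith
  have e3 : r v x - Phi (y / √((t : ℝ) / 2)) = (r v x - Phi (x / √(v : ℝ))) + (Phi (x / √(v : ℝ)) - Phi (y / √(v : ℝ)))
      + (Phi (y / √(v : ℝ)) - Phi (y / √((t : ℝ) / 2))) := by ring
  rw [e3]
  refine (abs_add_three _ _ _).trans ?_
  linarith

/-- the ramp from `m` to `m + w` -/
noncomputable def ramp (m w a : ℕ) : ℝ := max 0 (min 1 (((a : ℝ) - m) / w))

theorem ramp_zero (m w : ℕ) : ramp m w 0 = 0 := by
  unfold ramp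
  apply max_eq_left
  apply min_le_of_right_le
  apply div_nonpos_of_nonpos_of_nonneg
  · push_cast
    have : (0 : ℝ) ≤ m := Nat.cast_nonneg _
    linarith
  · exact Nat.cast_nonneg _

theorem ramp_lip {w : ℕ} (hw : 1 ≤ w) (m : ℕ) (a b : ℕ) : |ramp m w a - ramp m w b| ≤ 1 / (w : ℝ) * |(a : ℝ) - b| := by
  have hw0 : (0 : ℝ) < w := by exact_mod_cast hw
  unfold ramp
  refine (abs_max_sub_max_le_max _ _ _ _).trans ?_
  rw [sub_self, abs_zero]
  refine max_le (by positivity) ?_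
  refine (abs_min_sub_min_le_max _ _ _ _).trans ?_
  rw [sub_self, abs_zero]
  refine max_le (by positivity) ?_
  have e : ((a : ℝ) - m) / w - ((b : ℝ) - m) / w = 1 / w * (a - b) := by field_simp; ring
  rw [e, abs_mul, abs_of_pos (by positivity)]

theorem ind_le_ramp {w : ℕ} (hw : 1 ≤ w) (m a : ℕ) : ind (m + w) a ≤ ramp m w a := by
  have hw0 : (0 : ℝ) < w := by exact_mod_cast hw
  unfold ind ramp
  split_ifs with h
  · have h1 : (1 : ℝ) ≤ ((a : ℝ) - m) / w := by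
      rw [le_div_iff₀ hw0, one_mul]
      have : ((m + w : ℕ) : ℝ) ≤ a := by exact_mod_cast h
      push_cast at this
      linarith
    rw [min_eq_left h1]
    exact le_max_right _ _
  · exact le_max_left _ _

theorem ramp_le_ind (m w a : ℕ) : ramp m w a ≤ ind m a := by
  unfold ind ramp
  split_ifs with h
  · exact max_le zero_le_one (min_le_left _ _)
  · apply max_le le_rfl
    apply min_le_of_right_le
    apply div_nonpos_of_nonpos_of_nonneg
    · have : (a : ℝ) ≤ m := by exact_mod_cast (by omega : a ≤ m)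
      linarith
    · exact Nat.cast_nonneg _

/-- the killed level: the law at time `t`, for levels of order at most `√t` -/
theorem Vk_lim {ε η A : ℝ} (hε : 0 < ε) (hη : 0 < η) (hA : 0 < A) : ∃ t₀ : ℕ, 1 ≤ t₀ ∧ ∀ t : ℕ, t₀ ≤ t → ∀ y : ℕ,
    η * √(t : ℝ) ≤ y → ∀ z : ℕ × ℤ, (z.1 : ℝ) ≤ A * √(t : ℝ) → |Vk (ind y) t z - Kf t y z.1| ≤ ε := by
  set θ := min (η / 4) (ε / 128) with hθ
  have hθ0 : 0 < θ := by positivity
  have hθη : θ ≤ η / 4 := min_le_left _ _
  have hθε : θ ≤ ε / 128 := min_le_right _ _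
  set β := ε * θ / 8 with hβ
  have hβ0 : 0 < β := by positivity
  set δ := β ^ 4 with hδ
  have hδ0 : 0 < δ := by positivity
  obtain ⟨C, hC, hm⟩ := mean hCS _root_.Q37.AR.big_job _root_.Q37.AR.rep hδ0
  obtain ⟨t₁, ht₁, hK⟩ := exists_K A (2 * C) hA (by positivity) hδ0
  obtain ⟨t₂, ht₂, hr⟩ := r_close (show 0 < ε / 4 by positivity)
  obtain ⟨t₃, ht₃⟩ := exists_nat_ge (1 / δ + 1 / θ ^ 2 + 4)
  refine ⟨max (max t₁ t₂) t₃, le_trans ht₁ (le_trans (le_max_left _ _) (le_max_left _ _)), fun t ht y hy z hz => ?_⟩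
  have htt1 : t₁ ≤ t := le_trans (le_trans (le_max_left _ _) (le_max_left _ _)) ht
  have htt2 : t₂ ≤ t := le_trans (le_trans (le_max_right _ _) (le_max_left _ _)) ht
  have htt3 : 1 / δ + 1 / θ ^ 2 + 4 ≤ t := ht₃.trans (by exact_mod_cast le_trans (le_max_right _ _) ht)
  have p1 : 0 < 1 / δ := by positivity
  have p2 : 0 < 1 / θ ^ 2 := by positivity
  have ht0 : (4 : ℝ) ≤ t := by linarith
  have htp : (0 : ℝ) < t := by linarith
  have r1 : 1 ≤ δ * t := by
    have : 1 / δ ≤ t := by linarith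
    rw [div_le_iff₀ hδ0] at this; linarith
  have hst : 0 < √(t : ℝ) := Real.sqrt_pos.2 htp
  have hss : √(t : ℝ) * √(t : ℝ) = t := Real.mul_self_sqrt htp.le
  have r2 : 1 ≤ θ * √(t : ℝ) := by
    have h1 : 1 / θ ^ 2 ≤ t := by linarith
    rw [div_le_iff₀ (by positivity)] at h1
    have h2 : 1 ≤ (θ * √(t : ℝ)) ^ 2 := by
      rw [mul_pow, Real.sq_sqrt htp.le]; linarith
    nlinarith [mul_pos hθ0 hst]
  set w := ⌈θ * √(t : ℝ)⌉₊ with hw
  have hw1 : θ * √(t : ℝ) ≤ w := Nat.le_ceil _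
  have hw2 : (w : ℝ) < θ * √(t : ℝ) + 1 := Nat.ceil_lt_add_one (by positivity)
  have hw3 : (w : ℝ) ≤ 2 * (θ * √(t : ℝ)) := by linarith
  have hwp : 1 ≤ w := by
    have : (1 : ℝ) ≤ w := r2.trans hw1
    exact_mod_cast this
  have hwr : (0 : ℝ) < w := by exact_mod_cast hwp
  have hyw : w + 1 ≤ y := by
    have h1 : 4 * (θ * √(t : ℝ)) ≤ y := by
      refine le_trans ?_ hy
      rw [← mul_assoc]
      apply mul_le_mul_of_nonneg_right _ hst.le
      linarith
    have h2 : (w : ℝ) + 1 ≤ y := by linarith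
    exact_mod_cast h2
  obtain ⟨K, hK'⟩ := hK t htt1
  obtain ⟨hK1, hK2⟩ := hK' z.1 hz
  have hM1 : |ac sr t z| ≤ 2 * δ * t := by
    refine (hm t K z hK1).trans ?_
    have : 0 ≤ C * (1 + K * ((z.1 : ℝ) + 2)) := by positivity
    linarith
  have hM2 : m2 t z ≤ 4 * δ * t ^ 2 := by
    refine (m2_le hδ0.le hC.le hm t K t le_rfl z hK1).trans ?_
    have : 1 + 2 * δ * t + 2 * C * (1 + K * ((z.1 : ℝ) + 2)) ≤ 4 * δ * t := by linarith
    calc (t : ℝ) * (1 + 2 * δ * t + 2 * C * (1 + K * ((z.1 : ℝ) + 2))) ≤ t * (4 * δ * t) :=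
          mul_le_mul_of_nonneg_left this htp.le
      _ = 4 * δ * t ^ 2 := by ring
  set v := t / 2 with hv
  have hwv : (2 * (v : ℤ) - t : ℤ) = 0 ∨ (2 * (v : ℤ) - t : ℤ) = -1 := by omega
  have hWf : Wf (fun w => |(w : ℝ)|) t z (2 * v - t) ≤ 6 * β ^ 2 * t := by
    refine (Wf_abs_le (μ := β ^ 2 * t) (by positivity) t z (2 * v - t)).trans ?_
    have h1 : (((2 * v - t : ℤ) : ℝ)) ^ 2 + 2 * ((2 * v - t : ℤ) : ℝ) * ac sr t z + m2 t z ≤ 9 * δ * t ^ 2 := by
      have h2 := abs_le.1 hM1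
      have h3 : δ * t ≤ δ * t ^ 2 := by nlinarith
      rcases hwv with h | h
      · rw [h]
        push_cast
        nlinarith
      · rw [h]
        push_cast
        nlinarith [h2.1]
    have h4 : ((((2 * v - t : ℤ) : ℝ)) ^ 2 + 2 * ((2 * v - t : ℤ) : ℝ) * ac sr t z + m2 t z) / (2 * (β ^ 2 * t)) ≤
        9 * δ * t ^ 2 / (2 * (β ^ 2 * t)) := div_le_div_of_nonneg_right h1 (by positivity)
    have h5 : 9 * δ * t ^ 2 / (2 * (β ^ 2 * t)) = 9 / 2 * β ^ 2 * t := by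
      rw [hδ]
      field_simp
    have h6 : 0 < β ^ 2 * t := by positivity
    rw [h5] at h4
    linarith
  -- the error of the comparison
  have herr : ∀ m : ℕ, |Vk (ramp m w) t z - uk (ramp m w) v z.1| ≤ ε / 4 := by
    intro m
    refine (Vk_uk (ramp_zero m w) (by positivity : 0 ≤ 1 / (w : ℝ)) (show 0 < β * √(t : ℝ) by positivity)
      (fun a b => ramp_lip hwp m a b) t z v).trans ?_
    have h1 : β * √(t : ℝ) / 2 + Wf (fun w => |(w : ℝ)|) t z (2 * v - t) / (4 * (β * √(t : ℝ))) ≤ 2 * β * √(t : ℝ) := by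
      have h2 : Wf (fun w => |(w : ℝ)|) t z (2 * v - t) / (4 * (β * √(t : ℝ))) ≤
          6 * β ^ 2 * t / (4 * (β * √(t : ℝ))) := div_le_div_of_nonneg_right hWf (by positivity)
      have h3 : 6 * β ^ 2 * t / (4 * (β * √(t : ℝ))) = 3 / 2 * β * √(t : ℝ) := by
        rw [← hss]
        have : √(√(t : ℝ) * √(t : ℝ)) = √(t : ℝ) := by rw [hss]
        rw [this]
        field_simp
        ring
      rw [h3] at h2
      linarith
    calc 1 / (w : ℝ) * (β * √(t : ℝ) / 2 + Wf (fun w => |(w : ℝ)|) t z (2 * v - t) / (4 * (β * √(t : ℝ))))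
        ≤ 1 / (w : ℝ) * (2 * β * √(t : ℝ)) := mul_le_mul_of_nonneg_left h1 (by positivity)
      _ = 2 * β * √(t : ℝ) / w := by ring
      _ ≤ ε / 4 := by
        rw [div_le_iff₀ hwr]
        have h2 : 2 * β * √(t : ℝ) = ε / 4 * (θ * √(t : ℝ)) := by rw [hβ]; ring
        rw [h2]
        exact mul_le_mul_of_nonneg_left hw1 (by positivity)
  -- the random walk
  have hux : ∀ m : ℕ, 1 ≤ m → |(m : ℝ) - y| ≤ w → |uk (ind m) v z.1 - Kf t y z.1| ≤ 2 * (ε / 4) := by
    intro m hm1 hmy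
    rw [uk_ind hm1]
    have hb : (w : ℝ) + 1 ≤ ε / 4 / 8 * √(t : ℝ) := by
      have h1 : (w : ℝ) + 1 ≤ 3 * (θ * √(t : ℝ)) := by linarith
      refine h1.trans ?_
      rw [← mul_assoc]
      apply mul_le_mul_of_nonneg_right _ hst.le
      linarith
    rw [abs_le] at hmy
    have h1 := hr t htt2 ((z.1 : ℝ) + m - 1) ((y : ℝ) + z.1) (by
      rw [abs_le]; constructor <;> linarith [hmy.1, hmy.2])
    have h2 := hr t htt2 ((m : ℝ) - 1 - z.1) ((y : ℝ) - z.1) (by
      rw [abs_le]; constructor <;> linarith [hmy.1, hmy.2])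
    unfold Kf
    rw [abs_le] at h1 h2 ⊢
    constructor <;> linarith [h1.1, h1.2, h2.1, h2.2]
  -- upper bound
  obtain ⟨m, hm⟩ := Nat.exists_eq_add_of_le (show w ≤ y by omega)
  have hm1 : 1 ≤ m := by omega
  have u1 : Vk (ind y) t z ≤ Vk (ramp m w) t z := by
    apply Vk_mono
    intro a
    rw [hm, add_comm w m]
    exact ind_le_ramp hwp m a
  have u2 := (abs_le.1 (herr m)).2
  have u3 : uk (ramp m w) v z.1 ≤ uk (ind m) v z.1 := uk_mono (fun a => ramp_le_ind m w a) v z.1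
  have u4 := (abs_le.1 (hux m hm1 (by
    rw [hm]; push_cast
    rw [abs_le]; constructor <;> linarith))).2
  -- lower bound
  have l1 : Vk (ramp y w) t z ≤ Vk (ind y) t z := Vk_mono (fun a => ramp_le_ind y w a) t z
  have l2 := (abs_le.1 (herr y)).1
  have l3 : uk (ind (y + w)) v z.1 ≤ uk (ramp y w) v z.1 := uk_mono (fun a => ind_le_ramp hwp y a) v z.1
  have l4 := (abs_le.1 (hux (y + w) (by omega) (by
    push_cast
    rw [abs_le]; constructor <;> linarith))).1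
  rw [abs_le]
  constructor <;> linarith

end Pool.Agent.Q74.AR
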