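import Pool.Agent.Q74.AR.Mean

/-! # Project AR: the second moment of the sum of the signs and the comparison with the random walk -/

set_option autoImplicit false

namespace Pool.Agent.Q74.AR

open Finset Filter Topology MeasureTheory ProbabilityTheory
open Pool.Agent.Q158.Pair (T step av q w w0 sq surv e av_mono av_add av_mul av_const zo av_fst
  step_even step_odd_false step_odd_true_succ step_odd_true_zero q_zero_right q_nonneg q_le_one q_succ
  surv_nonneg surv_le_one)

/-- the probability that level `0` is not reached at the times `0, ..., t` -/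
noncomputable def qq : ℕ → ℕ × ℤ → ℝ
  | 0 => fun z => if z.1 = 0 then 0 else 1
  | t + 1 => fun z => if z.1 = 0 then 0 else av (qq t) z

/-- the expected value of `φ (w + W)` for the sum `W` of `sg` over the times `0, ..., t - 1` before level
`0` is reached -/
noncomputable def Wf (φ : ℤ → ℝ) : ℕ → ℕ × ℤ → ℤ → ℝ
  | 0 => fun _ w => φ w
  | t + 1 => fun z w => if z.1 = 0 then φ w else av (fun z' => Wf φ t z' (w + sg z)) z

/-- the second moment of the sum -/
noncomputable def m2 : ℕ → ℕ × ℤ → ℝ
  | 0 => fun _ => 0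
  | t + 1 => fun z => if z.1 = 0 then 0 else 1 + 2 * sr z * av (ac sr t) z + av (m2 t) z

theorem qq_lev (t : ℕ) {z : ℕ × ℤ} (h : z.1 = 0) : qq t z = 0 := by
  cases t <;> simp [qq, h]

theorem qq_succ (t : ℕ) {z : ℕ × ℤ} (h : z.1 ≠ 0) : qq (t + 1) z = av (qq t) z := by
  simp [qq, h]

theorem qq_nonneg (t : ℕ) : ∀ z, 0 ≤ qq t z := by
  induction t with
  | zero => intro z; simp only [qq]; split_ifs <;> norm_num
  | succ n ih =>
    intro z
    simp only [qq]
    split_ifs
    · exact le_rfl
    · unfold av
      have := ih (step false z)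
      have := ih (step true z)
      linarith

theorem qq_le_one (t : ℕ) : ∀ z, qq t z ≤ 1 := by
  induction t with
  | zero => intro z; simp only [qq]; split_ifs <;> norm_num
  | succ n ih =>
    intro z
    simp only [qq]
    split_ifs
    · norm_num
    · unfold av
      have := ih (step false z)
      have := ih (step true z)
      linarith

theorem qq_le_surv (t : ℕ) : ∀ z, qq t z ≤ surv t z := by
  induction t with
  | zero =>
    intro z
    by_cases h : z.1 = 0
    · rw [qq_lev _ h]; exact surv_nonneg _ _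
    · have h1 : z ≠ (0, 0) := fun h' => h (by rw [h'])
      simp [qq, surv, h, h1]
  | succ n ih =>
    intro z
    by_cases h : z.1 = 0
    · rw [qq_lev _ h]; exact surv_nonneg _ _
    · rw [qq_succ _ h, surv]
      exact av_mono ih z

theorem Wf_lev (φ : ℤ → ℝ) (t : ℕ) {z : ℕ × ℤ} (h : z.1 = 0) (w : ℤ) : Wf φ t z w = φ w := by
  cases t <;> simp [Wf, h]

theorem Wf_succ (φ : ℤ → ℝ) (t : ℕ) {z : ℕ × ℤ} (h : z.1 ≠ 0) (w : ℤ) :
    Wf φ (t + 1) z w = av (fun z' => Wf φ t z' (w + sg z)) z := by
  simp [Wf, h]

theorem Wf_mono {φ ψ : ℤ → ℝ} (h : ∀ w, φ w ≤ ψ w) (t : ℕ) : ∀ z w, Wf φ t z w ≤ Wf ψ t z w := by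
  induction t with
  | zero => intro z w; exact h w
  | succ n ih =>
    intro z w
    by_cases hz : z.1 = 0
    · rw [Wf_lev _ _ hz, Wf_lev _ _ hz]; exact h w
    · rw [Wf_succ _ _ hz, Wf_succ _ _ hz]
      exact av_mono (fun z' => ih z' _) z

theorem Wf_nonneg {φ : ℤ → ℝ} (h : ∀ w, 0 ≤ φ w) (t : ℕ) : ∀ z w, 0 ≤ Wf φ t z w := by
  induction t with
  | zero => intro z w; exact h w
  | succ n ih =>
    intro z w
    by_cases hz : z.1 = 0
    · rw [Wf_lev _ _ hz]; exact h w
    · rw [Wf_succ _ _ hz]
      unfold av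
      have := ih (step false z) (w + sg z)
      have := ih (step true z) (w + sg z)
      linarith

theorem Wf_mul (c : ℝ) (φ : ℤ → ℝ) (t : ℕ) : ∀ z w, Wf (fun w => c * φ w) t z w = c * Wf φ t z w := by
  induction t with
  | zero => intro z w; rfl
  | succ n ih =>
    intro z w
    by_cases hz : z.1 = 0
    · rw [Wf_lev _ _ hz, Wf_lev _ _ hz]
    · rw [Wf_succ _ _ hz, Wf_succ _ _ hz]
      unfold av
      beta_reduce
      rw [ih, ih]
      ring

theorem sg_abs (z : ℕ × ℤ) : |sg z| ≤ 1 := by
  unfold sg
  split_ifs <;> norm_num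

/-- if `w + t ≤ θ` the sum stays below `θ` -/
theorem Wf_one (θ : ℤ) (t : ℕ) : ∀ z w, w + t ≤ θ → 1 ≤ Wf (fun w => if w ≤ θ then 1 else 0) t z w := by
  induction t with
  | zero =>
    intro z w h
    have : w ≤ θ := by simpa using h
    simp [Wf, this]
  | succ n ih =>
    intro z w h
    push_cast at h
    by_cases hz : z.1 = 0
    · rw [Wf_lev _ _ hz]
      have : w ≤ θ := by omega
      simp [this]
    · rw [Wf_succ _ _ hz]
      unfold av
      have h0 := abs_le.1 (sg_abs z)
      have h1 := ih (step false z) (w + sg z) (by omega)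
      have h2 := ih (step true z) (w + sg z) (by omega)
      linarith

theorem sg_even (a : ℕ) (k : ℤ) : sg (a, 2 * k) = 1 := by
  simp [sg]

theorem sg_odd (a : ℕ) (k : ℤ) : sg (a, 2 * k + 1) = -1 := by
  have : ¬ (2 * k + 1) % 2 = 0 := by omega
  simp only [sg]
  rw [if_neg this]

/-- comparison with the random walk, upper bound -/
theorem sand_up (t : ℕ) : ∀ (z : ℕ × ℤ) (v : ℕ) (w θ : ℤ), θ ≤ w + t - 2 * v + 2 →
    qq t z ≤ q v z.1 + Wf (fun w => if θ ≤ w then 1 else 0) t z w := by
  induction t with
  | zero =>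
    intro z v w θ h
    have hW := Wf_nonneg (φ := fun w => if θ ≤ w then (1 : ℝ) else 0)
      (fun w => by split_ifs <;> norm_num) 0 z w
    by_cases hz : z.1 = 0
    · rw [qq_lev _ hz]
      have := q_nonneg v z.1
      linarith
    · rcases Nat.eq_zero_or_pos v with rfl | hv
      · simp only [q, if_neg hz]
        have := qq_le_one 0 z
        linarith
      · have h1 : θ ≤ w := by push_cast at h; omega
        have h2 : Wf (fun w => if θ ≤ w then (1 : ℝ) else 0) 0 z w = 1 := by simp [Wf, h1]
        rw [h2]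
        have := qq_le_one 0 z
        have := q_nonneg v z.1
        linarith
  | succ n ih =>
    intro z v w θ h
    push_cast at h
    have hW := Wf_nonneg (φ := fun w => if θ ≤ w then (1 : ℝ) else 0)
      (fun w => by split_ifs <;> norm_num) (n + 1) z w
    by_cases hz : z.1 = 0
    · rw [qq_lev _ hz]
      have := q_nonneg v z.1
      linarith
    · rw [qq_succ _ hz, Wf_succ _ _ hz]
      obtain ⟨a, b⟩ := z
      obtain ⟨a, rfl⟩ : ∃ a', a = a' + 1 := ⟨a - 1, by simp at hz; omega⟩
      rcases Int.even_or_odd' b with ⟨k, rfl | rfl⟩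
      · rw [sg_even]
        unfold av
        have i1 := ih (step false (a + 1, 2 * k)) v (w + 1) θ (by omega)
        have i2 := ih (step true (a + 1, 2 * k)) v (w + 1) θ (by omega)
        rw [(step_even (a + 1) k).1] at i1 ⊢
        rw [(step_even (a + 1) k).2] at i2 ⊢
        simp only at i1 i2 ⊢
        linarith
      · rcases v with _ | v
        · have h1 : q 0 (a + 1) = 1 := by simp [q]
          simp only
          rw [h1]
          have h2 := qq_le_one (n + 1) (a + 1, 2 * k + 1)
          rw [qq_succ n (z := (a + 1, 2 * k + 1)) (by simp)] at h2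
          rw [Wf_succ _ n (z := (a + 1, 2 * k + 1)) (by simp)] at hW
          linarith
        · push_cast at h
          rw [sg_odd]
          unfold av
          have i1 := ih (step false (a + 1, 2 * k + 1)) v (w + -1) θ (by omega)
          have i2 := ih (step true (a + 1, 2 * k + 1)) v (w + -1) θ (by omega)
          rw [step_odd_false] at i1 ⊢
          rw [step_odd_true_succ] at i2 ⊢
          simp only at i1 i2 ⊢
          rw [q_succ]
          have e1 : a + 1 + 1 = a + 2 := rfl
          rw [e1] at i1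
          linarith

/-- comparison with the random walk, lower bound -/
theorem sand_lo (t : ℕ) : ∀ (z : ℕ × ℤ) (v : ℕ) (w θ : ℤ), w + t - 2 * v - 2 ≤ θ →
    q v z.1 ≤ qq t z + Wf (fun w => if w ≤ θ then 1 else 0) t z w := by
  induction t with
  | zero =>
    intro z v w θ h
    have hW := Wf_nonneg (φ := fun w => if w ≤ θ then (1 : ℝ) else 0)
      (fun w => by split_ifs <;> norm_num) 0 z w
    by_cases hz : z.1 = 0
    · rw [hz, q_zero_right]
      have := qq_nonneg 0 z
      linarith
    · have h1 : qq 0 z = 1 := by simp [qq, hz]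
      rw [h1]
      have := q_le_one v z.1
      linarith
  | succ n ih =>
    intro z v w θ h
    push_cast at h
    have hW := Wf_nonneg (φ := fun w => if w ≤ θ then (1 : ℝ) else 0)
      (fun w => by split_ifs <;> norm_num) (n + 1) z w
    by_cases hz : z.1 = 0
    · rw [hz, q_zero_right]
      have := qq_nonneg (n + 1) z
      linarith
    · rw [qq_succ _ hz, Wf_succ _ _ hz]
      obtain ⟨a, b⟩ := z
      obtain ⟨a, rfl⟩ : ∃ a', a = a' + 1 := ⟨a - 1, by simp at hz; omega⟩
      rcases Int.even_or_odd' b with ⟨k, rfl | rfl⟩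
      · rw [sg_even]
        unfold av
        have i1 := ih (step false (a + 1, 2 * k)) v (w + 1) θ (by omega)
        have i2 := ih (step true (a + 1, 2 * k)) v (w + 1) θ (by omega)
        rw [(step_even (a + 1) k).1] at i1 ⊢
        rw [(step_even (a + 1) k).2] at i2 ⊢
        simp only at i1 i2 ⊢
        linarith
      · rw [sg_odd]
        rcases v with _ | v
        · have j1 := Wf_one θ n (step false (a + 1, 2 * k + 1)) (w + -1) (by push_cast at h; omega)
          have j2 := Wf_one θ n (step true (a + 1, 2 * k + 1)) (w + -1) (by push_cast at h; omega)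
          have j3 := q_le_one 0 (a + 1)
          have j4 := qq_nonneg n (step false (a + 1, 2 * k + 1))
          have j5 := qq_nonneg n (step true (a + 1, 2 * k + 1))
          unfold av
          simp only at j1 j2 j3 ⊢
          linarith
        · push_cast at h
          unfold av
          have i1 := ih (step false (a + 1, 2 * k + 1)) v (w + -1) θ (by omega)
          have i2 := ih (step true (a + 1, 2 * k + 1)) v (w + -1) θ (by omega)
          rw [step_odd_false] at i1 ⊢
          rw [step_odd_true_succ] at i2 ⊢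
          simp only at i1 i2 ⊢
          rw [q_succ]
          have e1 : a + 1 + 1 = a + 2 := rfl
          rw [e1] at i1
          linarith

theorem sr_sq (z : ℕ × ℤ) : sr z ^ 2 = 1 := by
  unfold sr sg
  split_ifs <;> norm_num

theorem Wf_sq (t : ℕ) : ∀ z w, Wf (fun w => (w : ℝ) ^ 2) t z w = (w : ℝ) ^ 2 + 2 * w * ac sr t z + m2 t z := by
  induction t with
  | zero => intro z w; simp [Wf, ac, m2]
  | succ n ih =>
    intro z w
    by_cases hz : z.1 = 0
    · rw [Wf_lev _ _ hz, ac_lev _ _ hz]
      simp [m2, hz]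
    · rw [Wf_succ _ _ hz, ac_succ _ _ hz]
      simp only [m2, if_neg hz]
      unfold av
      beta_reduce
      rw [ih, ih]
      have h := sr_sq z
      have e : ((w + sg z : ℤ) : ℝ) = w + sr z := by push_cast; rfl
      rw [e]
      linear_combination h

theorem lev_av {z : ℕ × ℤ} (hz : z.1 ≠ 0) :
    (((step false z).1 : ℝ) + (step true z).1) / 2 = z.1 := by
  have h := av_fst z
  unfold av at h
  have : zo z = 0 := by simp [zo, hz]
  rw [this] at h
  linarith

theorem lev_succ_le (c : Bool) (z : ℕ × ℤ) : (step c z).1 ≤ z.1 + 1 := by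
  unfold step
  split_ifs <;> simp <;> omega

/-- bound for the second moment -/
theorem m2_le {δ C : ℝ} (hδ : 0 ≤ δ) (hC : 0 ≤ C) (hm : ∀ (s K : ℕ) (z : ℕ × ℤ), z.1 + s ≤ 2 ^ K →
    |ac sr s z| ≤ δ * s + C * (1 + K * (z.1 + 2))) (T K : ℕ) (t : ℕ) : t ≤ T → ∀ z : ℕ × ℤ, z.1 + t ≤ 2 ^ K →
    m2 t z ≤ t * (1 + 2 * δ * T + 2 * C * (1 + K * (z.1 + 2))) := by
  induction t with
  | zero => intro _ z _; simp [m2]
  | succ n ih =>
    intro hT z hK
    have hp : 0 ≤ (1 + 2 * δ * T + 2 * C * (1 + K * ((z.1 : ℝ) + 2))) := by positivity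
    by_cases hz : z.1 = 0
    · have : m2 (n + 1) z = 0 := by simp [m2, hz]
      rw [this]
      positivity
    · have e : m2 (n + 1) z = 1 + 2 * sr z * av (ac sr n) z + av (m2 n) z := by simp [m2, hz]
      rw [e]
      have l1 := lev_succ_le false z
      have l2 := lev_succ_le true z
      have l := lev_av hz
      have i1 := ih (by omega) (step false z) (by omega)
      have i2 := ih (by omega) (step true z) (by omega)
      have j1 := hm n K (step false z) (by omega)
      have j2 := hm n K (step true z) (by omega)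
      have k1 : |av (ac sr n) z| ≤ δ * n + C * (1 + K * (z.1 + 2)) := by
        unfold av
        rw [abs_div, abs_two, div_le_iff₀ two_pos]
        refine (abs_add_le _ _).trans ?_
        have : (2 : ℝ) * (δ * n + C * (1 + K * (z.1 + 2))) =
            (δ * n + C * (1 + K * (((step false z).1 : ℝ) + 2))) +
            (δ * n + C * (1 + K * (((step true z).1 : ℝ) + 2))) := by
          rw [← l]; ring
        linarith
      have k2 : 2 * sr z * av (ac sr n) z ≤ 2 * (δ * n + C * (1 + K * (z.1 + 2))) := by
        have h1 : sr z * av (ac sr n) z ≤ |av (ac sr n) z| := by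
          refine (le_abs_self _).trans ?_
          rw [abs_mul]
          have := sr_abs z
          have := abs_nonneg (av (ac sr n) z)
          nlinarith
        linarith
      have k3 : av (m2 n) z ≤ n * (1 + 2 * δ * T + 2 * C * (1 + K * (z.1 + 2))) := by
        unfold av
        have : (n : ℝ) * (1 + 2 * δ * T + 2 * C * (1 + K * (z.1 + 2))) =
            (n * (1 + 2 * δ * T + 2 * C * (1 + K * (((step false z).1 : ℝ) + 2))) +
            n * (1 + 2 * δ * T + 2 * C * (1 + K * (((step true z).1 : ℝ) + 2)))) / 2 := by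
          rw [← l]; ring
        rw [this]
        linarith
      have k4 : δ * n ≤ δ * T := by
        apply mul_le_mul_of_nonneg_left _ hδ
        exact_mod_cast (by omega : n ≤ T)
      push_cast
      linarith

/-- Chebyshev's inequality -/
theorem cheb_up (t : ℕ) (z : ℕ × ℤ) {θ : ℤ} (hθ : 0 < θ) :
    Wf (fun w => if θ ≤ w then 1 else 0) t z 0 ≤ m2 t z / (θ : ℝ) ^ 2 := by
  have hθ' : (0 : ℝ) < θ := by exact_mod_cast hθ
  have h1 := Wf_mono (φ := fun w => if θ ≤ w then (1 : ℝ) else 0)
    (ψ := fun w => (1 / (θ : ℝ) ^ 2) * (w : ℝ) ^ 2) (fun w => by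
      show (if θ ≤ w then (1 : ℝ) else 0) ≤ (1 / (θ : ℝ) ^ 2) * (w : ℝ) ^ 2
      split_ifs with h
      · have h' : (θ : ℝ) ≤ w := by exact_mod_cast h
        rw [one_div, inv_mul_eq_div, le_div_iff₀ (by positivity), one_mul]
        exact pow_le_pow_left₀ hθ'.le h' 2
      · positivity) t z 0
  rw [Wf_mul, Wf_sq] at h1
  refine h1.trans (le_of_eq ?_)
  push_cast
  ring

theorem cheb_lo (t : ℕ) (z : ℕ × ℤ) {θ : ℤ} (hθ : 0 < θ) :
    Wf (fun w => if w ≤ -θ then 1 else 0) t z 0 ≤ m2 t z / (θ : ℝ) ^ 2 := by
  have hθ' : (0 : ℝ) < θ := by exact_mod_cast hθ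
  have h1 := Wf_mono (φ := fun w => if w ≤ -θ then (1 : ℝ) else 0)
    (ψ := fun w => (1 / (θ : ℝ) ^ 2) * (w : ℝ) ^ 2) (fun w => by
      show (if w ≤ -θ then (1 : ℝ) else 0) ≤ (1 / (θ : ℝ) ^ 2) * (w : ℝ) ^ 2
      split_ifs with h
      · have h' : (θ : ℝ) ≤ -w := by
          have : θ ≤ -w := by omega
          exact_mod_cast this
        rw [one_div, inv_mul_eq_div, le_div_iff₀ (by positivity), one_mul]
        have := pow_le_pow_left₀ hθ'.le h' 2
        linarith [this, neg_sq (w : ℝ)]
      · positivity) t z 0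
  rw [Wf_mul, Wf_sq] at h1
  refine h1.trans (le_of_eq ?_)
  push_cast
  ring

end Pool.Agent.Q74.AR
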