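import Pool.Agent.Q74.AR.Lim

/-! # Project AR: the scaling limit of the probability that the pair has not met -/

set_option autoImplicit false

namespace Pool.Agent.Q74.AR

open Finset Filter Topology MeasureTheory ProbabilityTheory
open Pool.Agent.Q158.Pair (T step av q w w0 sq surv e av_mono av_add av_mul av_const zo av_fst av_even
  av_odd_succ step_even step_odd_false step_odd_true_succ step_odd_true_zero q_zero_right q_nonneg q_le_one q_succ
  surv_nonneg surv_le_one surv_le surv_anti q_ge_phi e_real e_nonneg_real)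

/-- the normalised offset of a state -/
noncomputable def be (z : ℕ × ℤ) : ℝ := |(z.2 : ℝ)| / 3 ^ z.1

theorem be_nonneg (z : ℕ × ℤ) : 0 ≤ be z := by
  unfold be; positivity

theorem av_be {z : ℕ × ℤ} (hz : z.1 ≠ 0) : av be z ≤ be z + 1 / 2 := by
  obtain ⟨a, b⟩ := z
  obtain ⟨a, rfl⟩ : ∃ a', a = a' + 1 := ⟨a - 1, by simp at hz; omega⟩
  have h3 : (0 : ℝ) < 3 ^ a := by positivity
  have h31 : (1 : ℝ) ≤ 3 ^ a := one_le_pow₀ (by norm_num)
  have he0 := e_nonneg_real a
  rcases Int.even_or_odd' b with ⟨k, rfl | rfl⟩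
  · rw [av_even]
    unfold be
    simp only
    have he : |((3 * k - e (a + 1) : ℤ) : ℝ)| ≤ 3 * |(k : ℝ)| + 3 ^ (a + 1) / 2 := by
      push_cast
      refine (abs_sub _ _).trans ?_
      rw [abs_mul, abs_of_pos (by norm_num : (0 : ℝ) < 3), abs_of_nonneg (e_nonneg_real (a + 1)), e_real]
      have : (0 : ℝ) < 3 ^ (a + 1) := by positivity
      linarith
    have h2 : |((2 * k : ℤ) : ℝ)| = 2 * |(k : ℝ)| := by
      push_cast
      rw [abs_mul, abs_two]
    rw [h2]
    have hp : (0 : ℝ) < 3 ^ (a + 1) := by positivity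
    rw [← sub_nonneg]
    have key : 2 * |(k : ℝ)| / 3 ^ (a + 1) + 1 / 2 - (|(k : ℝ)| / 3 ^ (a + 1) + |((3 * k - e (a + 1) : ℤ) : ℝ)| / 3 ^ (a + 1)) / 2
        = (3 * |(k : ℝ)| + 3 ^ (a + 1) - |((3 * k - e (a + 1) : ℤ) : ℝ)|) / (2 * 3 ^ (a + 1)) := by
      field_simp
      ring
    rw [key]
    apply div_nonneg _ (by positivity)
    linarith
  · rw [av_odd_succ]
    unfold be
    simp only
    have h2 : |((3 * k + 2 : ℤ) : ℝ)| ≤ 3 / 2 * |((2 * k + 1 : ℤ) : ℝ)| + 1 / 2 := by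
      have : ((3 * k + 2 : ℤ) : ℝ) = 3 / 2 * ((2 * k + 1 : ℤ) : ℝ) + 1 / 2 := by push_cast; ring
      rw [this]
      refine (abs_add_le _ _).trans ?_
      rw [abs_mul, abs_of_pos (by norm_num : (0 : ℝ) < 3 / 2), abs_of_pos (by norm_num : (0 : ℝ) < 1 / 2)]
    have h4 : |((k - e a : ℤ) : ℝ)| ≤ 1 / 2 * |((2 * k + 1 : ℤ) : ℝ)| + 3 ^ a / 2 := by
      have : ((k - e a : ℤ) : ℝ) = 1 / 2 * ((2 * k + 1 : ℤ) : ℝ) - 3 ^ a / 2 := by
        push_cast
        rw [e_real]
        ring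
      rw [this]
      refine (abs_sub _ _).trans ?_
      rw [abs_mul, abs_of_pos (by norm_num : (0 : ℝ) < 1 / 2), abs_of_pos (by positivity : (0 : ℝ) < 3 ^ a / 2)]
    set B := |((2 * k + 1 : ℤ) : ℝ)| with hB
    have hB0 : 0 ≤ B := abs_nonneg _
    have i1 : |((3 * k + 2 : ℤ) : ℝ)| / 3 ^ (a + 2) ≤ (3 / 2 * B + 1 / 2) / 3 ^ (a + 2) :=
      div_le_div_of_nonneg_right h2 (by positivity)
    have i2 : |((k - e a : ℤ) : ℝ)| / 3 ^ a ≤ (1 / 2 * B + 3 ^ a / 2) / 3 ^ a :=
      div_le_div_of_nonneg_right h4 (by positivity)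
    have e1 : (3 / 2 * B + 1 / 2) / 3 ^ (a + 2) = 1 / 2 * (B / 3 ^ (a + 1)) + 1 / 18 * (1 / 3 ^ a) := by
      rw [pow_succ, pow_succ]
      field_simp
      ring
    have e2 : (1 / 2 * B + 3 ^ a / 2) / 3 ^ a = 3 / 2 * (B / 3 ^ (a + 1)) + 1 / 2 := by
      rw [pow_succ]
      field_simp
    have e3 : 1 / (3 : ℝ) ^ a ≤ 1 := by
      rw [div_le_one h3]
      exact h31
    rw [e1] at i1
    rw [e2] at i2
    linarith

/-- not met `s` steps after the time `t`, in terms of level `0` -/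
theorem surv_le_qq : ∃ C : ℝ, 0 < C ∧ ∀ (s : ℕ) (B : ℝ), 1 ≤ s → 1 ≤ B → ∀ (t : ℕ) (z : ℕ × ℤ),
    surv (t + s) z ≤ qq t z + C * (1 + √(Real.log (2 + B))) / √s + (be z + t / 2) / B := by
  obtain ⟨C, hC, h⟩ := surv_le
  refine ⟨C, hC, fun s B hs hB t => ?_⟩
  have hs0 : (0 : ℝ) < √(s : ℝ) := Real.sqrt_pos.2 (by exact_mod_cast hs)
  have hD : 0 ≤ C * (1 + √(Real.log (2 + B))) / √s := by positivity
  have lev : ∀ z : ℕ × ℤ, z.1 = 0 → surv s z ≤ C * (1 + √(Real.log (2 + B))) / √s + be z / B := by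
    intro z hz
    rcases le_or_gt |(z.2 : ℝ)| B with hb | hb
    · have h1 := h s hs 0 z.2
      have ez : ((0, z.2) : ℕ × ℤ) = z := by rw [← hz]
      rw [ez] at h1
      have h2 : C * (1 + ((0 : ℕ) : ℝ) + √(Real.log (2 + |(z.2 : ℝ)|))) / √s ≤ C * (1 + √(Real.log (2 + B))) / √s := by
        apply div_le_div_of_nonneg_right _ hs0.le
        apply mul_le_mul_of_nonneg_left _ hC.le
        push_cast
        have : √(Real.log (2 + |(z.2 : ℝ)|)) ≤ √(Real.log (2 + B)) := by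
          apply Real.sqrt_le_sqrt
          apply Real.log_le_log (by positivity) (by linarith)
        linarith
      have h3 : 0 ≤ be z / B := div_nonneg (be_nonneg z) (by linarith)
      linarith
    · have h1 : 1 ≤ be z / B := by
        unfold be
        rw [hz, pow_zero, div_one, le_div_iff₀ (by linarith), one_mul]
        exact hb.le
      have := surv_le_one s z
      linarith
  induction t with
  | zero =>
    intro z
    rw [Nat.zero_add]
    have hbe : 0 ≤ be z / B := div_nonneg (be_nonneg z) (by linarith)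
    have e0 : (be z + ((0 : ℕ) : ℝ) / 2) / B = be z / B := by simp
    rw [e0]
    by_cases hz : z.1 = 0
    · rw [qq_lev _ hz]
      have := lev z hz
      linarith
    · have h1 : qq 0 z = 1 := by simp [qq, hz]
      rw [h1]
      have := surv_le_one s z
      linarith
  | succ n ih =>
    intro z
    by_cases hz : z.1 = 0
    · rw [qq_lev _ hz]
      have h1 := surv_anti (show s ≤ n + 1 + s by omega) z
      have h2 := lev z hz
      have h3 : be z / B ≤ (be z + ((n + 1 : ℕ) : ℝ) / 2) / B :=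
        div_le_div_of_nonneg_right (by push_cast; have : (0 : ℝ) ≤ n := Nat.cast_nonneg _; linarith) (by linarith)
      linarith
    · have e1 : n + 1 + s = (n + s) + 1 := by ring
      rw [e1, qq_succ _ hz, surv]
      have h1 := av_mono ih z
      have e2 : (fun z => qq n z + C * (1 + √(Real.log (2 + B))) / √s + (be z + n / 2) / B)
          = fun z => qq n z + ((1 / B) * be z + (C * (1 + √(Real.log (2 + B))) / √s + n / 2 / B)) := by
        funext z
        ring
      rw [e2, av_add, av_add, av_mul, av_const] at h1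
      refine h1.trans ?_
      have h2 : (1 / B) * av be z ≤ (1 / B) * (be z + 1 / 2) :=
        mul_le_mul_of_nonneg_left (av_be hz) (by positivity)
      have e3 : (be z + ((n + 1 : ℕ) : ℝ) / 2) / B = (1 / B) * (be z + 1 / 2) + n / 2 / B := by
        push_cast
        ring
      rw [e3]
      linarith

/-- the scaling limit of the probability that the pair has not met -/
theorem surv_lim (hc : S_CS) (hb : S_Big) (hr : S_Rep) (hq : S_Q) {ε : ℝ} (hε : 0 < ε) :
    ∃ δ : ℝ, 0 < δ ∧ ∃ t₀ : ℕ, 1 ≤ t₀ ∧ ∀ t : ℕ, t₀ ≤ t → ∀ z : ℕ × ℤ, be z ≤ Real.exp (δ * t) →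
      |surv t z - lim t z.1| ≤ ε := by
  obtain ⟨κ, hκ0, hκ8, hκ⟩ := lim_scale (show 0 < ε / 4 by linarith)
  obtain ⟨t₁, ht₁, h₁⟩ := qq_lim hc hb hr hq (show 0 < ε / 4 by linarith)
  obtain ⟨C, hC, h₂⟩ := surv_le_qq
  set δ := ε ^ 2 * κ / (256 * C ^ 2) with hδ
  have hδ0 : 0 < δ := by positivity
  obtain ⟨t₂, ht₂⟩ := exists_nat_ge (2 / κ + 2 * t₁ + 384 * C ^ 2 / (ε ^ 2 * κ) + 4 / ε * (1 / δ + 1 / (2 * δ ^ 2)))
  refine ⟨δ, hδ0, max t₁ t₂, le_trans ht₁ (le_max_left _ _), fun t ht z hz => ?_⟩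
  have ht1 : t₁ ≤ t := le_trans (le_max_left _ _) ht
  have ht2 : 2 / κ + 2 * t₁ + 384 * C ^ 2 / (ε ^ 2 * κ) + 4 / ε * (1 / δ + 1 / (2 * δ ^ 2)) ≤ t :=
    ht₂.trans (by exact_mod_cast le_trans (le_max_right _ _) ht)
  have p1 : 0 < 2 / κ := by positivity
  have p2 : 0 < 384 * C ^ 2 / (ε ^ 2 * κ) := by positivity
  have p3 : 0 < 4 / ε * (1 / δ + 1 / (2 * δ ^ 2)) := by positivity
  have p4 : (0 : ℝ) ≤ t₁ := Nat.cast_nonneg _
  have ht0 : (0 : ℝ) < t := by linarith
  have r1 : 2 ≤ κ * t := by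
    have : 2 / κ ≤ t := by linarith
    rw [div_le_iff₀ hκ0] at this
    linarith
  have r2 : 2 * (t₁ : ℝ) ≤ t := by linarith
  have r3 : 384 * C ^ 2 ≤ ε ^ 2 * κ * t := by
    have : 384 * C ^ 2 / (ε ^ 2 * κ) ≤ t := by linarith
    rw [div_le_iff₀ (by positivity)] at this
    linarith
  have r4 : 1 / (δ * t) + 1 / (2 * δ ^ 2 * t) ≤ ε / 4 := by
    have h1 : 4 / ε * (1 / δ + 1 / (2 * δ ^ 2)) ≤ t := by linarith
    have h2 : 1 / (δ * t) + 1 / (2 * δ ^ 2 * t) = (1 / δ + 1 / (2 * δ ^ 2)) / t := by field_simp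
    rw [h2, div_le_iff₀ ht0]
    have h3 : (1 / δ + 1 / (2 * δ ^ 2)) = ε / 4 * (4 / ε * (1 / δ + 1 / (2 * δ ^ 2))) := by field_simp
    rw [h3]
    exact mul_le_mul_of_nonneg_left h1 (by linarith)
  have hlo := (abs_le.1 (h₁ t ht1 z)).1
  have hlo2 := qq_le_surv t z
  -- the upper bound
  set s := ⌊κ * t⌋₊ with hs
  have hs1 : (s : ℝ) ≤ κ * t := Nat.floor_le (by positivity)
  have hs2 : κ * t < s + 1 := Nat.lt_floor_add_one _
  have hs3 : 1 ≤ s := by
    have : (1 : ℝ) < s + 1 := by linarith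
    have : 0 < s := by
      have h : (0 : ℝ) < s := by linarith
      exact_mod_cast h
    omega
  have hst : s ≤ t := by
    have : (s : ℝ) ≤ t := by nlinarith
    exact_mod_cast this
  obtain ⟨u, hu⟩ := Nat.exists_eq_add_of_le' hst
  have huR : (t : ℝ) = u + s := by exact_mod_cast hu
  have hu1 : t₁ ≤ u := by
    have : (t₁ : ℝ) ≤ u := by nlinarith
    exact_mod_cast this
  set B := Real.exp (2 * δ * t) with hB
  have hB1 : 1 ≤ B := Real.one_le_exp (by positivity)
  have h3 := h₂ s B hs3 hB1 u z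
  rw [← hu] at h3
  have h4 := (abs_le.1 (h₁ u hu1 z)).2
  have h5 := (abs_le.1 (hκ t (u / 2) z.1 ht0 (by rw [abs_le]; constructor <;> linarith))).2
  have e5 : 2 * Phi (z.1 / √((u : ℝ) / 2)) - 1 = lim u z.1 := rfl
  rw [e5] at h5
  have hs0 : (0 : ℝ) < s := by exact_mod_cast hs3
  have h6 : C * (1 + √(Real.log (2 + B))) / √s ≤ ε / 4 := by
    have l1 : Real.log (2 + B) ≤ 2 + 2 * δ * t := by
      have h : Real.log (2 + B) ≤ Real.log (3 * B) := Real.log_le_log (by linarith) (by linarith)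
      rw [Real.log_mul (by norm_num) (by linarith), hB, Real.log_exp] at h
      have : Real.log 3 ≤ 2 := by
        have := Real.log_le_sub_one_of_pos (show (0 : ℝ) < 3 by norm_num)
        linarith
      linarith
    have l2 : √(Real.log (2 + B)) ≤ √(2 + 2 * δ * t) := Real.sqrt_le_sqrt l1
    rw [div_le_iff₀ (Real.sqrt_pos.2 hs0)]
    apply le_of_sq_le_sq _ (by positivity)
    have l3 : (C * (1 + √(Real.log (2 + B)))) ^ 2 ≤ C ^ 2 * (6 + 4 * δ * t) := by
      rw [mul_pow]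
      apply mul_le_mul_of_nonneg_left _ (by positivity)
      have l4 : √(2 + 2 * δ * t) ^ 2 = 2 + 2 * δ * t := Real.sq_sqrt (by positivity)
      have l5 : (1 + √(Real.log (2 + B))) ^ 2 ≤ (1 + √(2 + 2 * δ * t)) ^ 2 :=
        pow_le_pow_left₀ (by positivity) (by linarith) 2
      nlinarith [sq_nonneg (1 - √(2 + 2 * δ * t))]
    refine l3.trans ?_
    rw [mul_pow, Real.sq_sqrt hs0.le]
    have l6 : κ * t / 2 ≤ s := by linarith
    have l7 : C ^ 2 * (4 * δ * t) = ε ^ 2 * κ * t / 64 := by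
      rw [hδ]
      field_simp
      ring
    have l8 : (ε / 4) ^ 2 * (κ * t / 2) ≤ (ε / 4) ^ 2 * s := mul_le_mul_of_nonneg_left l6 (by positivity)
    nlinarith
  have h7 : (be z + u / 2) / B ≤ ε / 4 := by
    refine le_trans ?_ r4
    set E := Real.exp (δ * t) with hE
    have hE0 : 0 < E := Real.exp_pos _
    have hBE : B = E * E := by
      rw [hB, hE, ← Real.exp_add]
      congr 1
      ring
    have hE1 : δ * t ≤ E := by
      have := Real.add_one_le_exp (δ * t)
      linarith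
    have i1 : (be z + u / 2) / B ≤ (E + t / 2) / B :=
      div_le_div_of_nonneg_right (by have : (0 : ℝ) ≤ s := hs0.le; linarith) (by linarith)
    have i2 : (E + t / 2) / B = 1 / E + t / 2 / (E * E) := by
      rw [hBE]
      field_simp
    have i3 : 1 / E ≤ 1 / (δ * t) := one_div_le_one_div_of_le (by positivity) hE1
    have i4 : t / 2 / (E * E) ≤ 1 / (2 * δ ^ 2 * t) := by
      rw [div_div, div_le_div_iff₀ (by positivity) (by positivity)]
      have : (δ * t) * (δ * t) ≤ E * E := mul_le_mul hE1 hE1 (by positivity) hE0.le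
      nlinarith
    linarith
  rw [abs_le]
  constructor <;> linarith

end Pool.Agent.Q74.AR
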