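import Pool.Agent.Q74.AR.TdYag

/-! # Project AR: the limit laws for the maps `3x+d`, uniformly in `d`: final form -/

set_option autoImplicit false

namespace Pool.Agent.Q74.AR

open Finset Filter Topology MeasureTheory ProbabilityTheory
open Pool.Agent.Q158.Pair (T step av surv zo surv_nonneg surv_le_one surv_iter acc Co Co_meet accident sum_block'
  sum_Ico_int surv_ge)
open Pool.Agent.Q158.Col4 (cI)

/-- the number of the integers of an interval whose pair has not met and has level at least `x √t` -/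
noncomputable def nlevd (d : ℤ) (t : ℕ) (a : ℕ) (b : ℤ) (x : ℝ) (M : ℤ) (L : ℕ) : ℕ :=
  {n : ℤ | M ≤ n ∧ n < M + L ∧ (Td d)^[t] n ≠ (Td d)^[t] (3 ^ a * n + d * b) ∧
    x * √(t : ℝ) ≤ |(a : ℝ) + ocd d t (3 ^ a * n + d * b) - ocd d t n|}.ncard

theorem nlevd_eq (d : ℤ) {x : ℝ} (hx : 0 ≤ x) (t : ℕ) (a : ℕ) (b : ℤ) (M : ℤ) (L : ℕ) : nlevd d t a b x M L =
    {n : ℤ | M ≤ n ∧ n < M + L ∧ (Td d)^[t] n ≠ (Td d)^[t] (3 ^ a * n + d * b) ∧
      ((⌈x * √(t : ℝ)⌉₊ : ℕ) : ℤ) ≤ |(a : ℤ) + ocd d t (3 ^ a * n + d * b) - ocd d t n|}.ncard := by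
  unfold nlevd
  congr 1
  ext n
  simp only [Set.mem_setOf_eq]
  have h : (x * √(t : ℝ) ≤ |(a : ℝ) + ocd d t (3 ^ a * n + d * b) - ocd d t n|) ↔
      ((⌈x * √(t : ℝ)⌉₊ : ℕ) : ℤ) ≤ |(a : ℤ) + ocd d t (3 ^ a * n + d * b) - ocd d t n| := by
    have e1 : |(a : ℝ) + ocd d t (3 ^ a * n + d * b) - ocd d t n| =
        ((|(a : ℤ) + ocd d t (3 ^ a * n + d * b) - ocd d t n|.toNat : ℕ) : ℝ) := by
      have h0 : ((|(a : ℤ) + ocd d t (3 ^ a * n + d * b) - ocd d t n|.toNat : ℕ) : ℤ) =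
          |(a : ℤ) + ocd d t (3 ^ a * n + d * b) - ocd d t n| := Int.toNat_of_nonneg (abs_nonneg _)
      have h1 : (((|(a : ℤ) + ocd d t (3 ^ a * n + d * b) - ocd d t n|.toNat : ℕ) : ℤ) : ℝ) =
          ((|(a : ℤ) + ocd d t (3 ^ a * n + d * b) - ocd d t n| : ℤ) : ℝ) := by rw [h0]
      push_cast at h1
      rw [h1]
    rw [e1, ← Nat.ceil_le]
    constructor
    · intro h2
      have h3 : ((⌈x * √(t : ℝ)⌉₊ : ℕ) : ℤ) ≤ ((|(a : ℤ) + ocd d t (3 ^ a * n + d * b) - ocd d t n|.toNat : ℕ) : ℤ) := by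
        exact_mod_cast h2
      rwa [Int.toNat_of_nonneg (abs_nonneg _)] at h3
    · intro h2
      omega
  rw [h]

/-- **Yaglom's theorem for the pair, in intervals.** -/
theorem yag_count_d (a : ℕ) (b : ℤ) {x ε : ℝ} (hx : 0 ≤ x) (hε : 0 < ε) : ∃ t₀ : ℕ, 1 ≤ t₀ ∧ ∀ t L : ℕ, t₀ ≤ t →
    t * 2 ^ t ≤ L → ∀ d : ℤ, d % 2 = 1 → ∀ M : ℤ,
      |√(t : ℝ) * nlevd d t a b x M L / L - 2 / √Real.pi * Real.exp (-x ^ 2) * cz (a, b)| ≤ ε := by
  have h1 := yaglom (a, b) hx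
  rw [Metric.tendsto_atTop] at h1
  obtain ⟨t₁, h1⟩ := h1 (ε / 2) (by positivity)
  obtain ⟨t₂, h2⟩ := exists_nat_gt ((4 / ε) ^ 2)
  refine ⟨max 1 (max t₁ t₂), le_max_left _ _, fun t L ht hL d hd M => ?_⟩
  have ht0 : 1 ≤ t := le_trans (le_max_left _ _) ht
  have ht1 : t₁ ≤ t := le_trans (le_trans (le_max_left _ _) (le_max_right _ _)) ht
  have ht2 : t₂ ≤ t := le_trans (le_trans (le_max_right _ _) (le_max_right _ _)) ht
  have h3 := h1 t ht1
  rw [Real.dist_eq] at h3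
  have h4 := lev_count_d hd ⌈x * √(t : ℝ)⌉₊ t a b M L
  rw [← nlevd_eq d hx t a b M L] at h4
  have htr : (1 : ℝ) ≤ t := by exact_mod_cast ht0
  have hst : 0 < √(t : ℝ) := Real.sqrt_pos.2 (by linarith)
  have hs2 : √(t : ℝ) * √(t : ℝ) = t := Real.mul_self_sqrt (by linarith)
  have hLr : (t : ℝ) * 2 ^ t ≤ L := by exact_mod_cast hL
  have hp : (0 : ℝ) < 2 ^ t := by positivity
  have hL0 : (0 : ℝ) < L := lt_of_lt_of_le (by positivity) hLr
  have h5 : 4 / ε ≤ √(t : ℝ) := by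
    apply Real.le_sqrt_of_sq_le
    have : (t₂ : ℝ) ≤ t := by exact_mod_cast ht2
    linarith
  have h6 : √(t : ℝ) * (2 * 2 ^ t) ≤ ε / 2 * L := by
    have h7 : 4 ≤ ε * √(t : ℝ) := by
      rw [div_le_iff₀ hε] at h5
      linarith
    calc √(t : ℝ) * (2 * 2 ^ t) = 4 * (√(t : ℝ) * 2 ^ t) / 2 := by ring
      _ ≤ (ε * √(t : ℝ)) * (√(t : ℝ) * 2 ^ t) / 2 := by
          have := mul_le_mul_of_nonneg_right h7 (by positivity : 0 ≤ √(t : ℝ) * 2 ^ t)
          linarith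
      _ = ε / 2 * ((√(t : ℝ) * √(t : ℝ)) * 2 ^ t) := by ring
      _ = ε / 2 * (t * 2 ^ t) := by rw [hs2]
      _ ≤ ε / 2 * L := mul_le_mul_of_nonneg_left hLr (by positivity)
  have h7 : |√(t : ℝ) * nlevd d t a b x M L / L - √(t : ℝ) * FF ⌈x * √(t : ℝ)⌉₊ t (a, b)| ≤ ε / 2 := by
    have e : √(t : ℝ) * nlevd d t a b x M L / L - √(t : ℝ) * FF ⌈x * √(t : ℝ)⌉₊ t (a, b) =
        √(t : ℝ) * ((nlevd d t a b x M L : ℝ) - FF ⌈x * √(t : ℝ)⌉₊ t (a, b) * L) / L := by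
      field_simp
    rw [e, abs_div, abs_mul, abs_of_pos hst, abs_of_pos hL0, div_le_iff₀ hL0]
    exact (mul_le_mul_of_nonneg_left h4 hst.le).trans h6
  rw [abs_le] at h7 ⊢
  rw [abs_lt] at h3
  constructor <;> linarith [h7.1, h7.2, h3.1, h3.2]

theorem nlevd_zero (d : ℤ) (t : ℕ) (a : ℕ) (b : ℤ) (M : ℤ) (L : ℕ) : nlevd d t a b 0 M L =
    {n : ℤ | M ≤ n ∧ n < M + L ∧ (Td d)^[t] n ≠ (Td d)^[t] (3 ^ a * n + d * b)}.ncard := by
  unfold nlevd
  congr 1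
  ext n
  simp only [Set.mem_setOf_eq, zero_mul, abs_nonneg, and_true]

/-- the limit law of the level given that the pair has not met -/
theorem ray_count_d (a : ℕ) (b : ℤ) (hz : (a, b) ≠ (0, 0)) {x ε : ℝ} (hx : 0 ≤ x) (hε : 0 < ε) :
    ∃ t₀ : ℕ, 1 ≤ t₀ ∧ ∀ t L : ℕ, t₀ ≤ t → t * 2 ^ t ≤ L → ∀ d : ℤ, d % 2 = 1 → ∀ M : ℤ,
      |(nlevd d t a b x M L : ℝ) / nlevd d t a b 0 M L - Real.exp (-x ^ 2)| ≤ ε := by
  have hc := cz_pos hz
  set c := 2 / √Real.pi * cz (a, b) with hcdef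
  have hc0 : 0 < c := by
    rw [hcdef]
    exact mul_pos (by positivity) hc
  set δ := min (c / 2) (ε * c / 4) with hδ
  have hδ0 : 0 < δ := lt_min (by positivity) (by positivity)
  obtain ⟨t₁, ht1, h1⟩ := yag_count_d a b hx hδ0
  obtain ⟨t₂, ht2, h2⟩ := yag_count_d a b (le_refl (0 : ℝ)) hδ0
  refine ⟨max t₁ t₂, le_trans ht1 (le_max_left _ _), fun t L ht hL d hd M => ?_⟩
  have h3 := h1 t L (le_trans (le_max_left _ _) ht) hL d hd M
  have h4 := h2 t L (le_trans (le_max_right _ _) ht) hL d hd M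
  have htr : (1 : ℝ) ≤ t := by exact_mod_cast (le_trans (le_trans ht1 (le_max_left _ _)) ht)
  have hst : 0 < √(t : ℝ) := Real.sqrt_pos.2 (by linarith)
  have hLr : (t : ℝ) * 2 ^ t ≤ L := by exact_mod_cast hL
  have hL0 : (0 : ℝ) < L := lt_of_lt_of_le (by positivity) hLr
  set A := √(t : ℝ) * nlevd d t a b x M L / L with hA
  set B := √(t : ℝ) * nlevd d t a b 0 M L / L with hB
  have e0 : Real.exp (-(0 : ℝ) ^ 2) = 1 := by simp
  have e1 : 2 / √Real.pi * Real.exp (-x ^ 2) * cz (a, b) = Real.exp (-x ^ 2) * c := by rw [hcdef]; ring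
  have e2 : 2 / √Real.pi * Real.exp (-(0 : ℝ) ^ 2) * cz (a, b) = c := by rw [e0, hcdef]; ring
  rw [e1, abs_le] at h3
  rw [e2, abs_le] at h4
  have hB0 : c / 2 ≤ B := by
    have : δ ≤ c / 2 := min_le_left _ _
    linarith [h4.1]
  have hn0 : (nlevd d t a b 0 M L : ℝ) ≠ 0 := by
    intro h
    rw [hB, h] at hB0
    simp at hB0
    linarith
  have e3 : (nlevd d t a b x M L : ℝ) / nlevd d t a b 0 M L = A / B := by
    rw [hA, hB]
    field_simp
  have hx1 : Real.exp (-x ^ 2) ≤ 1 := Real.exp_le_one_iff.2 (by nlinarith [sq_nonneg x])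
  have hx0 : 0 < Real.exp (-x ^ 2) := Real.exp_pos _
  have hBp : 0 < B := by linarith
  have hδ2 : δ ≤ ε * c / 4 := min_le_right _ _
  rw [e3]
  have e4 : A / B - Real.exp (-x ^ 2) = (A - Real.exp (-x ^ 2) * B) / B := by field_simp
  rw [e4, abs_div, abs_of_pos hBp, div_le_iff₀ hBp]
  have h5 : ε * (c / 2) ≤ ε * B := mul_le_mul_of_nonneg_left hB0 hε.le
  have h6 : |Real.exp (-x ^ 2) * (B - c)| ≤ δ := by
    rw [abs_mul, abs_of_pos hx0]
    have : |B - c| ≤ δ := abs_le.2 ⟨by linarith [h4.1], by linarith [h4.2]⟩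
    calc Real.exp (-x ^ 2) * |B - c| ≤ 1 * δ := mul_le_mul hx1 this (abs_nonneg _) (by norm_num)
      _ = δ := one_mul _
  rw [abs_le] at h6 ⊢
  constructor <;> nlinarith [h3.1, h3.2, h6.1, h6.2]

/-- **The exact constant for invariant sets.** -/
theorem inv_count_d (a : ℕ) (b : ℤ) {ε : ℝ} (hε : 0 < ε) : ∃ L₀ : ℕ, ∀ d : ℤ, d % 2 = 1 → ∀ S : Set ℤ, (∀ x, Td d x ∈ S ↔ x ∈ S) →
    ∀ L : ℕ, L₀ ≤ L → ∀ M : ℤ,
      √(Real.log L / Real.log 2) * {n : ℤ | M ≤ n ∧ n < M + L ∧ ¬ (n ∈ S ↔ 3 ^ a * n + d * b ∈ S)}.ncard / L ≤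
        2 / √Real.pi * cz (a, b) + ε := by
  set c := 2 / √Real.pi * cz (a, b) with hcdef
  have hc0 : 0 ≤ c := mul_nonneg (by positivity) (cz_nonneg _)
  obtain ⟨t₁, ht1, h1⟩ := yag_count_d a b (le_refl (0 : ℝ)) (show 0 < ε / 2 by positivity)
  -- `δ` with `(1 + δ) (c + ε / 2) ≤ c + ε`
  set δ := ε / 2 / (c + ε) with hδ
  have hδ0 : 0 < δ := by positivity
  -- `log₂ (t + 1) + 1 ≤ δ t` for large `t`
  have hlim : ∃ t₂ : ℕ, ∀ t : ℕ, t₂ ≤ t → (t : ℝ) + 1 + Real.log (t + 1) / Real.log 2 ≤ (1 + δ) ^ 2 * t := by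
    have hl2 : 0 < Real.log 2 := Real.log_pos (by norm_num)
    have hlo : (fun x : ℝ => Real.log x) =o[atTop] (fun x : ℝ => x) := Real.isLittleO_log_id_atTop
    have h := hlo.def (show 0 < δ * Real.log 2 / 2 by positivity)
    rw [eventually_atTop] at h
    obtain ⟨X, hX⟩ := h
    obtain ⟨t₂, ht2⟩ := exists_nat_gt (max X (max 1 (3 / δ)))
    refine ⟨t₂, fun t ht => ?_⟩
    have h3 : (t₂ : ℝ) ≤ t := by exact_mod_cast ht
    have hX' : X ≤ (t : ℝ) + 1 := by linarith [le_max_left X (max 1 (3 / δ))]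
    have h4 : 3 / δ ≤ t := by linarith [le_trans (le_max_right 1 (3 / δ)) (le_max_right X (max 1 (3 / δ)))]
    have h5 : 3 ≤ δ * t := by rw [div_le_iff₀ hδ0] at h4; linarith
    have h6 : (1 : ℝ) ≤ t := by linarith [le_trans (le_max_left 1 (3 / δ)) (le_max_right X (max 1 (3 / δ)))]
    have h7 := hX ((t : ℝ) + 1) hX'
    rw [Real.norm_eq_abs, Real.norm_eq_abs, abs_of_pos (by linarith : (0 : ℝ) < t + 1)] at h7
    have h8 := (le_abs_self _).trans h7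
    have h9 : Real.log (t + 1) / Real.log 2 ≤ δ / 2 * (t + 1) := by
      rw [div_le_iff₀ hl2]
      linarith
    have h10 : δ / 2 * (t + 1) ≤ δ * t := by nlinarith
    nlinarith [sq_nonneg δ]
  obtain ⟨t₂, h2⟩ := hlim
  set t₀ := max t₁ (max t₂ 1) with ht0
  refine ⟨t₀ * 2 ^ t₀, fun d hd S hS L hL M => ?_⟩
  obtain ⟨t, ht, hLt, hLt'⟩ := exists_t t₀ hL (le_trans (le_max_right _ _) (le_max_right _ _))
  have h3 := h1 t L (le_trans (le_max_left _ _) ht) hLt d hd M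
  rw [nlevd_zero] at h3
  have h4 := h2 t (le_trans (le_trans (le_max_left _ _) (le_max_right _ _)) ht)
  have ht1' : 1 ≤ t := le_trans (le_trans (le_max_right _ _) (le_max_right _ _)) ht
  have htr : (1 : ℝ) ≤ t := by exact_mod_cast ht1'
  have hst : 0 < √(t : ℝ) := Real.sqrt_pos.2 (by linarith)
  have hLr : (t : ℝ) * 2 ^ t ≤ L := by exact_mod_cast hLt
  have hL0 : (0 : ℝ) < L := lt_of_lt_of_le (by positivity) hLr
  have hl2 : 0 < Real.log 2 := Real.log_pos (by norm_num)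
  -- the set of separated points
  have hsub : {n : ℤ | M ≤ n ∧ n < M + L ∧ ¬ (n ∈ S ↔ 3 ^ a * n + d * b ∈ S)} ⊆
      {n : ℤ | M ≤ n ∧ n < M + L ∧ (Td d)^[t] n ≠ (Td d)^[t] (3 ^ a * n + d * b)} := by
    rintro n ⟨g1, g2, g3⟩
    refine ⟨g1, g2, fun g4 => g3 ?_⟩
    have hit : ∀ (k : ℕ) (y : ℤ), (Td d)^[k] y ∈ S ↔ y ∈ S := by
      intro k
      induction k with
      | zero => intro y; rfl
      | succ k ih => intro y; rw [Function.iterate_succ_apply, ih, hS]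
    rw [← hit t n, g4, hit]
  have hfin : {n : ℤ | M ≤ n ∧ n < M + L ∧ (Td d)^[t] n ≠ (Td d)^[t] (3 ^ a * n + d * b)}.Finite :=
    (Set.finite_Ico M (M + L)).subset fun n hn => ⟨hn.1, hn.2.1⟩
  have h5 := Set.ncard_le_ncard hsub hfin
  have h5' : ({n : ℤ | M ≤ n ∧ n < M + L ∧ ¬ (n ∈ S ↔ 3 ^ a * n + d * b ∈ S)}.ncard : ℝ) ≤
      ({n : ℤ | M ≤ n ∧ n < M + L ∧ (Td d)^[t] n ≠ (Td d)^[t] (3 ^ a * n + d * b)}.ncard : ℝ) := by exact_mod_cast h5
  set P := ({n : ℤ | M ≤ n ∧ n < M + L ∧ ¬ (n ∈ S ↔ 3 ^ a * n + d * b ∈ S)}.ncard : ℝ) with hP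
  set Q := ({n : ℤ | M ≤ n ∧ n < M + L ∧ (Td d)^[t] n ≠ (Td d)^[t] (3 ^ a * n + d * b)}.ncard : ℝ) with hQ
  have e0 : Real.exp (-(0 : ℝ) ^ 2) = 1 := by simp
  have e2 : 2 / √Real.pi * Real.exp (-(0 : ℝ) ^ 2) * cz (a, b) = c := by rw [e0, hcdef]; ring
  rw [e2, abs_le] at h3
  -- `√(log₂ L) ≤ (1 + δ) √t`
  have h6 : √(Real.log L / Real.log 2) ≤ (1 + δ) * √(t : ℝ) := by
    have e3 : (1 + δ) * √(t : ℝ) = √((1 + δ) ^ 2 * t) := by
      rw [Real.sqrt_mul (by positivity), Real.sqrt_sq (by positivity)]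
    rw [e3]
    apply Real.sqrt_le_sqrt
    refine le_trans ?_ h4
    rw [div_le_iff₀ hl2]
    have h7 : (L : ℝ) ≤ (t + 1) * 2 ^ (t + 1) := by exact_mod_cast hLt'.le
    have h8 := Real.log_le_log hL0 h7
    rw [Real.log_mul (by positivity) (by positivity), Real.log_pow] at h8
    refine h8.trans (le_of_eq ?_)
    push_cast
    field_simp
    ring
  have h7 : √(Real.log L / Real.log 2) * P / L ≤ (1 + δ) * (√(t : ℝ) * Q / L) := by
    rw [← mul_div_assoc, div_le_div_iff_of_pos_right hL0, ← mul_assoc]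
    exact mul_le_mul h6 h5' (Nat.cast_nonneg _) (by positivity)
  have h8 : (1 + δ) * (√(t : ℝ) * Q / L) ≤ (1 + δ) * (c + ε / 2) :=
    mul_le_mul_of_nonneg_left (by linarith [h3.2]) (by positivity)
  have h9 : δ * (c + ε / 2) ≤ ε / 2 := by
    have h10 : δ * (c + ε) = ε / 2 := by rw [hδ]; field_simp
    nlinarith
  linarith

theorem ne_count_d {d : ℤ} (hd : d % 2 = 1) (t h : ℕ) (M : ℤ) (L : ℕ) :
    |({x : ℤ | M ≤ x ∧ x < M + L ∧ (Td d)^[t] x ≠ (Td d)^[t] (x + d * h)}.ncard : ℝ) - surv t (0, (h : ℤ)) * L| ≤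
      2 * 2 ^ t := by
  have h1 := meet_count_d hd t 0 (h : ℤ) M L
  simpa using h1

theorem eq_count_d {d : ℤ} (hd : d % 2 = 1) (t h : ℕ) (M : ℤ) (L : ℕ) :
    |({x : ℤ | M ≤ x ∧ x < M + L ∧ (Td d)^[t] x = (Td d)^[t] (x + d * h)}.ncard : ℝ) - (1 - surv t (0, (h : ℤ))) * L| ≤ 2 * 2 ^ t := by
  classical
  have h1 := ne_count_d hd t h M L
  rw [Pool.Agent.Q158.Pair.ncard_eq (fun x => (Td d)^[t] x ≠ (Td d)^[t] (x + d * h))] at h1
  rw [Pool.Agent.Q158.Pair.ncard_eq (fun x => (Td d)^[t] x = (Td d)^[t] (x + d * h))]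
  have h2 := card_filter_add_card_filter_not (s := Ico M (M + L)) (fun x => (Td d)^[t] x = (Td d)^[t] (x + d * h))
  have h3 : (Ico M (M + L)).card = L := by
    rw [Int.card_Ico]; simp
  rw [h3] at h2
  have h4 : (((Ico M (M + L)).filter (fun x => (Td d)^[t] x = (Td d)^[t] (x + d * h))).card : ℝ) +
      (((Ico M (M + L)).filter (fun x => (Td d)^[t] x ≠ (Td d)^[t] (x + d * h))).card : ℝ) = L := by exact_mod_cast h2
  rw [abs_le] at h1 ⊢
  constructor <;> linarith [h1.1, h1.2]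

theorem inv_iter_d {d : ℤ} {S : Set ℤ} (hS : ∀ x, Td d x ∈ S ↔ x ∈ S) : ∀ (k : ℕ) (y : ℤ), (Td d)^[k] y ∈ S ↔ y ∈ S := by
  intro k
  induction k with
  | zero => intro y; rfl
  | succ k ih => intro y; rw [Function.iterate_succ_apply, ih, hS]

/-- the arcsine law -/
theorem arcsine_d {ε : ℝ} (hε : 0 < ε) : ∃ t₀ K : ℕ, ∀ t H L : ℕ, t₀ ≤ t → 1 ≤ H → K * 2 ^ t ≤ L → ∀ d : ℤ, d % 2 = 1 → ∀ M : ℤ,
    |(∑ h ∈ range H, ({n : ℤ | M ≤ n ∧ n < M + L ∧ (Td d)^[t] n = (Td d)^[t] (n + d * h)}.ncard : ℝ)) / (L * H) -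
      2 / Real.pi * Real.arccos (√(2 * Real.log H / (t * Real.log (4 / 3))))| ≤ ε := by
  obtain ⟨t₀, ht₀, harc⟩ := arc_all (show 0 < ε / 2 by positivity)
  obtain ⟨K, hK1, hK⟩ := exists_K' (show 0 < ε / 2 by positivity)
  refine ⟨t₀, K, fun t H L ht hH hL d hd M => ?_⟩
  have hHr : (0 : ℝ) < H := by exact_mod_cast hH
  have hLr : (0 : ℝ) < L := by
    have : 0 < K * 2 ^ t := by positivity
    exact_mod_cast lt_of_lt_of_le this hL
  have h1 := harc t ht H hH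
  have h2 := hK t L hL
  rw [cI_form] at h1
  rw [← one_sub_GA]
  have h3 : |(∑ h ∈ range H, ({n : ℤ | M ≤ n ∧ n < M + L ∧ (Td d)^[t] n = (Td d)^[t] (n + d * h)}.ncard : ℝ)) / (L * H) -
      (1 - PP t H)| ≤ ε / 2 := by
    have e1 : (1 - PP t H) = (∑ h ∈ range H, (1 - surv t (0, (h : ℤ))) * L) / (L * H) := by
      unfold PP
      rw [← sum_mul, sum_sub_distrib, sum_const, card_range, nsmul_eq_mul, mul_one]
      field_simp
    rw [e1, ← sub_div, ← sum_sub_distrib, abs_div, abs_of_pos (by positivity : (0 : ℝ) < L * H),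
      div_le_iff₀ (by positivity)]
    refine (abs_sum_le_sum_abs _ _).trans ((sum_le_card_nsmul _ _ (ε / 2 * L) fun h _ => ?_).trans ?_)
    · exact (eq_count_d hd t h M L).trans h2
    · rw [card_range, nsmul_eq_mul]
      apply le_of_eq; ring
  rw [abs_le] at h1 h3 ⊢
  constructor <;> linarith [h1.1, h1.2, h3.1, h3.2]

/-- pairs separated by an invariant set -/
theorem separated_d {ε : ℝ} (hε : 0 < ε) : ∃ L₀ : ℕ, ∀ d : ℤ, d % 2 = 1 → ∀ S : Set ℤ, (∀ x, Td d x ∈ S ↔ x ∈ S) →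
    ∀ (θ : ℝ) (H L : ℕ), L₀ ≤ L → 1 ≤ H → 0 ≤ θ → (H : ℝ) ≤ (L : ℝ) ^ θ → ∀ M : ℤ,
    (∑ h ∈ range H, ({n : ℤ | M ≤ n ∧ n < M + L ∧ ¬ (n ∈ S ↔ n + d * h ∈ S)}.ncard : ℝ)) ≤
      (2 / Real.pi * Real.arcsin (√(2 * Real.log 2 / Real.log (4 / 3) * θ)) + ε) * (L * H) := by
  classical
  obtain ⟨t₀, ht₀, harc⟩ := arc_all (show 0 < ε / 3 by positivity)
  obtain ⟨K, hK1, hK⟩ := exists_K' (show 0 < ε / 3 by positivity)
  obtain ⟨δ, hδ, hGA⟩ := GA_unif (show 0 < ε / 3 by positivity)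
  set m := Nat.log 2 K + 1 with hm
  have hKm : K < 2 ^ m := Nat.lt_pow_succ_log_self (by norm_num) K
  have hl2 : 0 < Real.log 2 := Real.log_pos (by norm_num)
  have hl43 : 0 < Real.log (4 / 3) := Real.log_pos (by norm_num)
  -- the number of steps
  obtain ⟨t₁, ht₁⟩ := exists_nat_ge ((m + 1 : ℝ) / δ + 1)
  refine ⟨2 ^ (m + max t₀ t₁), fun d hd S hS θ H L hL hH hθ0 hθ M => ?_⟩
  have hHr : (0 : ℝ) < H := by exact_mod_cast hH
  have hLpos : 0 < L := lt_of_lt_of_le (by positivity) hL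
  have hLr : (0 : ℝ) < L := by exact_mod_cast hLpos
  have hlogL : m + max t₀ t₁ ≤ Nat.log 2 L := Nat.le_log_of_pow_le (by norm_num) hL
  obtain ⟨t, ht⟩ := Nat.exists_eq_add_of_le (show m ≤ Nat.log 2 L by omega)
  have htt : max t₀ t₁ ≤ t := by omega
  have htt0 : t₀ ≤ t := le_trans (le_max_left _ _) htt
  have htt1 : (m + 1 : ℝ) / δ + 1 ≤ t := ht₁.trans (by exact_mod_cast le_trans (le_max_right _ _) htt)
  have ht0 : (0 : ℝ) < t := by
    have : 0 < (m + 1 : ℝ) / δ := by positivity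
    linarith
  have hKL : K * 2 ^ t ≤ L := by
    calc K * 2 ^ t ≤ 2 ^ m * 2 ^ t := Nat.mul_le_mul_right _ hKm.le
      _ = 2 ^ (m + t) := (pow_add 2 m t).symm
      _ = 2 ^ Nat.log 2 L := by rw [ht]
      _ ≤ L := Nat.pow_log_le_self 2 hLpos.ne'
  have hlogL2 : Real.log L ≤ (m + 1 + t) * Real.log 2 := by
    have h1 : L < 2 ^ (Nat.log 2 L + 1) := Nat.lt_pow_succ_log_self (by norm_num) L
    have h2 : (L : ℝ) ≤ 2 ^ (Nat.log 2 L + 1) := by exact_mod_cast h1.le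
    have h3 := Real.log_le_log hLr h2
    rw [Real.log_pow, ht] at h3
    push_cast at h3
    linarith
  have hlogH : Real.log H ≤ θ * Real.log L := by
    have := Real.log_le_log hHr hθ
    rwa [Real.log_rpow hLr] at this
  -- separation needs two trajectories that do not meet
  have hsub : ∀ h ∈ range H, ({n : ℤ | M ≤ n ∧ n < M + L ∧ ¬ (n ∈ S ↔ n + d * h ∈ S)}.ncard : ℝ) ≤
      surv t (0, (h : ℤ)) * L + ε / 3 * L := by
    intro h _
    have h1 := (abs_le.1 (ne_count_d hd t h M L)).2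
    have h2 : ({n : ℤ | M ≤ n ∧ n < M + L ∧ ¬ (n ∈ S ↔ n + d * h ∈ S)}.ncard : ℝ) ≤
        ({x : ℤ | M ≤ x ∧ x < M + L ∧ (Td d)^[t] x ≠ (Td d)^[t] (x + d * h)}.ncard : ℝ) := by
      have hfin : {x : ℤ | M ≤ x ∧ x < M + L ∧ (Td d)^[t] x ≠ (Td d)^[t] (x + d * h)}.Finite :=
        (Set.finite_Ico M (M + L)).subset fun x hx => ⟨hx.1, hx.2.1⟩
      have : {n : ℤ | M ≤ n ∧ n < M + L ∧ ¬ (n ∈ S ↔ n + d * h ∈ S)}.ncard ≤
          {x : ℤ | M ≤ x ∧ x < M + L ∧ (Td d)^[t] x ≠ (Td d)^[t] (x + d * h)}.ncard := by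
        apply Set.ncard_le_ncard _ hfin
        intro n hn
        refine ⟨hn.1, hn.2.1, fun he => hn.2.2 ?_⟩
        rw [← inv_iter_d hS t n, ← inv_iter_d hS t (n + d * h), he]
      exact_mod_cast this
    have h3 := hK t L hKL
    linarith
  have hsum : (∑ h ∈ range H, ({n : ℤ | M ≤ n ∧ n < M + L ∧ ¬ (n ∈ S ↔ n + d * h ∈ S)}.ncard : ℝ)) ≤
      (PP t H + ε / 3) * (L * H) := by
    refine (sum_le_sum hsub).trans (le_of_eq ?_)
    unfold PP
    rw [sum_add_distrib, ← sum_mul, sum_const, card_range, nsmul_eq_mul]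
    field_simp
  refine hsum.trans (mul_le_mul_of_nonneg_right ?_ (by positivity))
  have h1 := (abs_le.1 (harc t htt0 H hH)).2
  have h2 : GA (cI * Real.log H / t) ≤ GA (2 * Real.log 2 / Real.log (4 / 3) * θ) + ε / 3 := by
    set y := 2 * Real.log 2 / Real.log (4 / 3) * θ with hy
    have hy0 : 0 ≤ y := by positivity
    rcases le_or_gt 1 y with hy1 | hy1
    · have i1 := GA_le_one (cI * Real.log H / t)
      have i2 := GA_mono hy1
      rw [GA_one] at i2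
      linarith
    · have i1 : cI * Real.log H / t ≤ y * (1 + (m + 1) / t) := by
        rw [div_le_iff₀ ht0]
        have j1 : cI * Real.log H ≤ cI * (θ * ((m + 1 + t) * Real.log 2)) := by
          apply mul_le_mul_of_nonneg_left _ cI_pos.le
          exact hlogH.trans (mul_le_mul_of_nonneg_left hlogL2 hθ0)
        refine j1.trans (le_of_eq ?_)
        rw [hy]
        unfold cI
        field_simp
        ring
      have i3 : (m + 1 : ℝ) / t ≤ δ := by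
        rw [div_le_iff₀ ht0]
        have : (m + 1 : ℝ) / δ ≤ t := by linarith
        rwa [div_le_iff₀ hδ, mul_comm] at this
      have i4 : cI * Real.log H / t ≤ y + δ := by
        refine i1.trans ?_
        have : y * ((m + 1 : ℝ) / t) ≤ 1 * δ := mul_le_mul hy1.le i3 (by positivity) (by norm_num)
        linarith
      have i5 : GA (cI * Real.log H / t) ≤ GA (min (y + δ) 1) := by
        rcases le_total (y + δ) 1 with hc | hc
        · rw [min_eq_left hc]; exact GA_mono i4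
        · rw [min_eq_right hc, GA_one]; exact GA_le_one _
      have i6 := hGA (min (y + δ) 1) y (by positivity) (min_le_right _ _) hy0 hy1.le (by
        rw [abs_le]
        constructor
        · have : y ≤ min (y + δ) 1 := le_min (by linarith) hy1.le
          linarith
        · have := min_le_left (y + δ) 1
          linarith)
      have := (abs_le.1 i6).2
      linarith
  have h3 : GA (2 * Real.log 2 / Real.log (4 / 3) * θ) =
      2 / Real.pi * Real.arcsin (√(2 * Real.log 2 / Real.log (4 / 3) * θ)) := rfl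
  rw [← h3]
  linarith

end Pool.Agent.Q74.AR
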