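import Pool.Agent.Q74.AR.YagThm
import Pool.Agent.Q74.AR.ArcFin
import Pool.Agent.Q74.AR.Td

/-! # Project AR: the limit laws for the maps `3x+d`, uniformly in `d` -/

set_option autoImplicit false

namespace Pool.Agent.Q74.AR

open Finset Filter Topology MeasureTheory ProbabilityTheory
open Pool.Agent.Q158.Pair (T step av surv zo surv_nonneg surv_le_one surv_iter acc Co Co_meet accident sum_block'
  sum_Ico_int surv_ge cop2)
open Pool.Agent.Q158.Col4 (cI)

/-- sums of periodic functions over affine forms -/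
theorem count_per_u (t : ℕ) (g : ℤ → ℝ) (hg : ∀ x j : ℤ, g (x + 2 ^ t * j) = g x) (h0 : ∀ x, 0 ≤ g x) (h1 : ∀ x, g x ≤ 1)
    (u s : ℤ) (hu : u % 2 = 1) (M : ℤ) (L : ℕ) :
    |∑ x ∈ Ico M (M + L), g (u * x + s) - (∑ i ∈ range (2 ^ t), g i) / 2 ^ t * L| ≤ 2 ^ t := by
  have h := sum_Ico_int (fun x => g (u * x + s)) M L
  rw [h]
  have hp : 0 < 2 ^ t := by positivity
  have hg' : ∀ x j : ℤ, g (x + ((2 ^ t : ℕ) : ℤ) * j) = g x := by
    intro x j
    have e : ((2 ^ t : ℕ) : ℤ) = 2 ^ t := by push_cast; rfl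
    rw [e, hg]
  set S := ∑ i ∈ range (2 ^ t), g i with hS
  have hS0 : 0 ≤ S := sum_nonneg fun i _ => h0 _
  have hb : ∀ k : ℕ, ∑ i ∈ range (k * 2 ^ t), g (u * (M + i) + s) = k * S := by
    intro k
    have := sum_block' (2 ^ t) hp g hg' u (cop2 t u hu) k (u * M + s)
    rw [← this]
    apply sum_congr rfl
    intro i _
    congr 1
    ring
  have h2 : L ≤ (L / 2 ^ t + 1) * 2 ^ t := by
    rw [mul_comm]; exact (Nat.lt_mul_div_succ L (by positivity)).le
  have h3 : (L / 2 ^ t) * 2 ^ t ≤ L := Nat.div_mul_le_self L (2 ^ t)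
  have h4 : ∑ i ∈ range L, g (u * (M + i) + s) ≤ ∑ i ∈ range ((L / 2 ^ t + 1) * 2 ^ t), g (u * (M + i) + s) :=
    sum_le_sum_of_subset_of_nonneg (range_mono h2) (fun _ _ _ => h0 _)
  have h5 : ∑ i ∈ range ((L / 2 ^ t) * 2 ^ t), g (u * (M + i) + s) ≤ ∑ i ∈ range L, g (u * (M + i) + s) :=
    sum_le_sum_of_subset_of_nonneg (range_mono h3) (fun _ _ _ => h0 _)
  rw [hb] at h4 h5
  have hS1 : S ≤ 2 ^ t := by
    refine (sum_le_card_nsmul _ _ 1 fun i _ => h1 _).trans ?_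
    rw [card_range, nsmul_eq_mul, mul_one]
    push_cast
    exact le_rfl
  have h6 : ((L / 2 ^ t : ℕ) : ℝ) * 2 ^ t ≤ L := by exact_mod_cast h3
  have h7 : (L : ℝ) ≤ (((L / 2 ^ t : ℕ) : ℝ) + 1) * 2 ^ t := by exact_mod_cast h2
  have h8 : (0 : ℝ) < 2 ^ t := by positivity
  have h9 : S / 2 ^ t * L ≤ S / 2 ^ t * ((((L / 2 ^ t : ℕ) : ℝ) + 1) * 2 ^ t) :=
    mul_le_mul_of_nonneg_left h7 (by positivity)
  have h10 : S / 2 ^ t * (((L / 2 ^ t : ℕ) : ℝ) * 2 ^ t) ≤ S / 2 ^ t * L :=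
    mul_le_mul_of_nonneg_left h6 (by positivity)
  have e1 : S / 2 ^ t * ((((L / 2 ^ t : ℕ) : ℝ) + 1) * 2 ^ t) = (((L / 2 ^ t : ℕ) : ℝ) + 1) * S := by field_simp
  have e2 : S / 2 ^ t * (((L / 2 ^ t : ℕ) : ℝ) * 2 ^ t) = ((L / 2 ^ t : ℕ) : ℝ) * S := by field_simp
  rw [e1] at h9
  rw [e2] at h10
  push_cast at h4
  rw [abs_le]
  constructor <;> nlinarith

/-- the number of odd terms of the trajectory of the map `3x+d` -/
def ocd (d : ℤ) (t : ℕ) (x : ℤ) : ℕ := ((range t).filter (fun i => (Td d)^[i] x % 2 = 1)).card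

theorem ocd_eq {d : ℤ} (hd : d % 2 = 1) {t : ℕ} {u κ : ℤ} (hu : d * u + 2 ^ t * κ = 1) (X : ℤ) :
    ocd d t X = oc t (u * X) := by
  rw [oc_eq]
  unfold ocd
  congr 1
  apply filter_congr
  intro i hi
  rw [mem_range] at hi
  obtain ⟨k, rfl⟩ := Nat.exists_eq_add_of_lt hi
  have e : X = d * (u * X) + 2 ^ i * (2 ^ (k + 1) * (κ * X)) := by
    have e1 : (2 : ℤ) ^ i * (2 ^ (k + 1) * (κ * X)) = 2 ^ (i + k + 1) * κ * X := by
      rw [pow_add, pow_add, pow_add]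
      ring
    rw [e1]
    linear_combination (-X) * hu
  conv_lhs => rw [e, Td_iter hd]
  obtain ⟨m, hm⟩ : ∃ m, d = 2 * m + 1 := ⟨d / 2, by omega⟩
  have e2 : d * T^[i] (u * X) + 3 ^ oc i (u * X) * (2 ^ (k + 1) * (κ * X)) =
      T^[i] (u * X) + 2 * (m * T^[i] (u * X) + 3 ^ oc i (u * X) * (2 ^ k * (κ * X))) := by
    rw [hm, pow_succ]
    ring
  rw [e2]
  constructor <;> intro h <;> omega

open Classical in
/-- the number of the integers of an interval whose pair has not met under `3x+d` and has level at least `y` -/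
theorem lev_count_d {d : ℤ} (hd : d % 2 = 1) (y t a : ℕ) (b : ℤ) (M : ℤ) (L : ℕ) :
    |({x : ℤ | M ≤ x ∧ x < M + L ∧ (Td d)^[t] x ≠ (Td d)^[t] (3 ^ a * x + d * b) ∧
      (y : ℤ) ≤ |(a : ℤ) + ocd d t (3 ^ a * x + d * b) - ocd d t x|}.ncard : ℝ) - FF y t (a, b) * L| ≤ 2 * 2 ^ t := by
  obtain ⟨u, κ, hu2, hu⟩ := exists_inv hd t
  rw [Pool.Agent.Q158.Pair.ncard_eq (fun x => (Td d)^[t] x ≠ (Td d)^[t] (3 ^ a * x + d * b) ∧
      (y : ℤ) ≤ |(a : ℤ) + ocd d t (3 ^ a * x + d * b) - ocd d t x|)]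
  have h1 := count_per_u t (fun x => ph y (ps t (a, b) x)) (ph_ps_per y t (a, b)) (fun x => ph_nonneg y _)
    (fun x => ph_one y _) u 0 hu2 M L
  rw [sum_ps (ph y) t (a, b)] at h1
  have e0 : (2 : ℝ) ^ t * av^[t] (ph y) (a, b) / 2 ^ t = FF y t (a, b) := by
    unfold FF
    field_simp
  rw [e0] at h1
  have e1 : ∑ x ∈ Ico M (M + L), ph y (ps t (a, b) (u * x + 0)) =
      (((Ico M (M + L)).filter (fun x => ps t (a, b) (u * x) ≠ (0, 0) ∧ y ≤ (ps t (a, b) (u * x)).1)).card : ℝ) := by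
    rw [card_filter]
    push_cast
    apply sum_congr rfl
    intro x _
    rw [ph_eq, add_zero]
  rw [e1] at h1
  -- the structure
  have hoc : ∀ X : ℤ, ocd d t (3 ^ a * X + d * b) = oc t (3 ^ a * (u * X) + b) := by
    intro X
    rw [ocd_eq hd hu]
    have : u * (3 ^ a * X + d * b) = 3 ^ a * (u * X) + b + 2 ^ t * (-(κ * b)) := by
      linear_combination b * hu
    rw [this, oc_per]
  have hlev : ∀ X : ℤ, (y : ℤ) ≤ |(a : ℤ) + ocd d t (3 ^ a * X + d * b) - ocd d t X| ↔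
      y ≤ (ps t (a, b) (u * X)).1 := by
    intro X
    rw [hoc, ocd_eq hd hu]
    have := lev_abs t (a, b) (u * X)
    simp only at this
    rw [← this]
    omega
  have hY : ∀ X : ℤ, (Td d)^[t] (3 ^ a * X + d * b) =
      d * T^[t] (3 ^ a * (u * X) + b) + 3 ^ oc t (3 ^ a * (u * X) + b) * (3 ^ a * (κ * X)) := by
    intro X
    rw [← Td_iter hd]
    congr 1
    linear_combination (-(3 ^ a * X)) * hu
  have hCo : ∀ X : ℤ, ps t (a, b) (u * X) = (0, 0) → (Td d)^[t] X = (Td d)^[t] (3 ^ a * X + d * b) := by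
    intro X hX
    have hX' : Co t (a, b) (u * X) := (Co_iff _ _ _).2 hX
    have m1 := Co_meet t (a, b) (u * X) hX'
    have m2 := Co_oc hX'
    simp only at m1 m2
    rw [hY, Td_eq hd hu X, m1, m2, pow_add]
    ring
  have h3 : ((Ico M (M + L)).filter (fun x => (Td d)^[t] x ≠ (Td d)^[t] (3 ^ a * x + d * b) ∧
      (y : ℤ) ≤ |(a : ℤ) + ocd d t (3 ^ a * x + d * b) - ocd d t x|)).card ≤
      ((Ico M (M + L)).filter (fun x => ps t (a, b) (u * x) ≠ (0, 0) ∧ y ≤ (ps t (a, b) (u * x)).1)).card := by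
    apply card_le_card
    intro x hx
    rw [mem_filter] at hx ⊢
    exact ⟨hx.1, fun hc => hx.2.1 (hCo x hc), (hlev x).1 hx.2.2⟩
  -- accidents
  have h2 : ((Ico M (M + L)).filter (fun x => ps t (a, b) (u * x) ≠ (0, 0) ∧
      (Td d)^[t] x = (Td d)^[t] (3 ^ a * x + d * b))).card ≤ 2 ^ t := by
    have hc : (Finset.Ico (0:ℤ) (2 ^ t)).card = 2 ^ t := by
      rw [Int.card_Ico, sub_zero]
      have : (2:ℤ) ^ t = ((2 ^ t : ℕ) : ℤ) := by push_cast; rfl
      rw [this, Int.toNat_natCast]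
    rw [← hc]
    apply Finset.card_le_card_of_injOn (fun x => x % 2 ^ t)
    · intro x _
      simp only [Finset.coe_Ico, Set.mem_Ico]
      exact ⟨Int.emod_nonneg _ (by positivity), Int.emod_lt_of_pos _ (by positivity)⟩
    · intro x hx y hy hxy
      simp only [Finset.coe_filter, Set.mem_ofPred_eq] at hx hy
      simp only at hxy
      have i1 : (2:ℤ) ^ t ∣ y - x := Int.ModEq.dvd hxy
      obtain ⟨j, hj⟩ := i1
      have i2 : y = x + 2 ^ t * j := by omega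
      have i3 := hy.2.2
      have e1 : 3 ^ a * y + d * b = (3 ^ a * x + d * b) + 2 ^ t * (3 ^ a * j) := by rw [i2]; ring
      rw [e1, i2, Td_shift hd hu, Td_shift hd hu, hx.2.2] at i3
      have e2 : oc t (u * (3 ^ a * x + d * b)) = oc t (3 ^ a * (u * x) + b) := by
        rw [← ocd_eq hd hu, hoc]
      rw [e2] at i3
      have i4 : (3 ^ oc t (u * x) - 3 ^ (oc t (3 ^ a * (u * x) + b) + a)) * j = 0 := by
        rw [pow_add]
        linear_combination i3
      rcases mul_eq_zero.1 i4 with i5 | i5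
      · exfalso
        have i6 : oc t (u * x) = oc t (3 ^ a * (u * x) + b) + a :=
          by simpa using sub_eq_zero.1 i5
        apply hx.2.1
        rw [← Co_iff]
        refine Co_of i6 ?_
        have i7 := hx.2.2
        rw [hY, Td_eq hd hu x, i6, pow_add] at i7
        have hd0 : d ≠ 0 := by rintro rfl; omega
        have i8 : d * T^[t] (u * x) = d * T^[t] (3 ^ a * (u * x) + b) := by linear_combination i7
        exact mul_left_cancel₀ hd0 i8
      · rw [i5] at i2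
        omega
  have h4 : ((Ico M (M + L)).filter (fun x => ps t (a, b) (u * x) ≠ (0, 0) ∧ y ≤ (ps t (a, b) (u * x)).1)).card ≤
      ((Ico M (M + L)).filter (fun x => (Td d)^[t] x ≠ (Td d)^[t] (3 ^ a * x + d * b) ∧
      (y : ℤ) ≤ |(a : ℤ) + ocd d t (3 ^ a * x + d * b) - ocd d t x|)).card + 2 ^ t := by
    have h5 : (Ico M (M + L)).filter (fun x => ps t (a, b) (u * x) ≠ (0, 0) ∧ y ≤ (ps t (a, b) (u * x)).1) ⊆
        (Ico M (M + L)).filter (fun x => (Td d)^[t] x ≠ (Td d)^[t] (3 ^ a * x + d * b) ∧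
        (y : ℤ) ≤ |(a : ℤ) + ocd d t (3 ^ a * x + d * b) - ocd d t x|) ∪
        (Ico M (M + L)).filter (fun x => ps t (a, b) (u * x) ≠ (0, 0) ∧
          (Td d)^[t] x = (Td d)^[t] (3 ^ a * x + d * b)) := by
      intro x hx
      rw [mem_filter] at hx
      rw [mem_union, mem_filter, mem_filter]
      by_cases h : (Td d)^[t] x = (Td d)^[t] (3 ^ a * x + d * b)
      · right; exact ⟨hx.1, hx.2.1, h⟩
      · left; exact ⟨hx.1, h, (hlev x).2 hx.2.2⟩
    exact (card_le_card h5).trans ((card_union_le _ _).trans (Nat.add_le_add_left h2 _))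
  have h3' : (((Ico M (M + L)).filter (fun x => (Td d)^[t] x ≠ (Td d)^[t] (3 ^ a * x + d * b) ∧
      (y : ℤ) ≤ |(a : ℤ) + ocd d t (3 ^ a * x + d * b) - ocd d t x|)).card : ℝ) ≤
      (((Ico M (M + L)).filter (fun x => ps t (a, b) (u * x) ≠ (0, 0) ∧ y ≤ (ps t (a, b) (u * x)).1)).card : ℝ) := by
    exact_mod_cast h3
  have h4' : (((Ico M (M + L)).filter (fun x => ps t (a, b) (u * x) ≠ (0, 0) ∧
      y ≤ (ps t (a, b) (u * x)).1)).card : ℝ) ≤
      (((Ico M (M + L)).filter (fun x => (Td d)^[t] x ≠ (Td d)^[t] (3 ^ a * x + d * b) ∧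
      (y : ℤ) ≤ |(a : ℤ) + ocd d t (3 ^ a * x + d * b) - ocd d t x|)).card : ℝ) + 2 ^ t := by exact_mod_cast h4
  rw [abs_le] at h1 ⊢
  constructor <;> linarith [h1.1, h1.2]

end Pool.Agent.Q74.AR
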