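import Pool.Agent.Q74.AR.Ray
import Pool.Agent.Q74.AR.Td

/-! # Project AR: the number of pairs that have not met and their levels: pointwise bounds -/

set_option autoImplicit false

namespace Pool.Agent.Q74.AR

open Finset Filter Topology MeasureTheory ProbabilityTheory
open Pool.Agent.Q158.Pair (T step av q w w0 surv e av_mono av_add av_mul av_const zo av_fst zo_nonneg zo_le
  surv_nonneg surv_le_one surv_iter acc acc_nonneg acc_zo_le sq_nonneg' iter_mono iter_add iter_lin iter_sq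
  surv_le_sq state_cases av_even av_odd_zero av_odd_succ step_zero surv_zero_state)

/-- `av` commutes with finite combinations -/
theorem iter_mul (s : ℕ) (c : ℝ) (f : ℕ × ℤ → ℝ) : av^[s] (fun z => c * f z) = fun z => c * av^[s] f z := by
  have := iter_lin s f c 0
  simpa using this

theorem iter_const (s : ℕ) (c : ℝ) : av^[s] (fun _ => c) = fun _ => c := by
  induction s with
  | zero => rfl
  | succ n ih =>
    rw [Function.iterate_succ_apply', ih]
    funext z
    exact av_const c z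

theorem acc_iter (g : ℕ × ℤ → ℝ) (t : ℕ) : ∀ z, acc g t z = ∑ j ∈ range t, av^[j] g z := by
  induction t with
  | zero => intro z; simp [acc]
  | succ n ih =>
    intro z
    rw [sum_range_succ']
    simp only [acc]
    have h1 : av (acc g n) z = ∑ j ∈ range n, av^[j + 1] g z := by
      unfold av
      rw [ih, ih, ← sum_add_distrib, sum_div]
      apply sum_congr rfl
      intro j _
      rw [Function.iterate_succ_apply']
      rfl
    rw [h1]
    simp only [Function.iterate_zero, id_eq]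
    ring

/-- the mean level -/
theorem lev_mean (s : ℕ) (z : ℕ × ℤ) : av^[s] (fun z => (z.1 : ℝ)) z = z.1 + acc zo s z := by
  rw [acc_iter]
  induction s with
  | zero => simp
  | succ n ih =>
    rw [Function.iterate_succ_apply]
    have h : av (fun z => (z.1 : ℝ)) = fun z => (fun z : ℕ × ℤ => (z.1 : ℝ)) z + zo z := by
      funext z; exact av_fst z
    rw [h, iter_add, sum_range_succ]
    simp only
    rw [ih]
    ring

/-- the third moment of the level -/
theorem av_cube (z : ℕ × ℤ) : av (fun z => (z.1 : ℝ) ^ 3) z = (z.1 : ℝ) ^ 3 + (if z.2 % 2 = 0 then (0 : ℝ) else 3 * (z.1 : ℝ)) + zo z := by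
  rcases state_cases z with ⟨k, rfl⟩ | ⟨a, k, rfl⟩ | ⟨k, rfl⟩ | ⟨a, k, rfl⟩
  · rw [av_even]; simp [zo]
  · rw [av_even]; simp [zo]
  · rw [av_odd_zero]
    have h1 : (2 * k + 1) % 2 = 1 := by omega
    have h2 : ¬ (2 * k + 1) % 2 = 0 := by omega
    simp [zo, h1]
  · rw [av_odd_succ]
    have h2 : ¬ (2 * k + 1) % 2 = 0 := by omega
    simp only [h2, if_false]
    have h3 : zo (a + 1, 2 * k + 1) = 0 := by simp [zo]
    rw [h3]
    push_cast
    ring

theorem cube_mean {D : ℝ} (z : ℕ × ℤ) (hD : ∀ s, (z.1 : ℝ) + acc zo s z ≤ D) (s : ℕ) :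
    av^[s] (fun z => (z.1 : ℝ) ^ 3) z ≤ (z.1 : ℝ) ^ 3 + (3 * s + 1) * D := by
  have key : ∀ s : ℕ, av^[s] (fun z => (z.1 : ℝ) ^ 3) z ≤ (z.1 : ℝ) ^ 3 + 3 * s * D + acc zo s z := by
    intro s
    induction s with
    | zero => simp [acc]
    | succ n ih =>
      rw [Function.iterate_succ_apply]
      have h1 : ∀ z, av (fun z => (z.1 : ℝ) ^ 3) z ≤ (fun z : ℕ × ℤ => (z.1 : ℝ) ^ 3) z + (3 * (fun z : ℕ × ℤ => (z.1 : ℝ)) z + zo z) := by
        intro z
        rw [av_cube]
        simp only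
        split_ifs
        · have : (0 : ℝ) ≤ z.1 := Nat.cast_nonneg _
          linarith
        · linarith
      have h2 := iter_mono n h1 z
      rw [iter_add n (fun z : ℕ × ℤ => (z.1 : ℝ) ^ 3) (fun z => 3 * (fun z : ℕ × ℤ => (z.1 : ℝ)) z + zo z)] at h2
      simp only at h2
      rw [iter_add n (fun z => 3 * (fun z : ℕ × ℤ => (z.1 : ℝ)) z) zo, iter_mul n 3 (fun z : ℕ × ℤ => (z.1 : ℝ))] at h2
      simp only at h2
      rw [lev_mean] at h2
      have h3 : acc zo (n + 1) z = acc zo n z + av^[n] zo z := by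
        rw [acc_iter, acc_iter, sum_range_succ]
      have h4 := hD n
      rw [h3]
      push_cast
      linarith
  have h1 := key s
  have h2 := hD s
  have : (0 : ℝ) ≤ z.1 := Nat.cast_nonneg _
  linarith

/-- the indicator of the states other than `(0, 0)` of level at least `y` -/
noncomputable def ph (y : ℕ) (z : ℕ × ℤ) : ℝ := surv 0 z * ind y z.1

/-- the probability that at time `t` the pair has not met and its level is at least `y` -/
noncomputable def FF (y t : ℕ) : ℕ × ℤ → ℝ := av^[t] (ph y)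

theorem surv0_cases (z : ℕ × ℤ) : (z = (0, 0) ∧ surv 0 z = 0) ∨ (z ≠ (0, 0) ∧ surv 0 z = 1) := by
  by_cases h : z = (0, 0)
  · left; simp [h, surv]
  · right; simp [h, surv]

theorem ph_zero (z : ℕ × ℤ) : ph 0 z = surv 0 z := by simp [ph, ind]

theorem FF_zero (t : ℕ) : FF 0 t = surv t := by
  unfold FF
  have : ph 0 = surv 0 := by funext z; exact ph_zero z
  rw [this, ← surv_iter, add_zero]

theorem FF_succ (y t : ℕ) : FF y (t + 1) = av (FF y t) := by
  unfold FF
  rw [Function.iterate_succ_apply']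

theorem FF_iter (y s t : ℕ) : FF y (s + t) = av^[s] (FF y t) := by
  unfold FF
  rw [Function.iterate_add_apply]

theorem ph_nonneg (y : ℕ) (z : ℕ × ℤ) : 0 ≤ ph y z := by
  unfold ph ind
  rcases surv0_cases z with ⟨_, h⟩ | ⟨_, h⟩ <;> rw [h] <;> split_ifs <;> norm_num

theorem ph_le (y : ℕ) (z : ℕ × ℤ) : ph y z ≤ surv 0 z := by
  unfold ph ind
  rcases surv0_cases z with ⟨_, h⟩ | ⟨_, h⟩ <;> rw [h] <;> split_ifs <;> norm_num

theorem FF_nonneg (y t : ℕ) (z : ℕ × ℤ) : 0 ≤ FF y t z := by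
  have h := iter_mono t (f := fun _ => 0) (g := ph y) (ph_nonneg y) z
  rw [iter_const] at h
  exact h

theorem FF_le_surv (y t : ℕ) (z : ℕ × ℤ) : FF y t z ≤ surv t z := by
  have h := iter_mono t (ph_le y) z
  rw [← surv_iter, add_zero] at h
  exact h

theorem FF_le_one (y t : ℕ) (z : ℕ × ℤ) : FF y t z ≤ 1 := (FF_le_surv y t z).trans (surv_le_one t z)

theorem FF_zz (y t : ℕ) : FF y t (0, 0) = 0 := by
  have h1 := FF_nonneg y t (0, 0)
  have h2 := FF_le_surv y t (0, 0)
  rw [surv_zero_state] at h2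
  linarith

theorem ind_zero {y : ℕ} (hy : 1 ≤ y) : ind y 0 = 0 := by
  unfold ind
  rw [if_neg (by omega)]

theorem Vk_le_FF {y : ℕ} (hy : 1 ≤ y) (t : ℕ) : ∀ z, Vk (ind y) t z ≤ FF y t z := by
  induction t with
  | zero =>
    intro z
    show ind y z.1 ≤ ph y z
    unfold ph
    rcases surv0_cases z with ⟨h0, h⟩ | ⟨_, h⟩
    · rw [h, h0, ind_zero hy, zero_mul]
    · rw [h, one_mul]
  | succ n ih =>
    intro z
    by_cases hz : z.1 = 0
    · rw [Vk_lev (ind_zero hy) _ hz]; exact FF_nonneg _ _ _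
    · rw [Vk_succ _ _ hz, FF_succ]
      exact av_mono ih z

theorem FF_le_Vk {y : ℕ} (hy : 1 ≤ y) (t : ℕ) : ∀ z, FF y t z ≤ Vk (ind y) t z + (surv t z - qq t z) := by
  induction t with
  | zero =>
    intro z
    show ph y z ≤ ind y z.1 + (surv 0 z - qq 0 z)
    unfold ph
    by_cases hz : z.1 = 0
    · rw [hz, ind_zero hy, qq_lev _ hz, mul_zero]
      have := surv_nonneg 0 z
      linarith
    · have h1 : z ≠ (0, 0) := fun h => hz (by rw [h])
      rcases surv0_cases z with ⟨h0, h⟩ | ⟨_, h⟩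
      · exact absurd h0 h1
      · have h2 : qq 0 z = 1 := by simp [qq, hz]
        rw [h, h2, one_mul]
        linarith
  | succ n ih =>
    intro z
    by_cases hz : z.1 = 0
    · rw [Vk_lev (ind_zero hy) _ hz, qq_lev _ hz]
      have := FF_le_surv y (n + 1) z
      linarith
    · rw [Vk_succ _ _ hz, FF_succ, qq_succ _ hz, surv]
      have h1 := av_mono ih z
      have h2 : av (fun z => Vk (ind y) n z + (surv n z - qq n z)) z =
          av (Vk (ind y) n) z + (av (surv n) z - av (qq n) z) := by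
        unfold av; ring
      rw [h2] at h1
      exact h1

theorem Kf_nonneg (t y a : ℝ) (ha : 0 ≤ a) : 0 ≤ Kf t y a := by
  unfold Kf
  have : Phi ((y - a) / √(t / 2)) ≤ Phi ((y + a) / √(t / 2)) :=
    Phi_mono (div_le_div_of_nonneg_right (by linarith) (Real.sqrt_nonneg _))
  linarith

theorem Kf_le_one (t y a : ℝ) : Kf t y a ≤ 1 := by
  unfold Kf
  have := Phi_le_one ((y + a) / √(t / 2))
  have := Phi_nonneg ((y - a) / √(t / 2))
  linarith

theorem Kf_zero (t y : ℝ) : Kf t y 0 = 0 := by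
  unfold Kf
  rw [add_zero, sub_zero, sub_self]

theorem Kf_lim (t : ℝ) (a : ℕ) : Kf t 0 a = lim t a := by
  unfold Kf lim
  rw [zero_add, zero_sub, neg_div, Phi_neg]
  ring

/-- pointwise bounds -/
theorem FF_bounds {ε η : ℝ} (hε : 0 < ε) (hη : 0 < η) : ∃ δ : ℝ, 0 < δ ∧ ∃ t₀ : ℕ, 1 ≤ t₀ ∧ ∀ t : ℕ, t₀ ≤ t →
    ∀ y : ℕ, (y = 0 ∨ η * √(t : ℝ) ≤ y) → ∀ z : ℕ × ℤ,
    Kf t y z.1 - ε * surv 0 z - (z.1 : ℝ) ^ 3 / √(t : ℝ) ^ 3 ≤ FF y t z ∧
    FF y t z ≤ Kf t y z.1 + 3 * ε * surv 0 z + Pool.Agent.Q158.Pair.sq z / Real.exp (δ * t / 2) + (z.1 : ℝ) ^ 3 / √(t : ℝ) ^ 3 := by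
  obtain ⟨δ, hδ, t₁, ht₁, h₁⟩ := surv_main hε
  obtain ⟨t₂, ht₂, h₂⟩ := qq_main hε
  obtain ⟨t₃, ht₃, h₃⟩ := Vk_lim (A := 1) hε hη one_pos
  refine ⟨δ, hδ, max (max t₁ t₂) t₃, le_trans ht₁ (le_trans (le_max_left _ _) (le_max_left _ _)),
    fun t ht y hy z => ?_⟩
  have htt1 : t₁ ≤ t := le_trans (le_trans (le_max_left _ _) (le_max_left _ _)) ht
  have htt2 : t₂ ≤ t := le_trans (le_trans (le_max_right _ _) (le_max_left _ _)) ht
  have htt3 : t₃ ≤ t := le_trans (le_max_right _ _) ht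
  have ht0 : (0 : ℝ) < t := by exact_mod_cast lt_of_lt_of_le ht₁ htt1
  have hst : 0 < √(t : ℝ) := Real.sqrt_pos.2 ht0
  have hE : 0 < Real.exp (δ * t / 2) := Real.exp_pos _
  have hz1 : (0 : ℝ) ≤ z.1 := Nat.cast_nonneg _
  have hcube : 0 ≤ (z.1 : ℝ) ^ 3 / √(t : ℝ) ^ 3 := by positivity
  have hsq : 0 ≤ Pool.Agent.Q158.Pair.sq z / Real.exp (δ * t / 2) := div_nonneg (sq_nonneg' z) hE.le
  have hK0 := Kf_nonneg t y z.1 hz1
  have hK1 := Kf_le_one t y z.1
  have hs0 := surv_nonneg 0 z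
  have hF1 := FF_le_one y t z
  have hF0 := FF_nonneg y t z
  rcases surv0_cases z with ⟨h0, hs⟩ | ⟨h0, hs⟩
  · subst h0
    rw [FF_zz, hs]
    have e : Kf t y ((0, (0 : ℤ)) : ℕ × ℤ).1 = 0 := by
      show Kf t y ((0 : ℕ) : ℝ) = 0
      rw [Nat.cast_zero, Kf_zero]
    rw [e]
    constructor <;> linarith
  · rw [hs]
    rcases le_or_gt (z.1 : ℝ) (1 * √(t : ℝ)) with hl | hl
    · -- the level is moderate
      have hq := abs_le.1 (h₂ t htt2 z)
      have hlow : Kf t y z.1 - ε ≤ FF y t z := by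
        rcases hy with rfl | hy
        · rw [Nat.cast_zero, Kf_lim, FF_zero]
          have := qq_le_surv t z
          linarith [hq.1]
        · have hy1 : 1 ≤ y := by
            have : (0 : ℝ) < y := lt_of_lt_of_le (by positivity) hy
            have : 0 < y := by exact_mod_cast this
            omega
          have h4 := (abs_le.1 (h₃ t htt3 y hy z hl)).1
          have h5 := Vk_le_FF hy1 t z
          linarith
      refine ⟨by linarith, ?_⟩
      rcases le_or_gt (be z) (Real.exp (δ * t)) with hb | hb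
      · have hsv := abs_le.1 (h₁ t htt1 z hb)
        rcases hy with rfl | hy
        · rw [Nat.cast_zero, Kf_lim, FF_zero]
          linarith [hsv.2]
        · have hy1 : 1 ≤ y := by
            have : (0 : ℝ) < y := lt_of_lt_of_le (by positivity) hy
            have : 0 < y := by exact_mod_cast this
            omega
          have h4 := (abs_le.1 (h₃ t htt3 y hy z hl)).2
          have h5 := FF_le_Vk hy1 t z
          linarith [hsv.2, hq.1]
      · have h6 : 1 ≤ Pool.Agent.Q158.Pair.sq z / Real.exp (δ * t / 2) := by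
          rw [le_div_iff₀ hE, one_mul]
          unfold Pool.Agent.Q158.Pair.sq
          apply Real.le_sqrt_of_sq_le
          rw [← Real.exp_nat_mul]
          have : ((2 : ℕ) : ℝ) * (δ * t / 2) = δ * t := by push_cast; ring
          rw [this]
          exact hb.le
        linarith
    · rw [one_mul] at hl
      have h6 : 1 ≤ (z.1 : ℝ) ^ 3 / √(t : ℝ) ^ 3 := by
        rw [le_div_iff₀ (by positivity), one_mul]
        exact pow_le_pow_left₀ hst.le hl.le 3
      constructor <;> linarith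

/-- the normal density is Lipschitz -/
theorem phi_lip (x y : ℝ) : |Pool.Agent.Q296.AR.phi x - Pool.Agent.Q296.AR.phi y| ≤ |x - y| := by
  have hd : ∀ x : ℝ, HasDerivAt Pool.Agent.Q296.AR.phi (-x * Pool.Agent.Q296.AR.phi x) x := by
    intro x
    unfold Pool.Agent.Q296.AR.phi
    have h1 : HasDerivAt (fun x : ℝ => -x ^ 2 / 2) (-x) x := by
      have := ((hasDerivAt_pow 2 x).neg).div_const 2
      refine this.congr_deriv ?_
      push_cast
      ring
    refine (h1.exp.const_mul _).congr_deriv ?_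
    ring
  have hl : LipschitzWith 1 Pool.Agent.Q296.AR.phi := by
    apply lipschitzWith_of_nnnorm_deriv_le (fun x => (hd x).differentiableAt)
    intro x
    rw [← NNReal.coe_le_coe, coe_nnnorm, Real.norm_eq_abs, (hd x).deriv, NNReal.coe_one, abs_mul, abs_neg]
    unfold Pool.Agent.Q296.AR.phi
    have h1 : (√(2 * Real.pi))⁻¹ ≤ 1 := by
      apply inv_le_one_of_one_le₀
      rw [Real.one_le_sqrt]
      nlinarith [Real.pi_gt_three]
    have h2 : |x| * Real.exp (-x ^ 2 / 2) ≤ 1 := by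
      have h3 : |x| ≤ Real.exp (x ^ 2 / 2) := by
        have := Real.add_one_le_exp (x ^ 2 / 2)
        nlinarith [sq_nonneg (|x| - 1), sq_abs x]
      have h4 : Real.exp (-x ^ 2 / 2) = (Real.exp (x ^ 2 / 2))⁻¹ := by
        rw [← Real.exp_neg]
        congr 1
        ring
      rw [h4, ← div_eq_mul_inv, div_le_one (Real.exp_pos _)]
      exact h3
    rw [abs_mul, abs_of_pos (by positivity : 0 < (√(2 * Real.pi))⁻¹), abs_of_pos (Real.exp_pos _)]
    have h5 : 0 ≤ (√(2 * Real.pi))⁻¹ := by positivity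
    have h6 : 0 ≤ |x| * Real.exp (-x ^ 2 / 2) := by positivity
    calc |x| * ((√(2 * Real.pi))⁻¹ * Real.exp (-x ^ 2 / 2)) = (√(2 * Real.pi))⁻¹ * (|x| * Real.exp (-x ^ 2 / 2)) := by ring
      _ ≤ 1 * 1 := mul_le_mul h1 h2 h6 zero_le_one
      _ = 1 := one_mul 1
  have := hl.dist_le_mul x y
  rw [Real.dist_eq, Real.dist_eq] at this
  simpa using this

/-- the kernel near `0` -/
theorem Kf_near {t y a : ℝ} (ht : 0 < t) (ha : 0 ≤ a) :
    |Kf t y a - 2 * (a / √(t / 2)) * Pool.Agent.Q296.AR.phi (y / √(t / 2))| ≤ 2 * (a / √(t / 2)) ^ 2 := by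
  set h := a / √(t / 2) with hh
  set c := y / √(t / 2) with hc
  have hst : 0 < √(t / 2) := Real.sqrt_pos.2 (by positivity)
  have h0 : 0 ≤ h := by positivity
  have e1 : Kf t y a = ∫ u in (c - h)..(c + h), Pool.Agent.Q296.AR.phi u := by
    rw [← Pool.Agent.Q296.AR.Phi_sub]
    unfold Kf
    rw [hh, hc, add_div, sub_div]
  have hint : ∀ x y : ℝ, IntervalIntegrable Pool.Agent.Q296.AR.phi volume x y := fun x y =>
    Pool.Agent.Q296.AR.phi_cont.intervalIntegrable x y
  have e2 : Kf t y a - 2 * h * Pool.Agent.Q296.AR.phi c =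
      ∫ u in (c - h)..(c + h), (Pool.Agent.Q296.AR.phi u - Pool.Agent.Q296.AR.phi c) := by
    rw [intervalIntegral.integral_sub (hint _ _) intervalIntegrable_const, intervalIntegral.integral_const, e1,
      smul_eq_mul]
    ring
  rw [e2, ← Real.norm_eq_abs]
  refine (intervalIntegral.norm_integral_le_of_norm_le_const (C := h) ?_).trans ?_
  · intro u hu
    rw [Set.uIoc_of_le (by linarith)] at hu
    rw [Real.norm_eq_abs]
    refine (phi_lip u c).trans ?_
    rw [abs_le]
    constructor <;> linarith [hu.1, hu.2]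
  · have : c + h - (c - h) = 2 * h := by ring
    rw [this, abs_of_nonneg (by positivity)]
    apply le_of_eq
    ring

end Pool.Agent.Q74.AR
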