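import Pool.Agent.Q74.AR.Yag

/-! # Project AR: the theorem of Yaglom's type for the pair -/

set_option autoImplicit false

namespace Pool.Agent.Q74.AR

open Finset Filter Topology MeasureTheory ProbabilityTheory
open Pool.Agent.Q158.Pair (T step av q w w0 surv e av_mono av_add av_mul av_const zo av_fst zo_nonneg zo_le
  surv_nonneg surv_le_one surv_iter acc acc_nonneg acc_zo_le sq_nonneg' iter_mono iter_add iter_lin iter_sq
  surv_le_sq)

/-- the constant of the pair -/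
noncomputable def cz (z : ℕ × ℤ) : ℝ := z.1 + ∑' j, av^[j] zo z

theorem zo_iter_nonneg (j : ℕ) (z : ℕ × ℤ) : 0 ≤ av^[j] zo z := by
  have h := iter_mono j (f := fun _ => 0) (g := zo) zo_nonneg z
  rw [iter_const] at h
  exact h

theorem zo_summable (z : ℕ × ℤ) : Summable (fun j => av^[j] zo z) := by
  obtain ⟨B, _, hB⟩ := acc_zo_le
  refine summable_of_sum_range_le (c := Pool.Agent.Q158.Pair.sq z + B) (fun j => zo_iter_nonneg j z) fun n => ?_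
  rw [← acc_iter]
  exact hB n z

theorem cz_ge (s : ℕ) (z : ℕ × ℤ) : (z.1 : ℝ) + acc zo s z ≤ cz z := by
  unfold cz
  rw [acc_iter]
  have := (zo_summable z).sum_le_tsum (range s) (fun j _ => zo_iter_nonneg j z)
  linarith

theorem cz_lim (z : ℕ × ℤ) : Tendsto (fun s : ℕ => (z.1 : ℝ) + acc zo s z) atTop (𝓝 (cz z)) := by
  unfold cz
  simp only [acc_iter]
  exact ((zo_summable z).hasSum.tendsto_sum_nat).const_add _

theorem cz_nonneg (z : ℕ × ℤ) : 0 ≤ cz z := by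
  have := cz_ge 0 z
  have h2 : acc zo 0 z = 0 := rfl
  rw [h2] at this
  have : (0 : ℝ) ≤ z.1 := Nat.cast_nonneg _
  linarith

/-- a constant for all bounds -/
theorem exists_D (z : ℕ × ℤ) : ∃ D : ℝ, 1 ≤ D ∧ cz z ≤ D ∧ (∀ s : ℕ, 1 ≤ s → surv s z ≤ D / √(s : ℝ)) ∧
    (∀ s : ℕ, av^[s] Pool.Agent.Q158.Pair.sq z ≤ D) ∧
    ∀ s : ℕ, av^[s] (fun z => (z.1 : ℝ) ^ 3) z ≤ (3 * s + 2) * D := by
  obtain ⟨C, hC, hs⟩ := surv_le_sq
  have hz1 : (0 : ℝ) ≤ z.1 := Nat.cast_nonneg _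
  have hsq := sq_nonneg' z
  have hcz := cz_nonneg z
  set S := Pool.Agent.Q158.Pair.sq z with hS
  set D := 1 + cz z + C * (1 + z.1 + S) + (S + 15) + (z.1 : ℝ) ^ 3 with hD
  have p1 : 0 ≤ C * (1 + z.1 + S) := by positivity
  have p2 : 0 ≤ (z.1 : ℝ) ^ 3 := by positivity
  refine ⟨D, by linarith, by linarith, fun s h1 => ?_, fun s => ?_, fun s => ?_⟩
  · refine (hs s h1 z).trans (div_le_div_of_nonneg_right ?_ (Real.sqrt_nonneg _))
    linarith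
  · have h := iter_sq s z
    have h2 : (0.966 : ℝ) ^ s ≤ 1 := pow_le_one₀ (by norm_num) (by norm_num)
    have h3 : 0.966 ^ s * Pool.Agent.Q158.Pair.sq z ≤ S := by
      rw [← hS]
      calc (0.966 : ℝ) ^ s * S ≤ 1 * S := mul_le_mul_of_nonneg_right h2 hsq
        _ = S := one_mul S
    linarith
  · have h := cube_mean (D := cz z) z (fun s => cz_ge s z) s
    have hs0 : (0 : ℝ) ≤ s := Nat.cast_nonneg _
    have h1 : (z.1 : ℝ) ^ 3 ≤ D := by linarith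
    have h2 : (3 * (s : ℝ) + 1) * cz z ≤ (3 * s + 1) * D := mul_le_mul_of_nonneg_left (by linarith) (by positivity)
    linarith

/-- expectation of the bounds -/
theorem FF_mean {ε η : ℝ} (hε : 0 < ε) (hη : 0 < η) {δ : ℝ} {t' : ℕ} (ht' : 1 ≤ t') {y : ℕ}
    (hb : ∀ z : ℕ × ℤ, Kf t' y z.1 - ε * surv 0 z - (z.1 : ℝ) ^ 3 / √(t' : ℝ) ^ 3 ≤ FF y t' z ∧
      FF y t' z ≤ Kf t' y z.1 + 3 * ε * surv 0 z + Pool.Agent.Q158.Pair.sq z / Real.exp (δ * t' / 2) +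
        (z.1 : ℝ) ^ 3 / √(t' : ℝ) ^ 3) (s : ℕ) (z : ℕ × ℤ) :
    |FF y (s + t') z - 2 * Pool.Agent.Q296.AR.phi (y / √((t' : ℝ) / 2)) / √((t' : ℝ) / 2) * (z.1 + acc zo s z)| ≤
      η / √((t' : ℝ) / 2) * (z.1 + acc zo s z) +
      (1 / (η * √((t' : ℝ) / 2) ^ 3) + 1 / √(t' : ℝ) ^ 3) * av^[s] (fun z => (z.1 : ℝ) ^ 3) z +
      3 * ε * surv s z + 1 / Real.exp (δ * t' / 2) * av^[s] Pool.Agent.Q158.Pair.sq z := by
  have ht0 : (0 : ℝ) < t' := by exact_mod_cast ht'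
  set σ := √((t' : ℝ) / 2) with hσ
  have hσ0 : 0 < σ := Real.sqrt_pos.2 (by positivity)
  set p := Pool.Agent.Q296.AR.phi (y / σ) with hp
  set E := Real.exp (δ * t' / 2) with hE
  have hE0 : 0 < E := Real.exp_pos _
  have hst : 0 < √(t' : ℝ) := Real.sqrt_pos.2 ht0
  rw [FF_iter]
  have hker : ∀ w : ℕ × ℤ, |Kf t' y w.1 - 2 * p / σ * w.1| ≤ η / σ * w.1 + 1 / (η * σ ^ 3) * (w.1 : ℝ) ^ 3 := by
    intro w
    have hw : (0 : ℝ) ≤ w.1 := Nat.cast_nonneg _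
    have h1 := Kf_near (y := y) ht0 hw
    rw [← hσ, ← hp] at h1
    have e1 : 2 * ((w.1 : ℝ) / σ) * p = 2 * p / σ * w.1 := by ring
    rw [e1] at h1
    refine h1.trans ?_
    have e2 : η / σ * w.1 + 1 / (η * σ ^ 3) * (w.1 : ℝ) ^ 3 = η * (w.1 / σ) + (w.1 / σ) ^ 3 / η := by
      field_simp
    rw [e2]
    set h := (w.1 : ℝ) / σ with hh
    have hh0 : 0 ≤ h := by positivity
    have e3 : η * h + h ^ 3 / η - 2 * h ^ 2 = h * (η - h) ^ 2 / η := by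
      field_simp
      ring
    have : 0 ≤ h * (η - h) ^ 2 / η := by positivity
    linarith
  have hs0 := surv_nonneg 0
  have hup : ∀ w : ℕ × ℤ, FF y t' w ≤ (2 * p / σ + η / σ) * (fun z : ℕ × ℤ => (z.1 : ℝ)) w +
      ((1 / (η * σ ^ 3) + 1 / √(t' : ℝ) ^ 3) * (fun z : ℕ × ℤ => (z.1 : ℝ) ^ 3) w +
      (3 * ε * surv 0 w + 1 / E * Pool.Agent.Q158.Pair.sq w)) := by
    intro w
    have h1 := (hb w).2
    have h2 := (abs_le.1 (hker w)).2
    have e1 : (w.1 : ℝ) ^ 3 / √(t' : ℝ) ^ 3 = 1 / √(t' : ℝ) ^ 3 * (w.1 : ℝ) ^ 3 := by ring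
    have e2 : Pool.Agent.Q158.Pair.sq w / E = 1 / E * Pool.Agent.Q158.Pair.sq w := by ring
    rw [e1, e2] at h1
    simp only
    linarith
  have hlo : ∀ w : ℕ × ℤ, (2 * p / σ - η / σ) * (fun z : ℕ × ℤ => (z.1 : ℝ)) w +
      (-(1 / (η * σ ^ 3) + 1 / √(t' : ℝ) ^ 3) * (fun z : ℕ × ℤ => (z.1 : ℝ) ^ 3) w +
      (-(3 * ε) * surv 0 w + -(1 / E) * Pool.Agent.Q158.Pair.sq w)) ≤ FF y t' w := by
    intro w
    have h1 := (hb w).1
    have h2 := (abs_le.1 (hker w)).1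
    have h3 : 0 ≤ ε * surv 0 w := mul_nonneg hε.le (hs0 w)
    have h4 : 0 ≤ 1 / E * Pool.Agent.Q158.Pair.sq w := mul_nonneg (by positivity) (sq_nonneg' w)
    have e1 : (w.1 : ℝ) ^ 3 / √(t' : ℝ) ^ 3 = 1 / √(t' : ℝ) ^ 3 * (w.1 : ℝ) ^ 3 := by ring
    rw [e1] at h1
    simp only
    linarith
  have hlin : ∀ a b c d : ℝ, av^[s] (fun w => a * (fun z : ℕ × ℤ => (z.1 : ℝ)) w +
      (b * (fun z : ℕ × ℤ => (z.1 : ℝ) ^ 3) w + (c * surv 0 w + d * Pool.Agent.Q158.Pair.sq w))) z =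
      a * (z.1 + acc zo s z) + (b * av^[s] (fun z : ℕ × ℤ => (z.1 : ℝ) ^ 3) z + (c * surv s z +
        d * av^[s] Pool.Agent.Q158.Pair.sq z)) := by
    intro a b c d
    rw [iter_add s (fun w => a * (fun z : ℕ × ℤ => (z.1 : ℝ)) w)]
    simp only
    rw [iter_add s (fun w => b * (fun z : ℕ × ℤ => (z.1 : ℝ) ^ 3) w)]
    simp only
    rw [iter_add s (fun w => c * surv 0 w), iter_mul s a, iter_mul s b, iter_mul s c, iter_mul s d]
    simp only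
    rw [lev_mean, ← surv_iter, add_zero]
  have h1 := iter_mono s hup z
  have h2 := iter_mono s hlo z
  rw [hlin] at h1 h2
  rw [abs_le]
  constructor <;> linarith

end Pool.Agent.Q74.AR
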