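import Pool.Agent.Q74.AR.Yag2

/-! # Project AR: the theorem of Yaglom's type for the pair: the limit -/

set_option autoImplicit false

namespace Pool.Agent.Q74.AR

open Finset Filter Topology MeasureTheory ProbabilityTheory
open Pool.Agent.Q158.Pair (T step av surv zo surv_nonneg surv_iter acc)
open Pool.Agent.Q296.AR (phi phi_cont phi_nonneg)

/-- the value of the limit with the parameter `g` -/
noncomputable def LL (x c g : ℝ) : ℝ := 2 * phi (x / √((1 - g ^ 2) / 2)) / √((1 - g ^ 2) / 2) * c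

theorem LL_cont (x c : ℝ) : ContinuousAt (LL x c) 0 := by
  unfold LL
  have h0 : √((1 - (0 : ℝ) ^ 2) / 2) ≠ 0 := by
    rw [Real.sqrt_ne_zero'] 
    norm_num
  have h1 : ContinuousAt (fun g : ℝ => √((1 - g ^ 2) / 2)) 0 := by fun_prop
  have h2 : ContinuousAt (fun g : ℝ => x / √((1 - g ^ 2) / 2)) 0 := continuousAt_const.div h1 h0
  have h3 : ContinuousAt (fun g : ℝ => phi (x / √((1 - g ^ 2) / 2))) 0 :=
    ContinuousAt.comp (f := fun g : ℝ => x / √((1 - g ^ 2) / 2)) (g := phi) phi_cont.continuousAt h2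
  exact ((continuousAt_const.mul h3).div h1 h0).mul continuousAt_const

theorem LL_zero (x c : ℝ) : LL x c 0 = 2 / √Real.pi * Real.exp (-x ^ 2) * c := by
  unfold LL phi
  have h2 : (0 : ℝ) < √2 := by positivity
  have hpi : 0 < √Real.pi := Real.sqrt_pos.2 Real.pi_pos
  have e1 : √((1 - (0 : ℝ) ^ 2) / 2) = 1 / √2 := by
    have : (1 - (0 : ℝ) ^ 2) / 2 = 1 / 2 := by norm_num
    rw [this, Real.sqrt_div (by norm_num), Real.sqrt_one]
  rw [e1]
  have e2 : x / (1 / √2) = x * √2 := by field_simp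
  rw [e2, mul_pow, Real.sq_sqrt (by norm_num), Real.sqrt_mul (by norm_num)]
  have e3 : -(x ^ 2 * 2) / 2 = -x ^ 2 := by ring
  rw [e3]
  field_simp

/-- the error terms -/
theorem yag_err (z : ℕ × ℤ) {D : ℝ} (hD1 : 1 ≤ D) (hc : cz z ≤ D) (hs : ∀ s : ℕ, 1 ≤ s → surv s z ≤ D / √(s : ℝ))
    (hq : ∀ s : ℕ, av^[s] Pool.Agent.Q158.Pair.sq z ≤ D)
    (h3 : ∀ s : ℕ, av^[s] (fun z => (z.1 : ℝ) ^ 3) z ≤ (3 * s + 2) * D) {x g : ℝ} (hx : 0 ≤ x) (hg : 0 < g)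
    (hg2 : g ≤ 1 / 2) : ∀ᶠ t : ℕ in atTop,
    |√(t : ℝ) * FF ⌈x * √(t : ℝ)⌉₊ t z - √(t : ℝ) * (2 * phi (⌈x * √(t : ℝ)⌉₊ / √(((t - ⌊g ^ 2 * t⌋₊ : ℕ) : ℝ) / 2)) /
      √(((t - ⌊g ^ 2 * t⌋₊ : ℕ) : ℝ) / 2) * (z.1 + acc zo ⌊g ^ 2 * t⌋₊ z))| ≤ 88 * g * D := by
  obtain ⟨δ, hδ, t₀, ht₀, hFF⟩ := FF_bounds (ε := g ^ 2) (η := if x = 0 then 1 else x) (by positivity) (by
    split_ifs with h
    · norm_num
    · exact lt_of_le_of_ne hx (Ne.symm h))
  obtain ⟨t₁, ht₁⟩ := exists_nat_ge (2 * t₀ + 2 / g ^ 2 + (4 / (δ * g)) ^ 2 + 1)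
  filter_upwards [eventually_ge_atTop t₁] with t ht
  have ht2 : 2 * t₀ + 2 / g ^ 2 + (4 / (δ * g)) ^ 2 + 1 ≤ (t : ℝ) := ht₁.trans (by exact_mod_cast ht)
  have p0 : (0 : ℝ) ≤ t₀ := Nat.cast_nonneg _
  have p1 : 0 < 2 / g ^ 2 := by positivity
  have p2 : 0 < (4 / (δ * g)) ^ 2 := by positivity
  have htp : (0 : ℝ) < t := by linarith
  have hg22 : g ^ 2 ≤ 1 / 4 := by nlinarith
  have r1 : 2 ≤ g ^ 2 * t := by
    have : 2 / g ^ 2 ≤ t := by linarith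
    rw [div_le_iff₀ (by positivity)] at this; linarith
  have hst : 0 < √(t : ℝ) := Real.sqrt_pos.2 htp
  have hss : √(t : ℝ) * √(t : ℝ) = t := Real.mul_self_sqrt htp.le
  have r2 : 4 / (δ * g) ≤ √(t : ℝ) := by
    apply Real.le_sqrt_of_sq_le
    linarith
  set y := ⌈x * √(t : ℝ)⌉₊ with hy
  set s := ⌊g ^ 2 * t⌋₊ with hs'
  have s1 : (s : ℝ) ≤ g ^ 2 * t := Nat.floor_le (by positivity)
  have s2 : g ^ 2 * t < s + 1 := Nat.lt_floor_add_one _
  have s3 : g ^ 2 * t / 2 ≤ s := by linarith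
  have s4 : (1 : ℝ) ≤ s := by linarith
  have s5 : 1 ≤ s := by exact_mod_cast s4
  have s6 : s ≤ t := by
    have : (s : ℝ) ≤ t := by nlinarith
    exact_mod_cast this
  set t' := t - s with ht'
  have hts : s + t' = t := by omega
  have htsR : (s : ℝ) + t' = t := by exact_mod_cast hts
  have q1 : (t : ℝ) / 2 ≤ t' := by nlinarith
  have q2 : t₀ ≤ t' := by
    have : (t₀ : ℝ) ≤ t' := by linarith
    exact_mod_cast this
  have q3 : 1 ≤ t' := le_trans ht₀ q2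
  have ht'0 : (0 : ℝ) < t' := by exact_mod_cast q3
  have ht't : (t' : ℝ) ≤ t := by linarith
  have hyy : y = 0 ∨ (if x = 0 then 1 else x) * √(t' : ℝ) ≤ y := by
    by_cases hx0 : x = 0
    · left
      rw [hy, hx0, zero_mul, Nat.ceil_zero]
    · right
      rw [if_neg hx0]
      calc x * √(t' : ℝ) ≤ x * √(t : ℝ) := mul_le_mul_of_nonneg_left (Real.sqrt_le_sqrt ht't) hx
        _ ≤ y := Nat.le_ceil _
  have hmain := FF_mean (ε := g ^ 2) (η := g) (by positivity) hg q3 (hFF t' q2 y hyy) s z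
  rw [hts] at hmain
  set σ := √((t' : ℝ) / 2) with hσ
  have hσ0 : 0 < σ := Real.sqrt_pos.2 (by positivity)
  have v1 : √(t : ℝ) ≤ 2 * σ := by
    have e : 2 * σ = √(2 * t') := by
      have : 2 * (t' : ℝ) = 4 * (t' / 2) := by ring
      rw [this, Real.sqrt_mul (by norm_num), show (4 : ℝ) = 2 ^ 2 by norm_num, Real.sqrt_sq (by norm_num), hσ]
    rw [e]
    exact Real.sqrt_le_sqrt (by linarith)
  have v2 : √(t : ℝ) ≤ 2 * √(t' : ℝ) := by
    refine v1.trans ?_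
    have : σ ≤ √(t' : ℝ) := Real.sqrt_le_sqrt (by linarith)
    linarith
  have hst' : 0 < √(t' : ℝ) := Real.sqrt_pos.2 ht'0
  have hA0 : 0 ≤ (z.1 : ℝ) + acc zo s z := by
    have h1 := Pool.Agent.Q158.Pair.acc_nonneg Pool.Agent.Q158.Pair.zo_nonneg s z
    have h2 : (0 : ℝ) ≤ z.1 := Nat.cast_nonneg _
    linarith
  have hA : (z.1 : ℝ) + acc zo s z ≤ D := (cz_ge s z).trans hc
  -- the four errors
  have hi1 : 1 / σ ≤ 2 / √(t : ℝ) := by
    rw [div_le_div_iff₀ hσ0 hst]; linarith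
  have E1 : √(t : ℝ) * (g / σ * (z.1 + acc zo s z)) ≤ 2 * g * D := by
    have h1 : g / σ * (z.1 + acc zo s z) ≤ g * (2 / √(t : ℝ)) * D := by
      have : g / σ = g * (1 / σ) := by ring
      rw [this]
      exact mul_le_mul (mul_le_mul_of_nonneg_left hi1 hg.le) hA hA0 (by positivity)
    calc √(t : ℝ) * (g / σ * (z.1 + acc zo s z)) ≤ √(t : ℝ) * (g * (2 / √(t : ℝ)) * D) :=
          mul_le_mul_of_nonneg_left h1 hst.le
      _ = 2 * g * D := by field_simp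
  have hi3 : 1 / σ ^ 3 ≤ 8 / √(t : ℝ) ^ 3 := by
    have := pow_le_pow_left₀ (by positivity) v1 3
    rw [div_le_div_iff₀ (by positivity) (by positivity)]
    rw [mul_pow] at this
    linarith
  have hi3' : 1 / √(t' : ℝ) ^ 3 ≤ 8 / √(t : ℝ) ^ 3 := by
    have := pow_le_pow_left₀ (by positivity) v2 3
    rw [div_le_div_iff₀ (by positivity) (by positivity)]
    rw [mul_pow] at this
    linarith
  have E2 : √(t : ℝ) * ((1 / (g * σ ^ 3) + 1 / √(t' : ℝ) ^ 3) * av^[s] (fun z => (z.1 : ℝ) ^ 3) z) ≤ 80 * g * D := by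
    have h1 : 1 / (g * σ ^ 3) + 1 / √(t' : ℝ) ^ 3 ≤ 16 / g / √(t : ℝ) ^ 3 := by
      have e1 : 1 / (g * σ ^ 3) = 1 / g * (1 / σ ^ 3) := by field_simp
      have e2 : 16 / g / √(t : ℝ) ^ 3 = 1 / g * (8 / √(t : ℝ) ^ 3) + 1 / g * (8 / √(t : ℝ) ^ 3) := by
        field_simp
        ring
      have h2 : 1 ≤ 1 / g := by rw [le_div_iff₀ hg]; linarith
      have h3 : 0 < 8 / √(t : ℝ) ^ 3 := by positivity
      rw [e1, e2]
      have h4 := mul_le_mul_of_nonneg_left hi3 (by positivity : 0 ≤ 1 / g)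
      nlinarith
    have h2 : av^[s] (fun z => (z.1 : ℝ) ^ 3) z ≤ 5 * g ^ 2 * t * D := by
      refine (h3 s).trans ?_
      have : 3 * (s : ℝ) + 2 ≤ 5 * g ^ 2 * t := by linarith
      exact mul_le_mul_of_nonneg_right this (by linarith)
    have h3' : 0 ≤ av^[s] (fun z => (z.1 : ℝ) ^ 3) z := by
      have h := Pool.Agent.Q158.Pair.iter_mono s (f := fun _ => 0) (g := fun z : ℕ × ℤ => (z.1 : ℝ) ^ 3)
        (fun z => by positivity) z
      rw [iter_const] at h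
      exact h
    calc √(t : ℝ) * ((1 / (g * σ ^ 3) + 1 / √(t' : ℝ) ^ 3) * av^[s] (fun z => (z.1 : ℝ) ^ 3) z) ≤
          √(t : ℝ) * (16 / g / √(t : ℝ) ^ 3 * (5 * g ^ 2 * t * D)) := by
            apply mul_le_mul_of_nonneg_left _ hst.le
            exact mul_le_mul h1 h2 h3' (by positivity)
      _ = √(t : ℝ) * (16 / g / √(t : ℝ) ^ 3 * (5 * g ^ 2 * (√(t : ℝ) * √(t : ℝ)) * D)) := by rw [hss]
      _ = 80 * g * D := by field_simp; ring
  have E3 : √(t : ℝ) * (3 * g ^ 2 * surv s z) ≤ 5 * g * D := by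
    have h1 : g * √(t : ℝ) ≤ 3 / 2 * √(s : ℝ) := by
      have e : g * √(t : ℝ) = √(g ^ 2 * t) := by
        rw [Real.sqrt_mul (by positivity), Real.sqrt_sq hg.le]
      have e2 : 3 / 2 * √(s : ℝ) = √(9 / 4 * s) := by
        rw [Real.sqrt_mul (by norm_num), show (9 / 4 : ℝ) = (3 / 2) ^ 2 by norm_num, Real.sqrt_sq (by norm_num)]
      rw [e, e2]
      exact Real.sqrt_le_sqrt (by linarith)
    have hss0 : 0 < √(s : ℝ) := Real.sqrt_pos.2 (by linarith)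
    have h2 := hs s s5
    have h3 : surv s z * √(s : ℝ) ≤ D := by
      rwa [le_div_iff₀ hss0] at h2
    have h4 := surv_nonneg s z
    calc √(t : ℝ) * (3 * g ^ 2 * surv s z) = 3 * g * surv s z * (g * √(t : ℝ)) := by ring
      _ ≤ 3 * g * surv s z * (3 / 2 * √(s : ℝ)) := mul_le_mul_of_nonneg_left h1 (by positivity)
      _ = 9 / 2 * g * (surv s z * √(s : ℝ)) := by ring
      _ ≤ 9 / 2 * g * D := mul_le_mul_of_nonneg_left h3 (by positivity)
      _ ≤ 5 * g * D := by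
        have : 0 < g * D := by positivity
        nlinarith
  have E4 : √(t : ℝ) * (1 / Real.exp (δ * t' / 2) * av^[s] Pool.Agent.Q158.Pair.sq z) ≤ 1 * g * D := by
    have hE0 : 0 < Real.exp (δ * t' / 2) := Real.exp_pos _
    have h1 : √(t : ℝ) ≤ g * Real.exp (δ * t' / 2) := by
      have h2 : δ * t / 4 ≤ Real.exp (δ * t' / 2) := by
        have h3 := Real.add_one_le_exp (δ * t' / 2)
        have h4 : δ * t / 4 ≤ δ * t' / 2 := by
          have := mul_le_mul_of_nonneg_left q1 hδ.le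
          linarith
        linarith
      have h3 : √(t : ℝ) ≤ g * (δ * t / 4) := by
        rw [div_le_iff₀ (by positivity)] at r2
        have h4 : g * (δ * t / 4) = √(t : ℝ) * (√(t : ℝ) * (δ * g)) / 4 := by
          rw [← hss]
          have : √(√(t : ℝ) * √(t : ℝ)) = √(t : ℝ) := by rw [hss]
          rw [this]
          ring
        rw [h4]
        nlinarith
      exact h3.trans (mul_le_mul_of_nonneg_left h2 hg.le)
    have h5 := hq s
    calc √(t : ℝ) * (1 / Real.exp (δ * t' / 2) * av^[s] Pool.Agent.Q158.Pair.sq z) ≤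
          √(t : ℝ) * (1 / Real.exp (δ * t' / 2) * D) := by
            apply mul_le_mul_of_nonneg_left _ hst.le
            exact mul_le_mul_of_nonneg_left h5 (by positivity)
      _ = √(t : ℝ) / Real.exp (δ * t' / 2) * D := by ring
      _ ≤ g * D := by
        apply mul_le_mul_of_nonneg_right _ (by linarith)
        rw [div_le_iff₀ hE0]
        exact h1
      _ = 1 * g * D := by ring
  rw [← mul_sub, abs_mul, abs_of_pos hst]
  refine (mul_le_mul_of_nonneg_left hmain hst.le).trans ?_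
  rw [mul_add, mul_add, mul_add]
  have e1 : √(t : ℝ) * (3 * g ^ 2 * surv s z) = √(t : ℝ) * (3 * g ^ 2 * surv s z) := rfl
  nlinarith [E1, E2, E3, E4]

/-- the main term -/
theorem yag_main (z : ℕ × ℤ) {x g : ℝ} (hx : 0 ≤ x) (hg : 0 < g) (hg2 : g ≤ 1 / 2) :
    Tendsto (fun t : ℕ => √(t : ℝ) * (2 * phi (⌈x * √(t : ℝ)⌉₊ / √(((t - ⌊g ^ 2 * t⌋₊ : ℕ) : ℝ) / 2)) /
      √(((t - ⌊g ^ 2 * t⌋₊ : ℕ) : ℝ) / 2) * (z.1 + acc zo ⌊g ^ 2 * t⌋₊ z))) atTop (𝓝 (LL x (cz z) g)) := by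
  have hg22 : g ^ 2 ≤ 1 / 4 := by nlinarith
  have hsq : Tendsto (fun t : ℕ => √(t : ℝ)) atTop atTop := Real.tendsto_sqrt_atTop.comp tendsto_natCast_atTop_atTop
  have h1 : Tendsto (fun t : ℕ => (⌈x * √(t : ℝ)⌉₊ : ℝ) / √(t : ℝ)) atTop (𝓝 x) :=
    (tendsto_nat_ceil_mul_div_atTop hx).comp hsq
  have h2 : Tendsto (fun t : ℕ => ((⌊g ^ 2 * (t : ℝ)⌋₊ : ℕ) : ℝ) / (t : ℝ)) atTop (𝓝 (g ^ 2)) :=
    (tendsto_nat_floor_mul_div_atTop (by positivity)).comp tendsto_natCast_atTop_atTop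
  have h3 : Tendsto (fun t : ℕ => (((t - ⌊g ^ 2 * (t : ℝ)⌋₊ : ℕ) : ℝ)) / (t : ℝ)) atTop (𝓝 (1 - g ^ 2)) := by
    refine (h2.const_sub 1).congr' ?_
    filter_upwards [eventually_gt_atTop 0] with t ht
    have ht0 : (0 : ℝ) < t := by exact_mod_cast ht
    have hle : ⌊g ^ 2 * (t : ℝ)⌋₊ ≤ t := by
      have : ((⌊g ^ 2 * (t : ℝ)⌋₊ : ℕ) : ℝ) ≤ t := by
        refine (Nat.floor_le (by positivity)).trans ?_
        nlinarith
      exact_mod_cast this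
    rw [Nat.cast_sub hle]
    field_simp
  have h4 : Tendsto (fun t : ℕ => √((((t - ⌊g ^ 2 * (t : ℝ)⌋₊ : ℕ) : ℝ)) / (t : ℝ) / 2)) atTop (𝓝 √((1 - g ^ 2) / 2)) :=
    (Real.continuous_sqrt.tendsto _).comp (h3.div_const 2)
  have hne : √((1 - g ^ 2) / 2) ≠ 0 := by
    apply (Real.sqrt_pos.2 _).ne'
    linarith
  have h5 : Tendsto (fun t : ℕ => (z.1 : ℝ) + acc zo ⌊g ^ 2 * (t : ℝ)⌋₊ z) atTop (𝓝 (cz z)) := by
    refine (cz_lim z).comp ?_
    refine tendsto_nat_floor_atTop.comp ?_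
    exact Tendsto.const_mul_atTop (by positivity) tendsto_natCast_atTop_atTop
  have h6 : Tendsto (fun t : ℕ => phi ((⌈x * √(t : ℝ)⌉₊ : ℝ) / √(t : ℝ) /
      √((((t - ⌊g ^ 2 * (t : ℝ)⌋₊ : ℕ) : ℝ)) / (t : ℝ) / 2))) atTop (𝓝 (phi (x / √((1 - g ^ 2) / 2)))) :=
    (phi_cont.tendsto _).comp (h1.div h4 hne)
  have h7 := ((h6.const_mul 2).div h4 hne).mul h5
  refine h7.congr' ?_
  filter_upwards [eventually_gt_atTop 0] with t ht
  have ht0 : (0 : ℝ) < t := by exact_mod_cast ht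
  have hst : 0 < √(t : ℝ) := Real.sqrt_pos.2 ht0
  set u : ℝ := ((t - ⌊g ^ 2 * (t : ℝ)⌋₊ : ℕ) : ℝ) with hu
  have hu0 : 0 ≤ u := Nat.cast_nonneg _
  have e1 : √(u / (t : ℝ) / 2) = √(u / 2) / √(t : ℝ) := by
    rw [← Real.sqrt_div' _ ht0.le]
    congr 1
    ring
  simp only [Pi.div_apply, Pi.mul_apply]
  rw [e1]
  have e2 : (⌈x * √(t : ℝ)⌉₊ : ℝ) / √(t : ℝ) / (√(u / 2) / √(t : ℝ)) = (⌈x * √(t : ℝ)⌉₊ : ℝ) / √(u / 2) := by
    field_simp
  rw [e2]
  by_cases hz : √(u / 2) = 0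
  · rw [hz]
    simp
  · field_simp

/-- **Yaglom's theorem for the pair.** -/
theorem yaglom (z : ℕ × ℤ) {x : ℝ} (hx : 0 ≤ x) :
    Tendsto (fun t : ℕ => √(t : ℝ) * FF ⌈x * √(t : ℝ)⌉₊ t z) atTop
      (𝓝 (2 / √Real.pi * Real.exp (-x ^ 2) * cz z)) := by
  obtain ⟨D, hD1, hc, hs, hq, h3⟩ := exists_D z
  rw [Metric.tendsto_atTop]
  intro ε hε
  have hcont := LL_cont x (cz z)
  rw [Metric.continuousAt_iff] at hcont
  obtain ⟨δ, hδ, hcont⟩ := hcont (ε / 4) (by positivity)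
  set g := min (min (1 / 2) (δ / 2)) (ε / (4 * 88 * D)) with hg
  have hDp : 0 < D := by linarith
  have hg0 : 0 < g := by positivity
  have hg1 : g ≤ 1 / 2 := (min_le_left _ _).trans (min_le_left _ _)
  have hg2 : g ≤ δ / 2 := (min_le_left _ _).trans (min_le_right _ _)
  have hg3 : g ≤ ε / (4 * 88 * D) := min_le_right _ _
  have hLL := hcont (x := g) (by rw [Real.dist_eq, sub_zero, abs_of_pos hg0]; linarith)
  rw [LL_zero] at hLL
  have h1 := yag_err z hD1 hc hs hq h3 hx hg0 hg1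
  have h2 := (Metric.tendsto_atTop.1 (yag_main z hx hg0 hg1)) (ε / 4) (by positivity)
  obtain ⟨N₁, hN₁⟩ := eventually_atTop.1 h1
  obtain ⟨N₂, hN₂⟩ := h2
  refine ⟨max N₁ N₂, fun t ht => ?_⟩
  have a1 := hN₁ t (le_trans (le_max_left _ _) ht)
  have a2 := hN₂ t (le_trans (le_max_right _ _) ht)
  have a3 : 88 * g * D ≤ ε / 4 := by
    rw [le_div_iff₀ (by positivity)] at hg3
    linarith
  rw [Real.dist_eq] at a2 hLL ⊢
  rw [abs_lt] at a2 hLL ⊢
  rw [abs_le] at a1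
  constructor <;> linarith [a1.1, a1.2, a2.1, a2.2, hLL.1, hLL.2]

end Pool.Agent.Q74.AR
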