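import Pool.Agent.Q74.AR.Yag3

/-! # Project AR: the theorem of Yaglom's type for pairs of integers -/

set_option autoImplicit false

namespace Pool.Agent.Q74.AR

open Finset Filter Topology MeasureTheory ProbabilityTheory
open Pool.Agent.Q158.Pair (T step av surv zo surv_nonneg surv_le_one surv_iter acc Co Co_meet accident sum_block'
  sum_Ico_int surv_ge)

/-- sums of periodic functions over intervals -/
theorem count_per (t : ℕ) (g : ℤ → ℝ) (hg : ∀ x j : ℤ, g (x + 2 ^ t * j) = g x) (h0 : ∀ x, 0 ≤ g x) (h1 : ∀ x, g x ≤ 1)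
    (M : ℤ) (L : ℕ) : |∑ x ∈ Ico M (M + L), g x - (∑ i ∈ range (2 ^ t), g i) / 2 ^ t * L| ≤ 2 ^ t := by
  rw [sum_Ico_int]
  have hp : 0 < 2 ^ t := by positivity
  have hg' : ∀ x j : ℤ, g (x + ((2 ^ t : ℕ) : ℤ) * j) = g x := by
    intro x j
    have e : ((2 ^ t : ℕ) : ℤ) = 2 ^ t := by push_cast; rfl
    rw [e, hg]
  set S := ∑ i ∈ range (2 ^ t), g i with hS
  have hS0 : 0 ≤ S := sum_nonneg fun i _ => h0 _
  have hS1 : S ≤ 2 ^ t := by
    refine (sum_le_card_nsmul _ _ 1 fun i _ => h1 _).trans ?_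
    rw [card_range, nsmul_eq_mul, mul_one]
    push_cast
    exact le_rfl
  have hb : ∀ k : ℕ, ∑ i ∈ range (k * 2 ^ t), g (M + i) = k * S := by
    intro k
    have := sum_block' (2 ^ t) hp g hg' 1 isCoprime_one_left k M
    rw [← this]
    apply sum_congr rfl
    intro i _
    congr 1
    ring
  have h2 : L ≤ (L / 2 ^ t + 1) * 2 ^ t := by
    rw [mul_comm]; exact (Nat.lt_mul_div_succ L (by positivity)).le
  have h3 : (L / 2 ^ t) * 2 ^ t ≤ L := Nat.div_mul_le_self L (2 ^ t)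
  have h4 : ∑ i ∈ range L, g (M + i) ≤ ∑ i ∈ range ((L / 2 ^ t + 1) * 2 ^ t), g (M + i) :=
    sum_le_sum_of_subset_of_nonneg (range_mono h2) (fun _ _ _ => h0 _)
  have h5 : ∑ i ∈ range ((L / 2 ^ t) * 2 ^ t), g (M + i) ≤ ∑ i ∈ range L, g (M + i) :=
    sum_le_sum_of_subset_of_nonneg (range_mono h3) (fun _ _ _ => h0 _)
  rw [hb] at h4 h5
  have h6 : ((L / 2 ^ t : ℕ) : ℝ) * 2 ^ t ≤ L := by exact_mod_cast h3
  have h7 : (L : ℝ) ≤ (((L / 2 ^ t : ℕ) : ℝ) + 1) * 2 ^ t := by exact_mod_cast h2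
  have h8 : (0 : ℝ) < 2 ^ t := by positivity
  have h9 : S / 2 ^ t * L ≤ S / 2 ^ t * ((((L / 2 ^ t : ℕ) : ℝ) + 1) * 2 ^ t) :=
    mul_le_mul_of_nonneg_left h7 (by positivity)
  have h10 : S / 2 ^ t * (((L / 2 ^ t : ℕ) : ℝ) * 2 ^ t) ≤ S / 2 ^ t * L :=
    mul_le_mul_of_nonneg_left h6 (by positivity)
  have e1 : S / 2 ^ t * ((((L / 2 ^ t : ℕ) : ℝ) + 1) * 2 ^ t) = (((L / 2 ^ t : ℕ) : ℝ) + 1) * S := by field_simp
  have e2 : S / 2 ^ t * (((L / 2 ^ t : ℕ) : ℝ) * 2 ^ t) = ((L / 2 ^ t : ℕ) : ℝ) * S := by field_simp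
  rw [e1] at h9
  rw [e2] at h10
  push_cast at h4
  rw [abs_le]
  constructor <;> nlinarith

theorem ph_ps_per (y t : ℕ) (z : ℕ × ℤ) (x j : ℤ) : ph y (ps t z (x + 2 ^ t * j)) = ph y (ps t z x) := by
  rw [ps_per]

theorem ph_one (y : ℕ) (z : ℕ × ℤ) : ph y z ≤ 1 := (ph_le y z).trans (surv_le_one 0 z)

open Classical in
theorem ph_eq (y : ℕ) (z : ℕ × ℤ) : ph y z = if z ≠ (0, 0) ∧ y ≤ z.1 then 1 else 0 := by
  unfold ph ind
  rcases surv0_cases z with ⟨h0, h⟩ | ⟨h0, h⟩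
  · rw [h, h0]; simp
  · rw [h, one_mul]
    simp [h0]

/-- the level in terms of the numbers of odd terms -/
theorem lev_abs (t : ℕ) (z : ℕ × ℤ) (x : ℤ) :
    ((ps t z x).1 : ℤ) = |(z.1 : ℤ) + oc t (3 ^ z.1 * x + z.2) - oc t x| := by
  rcases ps_pair t z x with ⟨_, _, h⟩ | ⟨_, _, h⟩
  · rw [← h, abs_of_nonneg (by omega)]
  · rw [← abs_neg, ← h, abs_of_nonneg (by omega)]

/-- the number of the integers of an interval whose pair has not met and has level at least `y` -/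
theorem lev_count (y t : ℕ) (z : ℕ × ℤ) (M : ℤ) (L : ℕ) :
    |({x : ℤ | M ≤ x ∧ x < M + L ∧ T^[t] x ≠ T^[t] (3 ^ z.1 * x + z.2) ∧
      (y : ℤ) ≤ |(z.1 : ℤ) + oc t (3 ^ z.1 * x + z.2) - oc t x|}.ncard : ℝ) - FF y t z * L| ≤ 2 * 2 ^ t := by
  classical
  rw [Pool.Agent.Q158.Pair.ncard_eq (fun x => T^[t] x ≠ T^[t] (3 ^ z.1 * x + z.2) ∧
      (y : ℤ) ≤ |(z.1 : ℤ) + oc t (3 ^ z.1 * x + z.2) - oc t x|)]
  have h1 := count_per t (fun x => ph y (ps t z x)) (ph_ps_per y t z) (fun x => ph_nonneg y _)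
    (fun x => ph_one y _) M L
  rw [sum_ps (ph y) t z] at h1
  have e0 : (2 : ℝ) ^ t * av^[t] (ph y) z / 2 ^ t = FF y t z := by
    unfold FF
    field_simp
  rw [e0] at h1
  have e1 : ∑ x ∈ Ico M (M + L), ph y (ps t z x) =
      (((Ico M (M + L)).filter (fun x => ps t z x ≠ (0, 0) ∧ y ≤ (ps t z x).1)).card : ℝ) := by
    rw [card_filter]
    push_cast
    apply sum_congr rfl
    intro x _
    rw [ph_eq]
  rw [e1] at h1
  have h2 := accident_count t z 1 0 (by norm_num) M L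
  simp only [one_mul, add_zero] at h2
  have hlev : ∀ x : ℤ, (y : ℤ) ≤ |(z.1 : ℤ) + oc t (3 ^ z.1 * x + z.2) - oc t x| ↔ y ≤ (ps t z x).1 := by
    intro x
    rw [← lev_abs]
    omega
  have h3 : ((Ico M (M + L)).filter (fun x => T^[t] x ≠ T^[t] (3 ^ z.1 * x + z.2) ∧
      (y : ℤ) ≤ |(z.1 : ℤ) + oc t (3 ^ z.1 * x + z.2) - oc t x|)).card ≤
      ((Ico M (M + L)).filter (fun x => ps t z x ≠ (0, 0) ∧ y ≤ (ps t z x).1)).card := by
    apply card_le_card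
    intro x hx
    rw [mem_filter] at hx ⊢
    refine ⟨hx.1, fun hc => hx.2.1 ?_, (hlev x).1 hx.2.2⟩
    exact Co_meet t z x ((Co_iff t z x).2 hc)
  have h4 : ((Ico M (M + L)).filter (fun x => ps t z x ≠ (0, 0) ∧ y ≤ (ps t z x).1)).card ≤
      ((Ico M (M + L)).filter (fun x => T^[t] x ≠ T^[t] (3 ^ z.1 * x + z.2) ∧
      (y : ℤ) ≤ |(z.1 : ℤ) + oc t (3 ^ z.1 * x + z.2) - oc t x|)).card + 2 ^ t := by
    have h5 : (Ico M (M + L)).filter (fun x => ps t z x ≠ (0, 0) ∧ y ≤ (ps t z x).1) ⊆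
        (Ico M (M + L)).filter (fun x => T^[t] x ≠ T^[t] (3 ^ z.1 * x + z.2) ∧
        (y : ℤ) ≤ |(z.1 : ℤ) + oc t (3 ^ z.1 * x + z.2) - oc t x|) ∪
        (Ico M (M + L)).filter (fun x => ¬ Co t z x ∧ T^[t] x = T^[t] (3 ^ z.1 * x + z.2)) := by
      intro x hx
      rw [mem_filter] at hx
      rw [mem_union, mem_filter, mem_filter]
      by_cases h : T^[t] x = T^[t] (3 ^ z.1 * x + z.2)
      · right; exact ⟨hx.1, fun hc => hx.2.1 ((Co_iff t z x).1 hc), h⟩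
      · left; exact ⟨hx.1, h, (hlev x).2 hx.2.2⟩
    exact (card_le_card h5).trans ((card_union_le _ _).trans (Nat.add_le_add_left h2 _))
  have h3' : (((Ico M (M + L)).filter (fun x => T^[t] x ≠ T^[t] (3 ^ z.1 * x + z.2) ∧
      (y : ℤ) ≤ |(z.1 : ℤ) + oc t (3 ^ z.1 * x + z.2) - oc t x|)).card : ℝ) ≤
      (((Ico M (M + L)).filter (fun x => ps t z x ≠ (0, 0) ∧ y ≤ (ps t z x).1)).card : ℝ) := by exact_mod_cast h3
  have h4' : (((Ico M (M + L)).filter (fun x => ps t z x ≠ (0, 0) ∧ y ≤ (ps t z x).1)).card : ℝ) ≤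
      (((Ico M (M + L)).filter (fun x => T^[t] x ≠ T^[t] (3 ^ z.1 * x + z.2) ∧
      (y : ℤ) ≤ |(z.1 : ℤ) + oc t (3 ^ z.1 * x + z.2) - oc t x|)).card : ℝ) + 2 ^ t := by exact_mod_cast h4
  rw [abs_le] at h1 ⊢
  constructor <;> linarith [h1.1, h1.2]

/-- the terms of the constant -/
theorem zo_term (j : ℕ) (z : ℕ × ℤ) : av^[j] zo z =
    (((range (2 ^ j)).filter (fun n : ℕ => oc j (n : ℤ) = z.1 + oc j (3 ^ z.1 * (n : ℤ) + z.2) ∧
      (T^[j] (n : ℤ) + T^[j] (3 ^ z.1 * (n : ℤ) + z.2)) % 2 = 1)).card : ℝ) / 2 ^ j := by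
  rw [eq_div_iff (by positivity), mul_comm, ← sum_ps zo j z, card_filter]
  push_cast
  apply sum_congr rfl
  intro n _
  unfold zo
  have key : ((ps j z n).1 = 0 ∧ (ps j z n).2 % 2 = 1) ↔ (oc j (n : ℤ) = z.1 + oc j (3 ^ z.1 * (n : ℤ) + z.2) ∧
      (T^[j] (n : ℤ) + T^[j] (3 ^ z.1 * (n : ℤ) + z.2)) % 2 = 1) := by
    rcases ps_pair j z n with ⟨h1, h2, h3⟩ | ⟨h1, h2, h3⟩
    · constructor
      · rintro ⟨g1, g2⟩
        rw [g1, pow_zero, one_mul, h1] at h2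
        exact ⟨by omega, by omega⟩
      · rintro ⟨g1, g2⟩
        have g3 : (ps j z n).1 = 0 := by omega
        rw [g3, pow_zero, one_mul, h1] at h2
        exact ⟨g3, by omega⟩
    · constructor
      · rintro ⟨g1, g2⟩
        rw [g1, pow_zero, one_mul, h1] at h2
        exact ⟨by omega, by omega⟩
      · rintro ⟨g1, g2⟩
        have g3 : (ps j z n).1 = 0 := by omega
        rw [g3, pow_zero, one_mul, h1] at h2
        exact ⟨g3, by omega⟩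
  by_cases hk : (ps j z n).1 = 0 ∧ (ps j z n).2 % 2 = 1
  · rw [if_pos hk, if_pos (key.1 hk)]
  · rw [if_neg hk, if_neg (fun h => hk (key.2 h))]

theorem cz_pos {z : ℕ × ℤ} (hz : z ≠ (0, 0)) : 0 < cz z := by
  have h1 := yaglom z (x := 0) le_rfl
  have h2 : ∀ᶠ t : ℕ in atTop, (1 : ℝ) / 16 ≤ √(t : ℝ) * FF ⌈0 * √(t : ℝ)⌉₊ t z := by
    filter_upwards [eventually_ge_atTop ((1 + z.1) ^ 2)] with t ht
    have ht1 : 1 ≤ t := le_trans (by positivity : 0 < (1 + z.1) ^ 2) ht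
    have h3 := surv_ge t ht1 z hz
    rw [zero_mul, Nat.ceil_zero, FF_zero]
    have hst : 0 < √(t : ℝ) := Real.sqrt_pos.2 (by exact_mod_cast ht1)
    have h4 : (1 : ℝ) + z.1 ≤ √(t : ℝ) := by
      apply Real.le_sqrt_of_sq_le
      exact_mod_cast ht
    have h5 : min 1 ((1 + (z.1 : ℝ)) / √(t : ℝ)) = (1 + z.1) / √(t : ℝ) := by
      apply min_eq_right
      rw [div_le_one hst]
      exact h4
    rw [h5] at h3
    have h6 := mul_le_mul_of_nonneg_left h3 hst.le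
    have h7 : √(t : ℝ) * (1 / 16 * ((1 + z.1) / √(t : ℝ))) = (1 + z.1) / 16 := by field_simp
    rw [h7] at h6
    have : (0 : ℝ) ≤ z.1 := Nat.cast_nonneg _
    linarith
  have h3 := ge_of_tendsto h1 h2
  by_contra hcon
  push Not at hcon
  have h4 : 2 / √Real.pi * Real.exp (-(0 : ℝ) ^ 2) * cz z ≤ 0 :=
    mul_nonpos_of_nonneg_of_nonpos (by positivity) hcon
  linarith

end Pool.Agent.Q74.AR
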