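import Pool.Agent.Q74.AR.YagFin

/-! # Project AR: the theorem of Yaglom's type for pairs of integers: final form -/

set_option autoImplicit false

namespace Pool.Agent.Q74.AR

open Finset Filter Topology MeasureTheory ProbabilityTheory
open Pool.Agent.Q158.Pair (T step av surv zo surv_nonneg surv_le_one surv_iter acc Co Co_meet accident sum_block'
  sum_Ico_int surv_ge)

/-- the number of the integers of an interval whose pair has not met and has level at least `x √t` -/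
noncomputable def nlev (t : ℕ) (a : ℕ) (b : ℤ) (x : ℝ) (M : ℤ) (L : ℕ) : ℕ :=
  {n : ℤ | M ≤ n ∧ n < M + L ∧ T^[t] n ≠ T^[t] (3 ^ a * n + b) ∧
    x * √(t : ℝ) ≤ |(a : ℝ) + oc t (3 ^ a * n + b) - oc t n|}.ncard

theorem nlev_eq {x : ℝ} (hx : 0 ≤ x) (t : ℕ) (a : ℕ) (b : ℤ) (M : ℤ) (L : ℕ) : nlev t a b x M L =
    {n : ℤ | M ≤ n ∧ n < M + L ∧ T^[t] n ≠ T^[t] (3 ^ a * n + b) ∧
      ((⌈x * √(t : ℝ)⌉₊ : ℕ) : ℤ) ≤ |(a : ℤ) + oc t (3 ^ a * n + b) - oc t n|}.ncard := by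
  unfold nlev
  congr 1
  ext n
  simp only [Set.mem_setOf_eq]
  have h : (x * √(t : ℝ) ≤ |(a : ℝ) + oc t (3 ^ a * n + b) - oc t n|) ↔
      ((⌈x * √(t : ℝ)⌉₊ : ℕ) : ℤ) ≤ |(a : ℤ) + oc t (3 ^ a * n + b) - oc t n| := by
    have e1 : |(a : ℝ) + oc t (3 ^ a * n + b) - oc t n| =
        ((|(a : ℤ) + oc t (3 ^ a * n + b) - oc t n|.toNat : ℕ) : ℝ) := by
      have h0 : ((|(a : ℤ) + oc t (3 ^ a * n + b) - oc t n|.toNat : ℕ) : ℤ) =
          |(a : ℤ) + oc t (3 ^ a * n + b) - oc t n| := Int.toNat_of_nonneg (abs_nonneg _)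
      have h1 : (((|(a : ℤ) + oc t (3 ^ a * n + b) - oc t n|.toNat : ℕ) : ℤ) : ℝ) =
          ((|(a : ℤ) + oc t (3 ^ a * n + b) - oc t n| : ℤ) : ℝ) := by rw [h0]
      push_cast at h1
      rw [h1]
    rw [e1, ← Nat.ceil_le]
    constructor
    · intro h2
      have h3 : ((⌈x * √(t : ℝ)⌉₊ : ℕ) : ℤ) ≤ ((|(a : ℤ) + oc t (3 ^ a * n + b) - oc t n|.toNat : ℕ) : ℤ) := by
        exact_mod_cast h2
      rwa [Int.toNat_of_nonneg (abs_nonneg _)] at h3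
    · intro h2
      omega
  rw [h]

/-- **Yaglom's theorem for the pair, in intervals.** -/
theorem yag_count (a : ℕ) (b : ℤ) {x ε : ℝ} (hx : 0 ≤ x) (hε : 0 < ε) : ∃ t₀ : ℕ, 1 ≤ t₀ ∧ ∀ t L : ℕ, t₀ ≤ t →
    t * 2 ^ t ≤ L → ∀ M : ℤ,
      |√(t : ℝ) * nlev t a b x M L / L - 2 / √Real.pi * Real.exp (-x ^ 2) * cz (a, b)| ≤ ε := by
  have h1 := yaglom (a, b) hx
  rw [Metric.tendsto_atTop] at h1
  obtain ⟨t₁, h1⟩ := h1 (ε / 2) (by positivity)
  obtain ⟨t₂, h2⟩ := exists_nat_gt ((4 / ε) ^ 2)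
  refine ⟨max 1 (max t₁ t₂), le_max_left _ _, fun t L ht hL M => ?_⟩
  have ht0 : 1 ≤ t := le_trans (le_max_left _ _) ht
  have ht1 : t₁ ≤ t := le_trans (le_trans (le_max_left _ _) (le_max_right _ _)) ht
  have ht2 : t₂ ≤ t := le_trans (le_trans (le_max_right _ _) (le_max_right _ _)) ht
  have h3 := h1 t ht1
  rw [Real.dist_eq] at h3
  have h4 := lev_count ⌈x * √(t : ℝ)⌉₊ t (a, b) M L
  simp only at h4
  rw [← nlev_eq hx t a b M L] at h4
  have htr : (1 : ℝ) ≤ t := by exact_mod_cast ht0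
  have hst : 0 < √(t : ℝ) := Real.sqrt_pos.2 (by linarith)
  have hs2 : √(t : ℝ) * √(t : ℝ) = t := Real.mul_self_sqrt (by linarith)
  have hLr : (t : ℝ) * 2 ^ t ≤ L := by exact_mod_cast hL
  have hp : (0 : ℝ) < 2 ^ t := by positivity
  have hL0 : (0 : ℝ) < L := lt_of_lt_of_le (by positivity) hLr
  have h5 : 4 / ε ≤ √(t : ℝ) := by
    apply Real.le_sqrt_of_sq_le
    have : (t₂ : ℝ) ≤ t := by exact_mod_cast ht2
    linarith
  have h6 : √(t : ℝ) * (2 * 2 ^ t) ≤ ε / 2 * L := by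
    have h7 : 4 ≤ ε * √(t : ℝ) := by
      rw [div_le_iff₀ hε] at h5
      linarith
    calc √(t : ℝ) * (2 * 2 ^ t) = 4 * (√(t : ℝ) * 2 ^ t) / 2 := by ring
      _ ≤ (ε * √(t : ℝ)) * (√(t : ℝ) * 2 ^ t) / 2 := by
          have := mul_le_mul_of_nonneg_right h7 (by positivity : 0 ≤ √(t : ℝ) * 2 ^ t)
          linarith
      _ = ε / 2 * ((√(t : ℝ) * √(t : ℝ)) * 2 ^ t) := by ring
      _ = ε / 2 * (t * 2 ^ t) := by rw [hs2]
      _ ≤ ε / 2 * L := mul_le_mul_of_nonneg_left hLr (by positivity)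
  have h7 : |√(t : ℝ) * nlev t a b x M L / L - √(t : ℝ) * FF ⌈x * √(t : ℝ)⌉₊ t (a, b)| ≤ ε / 2 := by
    have e : √(t : ℝ) * nlev t a b x M L / L - √(t : ℝ) * FF ⌈x * √(t : ℝ)⌉₊ t (a, b) =
        √(t : ℝ) * ((nlev t a b x M L : ℝ) - FF ⌈x * √(t : ℝ)⌉₊ t (a, b) * L) / L := by
      field_simp
    rw [e, abs_div, abs_mul, abs_of_pos hst, abs_of_pos hL0, div_le_iff₀ hL0]
    exact (mul_le_mul_of_nonneg_left h4 hst.le).trans h6
  rw [abs_le] at h7 ⊢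
  rw [abs_lt] at h3
  constructor <;> linarith [h7.1, h7.2, h3.1, h3.2]

theorem nlev_zero (t : ℕ) (a : ℕ) (b : ℤ) (M : ℤ) (L : ℕ) : nlev t a b 0 M L =
    {n : ℤ | M ≤ n ∧ n < M + L ∧ T^[t] n ≠ T^[t] (3 ^ a * n + b)}.ncard := by
  unfold nlev
  congr 1
  ext n
  simp only [Set.mem_setOf_eq, zero_mul, abs_nonneg, and_true]

/-- the limit law of the level given that the pair has not met -/
theorem ray_count (a : ℕ) (b : ℤ) (hz : (a, b) ≠ (0, 0)) {x ε : ℝ} (hx : 0 ≤ x) (hε : 0 < ε) :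
    ∃ t₀ : ℕ, 1 ≤ t₀ ∧ ∀ t L : ℕ, t₀ ≤ t → t * 2 ^ t ≤ L → ∀ M : ℤ,
      |(nlev t a b x M L : ℝ) / nlev t a b 0 M L - Real.exp (-x ^ 2)| ≤ ε := by
  have hc := cz_pos hz
  set c := 2 / √Real.pi * cz (a, b) with hcdef
  have hc0 : 0 < c := by
    rw [hcdef]
    exact mul_pos (by positivity) hc
  set δ := min (c / 2) (ε * c / 4) with hδ
  have hδ0 : 0 < δ := lt_min (by positivity) (by positivity)
  obtain ⟨t₁, ht1, h1⟩ := yag_count a b hx hδ0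
  obtain ⟨t₂, ht2, h2⟩ := yag_count a b (le_refl (0 : ℝ)) hδ0
  refine ⟨max t₁ t₂, le_trans ht1 (le_max_left _ _), fun t L ht hL M => ?_⟩
  have h3 := h1 t L (le_trans (le_max_left _ _) ht) hL M
  have h4 := h2 t L (le_trans (le_max_right _ _) ht) hL M
  have htr : (1 : ℝ) ≤ t := by exact_mod_cast (le_trans (le_trans ht1 (le_max_left _ _)) ht)
  have hst : 0 < √(t : ℝ) := Real.sqrt_pos.2 (by linarith)
  have hLr : (t : ℝ) * 2 ^ t ≤ L := by exact_mod_cast hL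
  have hL0 : (0 : ℝ) < L := lt_of_lt_of_le (by positivity) hLr
  set A := √(t : ℝ) * nlev t a b x M L / L with hA
  set B := √(t : ℝ) * nlev t a b 0 M L / L with hB
  have e0 : Real.exp (-(0 : ℝ) ^ 2) = 1 := by simp
  have e1 : 2 / √Real.pi * Real.exp (-x ^ 2) * cz (a, b) = Real.exp (-x ^ 2) * c := by rw [hcdef]; ring
  have e2 : 2 / √Real.pi * Real.exp (-(0 : ℝ) ^ 2) * cz (a, b) = c := by rw [e0, hcdef]; ring
  rw [e1, abs_le] at h3
  rw [e2, abs_le] at h4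
  have hB0 : c / 2 ≤ B := by
    have : δ ≤ c / 2 := min_le_left _ _
    linarith [h4.1]
  have hn0 : (nlev t a b 0 M L : ℝ) ≠ 0 := by
    intro h
    rw [hB, h] at hB0
    simp at hB0
    linarith
  have e3 : (nlev t a b x M L : ℝ) / nlev t a b 0 M L = A / B := by
    rw [hA, hB]
    field_simp
  have hx1 : Real.exp (-x ^ 2) ≤ 1 := Real.exp_le_one_iff.2 (by nlinarith [sq_nonneg x])
  have hx0 : 0 < Real.exp (-x ^ 2) := Real.exp_pos _
  have hBp : 0 < B := by linarith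
  have hδ2 : δ ≤ ε * c / 4 := min_le_right _ _
  rw [e3]
  have e4 : A / B - Real.exp (-x ^ 2) = (A - Real.exp (-x ^ 2) * B) / B := by field_simp
  rw [e4, abs_div, abs_of_pos hBp, div_le_iff₀ hBp]
  have h5 : ε * (c / 2) ≤ ε * B := mul_le_mul_of_nonneg_left hB0 hε.le
  have h6 : |Real.exp (-x ^ 2) * (B - c)| ≤ δ := by
    rw [abs_mul, abs_of_pos hx0]
    have : |B - c| ≤ δ := abs_le.2 ⟨by linarith [h4.1], by linarith [h4.2]⟩
    calc Real.exp (-x ^ 2) * |B - c| ≤ 1 * δ := mul_le_mul hx1 this (abs_nonneg _) (by norm_num)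
      _ = δ := one_mul _
  rw [abs_le] at h6 ⊢
  constructor <;> nlinarith [h3.1, h3.2, h6.1, h6.2]

/-- the largest `t` with `t 2^t ≤ L` -/
theorem exists_t (t₀ : ℕ) {L : ℕ} (h : t₀ * 2 ^ t₀ ≤ L) (h0 : 1 ≤ t₀) :
    ∃ t : ℕ, t₀ ≤ t ∧ t * 2 ^ t ≤ L ∧ L < (t + 1) * 2 ^ (t + 1) := by
  classical
  have hb : ∀ t : ℕ, t * 2 ^ t ≤ L → t ≤ L := fun t ht =>
    le_trans (Nat.le_mul_of_pos_right t (by positivity)) ht
  refine ⟨Nat.findGreatest (fun t => t * 2 ^ t ≤ L) L, Nat.le_findGreatest (hb _ h) h,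
    Nat.findGreatest_spec (P := fun t => t * 2 ^ t ≤ L) (hb _ h) h, ?_⟩
  by_contra hcon
  push Not at hcon
  have := Nat.le_findGreatest (P := fun t => t * 2 ^ t ≤ L) (hb _ hcon) hcon
  omega

/-- **The exact constant for invariant sets.** -/
theorem inv_count (a : ℕ) (b : ℤ) {ε : ℝ} (hε : 0 < ε) : ∃ L₀ : ℕ, ∀ S : Set ℤ, (∀ x, T x ∈ S ↔ x ∈ S) →
    ∀ L : ℕ, L₀ ≤ L → ∀ M : ℤ,
      √(Real.log L / Real.log 2) * {n : ℤ | M ≤ n ∧ n < M + L ∧ ¬ (n ∈ S ↔ 3 ^ a * n + b ∈ S)}.ncard / L ≤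
        2 / √Real.pi * cz (a, b) + ε := by
  set c := 2 / √Real.pi * cz (a, b) with hcdef
  have hc0 : 0 ≤ c := mul_nonneg (by positivity) (cz_nonneg _)
  obtain ⟨t₁, ht1, h1⟩ := yag_count a b (le_refl (0 : ℝ)) (show 0 < ε / 2 by positivity)
  -- `δ` with `(1 + δ) (c + ε / 2) ≤ c + ε`
  set δ := ε / 2 / (c + ε) with hδ
  have hδ0 : 0 < δ := by positivity
  -- `log₂ (t + 1) + 1 ≤ δ t` for large `t`
  have hlim : ∃ t₂ : ℕ, ∀ t : ℕ, t₂ ≤ t → (t : ℝ) + 1 + Real.log (t + 1) / Real.log 2 ≤ (1 + δ) ^ 2 * t := by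
    have hl2 : 0 < Real.log 2 := Real.log_pos (by norm_num)
    have hlo : (fun x : ℝ => Real.log x) =o[atTop] (fun x : ℝ => x) := Real.isLittleO_log_id_atTop
    have h := hlo.def (show 0 < δ * Real.log 2 / 2 by positivity)
    rw [eventually_atTop] at h
    obtain ⟨X, hX⟩ := h
    obtain ⟨t₂, ht2⟩ := exists_nat_gt (max X (max 1 (3 / δ)))
    refine ⟨t₂, fun t ht => ?_⟩
    have h3 : (t₂ : ℝ) ≤ t := by exact_mod_cast ht
    have hX' : X ≤ (t : ℝ) + 1 := by linarith [le_max_left X (max 1 (3 / δ))]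
    have h4 : 3 / δ ≤ t := by linarith [le_trans (le_max_right 1 (3 / δ)) (le_max_right X (max 1 (3 / δ)))]
    have h5 : 3 ≤ δ * t := by rw [div_le_iff₀ hδ0] at h4; linarith
    have h6 : (1 : ℝ) ≤ t := by linarith [le_trans (le_max_left 1 (3 / δ)) (le_max_right X (max 1 (3 / δ)))]
    have h7 := hX ((t : ℝ) + 1) hX'
    rw [Real.norm_eq_abs, Real.norm_eq_abs, abs_of_pos (by linarith : (0 : ℝ) < t + 1)] at h7
    have h8 := (le_abs_self _).trans h7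
    have h9 : Real.log (t + 1) / Real.log 2 ≤ δ / 2 * (t + 1) := by
      rw [div_le_iff₀ hl2]
      linarith
    have h10 : δ / 2 * (t + 1) ≤ δ * t := by nlinarith
    nlinarith [sq_nonneg δ]
  obtain ⟨t₂, h2⟩ := hlim
  set t₀ := max t₁ (max t₂ 1) with ht0
  refine ⟨t₀ * 2 ^ t₀, fun S hS L hL M => ?_⟩
  obtain ⟨t, ht, hLt, hLt'⟩ := exists_t t₀ hL (le_trans (le_max_right _ _) (le_max_right _ _))
  have h3 := h1 t L (le_trans (le_max_left _ _) ht) hLt M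
  rw [nlev_zero] at h3
  have h4 := h2 t (le_trans (le_trans (le_max_left _ _) (le_max_right _ _)) ht)
  have ht1' : 1 ≤ t := le_trans (le_trans (le_max_right _ _) (le_max_right _ _)) ht
  have htr : (1 : ℝ) ≤ t := by exact_mod_cast ht1'
  have hst : 0 < √(t : ℝ) := Real.sqrt_pos.2 (by linarith)
  have hLr : (t : ℝ) * 2 ^ t ≤ L := by exact_mod_cast hLt
  have hL0 : (0 : ℝ) < L := lt_of_lt_of_le (by positivity) hLr
  have hl2 : 0 < Real.log 2 := Real.log_pos (by norm_num)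
  -- the set of separated points
  have hsub : {n : ℤ | M ≤ n ∧ n < M + L ∧ ¬ (n ∈ S ↔ 3 ^ a * n + b ∈ S)} ⊆
      {n : ℤ | M ≤ n ∧ n < M + L ∧ T^[t] n ≠ T^[t] (3 ^ a * n + b)} := by
    rintro n ⟨g1, g2, g3⟩
    refine ⟨g1, g2, fun g4 => g3 ?_⟩
    have hit : ∀ (k : ℕ) (y : ℤ), T^[k] y ∈ S ↔ y ∈ S := by
      intro k
      induction k with
      | zero => intro y; rfl
      | succ k ih => intro y; rw [Function.iterate_succ_apply, ih, hS]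
    rw [← hit t n, g4, hit]
  have hfin : {n : ℤ | M ≤ n ∧ n < M + L ∧ T^[t] n ≠ T^[t] (3 ^ a * n + b)}.Finite :=
    (Set.finite_Ico M (M + L)).subset fun n hn => ⟨hn.1, hn.2.1⟩
  have h5 := Set.ncard_le_ncard hsub hfin
  have h5' : ({n : ℤ | M ≤ n ∧ n < M + L ∧ ¬ (n ∈ S ↔ 3 ^ a * n + b ∈ S)}.ncard : ℝ) ≤
      ({n : ℤ | M ≤ n ∧ n < M + L ∧ T^[t] n ≠ T^[t] (3 ^ a * n + b)}.ncard : ℝ) := by exact_mod_cast h5
  set P := ({n : ℤ | M ≤ n ∧ n < M + L ∧ ¬ (n ∈ S ↔ 3 ^ a * n + b ∈ S)}.ncard : ℝ) with hP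
  set Q := ({n : ℤ | M ≤ n ∧ n < M + L ∧ T^[t] n ≠ T^[t] (3 ^ a * n + b)}.ncard : ℝ) with hQ
  have e0 : Real.exp (-(0 : ℝ) ^ 2) = 1 := by simp
  have e2 : 2 / √Real.pi * Real.exp (-(0 : ℝ) ^ 2) * cz (a, b) = c := by rw [e0, hcdef]; ring
  rw [e2, abs_le] at h3
  -- `√(log₂ L) ≤ (1 + δ) √t`
  have h6 : √(Real.log L / Real.log 2) ≤ (1 + δ) * √(t : ℝ) := by
    have e3 : (1 + δ) * √(t : ℝ) = √((1 + δ) ^ 2 * t) := by
      rw [Real.sqrt_mul (by positivity), Real.sqrt_sq (by positivity)]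
    rw [e3]
    apply Real.sqrt_le_sqrt
    refine le_trans ?_ h4
    rw [div_le_iff₀ hl2]
    have h7 : (L : ℝ) ≤ (t + 1) * 2 ^ (t + 1) := by exact_mod_cast hLt'.le
    have h8 := Real.log_le_log hL0 h7
    rw [Real.log_mul (by positivity) (by positivity), Real.log_pow] at h8
    refine h8.trans (le_of_eq ?_)
    push_cast
    field_simp
    ring
  have h7 : √(Real.log L / Real.log 2) * P / L ≤ (1 + δ) * (√(t : ℝ) * Q / L) := by
    rw [← mul_div_assoc, div_le_div_iff_of_pos_right hL0, ← mul_assoc]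
    exact mul_le_mul h6 h5' (Nat.cast_nonneg _) (by positivity)
  have h8 : (1 + δ) * (√(t : ℝ) * Q / L) ≤ (1 + δ) * (c + ε / 2) :=
    mul_le_mul_of_nonneg_left (by linarith [h3.2]) (by positivity)
  have h9 : δ * (c + ε / 2) ≤ ε / 2 := by
    have h10 : δ * (c + ε) = ε / 2 := by rw [hδ]; field_simp
    nlinarith
  linarith

end Pool.Agent.Q74.AR
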